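import Mathlib

set_option autoImplicit false
set_option linter.unusedSectionVars false

open Finset

namespace Hel

section Char

variable {L : Type*} [Field L] [Fintype L] [DecidableEq L]

/-- the power map is a bijection of `L` when the exponent is prime to `|L| - 1` -/
lemma pow_bijective {s : ℕ} (hs0 : s ≠ 0) (hs : Nat.Coprime s (Fintype.card L - 1)) :
    Function.Bijective (fun x : L => x ^ s) := by
  rw [← Finite.injective_iff_bijective]
  intro x y hxy
  simp only at hxy
  by_cases hx : x = 0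
  · subst hx
    rw [zero_pow hs0] at hxy
    exact (pow_eq_zero_iff hs0).mp hxy.symm |>.symm
  · by_cases hy : y = 0
    · subst hy
      rw [zero_pow hs0] at hxy
      exact (pow_eq_zero_iff hs0).mp hxy
    · have hcard : (Nat.card Lˣ).Coprime s := by
        rw [Nat.card_eq_fintype_card, Fintype.card_units]
        exact hs.symm
      have h1 : (powCoprime hcard) (Units.mk0 x hx) = (powCoprime hcard) (Units.mk0 y hy) := by
        ext
        simpa [powCoprime] using hxy
      have h2 := (powCoprime hcard).injective h1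
      have h3 := congrArg Units.val h2
      simpa using h3

lemma sum_pow {s : ℕ} (hs0 : s ≠ 0) (hs : Nat.Coprime s (Fintype.card L - 1)) (f : L → ℂ) :
    ∑ x : L, f (x ^ s) = ∑ x : L, f x :=
  Fintype.sum_bijective _ (pow_bijective hs0 hs) _ _ (fun _ => rfl)

lemma s_odd {s : ℕ} (h2 : (2 : L) ≠ 0) (hs : Nat.Coprime s (Fintype.card L - 1)) : Odd s := by
  have hodd : Odd (Fintype.card L) := by
    rw [← Nat.not_even_iff_odd]
    intro hev
    have hchar := FiniteField.even_card_iff_char_two (F := L)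
    have : ringChar L = 2 := hchar.mpr (Nat.even_iff.mp hev)
    apply h2
    have h3 := (ringChar.spec L 2).mpr (by rw [this])
    exact_mod_cast h3
  have h1 : 1 < Fintype.card L := Fintype.one_lt_card
  rw [← Nat.not_even_iff_odd]
  intro hev
  have hev2 : Even (Fintype.card L - 1) := by
    obtain ⟨m, hm⟩ := hodd
    exact ⟨m, by omega⟩
  have := Nat.dvd_gcd hev.two_dvd hev2.two_dvd
  rw [hs] at this
  omega

variable (ψ : AddChar L ℂ)

/-- Weil sum attached to an additive character -/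
noncomputable def Wc (s : ℕ) (a : L) : ℂ := ∑ x : L, ψ (x ^ s - a * x)

variable {ψ}

lemma sum_mul_char (hψ : ψ.IsPrimitive) (b : L) :
    ∑ a : L, ψ (a * b) = if b = 0 then (Fintype.card L : ℂ) else 0 := by
  have := AddChar.sum_mulShift (R' := ℂ) b hψ
  rw [this]
  split_ifs <;> simp

lemma sum_neg_mul_char (hψ : ψ.IsPrimitive) (b : L) :
    ∑ a : L, ψ (-(a * b)) = if b = 0 then (Fintype.card L : ℂ) else 0 := by
  have h := sum_mul_char hψ (-b)
  have e : ∀ a : L, ψ (-(a * b)) = ψ (a * (-b)) := fun a => by rw [mul_neg]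
  simp_rw [e, h, neg_eq_zero]

variable {s : ℕ}

lemma Wc_zero (hψ : ψ.IsPrimitive) (hs0 : s ≠ 0) (hs : Nat.Coprime s (Fintype.card L - 1)) :
    Wc ψ s 0 = 0 := by
  unfold Wc
  simp only [zero_mul, sub_zero]
  rw [sum_pow hs0 hs (fun x => ψ x)]
  have := sum_mul_char hψ (1 : L)
  simpa using this

/-- first moment -/
lemma sum_Wc (hψ : ψ.IsPrimitive) (hs0 : s ≠ 0) : ∑ a : L, Wc ψ s a = Fintype.card L := by
  unfold Wc
  rw [sum_comm]
  have : ∀ x : L, ∑ a : L, ψ (x ^ s - a * x) = if x = 0 then (Fintype.card L : ℂ) else 0 := by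
    intro x
    have e : ∀ a : L, ψ (x ^ s - a * x) = ψ (x ^ s) * ψ (-(a * x)) := by
      intro a; rw [← AddChar.map_add_eq_mul, sub_eq_add_neg]
    simp_rw [e, ← mul_sum, sum_neg_mul_char hψ]
    split_ifs with h
    · subst h; simp [zero_pow hs0]
    · simp
  simp_rw [this]
  simp

/-- second moment: correlation -/
lemma sum_Wc_mul (hψ : ψ.IsPrimitive) (hs0 : s ≠ 0) (hs : Nat.Coprime s (Fintype.card L - 1))
    (hodd : Odd s) (t : L) :
    ∑ a : L, Wc ψ s a * Wc ψ s (t * a) =
      if t ^ s = 1 then (Fintype.card L : ℂ) ^ 2 else 0 := by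
  have h1 : ∀ a : L, Wc ψ s a * Wc ψ s (t * a) =
      ∑ y : L, ∑ x : L, ψ (x ^ s + y ^ s) * ψ (-(a * (x + t * y))) := by
    intro a
    unfold Wc
    rw [sum_mul_sum, sum_comm]
    refine sum_congr rfl fun y _ => sum_congr rfl fun x _ => ?_
    rw [← AddChar.map_add_eq_mul, ← AddChar.map_add_eq_mul]
    congr 1; ring
  simp_rw [h1]
  rw [sum_comm]
  have h2 : ∀ y : L, ∑ a : L, ∑ x : L, ψ (x ^ s + y ^ s) * ψ (-(a * (x + t * y)))
      = (Fintype.card L : ℂ) * ψ ((1 - t ^ s) * y ^ s) := by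
    intro y
    rw [sum_comm]
    simp_rw [← mul_sum, sum_neg_mul_char hψ]
    rw [sum_eq_single (-(t * y))]
    · simp only [neg_add_cancel, if_true]
      rw [mul_comm, hodd.neg_pow, mul_pow]
      congr 2; ring
    · intro x _ hx
      rw [if_neg, mul_zero]
      intro h
      exact hx (eq_neg_of_add_eq_zero_left h)
    · intro h; exact absurd (mem_univ _) h
  simp_rw [h2, ← mul_sum]
  rw [sum_pow hs0 hs (fun y => ψ ((1 - t ^ s) * y))]
  have h3 : ∀ y : L, ψ ((1 - t ^ s) * y) = ψ (y * (1 - t ^ s)) := fun y => by rw [mul_comm]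
  simp_rw [h3, sum_mul_char hψ, sub_eq_zero]
  by_cases h : t ^ s = 1
  · simp [h]; ring
  · simp [h, Ne.symm h]

/-- number of representations -/
def del (L : Type*) [Field L] [Fintype L] [DecidableEq L] (s : ℕ) (t : L) : ℕ :=
  (univ.filter fun y : L => t ^ s * ((1 - y) ^ s + y ^ s) = 1).card

lemma sum_pow_char_ne (hψ : ψ.IsPrimitive) (hs0 : s ≠ 0)
    (hs : Nat.Coprime s (Fintype.card L - 1)) (u : L) :
    ∑ z ∈ univ.erase (0 : L), ψ (z ^ s * u) = (if u = 0 then (Fintype.card L : ℂ) else 0) - 1 := by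
  have h := sum_mul_char hψ u
  rw [← sum_pow hs0 hs (fun z => ψ (z * u))] at h
  rw [← h, ← add_sum_erase univ _ (mem_univ (0 : L))]
  simp [zero_pow hs0]

/-- third moment -/
lemma sum_Wc_sq_mul (hψ : ψ.IsPrimitive) (hs0 : s ≠ 0) (hs : Nat.Coprime s (Fintype.card L - 1))
    (hodd : Odd s) {t : L} (ht : t ≠ 0) :
    ∑ a : L, Wc ψ s a ^ 2 * Wc ψ s (t * a) = (Fintype.card L : ℂ) ^ 2 * del L s t := by
  have h1 : ∀ a : L, Wc ψ s a ^ 2 * Wc ψ s (t * a) =
      ∑ z : L, ∑ y : L, ∑ x : L, ψ (x ^ s + y ^ s + z ^ s) * ψ (-(a * (x + y + t * z))) := by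
    intro a
    unfold Wc
    rw [sq, sum_mul_sum, sum_mul_sum, sum_comm]
    refine sum_congr rfl fun z _ => ?_
    rw [sum_comm (f := fun y x => ψ (x ^ s + y ^ s + z ^ s) * ψ (-(a * (x + y + t * z))))]
    refine sum_congr rfl fun x _ => ?_
    rw [sum_mul]
    refine sum_congr rfl fun y _ => ?_
    rw [← AddChar.map_add_eq_mul, ← AddChar.map_add_eq_mul, ← AddChar.map_add_eq_mul]
    congr 1; ring
  simp_rw [h1]
  rw [sum_comm]
  have h2 : ∀ z : L, ∑ a : L, ∑ y : L, ∑ x : L,
      ψ (x ^ s + y ^ s + z ^ s) * ψ (-(a * (x + y + t * z)))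
      = (Fintype.card L : ℂ) * ∑ y : L, ψ ((-(y + t * z)) ^ s + y ^ s + z ^ s) := by
    intro z
    rw [sum_comm, mul_sum]
    refine sum_congr rfl fun y _ => ?_
    rw [sum_comm]
    simp_rw [← mul_sum, sum_neg_mul_char hψ]
    rw [sum_eq_single (-(y + t * z))]
    · rw [if_pos (by ring), mul_comm]
    · intro x _ hx
      rw [if_neg, mul_zero]
      intro h
      apply hx
      have : x + (y + t * z) = 0 := by rw [← h]; ring
      exact eq_neg_of_add_eq_zero_left this
    · intro h; exact absurd (mem_univ _) h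
  simp_rw [h2, ← mul_sum]
  rw [pow_two, mul_assoc]
  congr 1
  rw [← add_sum_erase univ _ (mem_univ (0 : L))]
  have h0 : ∑ y : L, ψ ((-(y + t * 0)) ^ s + y ^ s + 0 ^ s) = Fintype.card L := by
    have : ∀ y : L, ψ ((-(y + t * 0)) ^ s + y ^ s + 0 ^ s) = 1 := by
      intro y
      rw [mul_zero, add_zero, hodd.neg_pow, zero_pow hs0]
      simp
    simp_rw [this]
    simp
  rw [h0]
  have h4 : ∀ z ∈ univ.erase (0 : L), ∑ y : L, ψ ((-(y + t * z)) ^ s + y ^ s + z ^ s)
      = ∑ y : L, ψ (z ^ s * (1 - t ^ s * ((1 - y) ^ s + y ^ s))) := by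
    intro z hz
    have hz0 : z ≠ 0 := ne_of_mem_erase hz
    have hb : Function.Bijective (fun y : L => -(t * z * y)) := by
      rw [← Finite.injective_iff_bijective]
      intro y y' h
      simp only [neg_inj] at h
      exact mul_left_cancel₀ (mul_ne_zero ht hz0) h
    symm
    refine Fintype.sum_bijective _ hb _ _ (fun y => ?_)
    congr 1
    have e1 : -(-(t * z * y) + t * z) = -(t * z * (1 - y)) := by ring
    rw [e1, hodd.neg_pow, hodd.neg_pow, mul_pow, mul_pow, mul_pow]
    ring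
  rw [sum_congr rfl h4, sum_comm]
  simp_rw [sum_pow_char_ne hψ hs0 hs]
  rw [sum_sub_distrib]
  have h5 : ∑ y : L, (if 1 - t ^ s * ((1 - y) ^ s + y ^ s) = 0 then (Fintype.card L : ℂ) else 0)
      = (Fintype.card L : ℂ) * del L s t := by
    rw [← sum_filter, sum_const, nsmul_eq_mul, mul_comm]
    unfold del
    congr 2
    apply congrArg
    ext y
    simp only [mem_filter, mem_univ, true_and, sub_eq_zero]
    exact eq_comm
  rw [h5]
  simp

lemma sum_del (h2 : (1 : L) ≠ 0) (hs0 : s ≠ 0) (hs : Nat.Coprime s (Fintype.card L - 1))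
    (hodd : Odd s) :
    ∑ t ∈ univ.erase (0 : L), del L s t = Fintype.card L := by
  unfold del
  simp_rw [card_filter]
  rw [sum_comm]
  have : ∀ y : L, ∑ t ∈ univ.erase (0 : L),
      (if t ^ s * ((1 - y) ^ s + y ^ s) = 1 then 1 else 0) = 1 := by
    intro y
    have hF : (1 - y) ^ s + y ^ s ≠ 0 := by
      intro h
      have h3 : (1 - y) ^ s = (-y) ^ s := by
        rw [hodd.neg_pow]; exact eq_neg_of_add_eq_zero_left h
      have h4 := (pow_bijective hs0 hs).1 h3
      apply h2
      linear_combination h4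
    obtain ⟨t, ht⟩ := (pow_bijective hs0 hs).2 ((1 - y) ^ s + y ^ s)⁻¹
    simp only at ht
    have ht0 : t ≠ 0 := by
      rintro rfl
      rw [zero_pow hs0] at ht
      exact inv_ne_zero hF ht.symm
    rw [sum_eq_single t]
    · rw [ht, inv_mul_cancel₀ hF, if_pos rfl]
    · intro t' _ hne
      rw [if_neg]
      intro h
      apply hne
      apply (pow_bijective hs0 hs).1
      simp only
      rw [ht, eq_inv_of_mul_eq_one_left h]
    · intro h
      exact absurd (mem_erase.mpr ⟨ht0, mem_univ _⟩) h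
  simp_rw [this]
  simp

end Char

end Hel
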