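import Pool.Agent.Lib.MP_baea4e_nt.Basic

set_option autoImplicit false
set_option linter.unusedSectionVars false

open Finset

namespace Hel

section Canonical

variable (p : ℕ) [Fact p.Prime] (L : Type*) [Field L] [Fintype L] [DecidableEq L]
  [Algebra (ZMod p) L]

/-- the canonical additive character as an `AddChar` -/
noncomputable def psi : AddChar L ℂ :=
  (ZMod.stdAddChar (N := p)).compAddMonoidHom (Algebra.trace (ZMod p) L).toAddMonoidHom

variable {p L}

lemma psi_apply (x : L) : psi p L x = ZMod.stdAddChar (Algebra.trace (ZMod p) L x) := rfl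

lemma psi_prim : (psi p L).IsPrimitive := by
  intro a ha h
  have hnd := (traceForm_nondegenerate (ZMod p) L).1 a
  simp_rw [Algebra.traceForm_apply] at hnd
  apply ha
  apply hnd
  intro b
  have h1 : (AddChar.mulShift (psi p L) a) b = 1 := by rw [h]; rfl
  rw [AddChar.mulShift_apply, psi_apply] at h1
  rw [← AddChar.map_zero_eq_one (ZMod.stdAddChar (N := p))] at h1
  exact ZMod.injective_stdAddChar h1

/-- number of `x` with `Tr(x^s - a x) = j` -/
noncomputable def cnt (p : ℕ) [Fact p.Prime] (L : Type*) [Field L] [Fintype L] [DecidableEq L]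
  [Algebra (ZMod p) L] (s : ℕ) (a : L) (j : ZMod p) : ℕ :=
  (univ.filter fun x : L => Algebra.trace (ZMod p) L (x ^ s - a * x) = j).card

lemma sum_cnt (s : ℕ) (a : L) : ∑ j : ZMod p, cnt p L s a j = Fintype.card L := by
  unfold cnt
  rw [← card_eq_sum_card_fiberwise (f := fun x : L => Algebra.trace (ZMod p) L (x ^ s - a * x))
    (s := univ) (t := univ) (fun x _ => mem_univ _)]
  simp

/-- the twisted sum: replace the character by its `lam`-th power -/
noncomputable def Wt (s : ℕ) (a : L) (lam : ZMod p) : ℂ :=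
  ∑ x : L, ZMod.stdAddChar (lam * Algebra.trace (ZMod p) L (x ^ s - a * x))

lemma Wt_eq_sum_cnt (s : ℕ) (a : L) (lam : ZMod p) :
    Wt s a lam = ∑ j : ZMod p, (cnt p L s a j : ℂ) * ZMod.stdAddChar (lam * j) := by
  unfold Wt cnt
  rw [← sum_fiberwise_of_maps_to (g := fun x : L => Algebra.trace (ZMod p) L (x ^ s - a * x))
    (t := univ) (fun x _ => mem_univ _)]
  refine sum_congr rfl fun j _ => ?_
  rw [sum_congr rfl (g := fun _ => ZMod.stdAddChar (lam * j))]
  · rw [sum_const, nsmul_eq_mul]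
  · intro x hx
    rw [(mem_filter.mp hx).2]

lemma Wt_one (s : ℕ) (a : L) : Wt s a (1 : ZMod p) = Wc (psi p L) s a := by
  unfold Wt Wc
  simp_rw [one_mul]
  rfl

lemma Wt_zero (s : ℕ) (a : L) : Wt s a (0 : ZMod p) = Fintype.card L := by
  unfold Wt
  simp

/-- scaling: the twist by `nu^s` is the Weil sum at `nu^(s-1) a`;
we state it with `c * nu = nu^s`. -/
lemma Wt_scale (s : ℕ) (a : L) {nu c : ZMod p} (hnu : nu ≠ 0) (hc : c * nu = nu ^ s) :
    Wt s a (nu ^ s) = Wc (psi p L) s (algebraMap (ZMod p) L c * a) := by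
  unfold Wt Wc
  have hb : Function.Bijective (fun x : L => algebraMap (ZMod p) L nu * x) := by
    rw [← Finite.injective_iff_bijective]
    intro x y h
    have h0 : algebraMap (ZMod p) L nu ≠ 0 := by
      rw [Ne, map_eq_zero]; exact hnu
    exact mul_left_cancel₀ h0 h
  refine Fintype.sum_bijective _ hb _ _ fun x => ?_
  rw [psi_apply]
  congr 1
  have e : (algebraMap (ZMod p) L nu * x) ^ s
      - algebraMap (ZMod p) L c * a * (algebraMap (ZMod p) L nu * x)
      = nu ^ s • (x ^ s - a * x) := by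
    rw [Algebra.smul_def, mul_pow, ← map_pow, mul_sub]
    congr 1
    rw [← hc, map_mul]; ring
  rw [e, map_smul, smul_eq_mul]

lemma sum_Wt (s : ℕ) (a : L) :
    ∑ lam : ZMod p, Wt s a lam = p * cnt p L s a 0 := by
  unfold Wt
  rw [sum_comm]
  have h : ∀ x : L, ∑ lam : ZMod p,
      (ZMod.stdAddChar (lam * Algebra.trace (ZMod p) L (x ^ s - a * x)) : ℂ)
      = if Algebra.trace (ZMod p) L (x ^ s - a * x) = 0 then (p : ℂ) else 0 := by
    intro x
    have := AddChar.sum_mulShift (R' := ℂ) (Algebra.trace (ZMod p) L (x ^ s - a * x))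
      (ZMod.isPrimitive_stdAddChar p)
    rw [this, ZMod.card]
    split_ifs <;> simp
  simp_rw [h]
  rw [← sum_filter, sum_const, nsmul_eq_mul, mul_comm]
  rfl

lemma cnt_scale {s : ℕ} (hsp : ∀ nu : ZMod p, nu ^ s = nu) (a : L) {j : ZMod p} (hj : j ≠ 0) :
    cnt p L s a j = cnt p L s a 1 := by
  unfold cnt
  have h0 : algebraMap (ZMod p) L j ≠ 0 := by
    rw [Ne, map_eq_zero]; exact hj
  symm
  refine card_bij (fun x _ => algebraMap (ZMod p) L j * x) ?_ ?_ ?_
  · intro x hx
    rw [mem_filter] at hx ⊢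
    refine ⟨mem_univ _, ?_⟩
    have e : (algebraMap (ZMod p) L j * x) ^ s - a * (algebraMap (ZMod p) L j * x)
      = j • (x ^ s - a * x) := by
      rw [Algebra.smul_def, mul_pow, ← map_pow, hsp]; ring
    rw [e, map_smul, hx.2]; simp
  · intro x _ y _ h
    exact mul_left_cancel₀ h0 h
  · intro y hy
    rw [mem_filter] at hy
    refine ⟨algebraMap (ZMod p) L j⁻¹ * y, ?_, ?_⟩
    · rw [mem_filter]
      refine ⟨mem_univ _, ?_⟩
      have e : (algebraMap (ZMod p) L j⁻¹ * y) ^ s - a * (algebraMap (ZMod p) L j⁻¹ * y)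
        = j⁻¹ • (y ^ s - a * y) := by
        rw [Algebra.smul_def, mul_pow, ← map_pow, hsp]; ring
      rw [e, map_smul, hy.2, smul_eq_mul, inv_mul_cancel₀ hj]
    · rw [map_inv₀, mul_inv_cancel_left₀ h0]

/-- the integer Weil sum for `s ≡ 1 mod p - 1` -/
noncomputable def w (p : ℕ) [Fact p.Prime] (L : Type*) [Field L] [Fintype L] [DecidableEq L]
    [Algebra (ZMod p) L] (s : ℕ) (a : L) : ℤ :=
  Fintype.card L - p * cnt p L s a 1

lemma Wc_eq_w {s : ℕ} (hsp : ∀ nu : ZMod p, nu ^ s = nu) (a : L) :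
    Wc (psi p L) s a = w p L s a := by
  have hp1 : (1 : ℕ) < p := (Fact.out : p.Prime).one_lt
  have h1 : ∑ lam : ZMod p, Wt s a lam = Fintype.card L + (p - 1 : ℂ) * Wc (psi p L) s a := by
    rw [← add_sum_erase univ _ (mem_univ (0 : ZMod p)), Wt_zero]
    congr 1
    rw [sum_congr rfl (g := fun _ => Wc (psi p L) s a)]
    · rw [sum_const, card_erase_of_mem (mem_univ _), card_univ, ZMod.card, nsmul_eq_mul]
      push_cast [Nat.cast_sub hp1.le]
      ring
    · intro lam hlam
      have hl : lam ≠ 0 := ne_of_mem_erase hlam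
      have := Wt_scale s a (nu := lam) (c := 1) hl (by rw [one_mul, hsp])
      rw [hsp] at this
      rw [this, map_one, one_mul]
  have h2 : (Fintype.card L : ℂ) = cnt p L s a 0 + (p - 1 : ℂ) * cnt p L s a 1 := by
    have h := sum_cnt (p := p) s a
    rw [← add_sum_erase univ _ (mem_univ (0 : ZMod p)),
      sum_congr rfl (g := fun _ => cnt p L s a 1)] at h
    · rw [sum_const, card_erase_of_mem (mem_univ _), card_univ, ZMod.card, smul_eq_mul] at h
      rw [← h]
      push_cast [Nat.cast_sub hp1.le]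
      ring
    · intro j hj
      exact cnt_scale hsp a (ne_of_mem_erase hj)
  rw [sum_Wt] at h1
  have hpc : (p : ℂ) - 1 ≠ 0 := by
    intro h
    have : (p : ℂ) = 1 := by linear_combination h
    have : p = 1 := by exact_mod_cast this
    omega
  apply mul_left_cancel₀ hpc
  unfold w
  push_cast
  linear_combination -h1 - (p : ℂ) * h2

end Canonical

end Hel
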