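import Pool.Agent.Lib.MP_baea4e_nt.Canon

section

set_option autoImplicit false
set_option linter.unusedSectionVars false

open Finset

namespace Hel

section

variable {p : ℕ} [Fact p.Prime] {L : Type*} [Field L] [Fintype L] [DecidableEq L]
  [Algebra (ZMod p) L] {s : ℕ}

lemma w_zero (hsp : ∀ nu : ZMod p, nu ^ s = nu) (hs0 : s ≠ 0)
    (hs : Nat.Coprime s (Fintype.card L - 1)) : w p L s 0 = 0 := by
  have h := Wc_zero (psi_prim (p := p) (L := L)) hs0 hs
  rw [Wc_eq_w hsp] at h
  exact_mod_cast h

lemma sum_w (hsp : ∀ nu : ZMod p, nu ^ s = nu) (hs0 : s ≠ 0) :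
    ∑ a : L, w p L s a = Fintype.card L := by
  have h := sum_Wc (psi_prim (p := p) (L := L)) hs0
  simp_rw [Wc_eq_w hsp] at h
  exact_mod_cast h

lemma sum_w_mul (hsp : ∀ nu : ZMod p, nu ^ s = nu) (hs0 : s ≠ 0)
    (hs : Nat.Coprime s (Fintype.card L - 1)) (hodd : Odd s) (t : L) :
    ∑ a : L, w p L s a * w p L s (t * a) =
      if t = 1 then (Fintype.card L : ℤ) ^ 2 else 0 := by
  have h := sum_Wc_mul (psi_prim (p := p) (L := L)) hs0 hs hodd t
  simp_rw [Wc_eq_w hsp] at h
  have e : t ^ s = 1 ↔ t = 1 := by
    constructor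
    · intro h1
      apply (pow_bijective hs0 hs).1
      simpa using h1
    · rintro rfl; exact one_pow s
  simp only [e] at h
  split_ifs at h ⊢ with h1
  · exact_mod_cast h
  · exact_mod_cast h

lemma sum_w_sq (hsp : ∀ nu : ZMod p, nu ^ s = nu) (hs0 : s ≠ 0)
    (hs : Nat.Coprime s (Fintype.card L - 1)) (hodd : Odd s) :
    ∑ a : L, w p L s a ^ 2 = (Fintype.card L : ℤ) ^ 2 := by
  have h := sum_w_mul hsp hs0 hs hodd (1 : L)
  simp only [one_mul, if_true] at h
  rw [← h]
  exact sum_congr rfl fun a _ => by rw [sq]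

lemma sum_w_sq_mul (hsp : ∀ nu : ZMod p, nu ^ s = nu) (hs0 : s ≠ 0)
    (hs : Nat.Coprime s (Fintype.card L - 1)) (hodd : Odd s) {t : L} (ht : t ≠ 0) :
    ∑ a : L, w p L s a ^ 2 * w p L s (t * a) = (Fintype.card L : ℤ) ^ 2 * del L s t := by
  have h := sum_Wc_sq_mul (psi_prim (p := p) (L := L)) hs0 hs hodd ht
  simp_rw [Wc_eq_w hsp] at h
  exact_mod_cast h

lemma card_eq (p : ℕ) [Fact p.Prime] (L : Type*) [Field L] [Fintype L] [Algebra (ZMod p) L] :
    Fintype.card L = p ^ Module.finrank (ZMod p) L :=
  (FiniteField.pow_finrank_eq_card p L).symm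

lemma finrank_ne (p : ℕ) [Fact p.Prime] (L : Type*) [Field L] [Fintype L] [Algebra (ZMod p) L] :
    Module.finrank (ZMod p) L ≠ 0 := by
  have : Module.Finite (ZMod p) L := Module.Finite.of_finite
  exact Module.finrank_pos.ne'

lemma p_dvd_w (a : L) : (p : ℤ) ∣ w p L s a := by
  unfold w
  refine dvd_sub ?_ (dvd_mul_right _ _)
  rw [card_eq p L]
  push_cast
  exact dvd_pow_self _ (finrank_ne p L)

lemma del_one_ge : 2 ≤ del L s 1 ∨ s = 0 := by
  rcases Nat.eq_zero_or_pos s with h | h
  · exact Or.inr h
  · left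
    unfold del
    have : ({0, 1} : Finset L) ⊆ univ.filter fun y : L => (1 : L) ^ s * ((1 - y) ^ s + y ^ s) = 1 := by
      intro y hy
      rw [mem_insert, mem_singleton] at hy
      rw [mem_filter]
      refine ⟨mem_univ _, ?_⟩
      rcases hy with rfl | rfl
      · simp [zero_pow h.ne']
      · simp [zero_pow h.ne']
    calc 2 = ({0, 1} : Finset L).card := by rw [card_pair zero_ne_one]
    _ ≤ _ := card_le_card this

/-- the values are bounded by the field size -/
lemma w_le (a : L) : w p L s a ≤ Fintype.card L := by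
  unfold w
  have : (0 : ℤ) ≤ p * cnt p L s a 1 := by positivity
  linarith

/-- `w a = q` somewhere -/
def Degen (p : ℕ) [Fact p.Prime] (L : Type*) [Field L] [Fintype L] [DecidableEq L]
    [Algebra (ZMod p) L] (s : ℕ) : Prop := ∃ a : L, w p L s a = Fintype.card L

lemma degen_values (hsp : ∀ nu : ZMod p, nu ^ s = nu) (hs0 : s ≠ 0)
    (hs : Nat.Coprime s (Fintype.card L - 1)) (hodd : Odd s) (h : Degen p L s) (b : L) :
    w p L s b = 0 ∨ w p L s b = Fintype.card L := by
  obtain ⟨a, ha⟩ := h
  by_cases hb : b = a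
  · right; rw [hb, ha]
  · left
    have h2 := sum_w_sq hsp hs0 hs hodd (L := L)
    have h3 : w p L s a ^ 2 + w p L s b ^ 2 ≤ ∑ a : L, w p L s a ^ 2 := by
      rw [← sum_pair (f := fun x => w p L s x ^ 2) (Ne.symm hb)]
      exact sum_le_sum_of_subset_of_nonneg (subset_univ _) (fun _ _ _ => sq_nonneg _)
    rw [h2, ha] at h3
    have : w p L s b ^ 2 ≤ 0 := by linarith
    exact pow_eq_zero_iff (two_ne_zero) |>.mp (le_antisymm this (sq_nonneg _))

/-- if all values are nonnegative then the spectrum is degenerate -/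
lemma degen_of_nonneg (hsp : ∀ nu : ZMod p, nu ^ s = nu) (hs0 : s ≠ 0)
    (hs : Nat.Coprime s (Fintype.card L - 1)) (hodd : Odd s) (h : ∀ a : L, 0 ≤ w p L s a) :
    Degen p L s := by
  have h1 := sum_w hsp hs0 (L := L)
  have h2 := sum_w_sq hsp hs0 hs hodd (L := L)
  have h3 : ∑ a : L, w p L s a * (Fintype.card L - w p L s a) = 0 := by
    have : ∀ a : L, w p L s a * (Fintype.card L - w p L s a)
      = Fintype.card L * w p L s a - w p L s a ^ 2 := fun a => by ring
    simp_rw [this]
    rw [sum_sub_distrib, ← mul_sum, h1, h2]; ring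
  have h4 : ∀ a : L, w p L s a * (Fintype.card L - w p L s a) = 0 := by
    intro a
    refine (sum_eq_zero_iff_of_nonneg (fun a _ => ?_)).mp h3 a (mem_univ _)
    exact mul_nonneg (h a) (sub_nonneg.mpr (w_le a))
  by_contra hc
  unfold Degen at hc
  push Not at hc
  have h5 : ∀ a : L, w p L s a = 0 := by
    intro a
    rcases mul_eq_zero.mp (h4 a) with h | h
    · exact h
    · exact absurd (sub_eq_zero.mp h).symm (hc a)
  simp_rw [h5] at h1
  have : (0 : ℤ) < Fintype.card L := by exact_mod_cast Fintype.card_pos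
  simp only [sum_const_zero] at h1
  omega

/-- fourth moment -/
lemma sum_del_sq (hsp : ∀ nu : ZMod p, nu ^ s = nu) (hs0 : s ≠ 0)
    (hs : Nat.Coprime s (Fintype.card L - 1)) (hodd : Odd s) :
    (Fintype.card L : ℤ) ^ 2 * ∑ t ∈ univ.erase (0 : L), (del L s t : ℤ) ^ 2
      = ∑ a : L, w p L s a ^ 4 := by
  have hq : (Fintype.card L : ℤ) ^ 2 ≠ 0 := by
    have : (Fintype.card L : ℤ) ≠ 0 := by exact_mod_cast Fintype.card_ne_zero
    positivity
  apply mul_left_cancel₀ hq
  have hw0 := w_zero hsp hs0 hs (L := L)
  -- the sum of squares of the cubic correlations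
  have e1 : ∑ t ∈ univ.erase (0 : L), (∑ a : L, w p L s a ^ 2 * w p L s (t * a)) ^ 2
      = (Fintype.card L : ℤ) ^ 2 * ((Fintype.card L : ℤ) ^ 2
        * ∑ t ∈ univ.erase (0 : L), (del L s t : ℤ) ^ 2) := by
    rw [mul_sum, mul_sum]
    refine sum_congr rfl fun t ht => ?_
    rw [sum_w_sq_mul hsp hs0 hs hodd (ne_of_mem_erase ht)]; ring
  rw [← e1]
  have e0 : ∑ t ∈ univ.erase (0 : L), (∑ a : L, w p L s a ^ 2 * w p L s (t * a)) ^ 2
      = ∑ t : L, (∑ a : L, w p L s a ^ 2 * w p L s (t * a)) ^ 2 := by
    rw [← add_sum_erase univ _ (mem_univ (0 : L))]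
    simp [hw0]
  rw [e0]
  have e2 : ∀ t : L, (∑ a : L, w p L s a ^ 2 * w p L s (t * a)) ^ 2
      = ∑ a : L, ∑ b : L, w p L s a ^ 2 * w p L s b ^ 2 * (w p L s (t * a) * w p L s (t * b)) := by
    intro t
    rw [sq, sum_mul_sum]
    refine sum_congr rfl fun a _ => sum_congr rfl fun b _ => by ring
  simp_rw [e2]
  rw [sum_comm, mul_sum]
  refine sum_congr rfl fun a _ => ?_
  rw [sum_comm]
  simp_rw [← mul_sum]
  by_cases ha : a = 0
  · subst ha
    simp [hw0]
  · have e3 : ∀ b : L, ∑ t : L, w p L s (t * a) * w p L s (t * b)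
        = if b = a then (Fintype.card L : ℤ) ^ 2 else 0 := by
      intro b
      have h := sum_w_mul hsp hs0 hs hodd (b * a⁻¹) (p := p)
      have hb : Function.Bijective (fun t : L => t * a) := by
        rw [← Finite.injective_iff_bijective]
        intro x y h
        exact mul_right_cancel₀ ha h
      rw [← Fintype.sum_bijective _ hb (fun t => w p L s (t * a) * w p L s (t * b)) _
        (fun t => ?_)] at h
      · rw [h]
        congr 1
        rw [eq_iff_iff]
        constructor
        · intro h1
          have := congrArg (· * a) h1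
          simpa [ha] using this
        · rintro rfl
          exact mul_inv_cancel₀ ha
      · congr 2
        field_simp
    simp_rw [e3]
    simp
    ring

lemma sum_del_int (hs0 : s ≠ 0) (hs : Nat.Coprime s (Fintype.card L - 1)) (hodd : Odd s) :
    ∑ t ∈ univ.erase (0 : L), (del L s t : ℤ) = Fintype.card L := by
  exact_mod_cast sum_del (one_ne_zero) hs0 hs hodd

end

end Hel
end

section

set_option autoImplicit false
set_option linter.unusedSectionVars false

open Finset

namespace Hel

section

variable {M : Type*} [Field M] [Fintype M] [DecidableEq M]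
  {L : Type*} [Field L] [Fintype L] [DecidableEq L] [Algebra M L]

variable (M) in
/-- conjugation of `L` over `M` -/
def cj (x : L) : L := x ^ Fintype.card M

lemma cj_eq (x : L) : cj M x = FiniteField.frobeniusAlgEquivOfAlgebraic M L x := by
  rw [FiniteField.coe_frobeniusAlgEquivOfAlgebraic]; rfl

lemma cj_add (x y : L) : cj M (x + y) = cj M x + cj M y := by
  simp only [cj_eq, map_add]

lemma cj_sub (x y : L) : cj M (x - y) = cj M x - cj M y := by
  simp only [cj_eq, map_sub]

lemma cj_neg (x : L) : cj M (-x) = - cj M x := by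
  simp only [cj_eq, map_neg]

lemma cj_mul (x y : L) : cj M (x * y) = cj M x * cj M y := mul_pow _ _ _

lemma cj_map (m : M) : cj M (algebraMap M L m) = algebraMap M L m := by
  rw [cj_eq, AlgEquiv.commutes]

lemma cj_cj (hML : Module.finrank M L = 2) (x : L) : cj M (cj M x) = x := by
  unfold cj
  rw [← pow_mul, ← sq]
  have : Fintype.card L = Fintype.card M ^ 2 := by
    rw [Module.card_eq_pow_finrank (K := M) (V := L), hML]
  rw [← this, FiniteField.pow_card]

lemma exists_of_cj_eq {x : L} (h : cj M x = x) : ∃ m : M, algebraMap M L m = x := by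
  have : x ∈ Set.range (algebraMap M L) := by
    rw [IsGalois.mem_range_algebraMap_iff_fixed]
    intro f
    obtain ⟨i, rfl⟩ := (FiniteField.bijective_frobeniusAlgEquivOfAlgebraic_pow M L).2 f
    simp only [AlgEquiv.coe_pow]
    have h1 : Function.IsFixedPt (⇑(FiniteField.frobeniusAlgEquivOfAlgebraic M L)) x := by
      rw [Function.IsFixedPt, ← cj_eq]; exact h
    exact h1.iterate _
  exact this

lemma map_trace (hML : Module.finrank M L = 2) (x : L) :
    algebraMap M L (Algebra.trace M L x) = x + cj M x := by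
  rw [FiniteField.algebraMap_trace_eq_sum_pow, hML, sum_range_succ, sum_range_one]
  simp [cj]

lemma map_norm (hML : Module.finrank M L = 2) (x : L) :
    algebraMap M L (Algebra.norm M x) = x * cj M x := by
  rw [FiniteField.algebraMap_norm_eq_prod_pow, hML, prod_range_succ, prod_range_one]
  simp [cj]

lemma mapinj {a b : M} (h : algebraMap M L a = algebraMap M L b) : a = b :=
  (algebraMap M L).injective h

lemma trace_eq_iff (hML : Module.finrank M L = 2) (x : L) (T : M) :
    Algebra.trace M L x = T ↔ x + cj M x = algebraMap M L T := by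
  rw [← map_trace hML]
  exact ⟨fun h => by rw [h], fun h => mapinj h⟩

lemma norm_eq_iff (hML : Module.finrank M L = 2) (x : L) (T : M) :
    Algebra.norm M x = T ↔ x * cj M x = algebraMap M L T := by
  rw [← map_norm hML]
  exact ⟨fun h => by rw [h], fun h => mapinj h⟩

/-- every element of `M` is a square in `L` -/
lemma exists_sqrt (hML : Module.finrank M L = 2) (h2 : (2 : M) ≠ 0) (d : M) :
    ∃ z : L, z ^ 2 = algebraMap M L d := by
  by_cases hd : d = 0
  · exact ⟨0, by rw [hd]; simp⟩
  · have h2L : ringChar L ≠ 2 := by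
      intro h
      have h3 : ((2 : ℕ) : L) = 0 := by
        rw [ringChar.spec, h]
      apply h2
      apply mapinj (L := L)
      rw [map_zero, map_ofNat]; exact_mod_cast h3
    have hsq : IsSquare (algebraMap M L d) := by
      have hd' : algebraMap M L d ≠ 0 := by rwa [Ne, map_eq_zero]
      rw [FiniteField.isSquare_iff h2L hd']
      have hc : Fintype.card L = Fintype.card M ^ 2 := by
        rw [Module.card_eq_pow_finrank (K := M) (V := L), hML]
      have hoddM : Fintype.card M % 2 = 1 := by
        apply FiniteField.odd_card_of_char_ne_two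
        intro h
        have h3 : ((2 : ℕ) : M) = 0 := by rw [ringChar.spec, h]
        exact h2 (by exact_mod_cast h3)
      obtain ⟨r, hr⟩ : ∃ r, Fintype.card M = 2 * r + 1 := ⟨Fintype.card M / 2, by omega⟩
      have : Fintype.card L / 2 = (Fintype.card M - 1) * (r + 1) := by
        rw [hc, hr]
        have : (2 * r + 1) ^ 2 = 2 * (2 * r * (r + 1)) + 1 := by ring
        rw [this]
        simp only [add_tsub_cancel_right]
        omega
      rw [this, pow_mul, ← map_pow, FiniteField.pow_card_sub_one_eq_one d hd, map_one, one_pow]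
    obtain ⟨z, hz⟩ := hsq
    exact ⟨z, by rw [hz, sq]⟩

/-- split and nonsplit pairs with given sum and product -/
lemma count_two (hML : Module.finrank M L = 2) (h2 : (2 : M) ≠ 0) (T n : M) :
    (univ.filter fun a : L => Algebra.trace M L a = T ∧ Algebra.norm M a = n).card
      + (univ.filter fun x : M => x * (T - x) = n).card = 2 := by
  obtain ⟨z, hz⟩ := exists_sqrt (L := L) hML h2 (T ^ 2 - 4 * n)
  have h2L : (2 : L) ≠ 0 := by
    intro h
    apply h2
    apply mapinj (L := L)
    rw [map_zero, map_ofNat]; exact h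
  set T' : L := algebraMap M L T with hT'
  set n' : L := algebraMap M L n with hn'
  have hz' : z ^ 2 = T' ^ 2 - 4 * n' := by
    rw [hz, hT', hn', map_sub, map_mul, map_pow, map_ofNat]
  have e2 : (univ.filter fun x : M => x * (T - x) = n).card
      = (univ.filter fun a : L => a * (T' - a) = n' ∧ cj M a = a).card := by
    refine card_bij (fun x _ => algebraMap M L x) ?_ ?_ ?_
    · intro x hx
      rw [mem_filter] at hx ⊢
      refine ⟨mem_univ _, ?_, cj_map x⟩
      rw [hT', hn', ← hx.2, map_mul, map_sub]
    · intro x _ y _ h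
      exact mapinj h
    · intro a ha
      rw [mem_filter] at ha
      obtain ⟨m, hm⟩ := exists_of_cj_eq ha.2.2
      refine ⟨m, ?_, hm⟩
      rw [mem_filter]
      refine ⟨mem_univ _, ?_⟩
      apply mapinj (L := L)
      rw [map_mul, map_sub, hm]; exact ha.2.1
  have e1 : (univ.filter fun a : L => Algebra.trace M L a = T ∧ Algebra.norm M a = n)
      = (univ.filter fun a : L => a * (T' - a) = n' ∧ cj M a = T' - a) := by
    ext a
    simp only [mem_filter, mem_univ, true_and]
    rw [trace_eq_iff hML, norm_eq_iff hML]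
    constructor
    · rintro ⟨h3, h4⟩
      have : cj M a = T' - a := by rw [hT', ← h3]; ring
      exact ⟨by rw [← this]; exact h4, this⟩
    · rintro ⟨h3, h4⟩
      exact ⟨by rw [h4]; ring, by rw [h4]; exact h3⟩
  rw [e1, e2]
  -- the roots
  have hroot : ∀ a : L, a * (T' - a) = n' ↔ a = (T' + z) / 2 ∨ a = (T' - z) / 2 := by
    intro a
    have h4 : a * (T' - a) = n' ↔ (2 * a - T' - z) * (2 * a - T' + z) = 0 := by
      constructor
      · intro h
        linear_combination -4 * h - hz'
      · intro h
        have h4L : (4 : L) ≠ 0 := by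
          have : (4 : L) = 2 * 2 := by norm_num
          rw [this]; exact mul_ne_zero h2L h2L
        apply mul_left_cancel₀ h4L
        linear_combination -h - hz'
    rw [h4, mul_eq_zero]
    constructor
    · rintro (h | h)
      · left; rw [eq_div_iff h2L]; linear_combination h
      · right; rw [eq_div_iff h2L]; linear_combination h
    · rintro (h | h)
      · left; rw [eq_div_iff h2L] at h; linear_combination h
      · right; rw [eq_div_iff h2L] at h; linear_combination h
  have hcjT : cj M T' = T' := cj_map T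
  have hcj2 : ∀ x : L, cj M (x / 2) = cj M x / 2 := by
    intro x
    rw [eq_div_iff h2L]
    have : cj M (2 : L) = 2 := by
      have := cj_map (M := M) (L := L) 2
      rwa [map_ofNat] at this
    calc cj M (x / 2) * 2 = cj M (x / 2) * cj M 2 := by rw [this]
    _ = cj M (x / 2 * 2) := (cj_mul _ _).symm
    _ = cj M x := by rw [div_mul_cancel₀ _ h2L]
  have hzcj : cj M z = z ∨ cj M z = -z := by
    apply sq_eq_sq_iff_eq_or_eq_neg.mp
    rw [hz']
    have : cj M (z ^ 2) = cj M z ^ 2 := by rw [sq, cj_mul, sq]
    rw [← this, hz', cj_sub, sq, cj_mul, cj_mul, hcjT, hn', cj_map]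
    have h4 := cj_map (M := M) (L := L) 4
    rw [map_ofNat] at h4
    rw [h4]
  by_cases hz0 : z = 0
  · -- both are `{T/2}`
    have f1 : (univ.filter fun a : L => a * (T' - a) = n' ∧ cj M a = T' - a) = {T' / 2} := by
      ext a
      simp only [mem_filter, mem_univ, true_and, mem_singleton]
      rw [hroot a, hz0, add_zero, sub_zero, or_self]
      constructor
      · exact fun h => h.1
      · intro h
        refine ⟨h, ?_⟩
        rw [h, hcj2, hcjT]
        field_simp
        norm_num
    have f2 : (univ.filter fun a : L => a * (T' - a) = n' ∧ cj M a = a) = {T' / 2} := by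
      ext a
      simp only [mem_filter, mem_univ, true_and, mem_singleton]
      rw [hroot a, hz0, add_zero, sub_zero, or_self]
      constructor
      · exact fun h => h.1
      · intro h
        refine ⟨h, ?_⟩
        rw [h, hcj2, hcjT]
    rw [f1, f2, card_singleton]
  · have hne : (T' + z) / 2 ≠ (T' - z) / 2 := by
      intro h
      rw [div_left_inj' h2L] at h
      apply hz0
      have : 2 * z = 0 := by linear_combination h
      exact (mul_eq_zero.mp this).resolve_left h2L
    rcases hzcj with hc | hc
    · have f1 : (univ.filter fun a : L => a * (T' - a) = n' ∧ cj M a = T' - a) = ∅ := by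
        rw [filter_eq_empty_iff]
        rintro a _ ⟨h3, h4⟩
        rw [hroot a] at h3
        apply hz0
        rcases h3 with h3 | h3
        · rw [h3, hcj2, cj_add, hcjT, hc] at h4
          field_simp at h4
          have : 2 * z = 0 := by linear_combination h4
          exact (mul_eq_zero.mp this).resolve_left h2L
        · rw [h3, hcj2, cj_sub, hcjT, hc] at h4
          field_simp at h4
          have : 2 * z = 0 := by linear_combination -h4
          exact (mul_eq_zero.mp this).resolve_left h2L
      have f2 : (univ.filter fun a : L => a * (T' - a) = n' ∧ cj M a = a)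
          = {(T' + z) / 2, (T' - z) / 2} := by
        ext a
        simp only [mem_filter, mem_univ, true_and, mem_insert, mem_singleton]
        rw [hroot a]
        constructor
        · exact fun h => h.1
        · intro h
          refine ⟨h, ?_⟩
          rcases h with h | h
          · rw [h, hcj2, cj_add, hcjT, hc]
          · rw [h, hcj2, cj_sub, hcjT, hc]
      rw [f1, f2, card_empty, card_pair hne]
    · have f2 : (univ.filter fun a : L => a * (T' - a) = n' ∧ cj M a = a) = ∅ := by
        rw [filter_eq_empty_iff]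
        rintro a _ ⟨h3, h4⟩
        rw [hroot a] at h3
        apply hz0
        rcases h3 with h3 | h3
        · rw [h3, hcj2, cj_add, hcjT, hc] at h4
          field_simp at h4
          have : 2 * z = 0 := by linear_combination -h4
          exact (mul_eq_zero.mp this).resolve_left h2L
        · rw [h3, hcj2, cj_sub, hcjT, hc] at h4
          field_simp at h4
          have : 2 * z = 0 := by linear_combination h4
          exact (mul_eq_zero.mp this).resolve_left h2L
      have f1 : (univ.filter fun a : L => a * (T' - a) = n' ∧ cj M a = T' - a)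
          = {(T' + z) / 2, (T' - z) / 2} := by
        ext a
        simp only [mem_filter, mem_univ, true_and, mem_insert, mem_singleton]
        rw [hroot a]
        constructor
        · exact fun h => h.1
        · intro h
          refine ⟨h, ?_⟩
          rcases h with h | h
          · rw [h, hcj2, cj_add, hcjT, hc]
            field_simp
            ring
          · rw [h, hcj2, cj_sub, hcjT, hc]
            field_simp
            ring
      rw [f1, f2, card_empty, card_pair hne]

end

end Hel
end

section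

set_option autoImplicit false
set_option linter.unusedSectionVars false

open Finset

namespace Hel

section

variable {p : ℕ} [Fact p.Prime] {M : Type*} [Field M] [Fintype M] [DecidableEq M]
  {L : Type*} [Field L] [Fintype L] [DecidableEq L] [Algebra (ZMod p) M] [Algebra (ZMod p) L]
  [Algebra M L] [IsScalarTower (ZMod p) M L] {s : ℕ}

lemma psi_tower (x : L) : psi p L x = psi p M (Algebra.trace M L x) := by
  rw [psi_apply, psi_apply, Algebra.trace_trace]

variable (p M L) in
/-- nonsplit Kloosterman sum -/
noncomputable def Km (n : M) : ℂ :=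
  ∑ a ∈ univ.filter (fun a : L => Algebra.norm M a = n), psi p L a

variable (p M) in
/-- split Kloosterman sum -/
noncomputable def Kp (n : M) : ℂ :=
  ∑ z ∈ univ.filter (fun z : M × M => z.1 * z.2 = n), psi p M (z.1 + z.2)

lemma sum_psi : ∑ T : M, psi p M T = 0 := by
  have h := sum_mul_char (psi_prim (p := p) (L := M)) (1 : M)
  simpa using h

lemma pair_count (T n : M) : ((univ.filter (fun z : M × M => z.1 * z.2 = n)).filter
      (fun z => z.1 + z.2 = T)).card = (univ.filter fun x : M => x * (T - x) = n).card := by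
  symm
  refine card_bij (fun x _ => (x, T - x)) ?_ ?_ ?_
  · intro x hx
    rw [mem_filter] at hx
    rw [mem_filter, mem_filter]
    exact ⟨⟨mem_univ _, hx.2⟩, by simp⟩
  · intro x _ y _ h
    exact (Prod.mk.inj h).1
  · intro z hz
    rw [mem_filter, mem_filter] at hz
    have : z.2 = T - z.1 := by rw [← hz.2]; ring
    refine ⟨z.1, ?_, ?_⟩
    · rw [mem_filter]
      exact ⟨mem_univ _, by rw [← this]; exact hz.1.2⟩
    · rw [← this]

lemma Km_add_Kp (hML : Module.finrank M L = 2) (h2 : (2 : M) ≠ 0) (n : M) :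
    Km p M L n + Kp p M n = 0 := by
  have e1 : Km p M L n = ∑ T : M, ((univ.filter fun a : L => Algebra.trace M L a = T ∧
      Algebra.norm M a = n).card : ℂ) * psi p M T := by
    unfold Km
    rw [← sum_fiberwise_of_maps_to (g := fun a : L => Algebra.trace M L a) (t := univ)
      (fun _ _ => mem_univ _)]
    refine sum_congr rfl fun T _ => ?_
    rw [sum_congr rfl (g := fun _ => psi p M T)]
    · rw [sum_const, nsmul_eq_mul]
      congr 2
      apply congrArg
      ext a
      simp [and_comm]
    · intro a ha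
      rw [mem_filter] at ha
      rw [psi_tower (M := M), ha.2]
  have e2 : Kp p M n = ∑ T : M, ((univ.filter fun x : M => x * (T - x) = n).card : ℂ)
      * psi p M T := by
    unfold Kp
    rw [← sum_fiberwise_of_maps_to (g := fun z : M × M => z.1 + z.2) (t := univ)
      (fun _ _ => mem_univ _)]
    refine sum_congr rfl fun T _ => ?_
    rw [sum_congr rfl (g := fun _ => psi p M T)]
    · rw [sum_const, nsmul_eq_mul, pair_count]
    · intro a ha
      rw [mem_filter] at ha
      rw [ha.2]
  rw [e1, e2, ← sum_add_distrib]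
  have : ∀ T : M, ((univ.filter fun a : L => Algebra.trace M L a = T ∧
      Algebra.norm M a = n).card : ℂ) * psi p M T
      + ((univ.filter fun x : M => x * (T - x) = n).card : ℂ) * psi p M T = 2 * psi p M T := by
    intro T
    have h := count_two (L := L) hML h2 T n
    rw [← add_mul]
    congr 1
    exact_mod_cast h
  simp_rw [this]
  rw [← mul_sum, sum_psi, mul_zero]

/-- number of pairs with a given nonzero product -/
lemma card_pairs {n : M} (hn : n ≠ 0) :
    (univ.filter (fun z : M × M => z.1 * z.2 = n)).card = Fintype.card M - 1 := by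
  have : (univ.erase (0 : M)).card = Fintype.card M - 1 := by
    rw [card_erase_of_mem (mem_univ _), card_univ]
  rw [← this]
  symm
  refine card_bij (fun x _ => (x, x⁻¹ * n)) ?_ ?_ ?_
  · intro x hx
    rw [mem_filter]
    exact ⟨mem_univ _, mul_inv_cancel_left₀ (ne_of_mem_erase hx) n⟩
  · intro x _ y _ h
    exact (Prod.mk.inj h).1
  · intro z hz
    rw [mem_filter] at hz
    have h0 : z.1 ≠ 0 := by
      intro h
      apply hn
      rw [← hz.2, h, zero_mul]
    refine ⟨z.1, mem_erase.mpr ⟨h0, mem_univ _⟩, ?_⟩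
    rw [← hz.2, inv_mul_cancel_left₀ h0]

/-- number of elements of nonzero norm -/
lemma card_norm (hML : Module.finrank M L = 2) (h2 : (2 : M) ≠ 0) {n : M} (hn : n ≠ 0) :
    (univ.filter (fun a : L => Algebra.norm M a = n)).card = Fintype.card M + 1 := by
  have e1 : (univ.filter (fun a : L => Algebra.norm M a = n)).card
      = ∑ T : M, (univ.filter fun a : L => Algebra.trace M L a = T ∧ Algebra.norm M a = n).card := by
    rw [card_eq_sum_card_fiberwise (f := fun a : L => Algebra.trace M L a) (t := univ)
      (fun _ _ => mem_univ _)]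
    refine sum_congr rfl fun T _ => ?_
    apply congrArg
    ext a
    simp [and_comm]
  have e2 : (univ.filter (fun z : M × M => z.1 * z.2 = n)).card
      = ∑ T : M, (univ.filter fun x : M => x * (T - x) = n).card := by
    rw [card_eq_sum_card_fiberwise (f := fun z : M × M => z.1 + z.2) (t := univ)
      (fun _ _ => mem_univ _)]
    refine sum_congr rfl fun T _ => ?_
    rw [pair_count]
  have e3 : (univ.filter (fun a : L => Algebra.norm M a = n)).card
      + (univ.filter (fun z : M × M => z.1 * z.2 = n)).card = 2 * Fintype.card M := by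
    rw [e1, e2, ← sum_add_distrib, sum_congr rfl (fun T _ => count_two (L := L) hML h2 T n)]
    simp [mul_comm]
  rw [card_pairs hn] at e3
  have : 1 ≤ Fintype.card M := Fintype.card_pos
  omega

lemma coprime_sub (hML : Module.finrank M L = 2) (hs : Nat.Coprime s (Fintype.card L - 1)) :
    Nat.Coprime s (Fintype.card M - 1) := by
  refine Nat.Coprime.coprime_dvd_right ?_ hs
  rw [Module.card_eq_pow_finrank (K := M) (V := L), hML]
  simpa using Nat.sub_dvd_pow_sub_pow (Fintype.card M) 1 2

lemma norm_ne_zero {x : L} (hx : x ≠ 0) : Algebra.norm M x ≠ 0 := by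
  rw [Ne, Algebra.norm_eq_zero_iff]; exact hx

/-- sums over norm classes of Weil sums, nonsplit side -/
lemma sumW_L (hML : Module.finrank M L = 2) (h2 : (2 : M) ≠ 0) (hs0 : s ≠ 0)
    (hs : Nat.Coprime s (Fintype.card L - 1)) {m : M} (hm : m ≠ 0) :
    ∑ a ∈ univ.filter (fun a : L => Algebra.norm M a = m), Wc (psi p L) s a
      = (Fintype.card M + 1 : ℂ)
        + ∑ n ∈ univ.erase (0 : M), Km p M L (n ^ s) * Km p M L (n * m) := by
  have hsM := coprime_sub (M := M) hML hs
  unfold Wc
  rw [sum_comm]
  have e : ∀ x : L, ∑ a ∈ univ.filter (fun a : L => Algebra.norm M a = m),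
      psi p L (x ^ s - a * x) = psi p L (x ^ s)
        * ∑ a ∈ univ.filter (fun a : L => Algebra.norm M a = m), psi p L (-(a * x)) := by
    intro x
    rw [mul_sum]
    refine sum_congr rfl fun a _ => ?_
    rw [← AddChar.map_add_eq_mul, sub_eq_add_neg]
  simp_rw [e]
  rw [← add_sum_erase univ _ (mem_univ (0 : L))]
  congr 1
  · rw [zero_pow hs0]
    simp only [mul_zero, neg_zero, AddChar.map_zero_eq_one, one_mul, sum_const]
    rw [card_norm hML h2 hm]
    simp
  · -- nonzero x
    have e2 : ∀ x ∈ univ.erase (0 : L), psi p L (x ^ s)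
        * ∑ a ∈ univ.filter (fun a : L => Algebra.norm M a = m), psi p L (-(a * x))
        = psi p L (x ^ s) * Km p M L (Algebra.norm M x * m) := by
      intro x hx
      have hx0 : x ≠ 0 := ne_of_mem_erase hx
      congr 1
      unfold Km
      have hneg : Algebra.norm M (-x) = Algebra.norm M x := by
        apply mapinj (L := L)
        rw [map_norm hML, map_norm hML, cj_neg]; ring
      refine sum_bij' (fun a _ => -(a * x)) (fun b _ => -(b * x⁻¹)) ?_ ?_ ?_ ?_ ?_
      · intro a ha
        rw [mem_filter] at ha ⊢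
        refine ⟨mem_univ _, ?_⟩
        rw [← mul_neg, map_mul, hneg, ha.2, mul_comm]
      · intro b hb
        rw [mem_filter] at hb ⊢
        refine ⟨mem_univ _, ?_⟩
        have hneg' : Algebra.norm M (-x⁻¹) = (Algebra.norm M x)⁻¹ := by
          apply eq_inv_of_mul_eq_one_left
          rw [← hneg, ← map_mul, neg_mul_neg, inv_mul_cancel₀ hx0, map_one]
        rw [← mul_neg, map_mul, hneg', hb.2]
        have := norm_ne_zero (M := M) hx0
        field_simp
      · intro a _
        simp only [neg_mul, neg_neg]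
        rw [mul_assoc, mul_inv_cancel₀ hx0, mul_one]
      · intro b _
        simp only [neg_mul, neg_neg]
        rw [mul_assoc, inv_mul_cancel₀ hx0, mul_one]
      · intro a _; rfl
    rw [sum_congr rfl e2]
    rw [← sum_fiberwise_of_maps_to (g := fun x : L => Algebra.norm M x)
      (t := univ.erase (0 : M)) (fun x hx => mem_erase.mpr
        ⟨norm_ne_zero (ne_of_mem_erase hx), mem_univ _⟩)]
    refine sum_congr rfl fun n hn => ?_
    have hn0 : n ≠ 0 := ne_of_mem_erase hn
    have e3 : ∀ x ∈ (univ.erase (0 : L)).filter (fun x => Algebra.norm M x = n),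
        psi p L (x ^ s) * Km p M L (Algebra.norm M x * m)
          = psi p L (x ^ s) * Km p M L (n * m) := by
      intro x hx
      rw [(mem_filter.mp hx).2]
    rw [sum_congr rfl e3, ← sum_mul]
    congr 1
    unfold Km
    refine sum_bij (fun x _ => x ^ s) ?_ ?_ ?_ ?_
    · intro x hx
      rw [mem_filter] at hx ⊢
      exact ⟨mem_univ _, by rw [map_pow, hx.2]⟩
    · intro x _ y _ h
      exact (pow_bijective hs0 hs).1 h
    · intro y hy
      rw [mem_filter] at hy
      obtain ⟨x, hx⟩ := (pow_bijective hs0 hs).2 y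
      simp only at hx
      refine ⟨x, ?_, hx⟩
      rw [mem_filter, mem_erase]
      have h1 : Algebra.norm M x = n := by
        apply (pow_bijective hs0 hsM).1
        simp only
        rw [← map_pow, hx, hy.2]
      refine ⟨⟨?_, mem_univ _⟩, h1⟩
      rintro rfl
      apply hn0
      rw [← h1, Algebra.norm_zero]
    · intro x _; rfl

/-- sums over product classes of Weil sums, split side -/
lemma sumW_M (hs0 : s ≠ 0) (hs : Nat.Coprime s (Fintype.card M - 1)) {m : M} (hm : m ≠ 0) :
    ∑ z ∈ univ.filter (fun z : M × M => z.1 * z.2 = m), Wc (psi p M) s z.1 * Wc (psi p M) s z.2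
      = (Fintype.card M + 1 : ℂ)
        + ∑ n ∈ univ.erase (0 : M), Kp p M (n ^ s) * Kp p M (n * m) := by
  have e : ∀ z : M × M, Wc (psi p M) s z.1 * Wc (psi p M) s z.2
      = ∑ x : M × M, psi p M (x.1 ^ s + x.2 ^ s) * psi p M (-(z.1 * x.1 + z.2 * x.2)) := by
    intro z
    unfold Wc
    rw [sum_mul_sum, ← sum_product', univ_product_univ]
    refine sum_congr rfl fun x _ => ?_
    rw [← AddChar.map_add_eq_mul, ← AddChar.map_add_eq_mul]
    congr 1; ring
  simp_rw [e]
  rw [sum_comm]
  simp_rw [← mul_sum]
  rw [← sum_filter_add_sum_filter_not univ (fun x : M × M => x.1 * x.2 = 0)]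
  have hz1 : ∀ c : M, c ≠ 0 → ∑ z ∈ univ.filter (fun z : M × M => z.1 * z.2 = m),
      psi p M (-(z.1 * c)) = -1 := by
    intro c hc
    have h1 := sum_neg_mul_char (psi_prim (p := p) (L := M)) c
    rw [if_neg hc, ← add_sum_erase univ _ (mem_univ (0 : M))] at h1
    simp only [zero_mul, neg_zero, AddChar.map_zero_eq_one] at h1
    rw [eq_comm, neg_eq_of_add_eq_zero_right h1, eq_comm]
    refine sum_bij' (fun z _ => z.1) (fun x _ => (x, x⁻¹ * m)) ?_ ?_ ?_ ?_ ?_
    · intro z hz
      rw [mem_filter] at hz
      refine mem_erase.mpr ⟨?_, mem_univ _⟩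
      intro h; apply hm; rw [← hz.2, h, zero_mul]
    · intro x hx
      rw [mem_filter]
      exact ⟨mem_univ _, mul_inv_cancel_left₀ (ne_of_mem_erase hx) m⟩
    · intro z hz
      rw [mem_filter] at hz
      have h0 : z.1 ≠ 0 := by intro h; apply hm; rw [← hz.2, h, zero_mul]
      ext
      · rfl
      · simp only; rw [← hz.2, inv_mul_cancel_left₀ h0]
    · intro x _; rfl
    · intro z _; rfl
  have hz2 : ∀ c : M, c ≠ 0 → ∑ z ∈ univ.filter (fun z : M × M => z.1 * z.2 = m),
      psi p M (-(z.2 * c)) = -1 := by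
    intro c hc
    rw [← hz1 c hc]
    refine sum_bij' (fun z _ => z.swap) (fun z _ => z.swap) ?_ ?_ ?_ ?_ ?_
    · intro z hz
      rw [mem_filter] at hz ⊢
      exact ⟨mem_univ _, by rw [← hz.2]; exact mul_comm _ _⟩
    · intro z hz
      rw [mem_filter] at hz ⊢
      exact ⟨mem_univ _, by rw [← hz.2]; exact mul_comm _ _⟩
    · intro z _; simp
    · intro z _; simp
    · intro z _; simp
  congr 1
  · -- degenerate pairs
    have hset : (univ.filter (fun x : M × M => x.1 * x.2 = 0))
        = insert (0, 0) (((univ.erase (0 : M)).image (fun c => (c, (0 : M))))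
          ∪ ((univ.erase (0 : M)).image (fun c => ((0 : M), c)))) := by
      ext ⟨x, y⟩
      simp only [mem_filter, mem_univ, true_and, mem_insert, mem_union, mem_image, mem_erase,
        Prod.mk.injEq]
      rw [mul_eq_zero]
      constructor
      · rintro (rfl | rfl)
        · by_cases hy : y = 0
          · left; exact ⟨rfl, hy⟩
          · right; right; exact ⟨y, ⟨hy, trivial⟩, rfl, rfl⟩
        · by_cases hx : x = 0
          · left; exact ⟨hx, rfl⟩
          · right; left; exact ⟨x, ⟨hx, trivial⟩, rfl, rfl⟩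
      · rintro (⟨rfl, rfl⟩ | ⟨c, _, _, rfl⟩ | ⟨c, _, rfl, _⟩)
        · left; rfl
        · right; rfl
        · left; rfl
    rw [hset, sum_insert, sum_union, sum_image, sum_image]
    · simp only [zero_pow hs0, add_zero, zero_add, mul_zero, neg_zero,
        AddChar.map_zero_eq_one, one_mul, sum_const]
      rw [card_pairs hm]
      have h3 : ∑ x ∈ univ.erase (0 : M), psi p M (x ^ s)
          * ∑ z ∈ univ.filter (fun z : M × M => z.1 * z.2 = m), psi p M (-(z.1 * x)) = 1 := by
        rw [sum_congr rfl (fun x hx => by rw [hz1 x (ne_of_mem_erase hx)])]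
        rw [← sum_mul]
        have h4 := sum_pow_char_ne (psi_prim (p := p) (L := M)) hs0 hs (1 : M)
        simp only [mul_one] at h4
        rw [h4]; simp
      have h3' : ∑ x ∈ univ.erase (0 : M), psi p M (x ^ s)
          * ∑ z ∈ univ.filter (fun z : M × M => z.1 * z.2 = m), psi p M (-(z.2 * x)) = 1 := by
        rw [sum_congr rfl (fun x hx => by rw [hz2 x (ne_of_mem_erase hx)])]
        rw [← sum_mul]
        have h4 := sum_pow_char_ne (psi_prim (p := p) (L := M)) hs0 hs (1 : M)
        simp only [mul_one] at h4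
        rw [h4]; simp
      rw [h3, h3']
      have : 1 ≤ Fintype.card M := Fintype.card_pos
      rw [nsmul_eq_mul, mul_one, Nat.cast_sub this]
      push_cast; ring
    · intro x _ y _ h; exact (Prod.mk.inj h).2
    · intro x _ y _ h; exact (Prod.mk.inj h).1
    · rw [disjoint_left]
      rintro ⟨x, y⟩ h1 h2
      simp only [mem_image, mem_erase, mem_univ, and_true, Prod.mk.injEq] at h1 h2
      obtain ⟨c, hc, rfl, rfl⟩ := h1
      obtain ⟨d, hd, h, _⟩ := h2
      exact hc h.symm
    · simp only [mem_union, mem_image, mem_erase, mem_univ, and_true, Prod.mk.injEq, not_or,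
        not_exists, not_and]
      exact ⟨fun c hc h => absurd h hc, fun c hc _ => hc⟩
  · -- nondegenerate pairs
    have e2 : ∀ x ∈ univ.filter (fun x : M × M => ¬ x.1 * x.2 = 0), psi p M (x.1 ^ s + x.2 ^ s)
        * ∑ z ∈ univ.filter (fun z : M × M => z.1 * z.2 = m), psi p M (-(z.1 * x.1 + z.2 * x.2))
        = psi p M (x.1 ^ s + x.2 ^ s) * Kp p M (x.1 * x.2 * m) := by
      intro x hx
      rw [mem_filter] at hx
      have h1 : x.1 ≠ 0 := fun h => hx.2 (by rw [h, zero_mul])
      have h2 : x.2 ≠ 0 := fun h => hx.2 (by rw [h, mul_zero])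
      congr 1
      unfold Kp
      refine sum_bij' (fun z _ => (-(z.1 * x.1), -(z.2 * x.2)))
        (fun z _ => (-(z.1 * x.1⁻¹), -(z.2 * x.2⁻¹))) ?_ ?_ ?_ ?_ ?_
      · intro z hz
        rw [mem_filter] at hz ⊢
        refine ⟨mem_univ _, ?_⟩
        simp only
        rw [← hz.2]; ring
      · intro z hz
        rw [mem_filter] at hz ⊢
        refine ⟨mem_univ _, ?_⟩
        simp only
        field_simp
        rw [hz.2]
      · intro z _
        ext
        · simp only [neg_mul, neg_neg]; rw [mul_assoc, mul_inv_cancel₀ h1, mul_one]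
        · simp only [neg_mul, neg_neg]; rw [mul_assoc, mul_inv_cancel₀ h2, mul_one]
      · intro z _
        ext
        · simp only [neg_mul, neg_neg]; rw [mul_assoc, inv_mul_cancel₀ h1, mul_one]
        · simp only [neg_mul, neg_neg]; rw [mul_assoc, inv_mul_cancel₀ h2, mul_one]
      · intro z _
        simp only
        congr 1; ring
    rw [sum_congr rfl e2]
    rw [← sum_fiberwise_of_maps_to (g := fun x : M × M => x.1 * x.2)
      (t := univ.erase (0 : M)) (fun x hx => mem_erase.mpr
        ⟨(mem_filter.mp hx).2, mem_univ _⟩)]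
    refine sum_congr rfl fun n hn => ?_
    have hn0 : n ≠ 0 := ne_of_mem_erase hn
    have e3 : ∀ x ∈ (univ.filter (fun x : M × M => ¬ x.1 * x.2 = 0)).filter
        (fun x => x.1 * x.2 = n), psi p M (x.1 ^ s + x.2 ^ s) * Kp p M (x.1 * x.2 * m)
          = psi p M (x.1 ^ s + x.2 ^ s) * Kp p M (n * m) := by
      intro x hx
      rw [(mem_filter.mp hx).2]
    rw [sum_congr rfl e3, ← sum_mul]
    congr 1
    unfold Kp
    refine sum_bij (fun x _ => (x.1 ^ s, x.2 ^ s)) ?_ ?_ ?_ ?_
    · intro x hx
      rw [mem_filter] at hx ⊢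
      exact ⟨mem_univ _, by simp only; rw [← mul_pow, hx.2]⟩
    · intro x _ y _ h
      ext
      · exact (pow_bijective hs0 hs).1 (Prod.mk.inj h).1
      · exact (pow_bijective hs0 hs).1 (Prod.mk.inj h).2
    · intro y hy
      rw [mem_filter] at hy
      obtain ⟨x1, hx1⟩ := (pow_bijective hs0 hs).2 y.1
      obtain ⟨x2, hx2⟩ := (pow_bijective hs0 hs).2 y.2
      simp only at hx1 hx2
      refine ⟨(x1, x2), ?_, by simp only; rw [hx1, hx2]⟩
      have h1 : x1 * x2 = n := by
        apply (pow_bijective hs0 hs).1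
        simp only
        rw [mul_pow, hx1, hx2, hy.2]
      rw [mem_filter, mem_filter]
      exact ⟨⟨mem_univ _, by simp only; rw [h1]; exact hn0⟩, h1⟩
    · intro x _; rfl

/-- the two sides agree -/
lemma sumW_eq (hML : Module.finrank M L = 2) (h2 : (2 : M) ≠ 0) (hs0 : s ≠ 0)
    (hs : Nat.Coprime s (Fintype.card L - 1)) {m : M} (hm : m ≠ 0) :
    ∑ a ∈ univ.filter (fun a : L => Algebra.norm M a = m), Wc (psi p L) s a
      = ∑ z ∈ univ.filter (fun z : M × M => z.1 * z.2 = m),
        Wc (psi p M) s z.1 * Wc (psi p M) s z.2 := by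
  rw [sumW_L hML h2 hs0 hs hm, sumW_M hs0 (coprime_sub hML hs) hm]
  congr 1
  refine sum_congr rfl fun n _ => ?_
  have h1 := Km_add_Kp (p := p) (L := L) hML h2 (n ^ s)
  have h3 := Km_add_Kp (p := p) (L := L) hML h2 (n * m)
  rw [eq_neg_of_add_eq_zero_left h1, eq_neg_of_add_eq_zero_left h3]; ring

lemma sumw_eq (hsp : ∀ nu : ZMod p, nu ^ s = nu) (hML : Module.finrank M L = 2)
    (h2 : (2 : M) ≠ 0) (hs0 : s ≠ 0)
    (hs : Nat.Coprime s (Fintype.card L - 1)) {m : M} (hm : m ≠ 0) :
    ∑ a ∈ univ.filter (fun a : L => Algebra.norm M a = m), w p L s a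
      = ∑ z ∈ univ.filter (fun z : M × M => z.1 * z.2 = m),
        w p M s z.1 * w p M s z.2 := by
  have h := sumW_eq (p := p) hML h2 hs0 hs hm
  simp_rw [Wc_eq_w hsp] at h
  exact_mod_cast h

end

end Hel
end

section

set_option autoImplicit false
set_option linter.unusedSectionVars false

open Finset

namespace Hel

/-- In the semigroup algebra of the multiplicative monoid of a finite field over its prime field
an element with zero square is zero. -/
lemma conv_sq_zero {p : ℕ} [Fact p.Prime] {M : Type*} [Field M] [Fintype M] [DecidableEq M]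
    [Algebra (ZMod p) M] (c : M → ZMod p)
    (h : ∀ m : M, ∑ z ∈ univ.filter (fun z : M × M => z.1 * z.2 = m), c z.1 * c z.2 = 0)
    (b : M) : c b = 0 := by
  set G : MonoidAlgebra (ZMod p) M := ∑ b : M, MonoidAlgebra.single b (c b) with hG
  have : CharP (MonoidAlgebra (ZMod p) M) p :=
    charP_of_injective_algebraMap (algebraMap (ZMod p) (MonoidAlgebra (ZMod p) M)).injective p
  have hcard : Fintype.card M = p ^ Module.finrank (ZMod p) M := card_eq p M
  have hGG : G * G = 0 := by
    rw [hG, sum_mul_sum, ← sum_product', univ_product_univ]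
    simp_rw [MonoidAlgebra.single_mul_single]
    rw [← sum_fiberwise_of_maps_to (g := fun z : M × M => z.1 * z.2) (t := univ)
      (fun _ _ => mem_univ _)]
    refine sum_eq_zero fun m _ => ?_
    rw [sum_congr rfl (g := fun z => MonoidAlgebra.single m (c z.1 * c z.2))]
    · have := map_sum (MonoidAlgebra.singleAddHom (R := ZMod p) m)
        (fun z : M × M => c z.1 * c z.2) (univ.filter (fun z : M × M => z.1 * z.2 = m))
      rw [h m] at this
      simpa using this.symm
    · intro z hz
      rw [(mem_filter.mp hz).2]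
  have hGQ : G ^ Fintype.card M = G := by
    rw [hcard, hG, sum_pow_char_pow]
    refine sum_congr rfl fun b _ => ?_
    rw [MonoidAlgebra.single_pow, ← hcard, FiniteField.pow_card, hcard, ZMod.pow_card_pow]
  have hG0 : G = 0 := by
    have h2 : 2 ≤ Fintype.card M := Fintype.one_lt_card
    obtain ⟨k, hk⟩ := Nat.exists_eq_add_of_le h2
    rw [← hGQ, hk, pow_add, sq, hGG, zero_mul]
  have h5 := congrArg (fun x : MonoidAlgebra (ZMod p) M => x.coeff b) hG0
  simp only [hG, MonoidAlgebra.coeff_sum, MonoidAlgebra.coeff_single, Finsupp.coe_finsetSum,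
    Finset.sum_apply, MonoidAlgebra.coeff_zero, Finsupp.coe_zero, Pi.zero_apply] at h5
  rw [sum_eq_single b] at h5
  · simpa using h5
  · intro b' _ hne
    rw [Finsupp.single_apply, if_neg hne]
  · intro h; exact absurd (mem_univ _) h

section

variable {p : ℕ} [Fact p.Prime] {M : Type*} [Field M] [Fintype M] [DecidableEq M]
  {L : Type*} [Field L] [Fintype L] [DecidableEq L] [Algebra (ZMod p) M] [Algebra (ZMod p) L]
  [Algebra M L] [IsScalarTower (ZMod p) M L] {s : ℕ}

/-- divisibility descends to the subfield -/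
lemma star_div (hsp : ∀ nu : ZMod p, nu ^ s = nu) (hML : Module.finrank M L = 2)
    (h2 : (2 : M) ≠ 0) (hs0 : s ≠ 0) (hs : Nat.Coprime s (Fintype.card L - 1)) {r : ℕ}
    (h : ∀ a : L, (p : ℤ) ^ r ∣ w p L s a) : ∀ i : ℕ, 2 * i ≤ r + 1 → ∀ b : M,
    (p : ℤ) ^ i ∣ w p M s b := by
  have hp0 : (p : ℤ) ≠ 0 := by exact_mod_cast (Fact.out : p.Prime).ne_zero
  intro i
  induction i with
  | zero => intro _ b; simp
  | succ i ih =>
    intro hi
    have ih' := ih (by omega)
    choose c hc using ih'
    have hc0 : c 0 = 0 := by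
      have h0 := w_zero hsp hs0 (coprime_sub (M := M) hML hs) (p := p)
      rw [hc 0] at h0
      exact (mul_eq_zero.mp h0).resolve_left (pow_ne_zero _ hp0)
    have key := conv_sq_zero (p := p) (fun b : M => (c b : ZMod p)) ?_
    · intro b
      have := key b
      rw [ZMod.intCast_zmod_eq_zero_iff_dvd] at this
      obtain ⟨d, hd⟩ := this
      exact ⟨d, by rw [hc b, hd, pow_succ]; ring⟩
    · intro m
      by_cases hm : m = 0
      · refine sum_eq_zero fun z hz => ?_
        rw [mem_filter, hm, mul_eq_zero] at hz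
        rcases hz.2 with h3 | h3
        · rw [h3, hc0]; simp
        · rw [h3, hc0]; simp
      · have e := sumw_eq (p := p) hsp hML h2 hs0 hs hm
        have e2 : ∑ z ∈ univ.filter (fun z : M × M => z.1 * z.2 = m), w p M s z.1 * w p M s z.2
            = (p : ℤ) ^ (2 * i) * ∑ z ∈ univ.filter (fun z : M × M => z.1 * z.2 = m),
              c z.1 * c z.2 := by
          rw [mul_sum]
          refine sum_congr rfl fun z _ => ?_
          rw [hc z.1, hc z.2, two_mul, pow_add]; ring
        rw [e2] at e
        have e3 : (p : ℤ) ^ (2 * i + 1) ∣ (p : ℤ) ^ (2 * i)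
            * ∑ z ∈ univ.filter (fun z : M × M => z.1 * z.2 = m), c z.1 * c z.2 := by
          rw [← e]
          refine dvd_sum fun a _ => ?_
          exact (pow_dvd_pow _ (by omega)).trans (h a)
        rw [pow_succ, mul_dvd_mul_iff_left (pow_ne_zero _ hp0)] at e3
        have e4 := (ZMod.intCast_zmod_eq_zero_iff_dvd _ p).mpr e3
        push_cast at e4
        exact e4

/-- an element of trace zero -/
lemma exists_eps (hML : Module.finrank M L = 2) : ∃ e : L, e ≠ 0 ∧ cj M e = -e := by
  have : ∃ c : L, cj M c ≠ c := by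
    by_contra hcon
    push Not at hcon
    have hsurj : Function.Surjective (algebraMap M L) := fun x => exists_of_cj_eq (hcon x)
    have h1 : Fintype.card L ≤ Fintype.card M := Fintype.card_le_of_surjective _ hsurj
    have hc : Fintype.card L = Fintype.card M ^ 2 := by
      rw [Module.card_eq_pow_finrank (K := M) (V := L), hML]
    have h3 : 1 < Fintype.card M := Fintype.one_lt_card
    nlinarith
  obtain ⟨c, hc⟩ := this
  refine ⟨c - cj M c, ?_, ?_⟩
  · intro h; exact hc (sub_eq_zero.mp h).symm
  · rw [cj_sub, cj_cj hML]; ring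

lemma trace_zero_iff (hML : Module.finrank M L = 2) {e : L} (he : e ≠ 0) (hce : cj M e = -e)
    (x : L) : Algebra.trace M L x = 0 ↔ ∃ m : M, algebraMap M L m * e = x := by
  rw [trace_eq_iff hML, map_zero]
  constructor
  · intro h
    have h1 : cj M (x * e⁻¹) = x * e⁻¹ := by
      have h2 : cj M (x * e⁻¹) * cj M e = cj M x := by
        rw [← cj_mul, mul_assoc, inv_mul_cancel₀ he, mul_one]
      rw [hce] at h2
      have h3 : cj M x = -x := by linear_combination h
      rw [h3] at h2
      have h4 : cj M (x * e⁻¹) * e = x := by linear_combination -h2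
      rw [eq_mul_inv_iff_mul_eq₀ he]; exact h4
    obtain ⟨m, hm⟩ := exists_of_cj_eq h1
    refine ⟨m, ?_⟩
    rw [hm, mul_assoc, inv_mul_cancel₀ he, mul_one]
  · rintro ⟨m, rfl⟩
    rw [cj_mul, cj_map, hce]; ring

/-- sums of Weil sums over affine `M`-lines -/
lemma line_sum_c (hML : Module.finrank M L = 2) (hs0 : s ≠ 0)
    (hs : Nat.Coprime s (Fintype.card L - 1)) (a0 : L) {t : L} (ht : t ≠ 0) :
    (∃ b : M, ∑ m : M, Wc (psi p L) s (a0 + t * algebraMap M L m)
      = Fintype.card M * Wc (psi p M) s b) ∨
    (∑ m : M, Wc (psi p L) s (a0 + t * algebraMap M L m) = (Fintype.card M : ℂ) ^ 2) ∨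
    (∑ m : M, Wc (psi p L) s (a0 + t * algebraMap M L m) = 0) := by
  obtain ⟨e, he, hce⟩ := exists_eps (M := M) (L := L) hML
  have hsM := coprime_sub (M := M) hML hs
  set tau : L := e * t⁻¹ with htau
  have h1 : ∑ m : M, Wc (psi p L) s (a0 + t * algebraMap M L m)
      = Fintype.card M * ∑ m : M, psi p M (Algebra.trace M L (tau ^ s) * m ^ s
        - Algebra.trace M L (a0 * tau) * m) := by
    unfold Wc
    rw [sum_comm]
    have e1 : ∀ x : L, ∑ m : M, psi p L (x ^ s - (a0 + t * algebraMap M L m) * x)
        = psi p L (x ^ s - a0 * x) *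
          (if Algebra.trace M L (t * x) = 0 then (Fintype.card M : ℂ) else 0) := by
      intro x
      rw [← sum_neg_mul_char (psi_prim (p := p) (L := M)), mul_sum]
      refine sum_congr rfl fun m _ => ?_
      have e2 : psi p M (-(m * Algebra.trace M L (t * x)))
          = psi p L (-(t * algebraMap M L m * x)) := by
        rw [psi_tower (M := M) (L := L)]
        congr 1
        have : -(t * algebraMap M L m * x) = (-m) • (t * x) := by
          rw [Algebra.smul_def, map_neg]; ring
        rw [this, map_smul, smul_eq_mul]; ring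
      rw [e2, ← AddChar.map_add_eq_mul]
      congr 1; ring
    simp_rw [e1]
    rw [mul_sum]
    have e3 : ∀ x : L, psi p L (x ^ s - a0 * x) *
          (if Algebra.trace M L (t * x) = 0 then (Fintype.card M : ℂ) else 0)
        = if Algebra.trace M L (t * x) = 0 then
          Fintype.card M * psi p L (x ^ s - a0 * x) else 0 := by
      intro x; split_ifs <;> ring
    simp_rw [e3]
    rw [← sum_filter]
    symm
    refine sum_bij (fun m _ => algebraMap M L m * tau) ?_ ?_ ?_ ?_
    · intro m _
      rw [mem_filter]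
      refine ⟨mem_univ _, ?_⟩
      rw [trace_zero_iff hML he hce]
      refine ⟨m, ?_⟩
      rw [htau]; field_simp
    · intro m _ m' _ h
      apply mapinj (L := L)
      have htau0 : tau ≠ 0 := mul_ne_zero he (inv_ne_zero ht)
      exact mul_right_cancel₀ htau0 h
    · intro x hx
      rw [mem_filter, trace_zero_iff hML he hce] at hx
      obtain ⟨m, hm⟩ := hx.2
      refine ⟨m, mem_univ _, ?_⟩
      rw [htau, ← mul_assoc, hm]; field_simp
    · intro m _
      congr 1
      rw [psi_tower (M := M) (L := L)]
      congr 1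
      have : (algebraMap M L m * tau) ^ s - a0 * (algebraMap M L m * tau)
          = m ^ s • tau ^ s - m • (a0 * tau) := by
        rw [Algebra.smul_def, Algebra.smul_def, mul_pow, map_pow]; ring
      rw [this, map_sub, map_smul, map_smul, smul_eq_mul, smul_eq_mul]; ring
  by_cases h0 : Algebra.trace M L (tau ^ s) = 0
  · right
    rw [h1, h0]
    have h3 := sum_neg_mul_char (psi_prim (p := p) (L := M)) (Algebra.trace M L (a0 * tau))
    have h4 : ∀ m : M, psi p M (0 * m ^ s - Algebra.trace M L (a0 * tau) * m)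
        = psi p M (-(m * Algebra.trace M L (a0 * tau))) := by
      intro m; congr 1; ring
    simp_rw [h4, h3]
    split_ifs
    · left; ring
    · right; ring
  · left
    obtain ⟨c, hc⟩ := (pow_bijective hs0 hsM).2 (Algebra.trace M L (tau ^ s))
    simp only at hc
    have hc0 : c ≠ 0 := by
      rintro rfl
      apply h0
      rw [← hc, zero_pow hs0]
    refine ⟨Algebra.trace M L (a0 * tau) * c⁻¹, ?_⟩
    rw [h1]
    congr 1
    unfold Wc
    have hb : Function.Bijective (fun m : M => c * m) := by
      rw [← Finite.injective_iff_bijective]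
      intro x y h
      exact mul_left_cancel₀ hc0 h
    refine Fintype.sum_bijective _ hb _ _ fun m => ?_
    congr 1
    rw [← hc, mul_pow]
    field_simp

lemma line_sum (hsp : ∀ nu : ZMod p, nu ^ s = nu) (hML : Module.finrank M L = 2) (hs0 : s ≠ 0)
    (hs : Nat.Coprime s (Fintype.card L - 1)) (a0 : L) {t : L} (ht : t ≠ 0) :
    (∃ b : M, ∑ m : M, w p L s (a0 + t * algebraMap M L m)
      = Fintype.card M * w p M s b) ∨
    (∑ m : M, w p L s (a0 + t * algebraMap M L m) = (Fintype.card M : ℤ) ^ 2) ∨
    (∑ m : M, w p L s (a0 + t * algebraMap M L m) = 0) := by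
  have h := line_sum_c (p := p) hML hs0 hs a0 ht
  simp_rw [Wc_eq_w hsp] at h
  exact_mod_cast h

/-- the base lemma: degenerate on the subfield -/
lemma base (hsp : ∀ nu : ZMod p, nu ^ s = nu) (hML : Module.finrank M L = 2) (hs0 : s ≠ 0)
    (hs : Nat.Coprime s (Fintype.card L - 1)) (hdeg : Degen p M s) (a : L) :
    (Fintype.card M : ℤ) ∣ w p L s a ∧ -(Fintype.card M : ℤ) ≤ w p L s a := by
  obtain ⟨b, hb⟩ := hdeg
  have hsM := coprime_sub (M := M) hML hs
  have hp0 : (p : ℤ) ≠ 0 := by exact_mod_cast (Fact.out : p.Prime).ne_zero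
  have hcnt : cnt p M s b 1 = 0 := by
    unfold w at hb
    have : (p : ℤ) * cnt p M s b 1 = 0 := by linarith
    rcases mul_eq_zero.mp this with h | h
    · exact absurd h hp0
    · exact_mod_cast h
  have htr : ∀ x : M, Algebra.trace (ZMod p) M (x ^ s - b * x) = 0 := by
    intro x
    by_contra hne
    have h1 := cnt_scale (p := p) (L := M) hsp b hne
    rw [hcnt] at h1
    unfold cnt at h1
    rw [card_eq_zero, filter_eq_empty_iff] at h1
    exact h1 (mem_univ x) rfl
  have hpsi : ∀ x : M, psi p M (x ^ s) = psi p M (b * x) := by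
    intro x
    rw [psi_apply, psi_apply]
    congr 1
    have := htr x
    rw [map_sub, sub_eq_zero] at this
    exact this
  have hQ1 : 1 ≤ Fintype.card M := Fintype.card_pos
  -- the key count
  have key : ((Fintype.card M : ℂ) - 1) * (Wc (psi p L) s a - 1)
      = ∑ x ∈ univ.erase (0 : L), ∑ m ∈ univ.erase (0 : M),
        psi p M (m ^ s * Algebra.trace M L (x ^ s) - m * Algebra.trace M L (a * x)) := by
    rw [sum_comm]
    have e1 : ∀ m ∈ univ.erase (0 : M), ∑ x ∈ univ.erase (0 : L),
        psi p M (m ^ s * Algebra.trace M L (x ^ s) - m * Algebra.trace M L (a * x))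
        = Wc (psi p L) s a - 1 := by
      intro m hm
      have hm0 : m ≠ 0 := ne_of_mem_erase hm
      unfold Wc
      rw [← add_sum_erase univ _ (mem_univ (0 : L))]
      simp only [zero_pow hs0, mul_zero, sub_zero, AddChar.map_zero_eq_one, add_sub_cancel_left]
      have hm1 : algebraMap M L m ≠ 0 := by rwa [Ne, map_eq_zero]
      refine sum_bij' (fun x _ => algebraMap M L m * x) (fun x _ => (algebraMap M L m)⁻¹ * x)
        ?_ ?_ ?_ ?_ ?_
      · intro x hx
        exact mem_erase.mpr ⟨mul_ne_zero hm1 (ne_of_mem_erase hx), mem_univ _⟩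
      · intro x hx
        exact mem_erase.mpr ⟨mul_ne_zero (inv_ne_zero hm1) (ne_of_mem_erase hx), mem_univ _⟩
      · intro x _; exact inv_mul_cancel_left₀ hm1 x
      · intro x _; exact mul_inv_cancel_left₀ hm1 x
      · intro x _
        rw [psi_tower (M := M) (L := L)]
        congr 1
        have : (algebraMap M L m * x) ^ s - a * (algebraMap M L m * x)
            = m ^ s • x ^ s - m • (a * x) := by
          rw [Algebra.smul_def, Algebra.smul_def, mul_pow, map_pow]; ring
        rw [this, map_sub, map_smul, map_smul, smul_eq_mul, smul_eq_mul]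
    rw [sum_congr rfl e1, sum_const, card_erase_of_mem (mem_univ _), card_univ, nsmul_eq_mul,
      Nat.cast_sub hQ1]
    push_cast; ring
  have key2 : ∃ K : ℕ, ((Fintype.card M : ℂ) - 1) * (Wc (psi p L) s a - 1)
      = Fintype.card M * K - (Fintype.card M ^ 2 - 1) := by
    choose c hc using (pow_bijective hs0 hsM).2
    simp only at hc
    refine ⟨((univ.erase (0 : L)).filter fun x =>
      b * c (Algebra.trace M L (x ^ s)) - Algebra.trace M L (a * x) = 0).card, ?_⟩
    rw [key]
    have e2 : ∀ x : L, ∑ m ∈ univ.erase (0 : M),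
        psi p M (m ^ s * Algebra.trace M L (x ^ s) - m * Algebra.trace M L (a * x))
        = (if b * c (Algebra.trace M L (x ^ s)) - Algebra.trace M L (a * x) = 0
          then (Fintype.card M : ℂ) else 0) - 1 := by
      intro x
      have h1 := sum_mul_char (psi_prim (p := p) (L := M))
        (b * c (Algebra.trace M L (x ^ s)) - Algebra.trace M L (a * x))
      rw [← h1, ← add_sum_erase univ _ (mem_univ (0 : M))]
      simp only [zero_mul, AddChar.map_zero_eq_one, add_sub_cancel_left]
      refine sum_congr rfl fun m _ => ?_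
      have h3 : psi p M (m ^ s * Algebra.trace M L (x ^ s))
          = psi p M (b * (m * c (Algebra.trace M L (x ^ s)))) := by
        rw [← hpsi, mul_pow, hc]
      rw [sub_eq_add_neg, AddChar.map_add_eq_mul, h3, ← AddChar.map_add_eq_mul]
      congr 1; ring
    simp_rw [e2]
    rw [sum_sub_distrib, ← sum_filter, sum_const, sum_const, nsmul_eq_mul,
      card_erase_of_mem (mem_univ _), card_univ]
    have hc : Fintype.card L = Fintype.card M ^ 2 := by
      rw [Module.card_eq_pow_finrank (K := M) (V := L), hML]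
    have hL1 : 1 ≤ Fintype.card L := Fintype.card_pos
    rw [nsmul_eq_mul, Nat.cast_sub hL1, hc]
    push_cast; ring
  obtain ⟨K, hK⟩ := key2
  rw [Wc_eq_w hsp] at hK
  have hKz : ((Fintype.card M : ℤ) - 1) * (w p L s a - 1)
      = Fintype.card M * K - (Fintype.card M ^ 2 - 1) := by exact_mod_cast hK
  have hfin : ((Fintype.card M : ℤ) - 1) * (w p L s a + Fintype.card M)
      = Fintype.card M * K := by linear_combination hKz
  constructor
  · have h1 : (Fintype.card M : ℤ) ∣ ((Fintype.card M : ℤ) - 1) * (w p L s a + Fintype.card M) :=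
      ⟨K, hfin⟩
    have hco : IsCoprime (Fintype.card M : ℤ) ((Fintype.card M : ℤ) - 1) := ⟨1, -1, by ring⟩
    have h3 := hco.dvd_of_dvd_mul_left h1
    have h4 := dvd_sub h3 (dvd_refl (Fintype.card M : ℤ))
    simpa using h4
  · have hM1 : (0 : ℤ) < (Fintype.card M : ℤ) - 1 := by
      have : 1 < Fintype.card M := Fintype.one_lt_card
      have : (1 : ℤ) < Fintype.card M := by exact_mod_cast this
      linarith
    have h5 : 0 ≤ ((Fintype.card M : ℤ) - 1) * (w p L s a + Fintype.card M) := by
      rw [hfin]; positivity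
    have h6 := nonneg_of_mul_nonneg_right h5 hM1
    linarith

end

end Hel
end

section

set_option autoImplicit false
set_option linter.unusedSectionVars false

open Finset

namespace Hel

/-- the inductive property -/
def TowerP (p : ℕ) [Fact p.Prime] (L : Type*) [Field L] [Fintype L] [DecidableEq L]
    [Algebra (ZMod p) L] (s : ℕ) : Prop :=
  Degen p L s ∨ ∃ a : L, ¬ (p : ℤ) ^ (Module.finrank (ZMod p) L / 2 + 1) ∣ w p L s a

section

variable {p : ℕ} [Fact p.Prime] {M : Type*} [Field M] [Fintype M] [DecidableEq M]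
  {L : Type*} [Field L] [Fintype L] [DecidableEq L] [Algebra (ZMod p) M] [Algebra (ZMod p) L]
  [Algebra M L] [IsScalarTower (ZMod p) M L] {s : ℕ}

lemma finrank_two (hML : Module.finrank M L = 2) :
    Module.finrank (ZMod p) L = 2 * Module.finrank (ZMod p) M := by
  rw [← Module.finrank_mul_finrank (ZMod p) M L, hML, mul_comm]

lemma tower_step (hsp : ∀ nu : ZMod p, nu ^ s = nu) (hML : Module.finrank M L = 2)
    (h2 : (2 : M) ≠ 0) (hs0 : s ≠ 0) (hs : Nat.Coprime s (Fintype.card L - 1)) (hodd : Odd s)
    (hM : TowerP p M s) : TowerP p L s := by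
  have hp0 : (0 : ℤ) < (p : ℤ) := by exact_mod_cast (Fact.out : p.Prime).pos
  by_contra hcon
  unfold TowerP at hcon
  push Not at hcon
  obtain ⟨hnd, hdiv⟩ := hcon
  rw [finrank_two (p := p) hML, Nat.mul_div_cancel_left _ (by norm_num : 0 < 2)] at hdiv
  have hMd : Degen p M s := by
    rcases hM with h | ⟨b, hb⟩
    · exact h
    · exact absurd (star_div hsp hML h2 hs0 hs hdiv
        (Module.finrank (ZMod p) M / 2 + 1) (by omega) b) hb
  apply hnd
  apply degen_of_nonneg hsp hs0 hs hodd
  intro a
  have h1 := (base hsp hML hs0 hs hMd a).2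
  obtain ⟨c, hc⟩ := hdiv a
  rw [hc, card_eq p M] at h1
  rw [hc]
  push_cast at h1
  have hpos : (0 : ℤ) < (p : ℤ) ^ Module.finrank (ZMod p) M := pow_pos hp0 _
  rw [pow_succ] at h1
  have hc0 : 0 ≤ c := by
    by_contra hneg
    push Not at hneg
    have h5 : (p : ℤ) ^ Module.finrank (ZMod p) M * (-1)
        ≤ (p : ℤ) ^ Module.finrank (ZMod p) M * (p * c) := by linarith
    have h6 := le_of_mul_le_mul_left h5 hpos
    have h7 : (2 : ℤ) ≤ p := by exact_mod_cast (Fact.out : p.Prime).two_le
    nlinarith
  positivity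

lemma degen_of_finrank_one (hsp : ∀ nu : ZMod p, nu ^ s = nu)
    (h1 : Module.finrank (ZMod p) L = 1) : Degen p L s := by
  refine ⟨1, ?_⟩
  have hsurj : Function.Surjective (algebraMap (ZMod p) L) := by
    have hc : Fintype.card L = Fintype.card (ZMod p) := by
      rw [card_eq p L, h1, ZMod.card, pow_one]
    exact ((Fintype.bijective_iff_injective_and_card _).mpr
      ⟨(algebraMap (ZMod p) L).injective, hc.symm⟩).2
  have : cnt p L s 1 1 = 0 := by
    unfold cnt
    rw [card_eq_zero, filter_eq_empty_iff]
    intro x _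
    obtain ⟨y, rfl⟩ := hsurj x
    rw [← map_pow, hsp, one_mul, sub_self, map_zero]
    exact zero_ne_one
  unfold w
  rw [this]; simp

end

lemma two_ne (p : ℕ) [Fact p.Prime] (hp2 : p ≠ 2) (L : Type*) [Field L] [Algebra (ZMod p) L] :
    (2 : L) ≠ 0 := by
  intro h
  have h1 : algebraMap (ZMod p) L 2 = 0 := by rw [map_ofNat]; exact h
  rw [map_eq_zero] at h1
  have h3 : ((2 : ℕ) : ZMod p) = 0 := by exact_mod_cast h1
  rw [ZMod.natCast_eq_zero_iff] at h3
  have h4 := Nat.le_of_dvd (by norm_num) h3
  have := (Fact.out : p.Prime).two_le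
  omega

/-- existence of the quadratic subfield -/
lemma exists_sub (p : ℕ) [Fact p.Prime] (L : Type*) [Field L] [Fintype L]
    [Algebra (ZMod p) L] {h : ℕ} (hh : Module.finrank (ZMod p) L = 2 * h) :
    ∃ (M : Type) (_ : Field M) (_ : Fintype M) (_ : DecidableEq M) (_ : Algebra (ZMod p) M)
      (_ : Algebra M L) (_ : IsScalarTower (ZMod p) M L),
      Module.finrank (ZMod p) M = h ∧ Module.finrank M L = 2 := by
  have hne := finrank_ne p L
  have hh0 : h ≠ 0 := by rintro rfl; exact hne hh
  have hfr : Module.finrank (ZMod p) (GaloisField p h) = h := GaloisField.finrank p hh0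
  have hdvd : Module.finrank (ZMod p) (GaloisField p h) ∣ Module.finrank (ZMod p) L := by
    rw [hfr, hh]; exact dvd_mul_left _ _
  obtain ⟨f⟩ := FiniteField.nonempty_algHom_of_finrank_dvd hdvd
  let _ : Algebra (GaloisField p h) L := f.toRingHom.toAlgebra
  have : IsScalarTower (ZMod p) (GaloisField p h) L :=
    IsScalarTower.of_algebraMap_eq' f.comp_algebraMap.symm
  refine ⟨GaloisField p h, inferInstance, Fintype.ofFinite _, Classical.decEq _, inferInstance,
    inferInstance, inferInstance, hfr, ?_⟩
  have := Module.finrank_mul_finrank (ZMod p) (GaloisField p h) L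
  rw [hfr, hh, mul_comm] at this
  exact Nat.eq_of_mul_eq_mul_right (Nat.pos_of_ne_zero hh0) this

/-- divisibility in the tower, universe 0 -/
lemma tower0 {p : ℕ} [Fact p.Prime] (hp2 : p ≠ 2) {s : ℕ} (hsp : ∀ nu : ZMod p, nu ^ s = nu)
    (hs0 : s ≠ 0) (hodd : Odd s) : ∀ (k : ℕ) (L : Type) [Field L] [Fintype L] [DecidableEq L]
    [Algebra (ZMod p) L], Module.finrank (ZMod p) L = 2 ^ k →
      Nat.Coprime s (Fintype.card L - 1) → TowerP p L s := by
  intro k
  induction k with
  | zero =>
    intro L _ _ _ _ hk _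
    left
    exact degen_of_finrank_one hsp (by rw [hk, pow_zero])
  | succ k ih =>
    intro L _ _ _ _ hk hs
    rw [pow_succ, mul_comm] at hk
    obtain ⟨M, _, _, _, _, _, _, h1, h2⟩ := exists_sub p L hk
    exact tower_step hsp h2 (two_ne p hp2 M) hs0 hs hodd
      (ih M h1 (coprime_sub h2 hs))

/-- divisibility in the tower -/
lemma tower {p : ℕ} [Fact p.Prime] (hp2 : p ≠ 2) {s : ℕ} (hsp : ∀ nu : ZMod p, nu ^ s = nu)
    (hs0 : s ≠ 0) (hodd : Odd s) (k : ℕ) (L : Type*) [Field L] [Fintype L] [DecidableEq L]
    [Algebra (ZMod p) L] (hk : Module.finrank (ZMod p) L = 2 ^ k)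
      (hs : Nat.Coprime s (Fintype.card L - 1)) : TowerP p L s := by
  rcases k with _ | k
  · left
    exact degen_of_finrank_one hsp (by rw [hk, pow_zero])
  · rw [pow_succ, mul_comm] at hk
    obtain ⟨M, _, _, _, _, _, _, h1, h2⟩ := exists_sub p L hk
    exact tower_step hsp h2 (two_ne p hp2 M) hs0 hs hodd
      (tower0 hp2 hsp hs0 hodd k M h1 (coprime_sub h2 hs))

end Hel
end
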