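import Mathlib
import Pool.Agent.Lib.MP_baea4e_nt.Canon
import Pool.Agent.Lib.MP_baea4e_nt.Tower

section

section

set_option autoImplicit false

open Finset

namespace Hel

lemma core_le {p α β a b h c D d E : ℕ} (hp : p.Prime) (hα : ¬ p ∣ α) (hβ : ¬ p ∣ β)
    (hD : ¬ p ∣ D) (hd0 : 0 < d) (hdE : d ≤ E)
    (hE : p ^ (2 * h) * E = (p ^ a * α) * (p ^ b * β))
    (h1 : p ^ a * α * (p ^ c * D) ∣ (p ^ (2 * h)) ^ 2 * d)
    (h2 : p ^ b * β * (p ^ c * D) ∣ (p ^ (2 * h)) ^ 2 * d) :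
    2 * h ≤ a + b ∧ Nat.lcm α β * D ∣ d ∧ D ≤ p ^ (a + b - 2 * h) * Nat.gcd α β
      ∧ E = p ^ (a + b - 2 * h) * (α * β) := by
  have hα0 : 0 < α := Nat.pos_of_ne_zero (by rintro rfl; exact hα (dvd_zero _))
  have hβ0 : 0 < β := Nat.pos_of_ne_zero (by rintro rfl; exact hβ (dvd_zero _))
  have cop : ∀ (x k : ℕ), ¬ p ∣ x → Nat.Coprime x (p ^ k) := fun x k hx =>
    Nat.Coprime.pow_right _ (((Nat.Prime.coprime_iff_not_dvd hp).mpr hx).symm)
  have hαβ : ¬ p ∣ α * β := by rw [hp.dvd_mul]; tauto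
  have hE' : p ^ (2 * h) * E = p ^ (a + b) * (α * β) := by rw [hE, pow_add]; ring
  have hle : 2 * h ≤ a + b := by
    have h3 : p ^ (2 * h) ∣ p ^ (a + b) * (α * β) := ⟨E, hE'.symm⟩
    have h4 := (cop _ (2 * h) hαβ).symm.dvd_of_dvd_mul_right h3
    exact (Nat.pow_dvd_pow_iff_le_right hp.one_lt).mp h4
  have hE2 : E = p ^ (a + b - 2 * h) * (α * β) := by
    apply Nat.eq_of_mul_eq_mul_left (pow_pos hp.pos (2 * h))
    have e5 : p ^ (a + b) = p ^ (2 * h) * p ^ (a + b - 2 * h) := by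
      rw [← pow_add]; congr 1; omega
    rw [hE', e5]; ring
  have hD1 : α * D ∣ d := by
    have h3 : α * D ∣ (p ^ (2 * h)) ^ 2 * d := by
      refine Dvd.dvd.trans ⟨p ^ a * p ^ c, by ring⟩ h1
    have h5 : ¬ p ∣ α * D := by rw [hp.dvd_mul]; tauto
    rw [← pow_mul] at h3
    exact (cop _ _ h5).dvd_of_dvd_mul_left h3
  have hD2 : β * D ∣ d := by
    have h3 : β * D ∣ (p ^ (2 * h)) ^ 2 * d := by
      refine Dvd.dvd.trans ⟨p ^ b * p ^ c, by ring⟩ h2
    have h5 : ¬ p ∣ β * D := by rw [hp.dvd_mul]; tauto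
    rw [← pow_mul] at h3
    exact (cop _ _ h5).dvd_of_dvd_mul_left h3
  have hl : Nat.lcm α β * D ∣ d := by
    rw [← Nat.lcm_mul_right]; exact Nat.lcm_dvd hD1 hD2
  refine ⟨hle, hl, ?_, hE2⟩
  have h6 : Nat.lcm α β * D ≤ p ^ (a + b - 2 * h) * (α * β) := by
    rw [← hE2]; exact (Nat.le_of_dvd hd0 hl).trans hdE
  rw [← Nat.gcd_mul_lcm α β] at h6
  have hlpos : 0 < Nat.lcm α β := Nat.lcm_pos hα0 hβ0
  apply Nat.le_of_mul_le_mul_left _ hlpos
  calc Nat.lcm α β * D ≤ _ := h6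
    _ = _ := by ring

/-- valuations of the two nonzero values -/
lemma val_core {p α β a b h d E : ℕ} (hp : p.Prime) (hα : ¬ p ∣ α) (hβ : ¬ p ∣ β)
    (hd0 : 0 < d) (hdE : d ≤ E)
    (hE : p ^ (2 * h) * E = (p ^ a * α) * (p ^ b * β))
    (h1 : p ^ a * α * (p ^ a * α + p ^ b * β) ∣ (p ^ (2 * h)) ^ 2 * d)
    (h2 : p ^ b * β * (p ^ a * α + p ^ b * β) ∣ (p ^ (2 * h)) ^ 2 * d)
    (hab : a ≤ h ∨ b ≤ h) :
    a = h ∧ b = h ∧ (∃ e, α + β = p ^ e * Nat.gcd α β) ∧ E = α * β := by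
  have hα0 : 0 < α := Nat.pos_of_ne_zero (by rintro rfl; exact hα (dvd_zero _))
  have hβ0 : 0 < β := Nat.pos_of_ne_zero (by rintro rfl; exact hβ (dvd_zero _))
  have hg1 : Nat.gcd α β ≤ α := Nat.gcd_le_left _ hα0
  have hg2 : Nat.gcd α β ≤ β := Nat.gcd_le_right _ hβ0
  have hg0 : 0 < Nat.gcd α β := Nat.gcd_pos_of_pos_left _ hα0
  rcases Nat.lt_trichotomy a b with hlt | heq | hgt
  · exfalso
    have hs : p ^ a * α + p ^ b * β = p ^ a * (α + p ^ (b - a) * β) := by
      have : p ^ b = p ^ a * p ^ (b - a) := by rw [← pow_add]; congr 1; omega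
      rw [this]; ring
    have hD : ¬ p ∣ α + p ^ (b - a) * β := by
      intro h
      apply hα
      have : p ∣ p ^ (b - a) * β := (dvd_pow_self _ (by omega)).mul_right _
      exact (Nat.dvd_add_left this).mp h
    rw [hs] at h1 h2
    obtain ⟨k1, _, k2, _⟩ := core_le hp hα hβ hD hd0 hdE hE h1 h2
    have hah : a ≤ h := by omega
    have k3 : p ^ (b - a) * Nat.gcd α β < p ^ (a + b - 2 * h) * Nat.gcd α β := by
      calc p ^ (b - a) * Nat.gcd α β ≤ p ^ (b - a) * β := Nat.mul_le_mul_left _ hg2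
        _ < α + p ^ (b - a) * β := by omega
        _ ≤ _ := k2
    have k4 := Nat.lt_of_mul_lt_mul_right k3
    have k5 := (Nat.pow_lt_pow_iff_right hp.one_lt).mp k4
    omega
  · subst heq
    obtain ⟨e, D, hDe, hD⟩ : ∃ e D, α + β = p ^ e * D ∧ ¬ p ∣ D := by
      obtain ⟨c, hc, hc2⟩ := (Nat.finiteMultiplicity_iff.mpr
        ⟨hp.ne_one, (by omega : 0 < α + β)⟩).exists_eq_pow_mul_and_not_dvd
      exact ⟨_, c, hc, hc2⟩
    have hs : p ^ a * α + p ^ a * β = p ^ (a + e) * D := by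
      rw [← mul_add, hDe, pow_add]; ring
    rw [hs] at h1 h2
    obtain ⟨k1, k3, k2, k4⟩ := core_le hp hα hβ hD hd0 hdE hE h1 h2
    have hah : a = h := by omega
    subst hah
    have e0 : a + a - 2 * a = 0 := by omega
    rw [e0, pow_zero, one_mul] at k2 k4
    have hgD : Nat.gcd α β ∣ D := by
      have h5 : Nat.gcd α β ∣ p ^ e * D := by
        rw [← hDe]; exact Nat.dvd_add (Nat.gcd_dvd_left _ _) (Nat.gcd_dvd_right _ _)
      have h6 : Nat.Coprime (Nat.gcd α β) (p ^ e) := by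
        apply Nat.Coprime.pow_right
        have : Nat.Coprime p α := (Nat.Prime.coprime_iff_not_dvd hp).mpr hα
        exact (this.coprime_dvd_right (Nat.gcd_dvd_left _ _)).symm
      exact h6.dvd_of_dvd_mul_left h5
    have hDpos : 0 < D := Nat.pos_of_ne_zero (by rintro rfl; exact hD (dvd_zero _))
    have hDg : D = Nat.gcd α β := le_antisymm k2 (Nat.le_of_dvd hDpos hgD)
    exact ⟨rfl, rfl, ⟨e, by rw [← hDg]; exact hDe⟩, k4⟩
  · exfalso
    have hs : p ^ a * α + p ^ b * β = p ^ b * (p ^ (a - b) * α + β) := by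
      have : p ^ a = p ^ b * p ^ (a - b) := by rw [← pow_add]; congr 1; omega
      rw [this]; ring
    have hD : ¬ p ∣ p ^ (a - b) * α + β := by
      intro h
      apply hβ
      have : p ∣ p ^ (a - b) * α := (dvd_pow_self _ (by omega)).mul_right _
      exact (Nat.dvd_add_right this).mp h
    rw [hs] at h1 h2
    obtain ⟨k1, _, k2, _⟩ := core_le hp hα hβ hD hd0 hdE hE h1 h2
    have k3 : p ^ (a - b) * Nat.gcd α β < p ^ (a + b - 2 * h) * Nat.gcd α β := by
      calc p ^ (a - b) * Nat.gcd α β ≤ p ^ (a - b) * α := Nat.mul_le_mul_left _ hg1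
        _ < p ^ (a - b) * α + β := by omega
        _ ≤ _ := k2
    have k4 := Nat.lt_of_mul_lt_mul_right k3
    have k5 := (Nat.pow_lt_pow_iff_right hp.one_lt).mp k4
    omega

/-- the divisibility constraints on the two nonzero values -/
lemma final_arith {p α β h e NA NB : ℕ} (hp : p.Prime) (hp5 : 5 ≤ p) (hh : 1 ≤ h)
    (hα : ¬ p ∣ α) (hβ : ¬ p ∣ β) (hab : α + β = p ^ e) (hco : Nat.Coprime α β)
    (hNA : 1 ≤ NA)
    (e1 : -((α : ℤ) * NA) + β * NB = (p : ℤ) ^ h)
    (e2 : (α : ℤ) ^ 2 * NA + (β : ℤ) ^ 2 * NB = ((p : ℤ) ^ h) ^ 2)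
    (hd1 : (2 : ℤ) ≤ ((β : ℤ) - α) * (p : ℤ) ^ h + α * β) :
    1 ≤ e ∧ 2 * e ≤ h ∧ α < β ∧ α ∣ p ^ (h - e) - 1 ∧ β ∣ p ^ (h - e) + 1 ∧
    (α : ℤ) * β * (NA + NB) = (p : ℤ) ^ h * ((p : ℤ) ^ h + α - β) := by
  have hα0 : 0 < α := Nat.pos_of_ne_zero (by rintro rfl; exact hα (dvd_zero _))
  have hβ0 : 0 < β := Nat.pos_of_ne_zero (by rintro rfl; exact hβ (dvd_zero _))
  obtain ⟨Q, hQ⟩ : ∃ Q : ℕ, Q = p ^ h := ⟨_, rfl⟩
  have hQz : (p : ℤ) ^ h = Q := by rw [hQ]; push_cast; rfl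
  rw [hQz] at e1 e2 hd1
  rw [hQz]
  have hQpos : 0 < Q := by rw [hQ]; exact pow_pos hp.pos _
  have habz : (α : ℤ) + β = (p : ℤ) ^ e := by exact_mod_cast hab
  have he1 : 1 ≤ e := by
    by_contra hcon
    have : e = 0 := by omega
    subst this
    rw [pow_zero] at hab
    omega
  have r1 : (α : ℤ) * (p : ℤ) ^ e * NA = Q * (Q - β) := by
    rw [← habz]; linear_combination e2 - (β : ℤ) * e1
  have r2 : (β : ℤ) * (p : ℤ) ^ e * NB = Q * (Q + α) := by
    rw [← habz]; linear_combination e2 + (α : ℤ) * e1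
  -- β < Q
  have hβQ : β < Q := by
    have h1 : (0 : ℤ) < Q * (Q - β) := by
      rw [← r1]
      have : (0 : ℤ) < NA := by exact_mod_cast hNA
      have hpz : (0 : ℤ) < p := by exact_mod_cast hp.pos
      have : (0 : ℤ) < α := by exact_mod_cast hα0
      positivity
    have h2 : (0 : ℤ) < Q := by exact_mod_cast hQpos
    have h3 := pos_of_mul_pos_right h1 h2.le
    have : (β : ℤ) < Q := by linarith
    exact_mod_cast this
  have r1n : α * p ^ e * NA = Q * (Q - β) := by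
    zify [hβQ.le]; exact r1
  have r2n : β * p ^ e * NB = Q * (Q + α) := by
    zify; exact r2
  have hpQβ : ¬ p ∣ Q - β := by
    intro h
    have hpQ : p ∣ Q := by rw [hQ]; exact dvd_pow_self _ (by omega)
    apply hβ
    have := (Nat.dvd_sub_iff_right hβQ.le hpQ).mp h
    exact this
  -- e ≤ h
  have heh : e ≤ h := by
    have h1 : p ^ e ∣ Q * (Q - β) := ⟨α * NA, by rw [← r1n]; ring⟩
    have h2 : Nat.Coprime (p ^ e) (Q - β) :=
      Nat.Coprime.pow_left _ ((Nat.Prime.coprime_iff_not_dvd hp).mpr hpQβ)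
    have h3 := h2.dvd_of_dvd_mul_right h1
    rw [hQ] at h3
    exact (Nat.pow_dvd_pow_iff_le_right hp.one_lt).mp h3
  have hQe : Q = p ^ e * p ^ (h - e) := by rw [hQ, ← pow_add]; congr 1; omega
  have copp : ∀ (x k : ℕ), ¬ p ∣ x → Nat.Coprime x (p ^ k) := fun x k hx =>
    Nat.Coprime.pow_right _ (((Nat.Prime.coprime_iff_not_dvd hp).mpr hx).symm)
  have hpe1 : 1 ≤ p ^ (h - e) := Nat.one_le_pow _ _ hp.pos
  have hαd : α ∣ p ^ (h - e) - 1 := by
    have h1 : α ∣ Q * (Q - β) := ⟨p ^ e * NA, by rw [← r1n]; ring⟩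
    have h2 : Nat.Coprime α Q := by rw [hQ]; exact copp α h hα
    have h3 := h2.dvd_of_dvd_mul_left h1
    have h4 : α ∣ p ^ e * (p ^ (h - e) - 1) := by
      have h5 : p ^ e * (p ^ (h - e) - 1) + α = Q - β := by
        rw [Nat.mul_sub, ← hQe, mul_one]
        have : p ^ e ≤ Q := by rw [hQe]; exact Nat.le_mul_of_pos_right _ (by omega)
        omega
      have h6 : α ∣ p ^ e * (p ^ (h - e) - 1) + α := by
        rw [h5]; exact h3
      exact (Nat.dvd_add_left (dvd_refl α)).mp h6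
    exact (copp α e hα).dvd_of_dvd_mul_left h4
  have hβd : β ∣ p ^ (h - e) + 1 := by
    have h1 : β ∣ Q * (Q + α) := ⟨p ^ e * NB, by rw [← r2n]; ring⟩
    have h2 : Nat.Coprime β Q := by rw [hQ]; exact copp β h hβ
    have h3 := h2.dvd_of_dvd_mul_left h1
    have h4 : β ∣ p ^ e * (p ^ (h - e) + 1) := by
      have h5 : p ^ e * (p ^ (h - e) + 1) = Q + α + β := by
        rw [Nat.mul_add, ← hQe, mul_one]
        omega
      rw [h5]; exact Nat.dvd_add h3 (dvd_refl _)
    exact (copp β e hβ).dvd_of_dvd_mul_left h4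
  have hpo : Odd p := hp.odd_of_ne_two (by omega)
  have hne : α ≠ β := by
    intro h
    have h1 : Odd (α + β) := by rw [hab]; exact hpo.pow
    rw [h] at h1
    exact (Nat.not_odd_iff_even.mpr ⟨β, rfl⟩) h1
  have hpe5 : 5 ≤ p ^ e := by
    calc 5 ≤ p := hp5
      _ = p ^ 1 := (pow_one p).symm
      _ ≤ p ^ e := Nat.pow_le_pow_right hp.pos he1
  have hlt : α < β := by
    by_contra hcon
    push Not at hcon
    have hgt : β < α := lt_of_le_of_ne hcon (Ne.symm hne)
    rcases Nat.lt_or_ge e h with hlt | hge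
    · -- α < p^{h-e}
      have h1 : α ≤ p ^ (h - e) - 1 := by
        apply Nat.le_of_dvd _ hαd
        have : p ^ 1 ≤ p ^ (h - e) := Nat.pow_le_pow_right hp.pos (by omega)
        rw [pow_one] at this
        omega
      have h2 : 2 * β < p ^ e := by omega
      have h3 : 2 * (α * β) ≤ Q := by
        calc 2 * (α * β) = α * (2 * β) := by ring
          _ ≤ p ^ (h - e) * p ^ e := Nat.mul_le_mul (by omega) (by omega)
          _ = Q := by rw [hQe]; ring
      have h4 : (2 : ℤ) * (α * β) ≤ Q := by exact_mod_cast h3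
      have h5 : ((β : ℤ) - α) * Q ≤ -1 * Q := by
        apply mul_le_mul_of_nonneg_right _ (by positivity)
        have : (β : ℤ) < α := by exact_mod_cast hgt
        linarith
      have h6 : (0 : ℤ) < Q := by exact_mod_cast hQpos
      linarith
    · have : e = h := by omega
      subst this
      have h1 : β ≤ 2 := by
        rw [Nat.sub_self, pow_zero] at hβd
        exact Nat.le_of_dvd (by norm_num) hβd
      have hQab : (Q : ℤ) = α + β := by rw [← hQz, habz]
      have hQ5 : (5 : ℤ) ≤ Q := by rw [hQ]; exact_mod_cast hpe5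
      have hαz : (α : ℤ) = Q - β := by linarith
      rw [hαz] at hd1
      have hb2 : β = 1 ∨ β = 2 := by omega
      rcases hb2 with h | h
      · rw [h] at hd1; push_cast at hd1; nlinarith
      · rw [h] at hd1; push_cast at hd1; nlinarith
  refine ⟨he1, ?_, hlt, hαd, hβd, ?_⟩
  · by_contra hcon
    push Not at hcon
    have h1 : β ≤ p ^ (h - e) + 1 := Nat.le_of_dvd (by omega) hβd
    have h2 : p ^ e < 2 * β := by omega
    have h3 : p ^ (h - e) * p ≤ p ^ e := by
      rw [← pow_succ]; exact Nat.pow_le_pow_right hp.pos (by omega)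
    have h4 : p ^ (h - e) * 5 ≤ p ^ (h - e) * p := Nat.mul_le_mul_left _ hp5
    omega
  · have hpe0 : ((p : ℤ) ^ e) ≠ 0 := by
      have := hp.pos
      positivity
    apply mul_left_cancel₀ hpe0
    rw [← habz] at r1 r2 ⊢
    linear_combination (β : ℤ) * r1 + (α : ℤ) * r2

/-- the numerical consequence of the line count -/
lemma line_arith {p α β h e S : ℕ} (hp : p.Prime) (hp5 : 5 ≤ p)
    (hab : α + β = p ^ e) (he : 1 ≤ e) (h2e : 2 * e ≤ h) (hlt : α < β) (hα0 : 0 < α)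
    (hβd : β ∣ p ^ (h - e) + 1)
    (hS : (α : ℤ) * β * S = (p : ℤ) ^ h * ((p : ℤ) ^ h + α - β))
    (hline : (p ^ h + 1) * (p ^ e - 1) ≤ S - 1) (hS1 : 1 ≤ S) :
    2 * e < h ∧ α * β * (p ^ e - 1) < p ^ h := by
  obtain ⟨Q, hQ⟩ : ∃ Q : ℕ, Q = p ^ h := ⟨_, rfl⟩
  have hQz : (p : ℤ) ^ h = Q := by rw [hQ]; push_cast; rfl
  rw [hQz] at hS
  rw [← hQ] at hline ⊢
  have hpe1 : 1 ≤ p ^ e := Nat.one_le_pow _ _ hp.pos
  have hpe5 : 5 ≤ p ^ e := by
    calc 5 ≤ p := hp5
      _ = p ^ 1 := (pow_one p).symm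
      _ ≤ p ^ e := Nat.pow_le_pow_right hp.pos he
  have hlz : ((Q : ℤ) + 1) * ((p : ℤ) ^ e - 1) + 1 ≤ S := by
    have h1 : (Q + 1) * (p ^ e - 1) + 1 ≤ S := by omega
    zify [hpe1] at h1
    exact h1
  have hpez : (5 : ℤ) ≤ (p : ℤ) ^ e := by exact_mod_cast hpe5
  obtain ⟨P, hP⟩ : ∃ P : ℤ, P = (p : ℤ) ^ e := ⟨_, rfl⟩
  rw [← hP] at hlz hpez
  have hαz : (0 : ℤ) < α := by exact_mod_cast hα0
  have hβz : (0 : ℤ) < β := by exact_mod_cast (by omega : 0 < β)
  have hQpos : (0 : ℤ) < Q := by rw [hQ]; exact_mod_cast pow_pos hp.pos h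
  have hltz : (α : ℤ) + 1 ≤ β := by exact_mod_cast hlt
  have hmain : (α : ℤ) * β * (((Q : ℤ) + 1) * (P - 1) + 1) ≤ Q * (Q + α - β) := by
    rw [← hS]
    exact mul_le_mul_of_nonneg_left hlz (by positivity)
  constructor
  · rcases Nat.lt_or_ge (2 * e) h with h1 | h1
    · exact h1
    · exfalso
      have hh : h = 2 * e := by omega
      have he2 : h - e = e := by omega
      rw [he2] at hβd
      obtain ⟨c, hc⟩ := hβd
      -- c = 2
      have hc2 : c = 2 := by
        have hc0 : c ≠ 0 := by rintro rfl; omega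
        have hc1 : c ≠ 1 := by
          rintro rfl
          omega
        have hc3 : c < 3 := by
          by_contra hcon
          push Not at hcon
          have : β * 3 ≤ β * c := Nat.mul_le_mul_left _ hcon
          omega
        omega
      subst hc2
      -- 2β = p^e + 1, 2α = p^e - 1
      have hβP : 2 * (β : ℤ) = P + 1 := by
        rw [hP]; have : ((p ^ e + 1 : ℕ) : ℤ) = ((β * 2 : ℕ) : ℤ) := by rw [hc]
        push_cast at this; linarith
      have hαP : 2 * (α : ℤ) = P - 1 := by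
        have : (α : ℤ) + β = P := by rw [hP]; exact_mod_cast hab
        linarith
      have hQP : (Q : ℤ) = P ^ 2 := by
        rw [← hQz, hh, hP]; ring
      have h4 : 4 * ((α : ℤ) * β) = Q - 1 := by
        rw [hQP]; linear_combination (2 * (β : ℤ)) * hαP + (P - 1) * hβP
      have h5 : (α : ℤ) - β = -1 := by linarith
      have h6 : ((Q : ℤ) - 1) * ((Q + 1) * (P - 1) + 1) ≤ 4 * (Q * (Q - 1)) := by
        calc ((Q : ℤ) - 1) * ((Q + 1) * (P - 1) + 1)
            = 4 * ((α : ℤ) * β * (((Q : ℤ) + 1) * (P - 1) + 1)) := by rw [← h4]; ring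
          _ ≤ 4 * (Q * (Q + α - β)) := by linarith
          _ = _ := by
            have : (Q : ℤ) + α - β = Q - 1 := by linarith
            rw [this]
      have hQ1 : (0 : ℤ) < Q - 1 := by
        rw [← h4]; positivity
      have h7 : ((Q : ℤ) + 1) * (P - 1) + 1 ≤ 4 * Q := by
        have : ((Q : ℤ) - 1) * ((Q + 1) * (P - 1) + 1) ≤ (Q - 1) * (4 * Q) := by linarith
        exact le_of_mul_le_mul_left this hQ1
      have h8 : ((Q : ℤ) + 1) * 4 ≤ (Q + 1) * (P - 1) :=
        mul_le_mul_of_nonneg_left (by linarith) (by linarith)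
      linarith
  · have hab1 : (0 : ℤ) < (α : ℤ) * β := by positivity
    have h1 : (α : ℤ) * β * (P - 1) * (Q + 1) < Q * (Q + 1) := by
      have h2 : (α : ℤ) * β * (((Q : ℤ) + 1) * (P - 1) + 1)
        = (α : ℤ) * β * (P - 1) * (Q + 1) + α * β := by ring
      have h3 : (Q : ℤ) * (Q + α - β) ≤ Q * Q :=
        mul_le_mul_of_nonneg_left (by linarith) hQpos.le
      nlinarith
    have h3 : (α : ℤ) * β * (P - 1) < Q := lt_of_mul_lt_mul_right h1 (by linarith)
    rw [hP] at h3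
    zify [hpe1]
    exact h3

end Hel
end

section

set_option autoImplicit false

open Finset

namespace Hel

lemma int_val {p : ℕ} (hp : p.Prime) {A : ℤ} (hA : A ≠ 0) :
    ∃ (a : ℕ) (A' : ℤ), A = (p : ℤ) ^ a * A' ∧ ¬ (p : ℤ) ∣ A' := by
  have hf : FiniteMultiplicity (p : ℤ) A := by
    rw [Int.finiteMultiplicity_iff]
    exact ⟨by simpa using hp.ne_one, hA⟩
  obtain ⟨c, hc, hc2⟩ := hf.exists_eq_pow_mul_and_not_dvd
  exact ⟨_, c, hc, hc2⟩

lemma nat_val {p : ℕ} (hp : p.Prime) {A : ℕ} (hA : A ≠ 0) :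
    ∃ (a : ℕ) (A' : ℕ), A = p ^ a * A' ∧ ¬ p ∣ A' := by
  obtain ⟨c, hc, hc2⟩ := (Nat.finiteMultiplicity_iff.mpr
    ⟨hp.ne_one, Nat.pos_of_ne_zero hA⟩).exists_eq_pow_mul_and_not_dvd
  exact ⟨_, c, hc, hc2⟩

/-- size contradiction -/
lemma size_aux {p q x y A B C NA NB NC : ℤ} (hp5 : 5 ≤ p) (hy1 : 1 ≤ y) (hx : 0 < x)
    (hxy : q = y * x) (g7 : 25 * y ^ 2 ≤ q) (hNA : 0 ≤ NA) (hNB : 0 ≤ NB) (hNC : 0 ≤ NC)
    (hAy : p * y ≤ |A|) (hBx : x ≤ |B|) (hCx : x ≤ |C|)
    (e1 : NA + NB + NC = q - 1) (e2 : NA * A + NB * B + NC * C = q)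
    (e3 : NA * A ^ 2 + NB * B ^ 2 + NC * C ^ 2 = q ^ 2) : False := by
  have hqpos : 0 < q := by rw [hxy]; positivity
  have hNANN : 0 ≤ NA * A ^ 2 := by positivity
  have hBsq : B ^ 2 = |B| ^ 2 := (sq_abs B).symm
  have hCsq : C ^ 2 = |C| ^ 2 := (sq_abs C).symm
  have g1 : (NB + NC) * x ^ 2 ≤ q ^ 2 := by
    have h1 : NB * x ^ 2 ≤ NB * B ^ 2 := by
      rw [hBsq]; exact mul_le_mul_of_nonneg_left (pow_le_pow_left₀ hx.le hBx 2) hNB
    have h2 : NC * x ^ 2 ≤ NC * C ^ 2 := by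
      rw [hCsq]; exact mul_le_mul_of_nonneg_left (pow_le_pow_left₀ hx.le hCx 2) hNC
    linarith
  have g2 : NB + NC ≤ y ^ 2 := by
    rw [hxy] at g1
    have h1 : (NB + NC) * x ^ 2 ≤ y ^ 2 * x ^ 2 := by rw [← mul_pow]; exact g1
    exact le_of_mul_le_mul_right h1 (by positivity)
  have g3 : (NB * |B| + NC * |C|) * x ≤ q ^ 2 := by
    have h1 : NB * |B| * x ≤ NB * B ^ 2 := by
      rw [hBsq, mul_assoc, sq]
      exact mul_le_mul_of_nonneg_left (mul_le_mul_of_nonneg_left hBx (abs_nonneg _)) hNB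
    have h2 : NC * |C| * x ≤ NC * C ^ 2 := by
      rw [hCsq, mul_assoc, sq]
      exact mul_le_mul_of_nonneg_left (mul_le_mul_of_nonneg_left hCx (abs_nonneg _)) hNC
    linarith
  have g4 : NB * |B| + NC * |C| ≤ q * y := by
    have h1 : (NB * |B| + NC * |C|) * x ≤ (q * y) * x := by
      have : q * y * x = q ^ 2 := by rw [hxy]; ring
      rw [this]; exact g3
    exact le_of_mul_le_mul_right h1 hx
  have g5 : NA * |A| ≤ q + q * y := by
    have h1 : NA * |A| = |NA * A| := by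
      rw [abs_mul, abs_of_nonneg hNA]
    have h2 : NA * A = q - NB * B - NC * C := by linear_combination e2
    rw [h1, h2]
    have h3 : |q - NB * B - NC * C| ≤ |q| + |NB * B| + |NC * C| := by
      refine (abs_sub _ _).trans ?_
      have := abs_sub q (NB * B)
      linarith
    rw [abs_of_pos hqpos, abs_mul, abs_mul, abs_of_nonneg hNB, abs_of_nonneg hNC] at h3
    linarith
  have g8 : (q - 1 - y ^ 2) * (5 * y) ≤ q + q * y := by
    have h1 : q - 1 - y ^ 2 ≤ NA := by linarith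
    have h2 : 5 * y ≤ |A| := le_trans (mul_le_mul_of_nonneg_right hp5 (by linarith)) hAy
    calc (q - 1 - y ^ 2) * (5 * y) ≤ NA * |A| :=
          mul_le_mul h1 h2 (by linarith) hNA
      _ ≤ _ := g5
  have hy2 : 1 ≤ y ^ 2 := one_le_pow₀ hy1
  have g9 : 23 * q ≤ 25 * (q - 1 - y ^ 2) := by linarith
  have g10 : 23 * q * (5 * y) ≤ 25 * (q + q * y) := by
    calc 23 * q * (5 * y) ≤ 25 * (q - 1 - y ^ 2) * (5 * y) :=
          mul_le_mul_of_nonneg_right g9 (by linarith)
      _ = 25 * ((q - 1 - y ^ 2) * (5 * y)) := by ring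
      _ ≤ _ := by linarith
  have g11 : q * 1 ≤ q * y := mul_le_mul_of_nonneg_left hy1 hqpos.le
  have g12 : 23 * q * (5 * y) = 115 * (q * y) := by ring
  have g13 : 0 < q * y := by positivity
  linarith

/-- main inequality for three nonzero values, with the value of small valuation first -/
lemma nonzero_aux {p h : ℕ} (hp : p.Prime) (hp5 : 5 ≤ p)
    {A B C : ℤ} {NA NB NC : ℕ} (hA0 : A ≠ 0) (hB0 : B ≠ 0) (hC0 : C ≠ 0)
    (hNA : 1 ≤ NA) (hNB : 1 ≤ NB) (hNC : 1 ≤ NC)
    (e1 : (NA : ℤ) + NB + NC = (p : ℤ) ^ (2 * h) - 1)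
    (e2 : (NA : ℤ) * A + NB * B + NC * C = (p : ℤ) ^ (2 * h))
    (e3 : (NA : ℤ) * A ^ 2 + NB * B ^ 2 + NC * C ^ 2 = ((p : ℤ) ^ (2 * h)) ^ 2)
    {dl : ℤ} (e4 : ((p : ℤ) ^ (2 * h)) ^ 2 * dl = (A + B + C) * ((p : ℤ) ^ (2 * h)) ^ 2
      - (A * B + B * C + C * A) * (p : ℤ) ^ (2 * h) + A * B * C * ((p : ℤ) ^ (2 * h) - 1))
    (hAh : ¬ (p : ℤ) ^ (h + 1) ∣ A) : False := by
  obtain ⟨q, hq⟩ : ∃ q : ℤ, q = (p : ℤ) ^ (2 * h) := ⟨_, rfl⟩
  rw [← hq] at e1 e2 e3 e4
  have hppos : (0 : ℤ) < p := by exact_mod_cast hp.pos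
  have hqpos : 0 < q := by rw [hq]; exact pow_pos hppos _
  have hpp : Prime (p : ℤ) := Nat.prime_iff_prime_int.mp hp
  obtain ⟨a, A', hA, hA'⟩ := int_val hp hA0
  obtain ⟨b, B', hB, hB'⟩ := int_val hp hB0
  obtain ⟨c, C', hC, hC'⟩ := int_val hp hC0
  have hNAz : (1 : ℤ) ≤ NA := by exact_mod_cast hNA
  have hNBz : (1 : ℤ) ≤ NB := by exact_mod_cast hNB
  have hNCz : (1 : ℤ) ≤ NC := by exact_mod_cast hNC
  have ha : a ≤ h := by
    by_contra hcon
    push Not at hcon
    exact hAh (by rw [hA]; exact (pow_dvd_pow _ hcon).mul_right _)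
  have sqpos : ∀ x : ℤ, x ≠ 0 → 1 ≤ x ^ 2 := by
    intro x hx
    have : 0 < x ^ 2 := by positivity
    linarith
  -- the valuations are less than n
  have hlt : ∀ (x : ℕ) (X' Y : ℤ), X' ≠ 0 → 1 ≤ Y → ((p : ℤ) ^ x * X') ^ 2 + Y ≤ q ^ 2 →
      x < 2 * h := by
    intro x X' Y hX' hY hle
    by_contra hcon
    push Not at hcon
    have h1 : q ≤ (p : ℤ) ^ x := by
      rw [hq]; exact pow_le_pow_right₀ (by linarith) hcon
    have h2 : q ^ 2 ≤ ((p : ℤ) ^ x * X') ^ 2 := by
      rw [mul_pow]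
      have h3 := sqpos X' hX'
      have h4 : q ^ 2 ≤ ((p : ℤ) ^ x) ^ 2 := pow_le_pow_left₀ hqpos.le h1 2
      calc q ^ 2 ≤ ((p : ℤ) ^ x) ^ 2 * 1 := by rw [mul_one]; exact h4
        _ ≤ _ := mul_le_mul_of_nonneg_left h3 (sq_nonneg _)
    linarith
  have hA'0 : A' ≠ 0 := by rintro rfl; exact hA' (dvd_zero _)
  have hB'0 : B' ≠ 0 := by rintro rfl; exact hB' (dvd_zero _)
  have hC'0 : C' ≠ 0 := by rintro rfl; exact hC' (dvd_zero _)
  have sA := sqpos _ hA0
  have sB := sqpos _ hB0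
  have sC := sqpos _ hC0
  have mA : A ^ 2 ≤ NA * A ^ 2 := le_mul_of_one_le_left (sq_nonneg _) hNAz
  have mB : B ^ 2 ≤ NB * B ^ 2 := le_mul_of_one_le_left (sq_nonneg _) hNBz
  have mC : C ^ 2 ≤ NC * C ^ 2 := le_mul_of_one_le_left (sq_nonneg _) hNCz
  have hb' : b < 2 * h := hlt b B' 1 hB'0 le_rfl (by rw [← hB]; linarith)
  have hc' : c < 2 * h := hlt c C' 1 hC'0 le_rfl (by rw [← hC]; linarith)
  -- q divides the product
  have hq3 : q ∣ A * B * C := by
    have h1 : q ∣ A * B * C * (q - 1) := by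
      have : A * B * C * (q - 1) = q * (q * dl - (A + B + C) * q + (A * B + B * C + C * A)) := by
        linear_combination -e4
      rw [this]; exact dvd_mul_right _ _
    have hco : IsCoprime q (q - 1) := ⟨1, -1, by ring⟩
    exact hco.dvd_of_dvd_mul_right h1
  have hprod : A * B * C = (p : ℤ) ^ (a + b + c) * (A' * B' * C') := by
    rw [hA, hB, hC, pow_add, pow_add]; ring
  have hndprod : ¬ (p : ℤ) ∣ A' * B' * C' := by
    rw [hpp.dvd_mul, hpp.dvd_mul]; tauto
  have hcop : ∀ k : ℕ, IsCoprime ((p : ℤ) ^ k) (A' * B' * C') := fun k =>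
    IsCoprime.pow_left ((hpp.coprime_iff_not_dvd).mpr hndprod)
  have hge : 2 * h ≤ a + b + c := by
    rw [hprod, hq] at hq3
    have h1 : (p : ℤ) ^ (2 * h) ∣ (p : ℤ) ^ (a + b + c) := (hcop (2 * h)).dvd_of_dvd_mul_right hq3
    exact (pow_dvd_pow_iff hppos.ne' hpp.not_isUnit).mp h1
  obtain ⟨k, hk⟩ := Nat.exists_eq_add_of_le hge
  have hsum : 4 * h ≤ a + b + c := by
    by_contra hcon
    push Not at hcon
    -- tau
    obtain ⟨τ, hτ⟩ : ∃ τ : ℤ, τ = (p : ℤ) ^ k * (A' * B' * C') := ⟨_, rfl⟩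
    have htau : A * B * C = q * τ := by
      rw [hprod, hk, pow_add, hq, hτ]; ring
    have h5 : q * dl = (A + B + C) * q - (A * B + B * C + C * A) + τ * (q - 1) := by
      apply mul_left_cancel₀ hqpos.ne'
      rw [htau] at e4
      linear_combination e4
    have h6 : (A * B + B * C + C * A) + τ = q * ((A + B + C) + τ - dl) := by
      linear_combination h5
    have hk1 : (p : ℤ) ^ (k + 1) ∣ q := by
      rw [hq]; exact pow_dvd_pow _ (by omega)
    have hAB : (p : ℤ) ^ (k + 1) ∣ A * B := by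
      have : A * B = (p : ℤ) ^ (a + b) * (A' * B') := by rw [hA, hB, pow_add]; ring
      rw [this]; exact (pow_dvd_pow _ (by omega)).mul_right _
    have hBC : (p : ℤ) ^ (k + 1) ∣ B * C := by
      have : B * C = (p : ℤ) ^ (b + c) * (B' * C') := by rw [hB, hC, pow_add]; ring
      rw [this]; exact (pow_dvd_pow _ (by omega)).mul_right _
    have hCA : (p : ℤ) ^ (k + 1) ∣ C * A := by
      have : C * A = (p : ℤ) ^ (c + a) * (C' * A') := by rw [hC, hA, pow_add]; ring
      rw [this]; exact (pow_dvd_pow _ (by omega)).mul_right _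
    have h7 : (p : ℤ) ^ (k + 1) ∣ τ := by
      have h8 : (p : ℤ) ^ (k + 1) ∣ (A * B + B * C + C * A) + τ := by
        rw [h6]; exact hk1.mul_right _
      exact (dvd_add_right (dvd_add (dvd_add hAB hBC) hCA)).mp h8
    rw [hτ, pow_succ] at h7
    have h9 := (mul_dvd_mul_iff_left (pow_ne_zero k hppos.ne')).mp h7
    exact hndprod h9
  -- sizes
  have ha2 : 1 ≤ a := by omega
  obtain ⟨a', ha'⟩ := Nat.exists_eq_add_of_le ha2
  obtain ⟨m, hm⟩ : ∃ m, 2 * h = a' + m := ⟨2 * h - a', by omega⟩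
  have hp5z : (5 : ℤ) ≤ p := by exact_mod_cast hp5
  have habs : ∀ (z : ℕ) (Z' : ℤ), Z' ≠ 0 → m ≤ z → (p : ℤ) ^ m ≤ |(p : ℤ) ^ z * Z'| := by
    intro z Z' hZ hz
    rw [abs_mul, abs_pow, abs_of_pos hppos]
    have h1 : 1 ≤ |Z'| := Int.one_le_abs hZ
    have h2 : (p : ℤ) ^ m ≤ (p : ℤ) ^ z := pow_le_pow_right₀ (by linarith) hz
    calc (p : ℤ) ^ m ≤ (p : ℤ) ^ z * 1 := by rw [mul_one]; exact h2
      _ ≤ _ := mul_le_mul_of_nonneg_left h1 (by positivity)
  have hBx := habs b B' hB'0 (by omega)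
  have hCx := habs c C' hC'0 (by omega)
  rw [← hB] at hBx
  rw [← hC] at hCx
  have g6 : (p : ℤ) * (p : ℤ) ^ a' ≤ |A| := by
    rw [hA, abs_mul, abs_pow, abs_of_pos hppos, ha', pow_add, pow_one]
    have h1 : 1 ≤ |A'| := Int.one_le_abs hA'0
    calc (p : ℤ) * (p : ℤ) ^ a' = (p : ℤ) * (p : ℤ) ^ a' * 1 := by ring
      _ ≤ _ := mul_le_mul_of_nonneg_left h1 (by positivity)
  have g7 : 25 * ((p : ℤ) ^ a') ^ 2 ≤ q := by
    have h1 : (p : ℤ) ^ (2 * (a' + 1)) ≤ q := by
      rw [hq]; exact pow_le_pow_right₀ (by linarith) (by omega)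
    have h2 : (p : ℤ) ^ (2 * (a' + 1)) = (p : ℤ) ^ 2 * ((p : ℤ) ^ a') ^ 2 := by ring
    rw [h2] at h1
    have h3 : (25 : ℤ) ≤ (p : ℤ) ^ 2 := by nlinarith
    exact (mul_le_mul_of_nonneg_right h3 (sq_nonneg _)).trans h1
  exact size_aux hp5z (one_le_pow₀ (by linarith)) (pow_pos hppos m)
    (by rw [hq, hm, pow_add]) g7 (by positivity) (by positivity) (by positivity) g6 hBx hCx
    e1 e2 e3

/-- three nonzero values are impossible -/
lemma nonzero_false {p h : ℕ} (hp : p.Prime) (hp5 : 5 ≤ p)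
    {A B C : ℤ} {NA NB NC : ℕ} (hA0 : A ≠ 0) (hB0 : B ≠ 0) (hC0 : C ≠ 0)
    (hNA : 1 ≤ NA) (hNB : 1 ≤ NB) (hNC : 1 ≤ NC)
    (e1 : (NA : ℤ) + NB + NC = (p : ℤ) ^ (2 * h) - 1)
    (e2 : (NA : ℤ) * A + NB * B + NC * C = (p : ℤ) ^ (2 * h))
    (e3 : (NA : ℤ) * A ^ 2 + NB * B ^ 2 + NC * C ^ 2 = ((p : ℤ) ^ (2 * h)) ^ 2)
    {dl : ℤ} (e4 : ((p : ℤ) ^ (2 * h)) ^ 2 * dl = (A + B + C) * ((p : ℤ) ^ (2 * h)) ^ 2
      - (A * B + B * C + C * A) * (p : ℤ) ^ (2 * h) + A * B * C * ((p : ℤ) ^ (2 * h) - 1))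
    (hAh : ¬ (p : ℤ) ^ (h + 1) ∣ A ∨ ¬ (p : ℤ) ^ (h + 1) ∣ B ∨ ¬ (p : ℤ) ^ (h + 1) ∣ C) :
    False := by
  rcases hAh with h1 | h1 | h1
  · exact nonzero_aux hp hp5 hA0 hB0 hC0 hNA hNB hNC e1 e2 e3 e4 h1
  · exact nonzero_aux hp hp5 hB0 hC0 hA0 hNB hNC hNA (by linear_combination e1)
      (by linear_combination e2) (by linear_combination e3) (dl := dl)
      (by linear_combination e4) h1
  · exact nonzero_aux hp hp5 hC0 hA0 hB0 hNC hNA hNB (by linear_combination e1)
      (by linear_combination e2) (by linear_combination e3) (dl := dl)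
      (by linear_combination e4) h1

end Hel
end
end

section

section

set_option autoImplicit false
set_option linter.unusedSectionVars false

open Finset

namespace Hel

/-- the arithmetic core: the transposition case is impossible -/
lemma transp_false {p n N NC : ℕ} (hp : p.Prime) (hp5 : 5 ≤ p) (hn : n ≠ 0) (hNC : 1 ≤ NC)
    (hN : N ∣ (p ^ n) ^ 2) (h1 : 2 * N + NC + 1 = p ^ n) {m : ℤ} (hm : m ≠ 0)
    (hE1 : ((p : ℤ) ^ n - NC * m) ^ 2 + 2 * N * (NC * m ^ 2) = N * ((p : ℤ) ^ n) ^ 2) : False := by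
  set q : ℤ := (p : ℤ) ^ n with hq
  have hpn : ((p ^ n : ℕ) : ℤ) = q := by push_cast; rfl
  have h1z : 2 * (N : ℤ) + NC + 1 = q := by rw [← hpn, ← h1]; push_cast; ring
  have hE2 : (q - 1) * (NC * m ^ 2) = (N - 1) * q ^ 2 + 2 * q * (NC * m) := by
    have h2N : (2 * (N : ℤ)) = q - 1 - NC := by linarith
    have := hE1
    rw [h2N] at this
    linear_combination this
  have hNpos : 1 ≤ N := by
    rcases Nat.eq_zero_or_pos N with h | h
    · subst h
      have := (zero_dvd_iff.mp hN)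
      have h3 := pow_pos (pow_pos hp.pos n) 2
      omega
    · exact h
  -- N is a power of p
  rw [← pow_mul] at hN
  obtain ⟨j, hj, hNj⟩ := (Nat.dvd_prime_pow hp).1 hN
  -- q divides NC m^2
  have hqd : q ∣ NC * m ^ 2 := by
    have : q ∣ (q - 1) * (NC * m ^ 2) := by
      rw [hE2]
      exact ⟨(N - 1) * q + 2 * (NC * m), by ring⟩
    have hco : IsCoprime q (q - 1) := ⟨1, -1, by ring⟩
    exact hco.dvd_of_dvd_mul_left this
  -- p does not divide NC
  have hpNC : ¬ (p : ℤ) ∣ (NC : ℤ) := by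
    intro hd
    have hpq : (p : ℤ) ∣ q := dvd_pow_self _ hn
    rcases Nat.eq_zero_or_pos j with h0 | h0
    · subst h0
      have hN1 : N = 1 := by simpa using hNj
      have h3 : (p : ℤ) ∣ 3 := by
        have h4 : (3 : ℤ) = q - NC := by rw [← h1z, hN1]; push_cast; ring
        rw [h4]; exact dvd_sub hpq hd
      have := Int.le_of_dvd (by norm_num) h3
      omega
    · have hpN : (p : ℤ) ∣ (N : ℤ) := by
        rw [hNj]; push_cast; exact dvd_pow_self _ (by omega)
      have h3 : (p : ℤ) ∣ 1 := by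
        have h4 : (1 : ℤ) = q - NC - 2 * N := by rw [← h1z]; ring
        rw [h4]; exact dvd_sub (dvd_sub hpq hd) (hpN.mul_left 2)
      have := Int.le_of_dvd (by norm_num) h3
      omega
  have hpp : Prime (p : ℤ) := Nat.prime_iff_prime_int.mp hp
  have hqm : q ∣ m ^ 2 := by
    have hco : IsCoprime q (NC : ℤ) := by
      apply IsCoprime.pow_left
      exact (hpp.coprime_iff_not_dvd).mpr hpNC
    exact hco.dvd_of_dvd_mul_left hqd
  have hm2 : 0 < m ^ 2 := by positivity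
  have hqle : q ≤ m ^ 2 := Int.le_of_dvd hm2 hqm
  have hqpos : 0 < q := by rw [hq]; positivity
  have hNz : (1 : ℤ) ≤ N := by exact_mod_cast hNpos
  have hNCz : (1 : ℤ) ≤ NC := by exact_mod_cast hNC
  -- 2 NC m^2 ≤ q^2
  have hb : 2 * (NC * m ^ 2) ≤ q ^ 2 := by
    have h5 : 0 ≤ (q - NC * m) ^ 2 := sq_nonneg _
    have h6 : (N : ℤ) * (2 * (NC * m ^ 2)) ≤ N * q ^ 2 := by nlinarith
    exact le_of_mul_le_mul_left h6 (by linarith)
  have hpm : (p : ℤ) ∣ m := by
    have : (p : ℤ) ∣ m ^ 2 := (dvd_pow_self _ hn).trans hqm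
    exact hpp.dvd_of_dvd_pow this
  rcases Nat.lt_or_ge n 2 with hn2 | hn2
  · have hn1 : n = 1 := by omega
    subst hn1
    obtain ⟨c, hc⟩ := hpm
    have hc0 : c ≠ 0 := by rintro rfl; apply hm; rw [hc]; ring
    have hc1 : 1 ≤ c ^ 2 := by
      have : 0 < c ^ 2 := by positivity
      linarith
    have hq1 : q = p := by rw [hq]; ring
    have : q ^ 2 ≤ m ^ 2 := by
      rw [hc, hq1, mul_pow]
      nlinarith [sq_nonneg (p : ℤ)]
    nlinarith
  · -- q ≥ 25
    have h2NC : 2 * (NC : ℤ) ≤ q := by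
      have : 2 * NC * q ≤ q * q := by nlinarith
      exact le_of_mul_le_mul_right this hqpos
    have hjn : j < n := by
      by_contra hcon
      push Not at hcon
      have : p ^ n ≤ p ^ j := Nat.pow_le_pow_right hp.pos hcon
      omega
    have h5N : 5 * N ≤ p ^ n := by
      have h7 : p ^ j * p ≤ p ^ n := by
        rw [← pow_succ]; exact Nat.pow_le_pow_right hp.pos hjn
      rw [hNj]
      nlinarith [pow_pos hp.pos j]
    have h5Nz : 5 * (N : ℤ) ≤ q := by rw [← hpn]; exact_mod_cast h5N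
    have hq25 : (25 : ℤ) ≤ q := by
      have h8 : p ^ 2 ≤ p ^ n := Nat.pow_le_pow_right hp.pos hn2
      have h9 : 25 ≤ p ^ 2 := by nlinarith
      have : 25 ≤ p ^ n := le_trans h9 h8
      rw [← hpn]; exact_mod_cast this
    linarith

section

variable {p : ℕ} [Fact p.Prime] {L : Type*} [Field L] [Fintype L] [DecidableEq L]
  [Algebra (ZMod p) L]

lemma stdAddChar_mul_eq (lam j : ZMod p) :
    (ZMod.stdAddChar (lam * j) : ℂ) = ((ZMod.stdAddChar (1 : ZMod p) : ℂ) ^ lam.val) ^ j.val := by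
  rw [← pow_mul, ← AddChar.map_nsmul_eq_pow]
  congr 1
  rw [nsmul_eq_mul, mul_one]
  push_cast
  rw [ZMod.natCast_zmod_val, ZMod.natCast_zmod_val]

lemma zeta_prim : IsPrimitiveRoot (ZMod.stdAddChar (1 : ZMod p) : ℂ) p := by
  refine IsPrimitiveRoot.mk_of_lt _ (Fact.out : p.Prime).pos ?_ ?_
  · rw [← AddChar.map_nsmul_eq_pow]; simp
  · intro l hl0 hlp h
    rw [← AddChar.map_nsmul_eq_pow, nsmul_eq_mul, mul_one,
      ← AddChar.map_zero_eq_one (ZMod.stdAddChar (N := p))] at h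
    have h2 := ZMod.injective_stdAddChar h
    rw [ZMod.natCast_eq_zero_iff] at h2
    exact absurd (Nat.le_of_dvd hl0 h2) (by omega)

open Polynomial in
/-- Galois conjugation -/
lemma galois {s : ℕ} {a b : L} (h : Wc (psi p L) s a = Wc (psi p L) s b) {lam : ZMod p}
    (hlam : lam ≠ 0) : Wt s a lam = Wt s b lam := by
  set z : ℂ := ZMod.stdAddChar (1 : ZMod p) with hz
  set P : ℤ[X] := ∑ j : ZMod p, C ((cnt p L s a j : ℤ) - cnt p L s b j) * X ^ j.val with hP
  have hev : ∀ mu : ZMod p, aeval (z ^ mu.val) P = Wt s a mu - Wt s b mu := by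
    intro mu
    rw [Wt_eq_sum_cnt, Wt_eq_sum_cnt, ← sum_sub_distrib, hP, map_sum]
    refine sum_congr rfl fun j _ => ?_
    rw [stdAddChar_mul_eq, ← hz]
    simp
    ring
  have h1 : aeval z P = 0 := by
    have := hev 1
    rw [Wt_one, Wt_one, h, sub_self] at this
    have h1v : (1 : ZMod p).val = 1 := by
      have : Fact (1 < p) := ⟨(Fact.out : p.Prime).one_lt⟩
      exact ZMod.val_one p
    rwa [h1v, pow_one] at this
  have hint : IsIntegral ℤ z := zeta_prim.isIntegral (Fact.out : p.Prime).pos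
  have hdvd : minpoly ℤ z ∣ P := minpoly.isIntegrallyClosed_dvd hint h1
  have hcop : Nat.Coprime lam.val p := by
    rw [Nat.coprime_comm, Nat.Prime.coprime_iff_not_dvd (Fact.out : p.Prime)]
    intro hd
    have h0 : lam.val ≠ 0 := by rwa [Ne, ZMod.val_eq_zero]
    have := Nat.le_of_dvd (Nat.pos_of_ne_zero h0) hd
    have := ZMod.val_lt lam
    omega
  have h2 : aeval (z ^ lam.val) P = 0 := by
    obtain ⟨R, hR⟩ := hdvd
    have h3 : minpoly ℤ z = minpoly ℤ (z ^ lam.val) := zeta_prim.minpoly_eq_pow_coprime hcop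
    rw [hR, h3, map_mul, minpoly.aeval, zero_mul]
  rw [hev] at h2
  exact sub_eq_zero.mp h2

lemma stdAddChar_isIntegral (j : ZMod p) : IsIntegral ℤ (ZMod.stdAddChar j : ℂ) := by
  refine IsIntegral.of_pow (Fact.out : p.Prime).pos ?_
  rw [← AddChar.map_nsmul_eq_pow]
  have : (p • j) = 0 := by simp
  rw [this, AddChar.map_zero_eq_one]
  exact isIntegral_one

lemma Wt_isIntegral (s : ℕ) (a : L) (lam : ZMod p) : IsIntegral ℤ (Wt s a lam) :=
  IsIntegral.sum _ fun _ _ => stdAddChar_isIntegral _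

lemma int_of_rat {z : ℂ} (hz : IsIntegral ℤ z) {r : ℚ} (hr : z = r) : ∃ m : ℤ, z = m := by
  rw [hr] at hz
  have h1 : IsIntegral ℤ r := by
    have := (isIntegral_algebraMap_iff (R := ℤ) (A := ℚ) (B := ℂ)
      (algebraMap ℚ ℂ).injective (x := r)).mp (by simpa using hz)
    exact this
  obtain ⟨m, hm⟩ := IsIntegrallyClosed.isIntegral_iff.mp h1
  exact ⟨m, by rw [hr, ← hm]; simp⟩

end

end Hel
end

section

set_option autoImplicit false
set_option linter.unusedSectionVars false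

open Finset

namespace Hel

/-- numerical contradiction in the transposition case -/
lemma trans_case {p n N NC : ℕ} (hp : p.Prime) (hp5 : 5 ≤ p) (hn : n ≠ 0) (hNC : 1 ≤ NC)
    (hN1 : 1 ≤ N) {A B C : ℂ} (h1 : 2 * N + NC + 1 = p ^ n)
    (h2 : (N : ℂ) * (A + B) + NC * C = (p : ℂ) ^ n)
    (h3 : (N : ℂ) * (A ^ 2 + B ^ 2) + NC * C ^ 2 = ((p : ℂ) ^ n) ^ 2)
    (h4 : 2 * (N : ℂ) * (A * B) + NC * C ^ 2 = 0)
    (hCA : C ≠ A) (hCB : C ≠ B) (hint : IsIntegral ℤ (A - B)) {m : ℤ} (hm : C = m) : False := by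
  have hNc : (N : ℂ) ≠ 0 := by
    have : N ≠ 0 := by omega
    exact_mod_cast this
  have hD : (N : ℂ) * (A - B) ^ 2 = ((p : ℂ) ^ n) ^ 2 := by linear_combination h3 - h4
  obtain ⟨D, hDz⟩ := int_of_rat (hint.pow 2) (r := ((p : ℚ) ^ n) ^ 2 / N) (by
    push_cast
    rw [eq_div_iff hNc, mul_comm]; exact hD)
  have hdvd : N ∣ (p ^ n) ^ 2 := by
    rw [hDz] at hD
    have : (N : ℤ) * D = ((p : ℤ) ^ n) ^ 2 := by exact_mod_cast hD
    have h5 : (N : ℤ) ∣ (((p ^ n) ^ 2 : ℕ) : ℤ) := ⟨D, by push_cast; rw [this]⟩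
    exact_mod_cast h5
  have hE1 : ((p : ℤ) ^ n - NC * m) ^ 2 + 2 * N * (NC * m ^ 2) = N * ((p : ℤ) ^ n) ^ 2 := by
    have : ((p : ℂ) ^ n - NC * m) ^ 2 + 2 * N * (NC * m ^ 2) = N * ((p : ℂ) ^ n) ^ 2 := by
      rw [← hm]
      have e : (p : ℂ) ^ n - NC * C = N * (A + B) := by linear_combination -h2
      rw [e]
      linear_combination (N : ℂ) * h3 + (N : ℂ) * h4
    exact_mod_cast this
  by_cases hm0 : m = 0
  · subst hm0
    have hq0 : ((p : ℤ) ^ n) ≠ 0 := by
      have := hp.pos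
      positivity
    have hN : (N : ℤ) = 1 := by
      have : ((p : ℤ) ^ n) ^ 2 * ((N : ℤ) - 1) = 0 := by linear_combination -hE1
      rcases mul_eq_zero.mp this with h | h
      · exact absurd h (pow_ne_zero _ hq0)
      · linarith
    have hC0 : C = 0 := by rw [hm]; simp
    rw [hC0] at h4
    have h6 : A * B = 0 := by
      have : (2 * (N : ℂ)) * (A * B) = 0 := by linear_combination h4
      rcases mul_eq_zero.mp this with h | h
      · exact absurd h (mul_ne_zero two_ne_zero hNc)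
      · exact h
    rcases mul_eq_zero.mp h6 with h | h
    · exact hCA (hC0.trans h.symm)
    · exact hCB (hC0.trans h.symm)
  · exact transp_false hp hp5 hn hNC hdvd h1 hm0 hE1

/-- numerical contradiction in the three-cycle case -/
lemma cyc_case {p n N : ℕ} (hp : p.Prime) (hp5 : 5 ≤ p) (hn : n ≠ 0) {A B C : ℂ}
    (h1 : 3 * N + 1 = p ^ n)
    (h2 : (N : ℂ) * (A + B + C) = (p : ℂ) ^ n)
    (h3 : (N : ℂ) * (A ^ 2 + B ^ 2 + C ^ 2) = ((p : ℂ) ^ n) ^ 2)
    (h4 : (N : ℂ) * (A * B + B * C + C * A) = 0) : False := by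
  have hq0 : ((p : ℂ) ^ n) ≠ 0 := by
    have := hp.ne_zero
    exact pow_ne_zero _ (by exact_mod_cast this)
  have h5 : ((p : ℂ) ^ n) ^ 2 * ((N : ℂ) - 1) = 0 := by
    have e : ((p : ℂ) ^ n) ^ 2 = ((N : ℂ) * (A + B + C)) ^ 2 := by rw [h2]
    linear_combination -(N : ℂ) * h3 - 2 * (N : ℂ) * h4 - e
  have hN : N = 1 := by
    rcases mul_eq_zero.mp h5 with h | h
    · exact absurd h (pow_ne_zero _ hq0)
    · have : (N : ℂ) = 1 := by linear_combination h
      exact_mod_cast this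
  subst hN
  have : p ^ 1 ≤ p ^ n := Nat.pow_le_pow_right hp.pos (by omega)
  rw [pow_one] at this
  omega

section

variable {p : ℕ} [Fact p.Prime] {L : Type*} [Field L] [Fintype L] [DecidableEq L]
  [Algebra (ZMod p) L]

lemma sum_levels (W : L → ℂ) {A B C : ℂ} (hAB : A ≠ B) (hAC : A ≠ C) (hBC : B ≠ C)
    (hV : ∀ a, a ≠ 0 → W a = A ∨ W a = B ∨ W a = C) (g : L → ℂ) {gA gB gC : ℂ}
    (hgA : ∀ a, a ≠ 0 → W a = A → g a = gA) (hgB : ∀ a, a ≠ 0 → W a = B → g a = gB)
    (hgC : ∀ a, a ≠ 0 → W a = C → g a = gC) :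
    ∑ a ∈ univ.erase (0 : L), g a
      = (((univ.erase (0 : L)).filter (fun a => W a = A)).card : ℂ) * gA
      + (((univ.erase (0 : L)).filter (fun a => W a = B)).card : ℂ) * gB
      + (((univ.erase (0 : L)).filter (fun a => W a = C)).card : ℂ) * gC := by
  have h : ∀ a ∈ univ.erase (0 : L), g a = (if W a = A then gA else 0)
      + (if W a = B then gB else 0) + (if W a = C then gC else 0) := by
    intro a ha
    have ha0 : a ≠ 0 := ne_of_mem_erase ha
    rcases hV a ha0 with h | h | h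
    · rw [hgA a ha0 h, if_pos h, h, if_neg hAB, if_neg hAC]; ring
    · rw [hgB a ha0 h, if_pos h, h, if_neg hAB.symm, if_neg hBC]; ring
    · rw [hgC a ha0 h, if_pos h, h, if_neg hAC.symm, if_neg hBC.symm]; ring
  rw [sum_congr rfl h, sum_add_distrib, sum_add_distrib, ← sum_filter, ← sum_filter,
    ← sum_filter, sum_const, sum_const, sum_const, nsmul_eq_mul, nsmul_eq_mul, nsmul_eq_mul]

lemma sum_mul_left_erase (f : L → ℂ) {t : L} (ht : t ≠ 0) :
    ∑ a ∈ univ.erase (0 : L), f (t * a) = ∑ a ∈ univ.erase (0 : L), f a := by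
  refine sum_bij' (fun a _ => t * a) (fun a _ => t⁻¹ * a) ?_ ?_ ?_ ?_ ?_
  · intro a ha
    exact mem_erase.mpr ⟨mul_ne_zero ht (ne_of_mem_erase ha), mem_univ _⟩
  · intro a ha
    exact mem_erase.mpr ⟨mul_ne_zero (inv_ne_zero ht) (ne_of_mem_erase ha), mem_univ _⟩
  · intro a _; exact inv_mul_cancel_left₀ ht a
  · intro a _; exact mul_inv_cancel_left₀ ht a
  · intro a _; rfl

/-- Rationality: if the Weil sums take exactly three values on `L \ {0}` and `p ≥ 5` then
`nu ^ s = nu` on the prime field. -/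
theorem hsp_of_three (hp5 : 5 ≤ p) {s : ℕ} (hs0 : s ≠ 0)
    (hs : Nat.Coprime s (Fintype.card L - 1)) {A B C : ℂ} (hAB : A ≠ B) (hAC : A ≠ C)
    (hBC : B ≠ C) (hV : ∀ a : L, a ≠ 0 → Wc (psi p L) s a = A ∨ Wc (psi p L) s a = B ∨
      Wc (psi p L) s a = C)
    (hA : ∃ a : L, a ≠ 0 ∧ Wc (psi p L) s a = A) (hB : ∃ a : L, a ≠ 0 ∧ Wc (psi p L) s a = B)
    (hC : ∃ a : L, a ≠ 0 ∧ Wc (psi p L) s a = C) : ∀ nu : ZMod p, nu ^ s = nu := by
  have hp : p.Prime := Fact.out
  have h2L : (2 : L) ≠ 0 := by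
    intro h
    have : algebraMap (ZMod p) L 2 = 0 := by rw [map_ofNat]; exact h
    rw [map_eq_zero] at this
    have h3 : ((2 : ℕ) : ZMod p) = 0 := by exact_mod_cast this
    rw [ZMod.natCast_eq_zero_iff] at h3
    have := Nat.le_of_dvd (by norm_num) h3
    omega
  have hodd : Odd s := s_odd h2L hs
  obtain ⟨n, hn⟩ : ∃ n, Module.finrank (ZMod p) L = n := ⟨_, rfl⟩
  have hn0 : n ≠ 0 := by
    rw [← hn]
    have : Module.Finite (ZMod p) L := Module.Finite.of_finite
    exact Module.finrank_pos.ne'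
  have hcard : Fintype.card L = p ^ n := by rw [← hn]; exact (FiniteField.pow_finrank_eq_card p L).symm
  by_contra hcon
  -- a generator
  obtain ⟨g, hg⟩ := IsCyclic.exists_generator (α := (ZMod p)ˣ)
  set nu : ZMod p := (g : ZMod p) with hnu
  have hnu0 : nu ≠ 0 := g.ne_zero
  have hpow : ∀ x : ZMod p, x ≠ 0 → ∃ i : ℕ, nu ^ i = x := by
    intro x hx
    obtain ⟨i, hi⟩ := (Submonoid.mem_powers_iff _ _).mp
      (mem_powers_iff_mem_zpowers.mpr (hg (Units.mk0 x hx)))
    refine ⟨i, ?_⟩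
    have := congrArg Units.val hi
    simpa using this
  have hnus : nu ^ s ≠ nu := by
    intro h
    apply hcon
    intro x
    by_cases hx : x = 0
    · rw [hx, zero_pow hs0]
    · obtain ⟨i, rfl⟩ := hpow x hx
      rw [← pow_mul, mul_comm, pow_mul, h]
  set c : ZMod p := nu ^ s * nu⁻¹ with hc
  have hcnu : c * nu = nu ^ s := by rw [hc, inv_mul_cancel_right₀ hnu0]
  have hc0 : c ≠ 0 := mul_ne_zero (pow_ne_zero _ hnu0) (inv_ne_zero hnu0)
  have hc1 : c ≠ 1 := by
    intro h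
    rw [h, one_mul] at hcnu
    exact hnus hcnu.symm
  set t : L := algebraMap (ZMod p) L c with ht
  have ht0 : t ≠ 0 := by rw [ht, Ne, map_eq_zero]; exact hc0
  have ht1 : t ≠ 1 := by
    intro h
    apply hc1
    apply (algebraMap (ZMod p) L).injective
    rw [← ht, h, map_one]
  have hts : t ^ s ≠ 1 := by
    intro h
    apply ht1
    apply (pow_bijective hs0 hs).1
    simpa using h
  set W : L → ℂ := fun a => Wc (psi p L) s a with hW
  have hstep : ∀ a, W (t * a) = Wt s a (nu ^ s) := fun a => (Wt_scale s a hnu0 hcnu).symm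
  have hwell : ∀ a b, W a = W b → W (t * a) = W (t * b) := by
    intro a b h
    rw [hstep, hstep]
    exact galois h (pow_ne_zero _ hnu0)
  have hinj : ∀ a b, W (t * a) = W (t * b) → W a = W b := by
    intro a b h
    have h3 := galois (lam := (nu⁻¹) ^ s) h (pow_ne_zero _ (inv_ne_zero hnu0))
    have h4 : c⁻¹ * nu⁻¹ = (nu⁻¹) ^ s := by
      rw [← mul_inv, mul_comm, inv_pow, mul_comm nu c, hcnu]
    rw [Wt_scale s _ (inv_ne_zero hnu0) h4, Wt_scale s _ (inv_ne_zero hnu0) h4, map_inv₀, ← ht,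
      inv_mul_cancel_left₀ ht0, inv_mul_cancel_left₀ ht0] at h3
    exact h3
  -- fixed values are integers
  have hfixint : ∀ a : L, a ≠ 0 → (∀ b, b ≠ 0 → W b = W a → W (t * b) = W a) →
      ∃ m : ℤ, W a = m := by
    intro a ha hfix
    have hit : ∀ i : ℕ, W (t ^ i * a) = W a := by
      intro i
      induction i with
      | zero => simp
      | succ i ih =>
        have := hfix (t ^ i * a) (mul_ne_zero (pow_ne_zero _ ht0) ha) ih
        rw [pow_succ', mul_assoc]; exact this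
    have hall : ∀ lam : ZMod p, lam ≠ 0 → Wt s a lam = W a := by
      intro lam hlam
      have hsz : Nat.Coprime s (Fintype.card (ZMod p) - 1) := by
        rw [ZMod.card]
        refine Nat.Coprime.coprime_dvd_right ?_ hs
        rw [hcard]
        simpa using Nat.sub_dvd_pow_sub_pow p 1 n
      obtain ⟨x, hx⟩ := (pow_bijective (L := ZMod p) hs0 hsz).2 lam
      simp only at hx
      have hx0 : x ≠ 0 := by
        rintro rfl
        rw [zero_pow hs0] at hx
        exact hlam hx.symm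
      obtain ⟨i, hi⟩ := hpow x hx0
      have h5 : c ^ i * x = x ^ s := by
        rw [← hi, ← mul_pow, hcnu, ← pow_mul, ← pow_mul, mul_comm]
      rw [← hx, Wt_scale s a hx0 h5, map_pow, ← ht]
      exact hit i
    have hsum := sum_Wt (p := p) s a
    rw [← add_sum_erase univ _ (mem_univ (0 : ZMod p)), Wt_zero,
      sum_congr rfl (fun lam hl => hall lam (ne_of_mem_erase hl)), sum_const,
      card_erase_of_mem (mem_univ _), card_univ, ZMod.card, nsmul_eq_mul] at hsum
    have hpc : ((p - 1 : ℕ) : ℂ) ≠ 0 := by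
      have : p - 1 ≠ 0 := by omega
      exact_mod_cast this
    refine int_of_rat (r := ((p : ℚ) * cnt p L s a 0 - Fintype.card L) / ((p - 1 : ℕ) : ℚ)) ?_ ?_
    · have := Wt_isIntegral (p := p) (L := L) s a 1
      rwa [Wt_one] at this
    · push_cast
      rw [eq_div_iff (by exact_mod_cast hpc)]
      linear_combination hsum
  -- the images
  obtain ⟨aA, haA0, haA⟩ := hA
  obtain ⟨aB, haB0, haB⟩ := hB
  obtain ⟨aC, haC0, haC⟩ := hC
  have haA' : W aA = A := haA
  have haB' : W aB = B := haB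
  have haC' : W aC = C := haC
  have hmA : ∀ a, a ≠ 0 → W a = A → W (t * a) = W (t * aA) := fun a _ h => hwell _ _ (h.trans haA'.symm)
  have hmB : ∀ a, a ≠ 0 → W a = B → W (t * a) = W (t * aB) := fun a _ h => hwell _ _ (h.trans haB'.symm)
  have hmC : ∀ a, a ≠ 0 → W a = C → W (t * a) = W (t * aC) := fun a _ h => hwell _ _ (h.trans haC'.symm)
  have hV' : ∀ a, a ≠ 0 → W a = A ∨ W a = B ∨ W a = C := hV
  set NA := ((univ.erase (0 : L)).filter (fun a => W a = A)).card with hNA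
  set NB := ((univ.erase (0 : L)).filter (fun a => W a = B)).card with hNB
  set NC := ((univ.erase (0 : L)).filter (fun a => W a = C)).card with hNC
  have hNApos : 1 ≤ NA := card_pos.mpr ⟨aA, mem_filter.mpr ⟨mem_erase.mpr ⟨haA0, mem_univ _⟩, haA'⟩⟩
  have hNBpos : 1 ≤ NB := card_pos.mpr ⟨aB, mem_filter.mpr ⟨mem_erase.mpr ⟨haB0, mem_univ _⟩, haB'⟩⟩
  have hNCpos : 1 ≤ NC := card_pos.mpr ⟨aC, mem_filter.mpr ⟨mem_erase.mpr ⟨haC0, mem_univ _⟩, haC'⟩⟩
  have hS := fun (g : L → ℂ) => @sum_levels L _ _ _ W A B C hAB hAC hBC hV' g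
  have hW0 : W 0 = 0 := Wc_zero psi_prim hs0 hs
  have hcardC : (Fintype.card L : ℂ) = (p : ℂ) ^ n := by rw [hcard]; push_cast; rfl
  have e1 : NA + NB + NC + 1 = p ^ n := by
    have h := hS (fun _ => 1) (gA := 1) (gB := 1) (gC := 1) (fun _ _ _ => rfl) (fun _ _ _ => rfl)
      (fun _ _ _ => rfl)
    rw [sum_const, card_erase_of_mem (mem_univ _), card_univ, hcard, nsmul_eq_mul] at h
    have hpos : 1 ≤ p ^ n := Nat.one_le_pow _ _ hp.pos
    have : ((p ^ n - 1 : ℕ) : ℂ) = ((NA + NB + NC : ℕ) : ℂ) := by push_cast at h ⊢; linear_combination h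
    have h7 : p ^ n - 1 = NA + NB + NC := by exact_mod_cast this
    omega
  have e2 : (NA : ℂ) * A + NB * B + NC * C = (p : ℂ) ^ n := by
    have h := hS W (gA := A) (gB := B) (gC := C) (fun _ _ h => h) (fun _ _ h => h) (fun _ _ h => h)
    rw [← h, ← hcardC, ← sum_Wc (psi_prim (p := p) (L := L)) hs0,
      ← add_sum_erase univ _ (mem_univ (0 : L))]
    simp only [hW] at hW0
    rw [hW0, zero_add]
  have e3 : (NA : ℂ) * A ^ 2 + NB * B ^ 2 + NC * C ^ 2 = ((p : ℂ) ^ n) ^ 2 := by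
    have h := hS (fun a => W a ^ 2) (gA := A ^ 2) (gB := B ^ 2) (gC := C ^ 2)
      (fun _ _ h => by rw [h]) (fun _ _ h => by rw [h]) (fun _ _ h => by rw [h])
    have h8 := sum_Wc_mul (psi_prim (p := p) (L := L)) hs0 hs hodd 1
    rw [one_pow, if_pos rfl, hcardC, ← add_sum_erase univ _ (mem_univ (0 : L))] at h8
    rw [← h, ← h8]
    have hW0' : Wc (psi p L) s 0 = 0 := hW0
    rw [hW0', zero_mul, zero_add]
    refine sum_congr rfl fun a _ => ?_
    rw [one_mul, sq]
  have e4 : (NA : ℂ) * (A * W (t * aA)) + NB * (B * W (t * aB)) + NC * (C * W (t * aC)) = 0 := by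
    have h := hS (fun a => W a * W (t * a)) (gA := A * W (t * aA)) (gB := B * W (t * aB))
      (gC := C * W (t * aC)) (fun a ha h => by rw [h, hmA a ha h])
      (fun a ha h => by rw [h, hmB a ha h]) (fun a ha h => by rw [h, hmC a ha h])
    have h8 := sum_Wc_mul (psi_prim (p := p) (L := L)) hs0 hs hodd t
    rw [if_neg hts, ← add_sum_erase univ _ (mem_univ (0 : L))] at h8
    have hW0' : Wc (psi p L) s 0 = 0 := hW0
    rw [hW0', zero_mul, zero_add] at h8
    rw [← h, ← h8]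
  -- equality of level sizes
  have e5 : ∀ v : ℂ, (((univ.erase (0 : L)).filter (fun a => W a = v)).card : ℂ)
      = NA * (if W (t * aA) = v then 1 else 0) + NB * (if W (t * aB) = v then 1 else 0)
        + NC * (if W (t * aC) = v then 1 else 0) := by
    intro v
    have h := hS (fun a => if W (t * a) = v then 1 else 0)
      (gA := if W (t * aA) = v then 1 else 0) (gB := if W (t * aB) = v then 1 else 0)
      (gC := if W (t * aC) = v then 1 else 0) (fun a ha h => by simp only [hmA a ha h])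
      (fun a ha h => by simp only [hmB a ha h]) (fun a ha h => by simp only [hmC a ha h])
    rw [← h, sum_mul_left_erase (fun a => if W a = v then (1 : ℂ) else 0) ht0, ← sum_filter,
      sum_const, nsmul_eq_mul, mul_one]
  have hd1 : W (t * aA) ≠ W (t * aB) := fun h => hAB (by rw [← haA', ← haB']; exact hinj _ _ h)
  have hd2 : W (t * aA) ≠ W (t * aC) := fun h => hAC (by rw [← haA', ← haC']; exact hinj _ _ h)
  have hd3 : W (t * aB) ≠ W (t * aC) := fun h => hBC (by rw [← haB', ← haC']; exact hinj _ _ h)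
  have hint : ∀ a b : L, IsIntegral ℤ (W a - W b) := by
    intro a b
    have h1 := Wt_isIntegral (p := p) (L := L) s a 1
    have h2 := Wt_isIntegral (p := p) (L := L) s b 1
    rw [Wt_one] at h1 h2
    exact h1.sub h2
  have eA := e5 A
  have eB := e5 B
  have eC := e5 C
  rw [← hNA] at eA
  rw [← hNB] at eB
  rw [← hNC] at eC
  rcases hV' _ (mul_ne_zero ht0 haA0) with h1 | h1 | h1 <;>
  rcases hV' _ (mul_ne_zero ht0 haB0) with h2 | h2 | h2 <;>
  rcases hV' _ (mul_ne_zero ht0 haC0) with h3 | h3 | h3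
  all_goals first
    | exact absurd (h1.trans h2.symm) hd1
    | exact absurd (h1.trans h3.symm) hd2
    | exact absurd (h2.trans h3.symm) hd3
    | skip
  all_goals rw [h1, h2, h3] at e4 eA eB eC
  all_goals simp only [hAB, hAC, hBC, hAB.symm, hAC.symm, hBC.symm, if_true, if_false, mul_one,
    mul_zero, add_zero, zero_add] at eA eB eC
  · -- identity
    have hq0 : ((p : ℂ) ^ n) ≠ 0 := pow_ne_zero _ (by exact_mod_cast hp.ne_zero)
    apply pow_ne_zero 2 hq0
    rw [← e3]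
    linear_combination e4
  · -- A fixed, B <-> C
    have hN : NB = NC := by exact_mod_cast eB
    obtain ⟨m, hm⟩ := hfixint aA haA0 (fun b hb0 hb => by
      rw [haA'] at hb ⊢; rw [hmA b hb0 hb, h1])
    rw [haA'] at hm
    have hi := hint aB aC
    rw [haB', haC'] at hi
    exact trans_case hp hp5 hn0 hNApos hNBpos (A := B) (B := C) (C := A) (NC := NA) (N := NB)
      (by omega) (by rw [hN] at e2 ⊢; linear_combination e2)
      (by rw [hN] at e3 ⊢; linear_combination e3)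
      (by rw [hN] at e4 ⊢; linear_combination e4) hAB hAC hi hm
  · -- A <-> B
    have hN : NA = NB := by exact_mod_cast eA
    obtain ⟨m, hm⟩ := hfixint aC haC0 (fun b hb0 hb => by
      rw [haC'] at hb ⊢; rw [hmC b hb0 hb, h3])
    rw [haC'] at hm
    have hi := hint aA aB
    rw [haA', haB'] at hi
    exact trans_case hp hp5 hn0 hNCpos hNApos (A := A) (B := B) (C := C) (NC := NC) (N := NA)
      (by omega) (by rw [← hN] at e2; linear_combination e2)
      (by rw [← hN] at e3; linear_combination e3)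
      (by rw [← hN] at e4; linear_combination e4) hAC.symm hBC.symm hi hm
  · -- cycle A -> B -> C -> A
    have hN1 : NA = NC := by exact_mod_cast eA
    have hN2 : NB = NA := by exact_mod_cast eB
    exact cyc_case hp hp5 hn0 (N := NA) (A := A) (B := B) (C := C) (by omega)
      (by rw [hN2, ← hN1] at e2; linear_combination e2)
      (by rw [hN2, ← hN1] at e3; linear_combination e3)
      (by rw [hN2, ← hN1] at e4; linear_combination e4)
  · -- cycle A -> C -> B -> A
    have hN1 : NA = NB := by exact_mod_cast eA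
    have hN2 : NB = NC := by exact_mod_cast eB
    exact cyc_case hp hp5 hn0 (N := NA) (A := A) (B := B) (C := C) (by omega)
      (by rw [← hN2, ← hN1] at e2; linear_combination e2)
      (by rw [← hN2, ← hN1] at e3; linear_combination e3)
      (by rw [← hN2, ← hN1] at e4; linear_combination e4)
  · -- B fixed
    have hN : NA = NC := by exact_mod_cast eA
    obtain ⟨m, hm⟩ := hfixint aB haB0 (fun b hb0 hb => by
      rw [haB'] at hb ⊢; rw [hmB b hb0 hb, h2])
    rw [haB'] at hm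
    have hi := hint aA aC
    rw [haA', haC'] at hi
    exact trans_case hp hp5 hn0 hNBpos hNApos (A := A) (B := C) (C := B) (NC := NB) (N := NA)
      (by omega) (by rw [← hN] at e2; linear_combination e2)
      (by rw [← hN] at e3; linear_combination e3)
      (by rw [← hN] at e4; linear_combination e4) hAB.symm hBC hi hm

end

end Hel
end

section

set_option autoImplicit false
set_option linter.unusedSectionVars false

open Finset

namespace Hel

section Levels

variable {L : Type*} [Field L] [Fintype L] [DecidableEq L]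

lemma sum_levels_int (W : L → ℤ) {A B C : ℤ} (hAB : A ≠ B) (hAC : A ≠ C) (hBC : B ≠ C)
    (hV : ∀ a, a ≠ 0 → W a = A ∨ W a = B ∨ W a = C) (f : ℤ → ℤ) :
    ∑ a ∈ univ.erase (0 : L), f (W a)
      = (((univ.erase (0 : L)).filter (fun a => W a = A)).card : ℤ) * f A
      + (((univ.erase (0 : L)).filter (fun a => W a = B)).card : ℤ) * f B
      + (((univ.erase (0 : L)).filter (fun a => W a = C)).card : ℤ) * f C := by
  have h : ∀ a ∈ univ.erase (0 : L), f (W a) = (if W a = A then f A else 0)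
      + (if W a = B then f B else 0) + (if W a = C then f C else 0) := by
    intro a ha
    have ha0 : a ≠ 0 := ne_of_mem_erase ha
    rcases hV a ha0 with h | h | h
    · rw [h, if_pos rfl, if_neg hAB, if_neg hAC]; ring
    · rw [h, if_pos rfl, if_neg hAB.symm, if_neg hBC]; ring
    · rw [h, if_pos rfl, if_neg hAC.symm, if_neg hBC.symm]; ring
  rw [sum_congr rfl h, sum_add_distrib, sum_add_distrib, ← sum_filter, ← sum_filter,
    ← sum_filter, sum_const, sum_const, sum_const, nsmul_eq_mul, nsmul_eq_mul, nsmul_eq_mul]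

lemma sum_two_int (W : L → ℤ) {A B : ℤ} (hA0 : A ≠ 0) (hB0 : B ≠ 0) (hAB : A ≠ B)
    (hV : ∀ a, W a = 0 ∨ W a = A ∨ W a = B) (f : ℤ → ℤ) (hf : f 0 = 0) :
    ∑ a : L, f (W a)
      = ((univ.filter (fun a => W a = A)).card : ℤ) * f A
      + ((univ.filter (fun a => W a = B)).card : ℤ) * f B := by
  have h : ∀ a ∈ (univ : Finset L), f (W a) = (if W a = A then f A else 0)
      + (if W a = B then f B else 0) := by
    intro a _
    rcases hV a with h | h | h
    · rw [h, if_neg hA0.symm, if_neg hB0.symm, hf]; ring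
    · rw [h, if_pos rfl, if_neg hAB]; ring
    · rw [h, if_pos rfl, if_neg hAB.symm]; ring
  rw [sum_congr rfl h, sum_add_distrib, ← sum_filter, ← sum_filter, sum_const, sum_const,
    nsmul_eq_mul, nsmul_eq_mul]

end Levels

section Core

variable {p : ℕ} [Fact p.Prime] {M : Type*} [Field M] [Fintype M] [DecidableEq M]
  {L : Type*} [Field L] [Fintype L] [DecidableEq L] [Algebra (ZMod p) M] [Algebra (ZMod p) L]
  [Algebra M L] [IsScalarTower (ZMod p) M L] {s : ℕ}

/-- double counting of the support on the `M`-lines through a point -/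
lemma line_count (hML : Module.finrank M L = 2) (T : L → Prop) [DecidablePred T] {P : ℕ}
    {a0 : L} (ha0 : T a0)
    (hline : ∀ t : L, t ≠ 0 → P ∣ (univ.filter fun m : M => T (a0 + t * algebraMap M L m)).card) :
    (Fintype.card M + 1) * (P - 1) ≤ (univ.filter T).card - 1 := by
  have hcard : Fintype.card L = Fintype.card M ^ 2 := by
    rw [Module.card_eq_pow_finrank (K := M) (V := L), hML]
  have hM1 : 1 < Fintype.card M := Fintype.one_lt_card
  -- the double sum
  obtain ⟨K, hK⟩ : ∃ K : ℕ, K = (univ.filter T).card - 1 := ⟨_, rfl⟩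
  rw [← hK]
  have h1 : ∑ t ∈ univ.erase (0 : L), ((univ.erase (0 : M)).filter
      fun m : M => T (a0 + t * algebraMap M L m)).card
      = (Fintype.card M - 1) * K := by
    simp_rw [card_filter]
    rw [sum_comm]
    have h2 : ∀ m ∈ univ.erase (0 : M), ∑ t ∈ univ.erase (0 : L),
        (if T (a0 + t * algebraMap M L m) then 1 else 0) = K := by
      intro m hm
      have hm0 : algebraMap M L m ≠ 0 := by
        rw [Ne, map_eq_zero]; exact ne_of_mem_erase hm
      rw [← card_filter]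
      have h3 : K = ((univ.filter T).erase a0).card := by
        rw [hK, card_erase_of_mem (mem_filter.mpr ⟨mem_univ _, ha0⟩)]
      rw [h3]
      refine card_bij (fun t _ => a0 + t * algebraMap M L m) ?_ ?_ ?_
      · intro t ht
        rw [mem_filter, mem_erase] at ht
        rw [mem_erase, mem_filter]
        refine ⟨?_, mem_univ _, ht.2⟩
        intro h
        have : t * algebraMap M L m = 0 := by linear_combination h
        rcases mul_eq_zero.mp this with h4 | h4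
        · exact ht.1.1 h4
        · exact hm0 h4
      · intro t _ t' _ h
        have : t * algebraMap M L m = t' * algebraMap M L m := by linear_combination h
        exact mul_right_cancel₀ hm0 this
      · intro b hb
        rw [mem_erase, mem_filter] at hb
        have e : a0 + (b - a0) * (algebraMap M L m)⁻¹ * algebraMap M L m = b := by
          field_simp; ring
        refine ⟨(b - a0) * (algebraMap M L m)⁻¹, ?_, e⟩
        rw [mem_filter, mem_erase]
        refine ⟨⟨mul_ne_zero (sub_ne_zero.mpr hb.1) (inv_ne_zero hm0), mem_univ _⟩, ?_⟩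
        rw [e]; exact hb.2.2
    rw [sum_congr rfl h2, sum_const, card_erase_of_mem (mem_univ _), card_univ, smul_eq_mul]
  have h5 : (Fintype.card L - 1) * (P - 1) ≤ ∑ t ∈ univ.erase (0 : L), ((univ.erase (0 : M)).filter
      fun m : M => T (a0 + t * algebraMap M L m)).card := by
    have h6 : (univ.erase (0 : L)).card = Fintype.card L - 1 := by
      rw [card_erase_of_mem (mem_univ _), card_univ]
    rw [← h6, ← smul_eq_mul]
    refine card_nsmul_le_sum _ _ _ fun t ht => ?_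
    have ht0 : t ≠ 0 := ne_of_mem_erase ht
    have h7 : (univ.filter fun m : M => T (a0 + t * algebraMap M L m))
        = insert 0 ((univ.erase (0 : M)).filter fun m : M => T (a0 + t * algebraMap M L m)) := by
      ext m
      simp only [mem_filter, mem_univ, true_and, mem_insert, mem_erase, and_true]
      by_cases hm : m = 0
      · subst hm; simp [ha0]
      · simp [hm]
    have h8 := hline t ht0
    rw [h7, card_insert_of_notMem (by simp)] at h8
    have := Nat.le_of_dvd (by omega) h8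
    omega
  rw [h1, hcard] at h5
  have h9 : Fintype.card M ^ 2 - 1 = (Fintype.card M - 1) * (Fintype.card M + 1) := by
    obtain ⟨r, hr⟩ := Nat.exists_eq_add_of_le hM1.le
    rw [hr, Nat.add_sub_cancel_left]
    have : (1 + r) ^ 2 = r * (1 + r + 1) + 1 := by ring
    rw [this, Nat.add_sub_cancel]
  rw [h9, mul_assoc] at h5
  exact Nat.le_of_mul_le_mul_left h5 (by omega)

/-- the structure of a spectrum `{0, -A1, B}` -/
theorem core (hp5 : 5 ≤ p) (hsp : ∀ nu : ZMod p, nu ^ s = nu) (hML : Module.finrank M L = 2)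
    (hs0 : s ≠ 0) (hs : Nat.Coprime s (Fintype.card L - 1)) (hodd : Odd s) {h : ℕ}
    (hh : Module.finrank (ZMod p) M = h) (hh1 : 1 ≤ h)
    (hnd : ¬ Degen p L s) (htow : ∃ a : L, ¬ (p : ℤ) ^ (h + 1) ∣ w p L s a)
    {A1 B : ℕ} (hA1 : 0 < A1) (hB : 0 < B)
    (hV : ∀ a : L, w p L s a = 0 ∨ w p L s a = -(A1 : ℤ) ∨ w p L s a = B)
    (hAex : ∃ a : L, w p L s a = -(A1 : ℤ)) (hBex : ∃ a : L, w p L s a = B) :
    ∃ e α β : ℕ, 1 ≤ e ∧ 2 * e < h ∧ α + β = p ^ e ∧ 1 ≤ α ∧ α < β ∧ Nat.Coprime α β ∧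
      α ∣ p ^ (h - e) - 1 ∧ β ∣ p ^ (h - e) + 1 ∧ α * β * (p ^ e - 1) < p ^ h ∧
      A1 = p ^ h * α ∧ B = p ^ h * β ∧
      (∀ t : L, t ≠ 0 → t ≠ 1 → del L s t = 0 ∨ del L s t = α * β) ∧
      (del L s 1 : ℤ) = ((β : ℤ) - α) * (p : ℤ) ^ h + α * β := by
  have hp : p.Prime := Fact.out
  have hp0 : (p : ℤ) ≠ 0 := by exact_mod_cast hp.ne_zero
  have hfL : Module.finrank (ZMod p) L = 2 * h := by rw [finrank_two (p := p) hML, hh]
  have hcardL : Fintype.card L = p ^ (2 * h) := by rw [card_eq p L, hfL]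
  have hcardM : Fintype.card M = p ^ h := by rw [card_eq p M, hh]
  obtain ⟨q, hq⟩ : ∃ q : ℤ, q = (Fintype.card L : ℤ) := ⟨_, rfl⟩
  have hqp : q = (p : ℤ) ^ (2 * h) := by rw [hq, hcardL]; push_cast; rfl
  have hqpos : 0 < q := by rw [hq]; exact_mod_cast Fintype.card_pos
  have hA1z : (0 : ℤ) < A1 := by exact_mod_cast hA1
  have hBz : (0 : ℤ) < B := by exact_mod_cast hB
  -- moments
  have m1 := sum_w hsp hs0 (L := L)
  have m2 := sum_w_sq hsp hs0 hs hodd (L := L)
  have m3 := sum_w_sq_mul hsp hs0 hs hodd (one_ne_zero (α := L))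
  simp only [one_mul] at m3
  have m4 := sum_del_sq hsp hs0 hs hodd (L := L)
  have m5 := sum_del_int hs0 hs hodd (L := L)
  rw [← hq] at m1 m2 m3 m4 m5
  -- pointwise cubic relation
  have cub : ∀ a : L, w p L s a ^ 2 * w p L s a
      = ((B : ℤ) - A1) * w p L s a ^ 2 + (A1 * B) * w p L s a := by
    intro a
    rcases hV a with h | h | h <;> rw [h] <;> ring
  have quart : ∀ a : L, w p L s a ^ 4
      = ((B : ℤ) - A1) * (w p L s a ^ 2 * w p L s a) + (A1 * B) * w p L s a ^ 2 := by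
    intro a
    rcases hV a with h | h | h <;> rw [h] <;> ring
  obtain ⟨d1, hd1⟩ : ∃ d1 : ℤ, d1 = (del L s 1 : ℤ) := ⟨_, rfl⟩
  rw [← hd1] at m3
  have r3 : q * d1 = ((B : ℤ) - A1) * q + A1 * B := by
    have h1 : q ^ 2 * d1 = ((B : ℤ) - A1) * q ^ 2 + (A1 * B) * q := by
      rw [← m3, sum_congr rfl (fun a _ => cub a), sum_add_distrib, ← mul_sum, ← mul_sum, m2, m1]
    apply mul_left_cancel₀ hqpos.ne'
    linear_combination h1
  have r4 : ∑ t ∈ univ.erase (0 : L), (del L s t : ℤ) ^ 2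
      = ((B : ℤ) - A1) * d1 + A1 * B := by
    apply mul_left_cancel₀ (pow_ne_zero 2 hqpos.ne')
    rw [m4, sum_congr rfl (fun a _ => quart a), sum_add_distrib, ← mul_sum, ← mul_sum, m3, m2]
    ring
  -- E
  obtain ⟨E', hE'⟩ : ∃ E' : ℤ, E' = d1 - B + A1 := ⟨_, rfl⟩
  have hqE : q * E' = A1 * B := by rw [hE']; linear_combination r3
  have hE'pos : 0 < E' := by
    have : 0 < q * E' := by rw [hqE]; positivity
    exact pos_of_mul_pos_right this hqpos.le
  obtain ⟨E, hE⟩ := Int.eq_ofNat_of_zero_le hE'pos.le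
  -- the sum over t ≠ 0, 1
  have h1mem : (1 : L) ∈ univ.erase (0 : L) := mem_erase.mpr ⟨one_ne_zero, mem_univ _⟩
  have key0 : ∑ t ∈ (univ.erase (0 : L)).erase 1, (del L s t : ℤ) * (del L s t - E') = 0 := by
    have h1 : ∑ t ∈ univ.erase (0 : L), (del L s t : ℤ) * (del L s t - E')
        = d1 * (d1 - E') := by
      have : ∀ t : L, (del L s t : ℤ) * (del L s t - E')
          = (del L s t : ℤ) ^ 2 - E' * del L s t := fun t => by ring
      simp_rw [this]
      rw [sum_sub_distrib, ← mul_sum, r4, m5]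
      have : (B : ℤ) - A1 = d1 - E' := by rw [hE']; ring
      rw [this]
      linear_combination -hqE
    rw [← add_sum_erase _ _ h1mem, ← hd1] at h1
    linarith
  -- existence of a nonzero delta
  have hex0 : ∃ t ∈ (univ.erase (0 : L)).erase 1, del L s t ≠ 0 := by
    by_contra hcon
    push Not at hcon
    have h1 : d1 = q := by
      rw [← m5, ← add_sum_erase _ _ h1mem, ← hd1, sum_eq_zero, add_zero]
      intro t ht
      rw [hcon t ht]; rfl
    have h2 : (q - B) * (q + A1) = 0 := by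
      rw [h1] at r3
      linear_combination r3
    rcases mul_eq_zero.mp h2 with h3 | h3
    · apply hnd
      obtain ⟨b, hb⟩ := hBex
      exact ⟨b, by rw [hb, ← hq]; linarith⟩
    · linarith
  obtain ⟨t, ht, htE, ht0⟩ : ∃ t ∈ (univ.erase (0 : L)).erase 1, (del L s t : ℤ) ≤ E' ∧
      del L s t ≠ 0 := by
    by_contra hcon
    push Not at hcon
    obtain ⟨t0, ht0, ht0'⟩ := hex0
    have hpos : 0 < ∑ t ∈ (univ.erase (0 : L)).erase 1, (del L s t : ℤ) * (del L s t - E') := by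
      refine sum_pos' (fun t ht => ?_) ⟨t0, ht0, ?_⟩
      · by_cases h : del L s t = 0
        · rw [h]; simp
        · have h2 : E' < del L s t := by
            by_contra hc
            push Not at hc
            exact h (hcon t ht hc)
          have : (0 : ℤ) ≤ del L s t := by positivity
          exact mul_nonneg this (by linarith)
      · have h2 : E' < del L s t0 := by
          by_contra hc
          push Not at hc
          exact ht0' (hcon t0 ht0 hc)
        have h3 : (0 : ℤ) < del L s t0 := by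
          have := Nat.pos_of_ne_zero ht0'
          exact_mod_cast this
        exact mul_pos h3 (by linarith)
    linarith
  -- divisibility relations
  have relA : ∀ t : L, t ≠ 0 → t ≠ 1 → A1 * (A1 + B) ∣ (p ^ (2 * h)) ^ 2 * del L s t := by
    intro t ht0 ht1
    have h1 := sum_w_sq_mul hsp hs0 hs hodd ht0 (L := L)
    have h2 := sum_w_mul hsp hs0 hs hodd t (L := L)
    rw [if_neg ht1] at h2
    obtain ⟨R, hR⟩ : ∃ R : ℤ, R = ∑ a : L, (if w p L s a = -(A1 : ℤ) then w p L s (t * a)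
        else 0) := ⟨_, rfl⟩
    have h3 : ((A1 : ℤ) * (A1 + B)) * ∑ a : L, (if w p L s a = -(A1 : ℤ) then w p L s (t * a)
        else 0) = (Fintype.card L : ℤ) ^ 2 * del L s t := by
      have e0 : ∑ a : L, w p L s a ^ 2 * w p L s (t * a)
          - B * ∑ a : L, w p L s a * w p L s (t * a) = (Fintype.card L : ℤ) ^ 2 * del L s t := by
        rw [h1, h2, mul_zero, sub_zero]
      rw [← e0, mul_sum, mul_sum, ← sum_sub_distrib]
      refine sum_congr rfl fun a _ => ?_
      rcases hV a with h | h | h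
      · rw [h, if_neg (by linarith)]; ring
      · rw [h, if_pos rfl]; ring
      · rw [h, if_neg (by linarith)]; ring
    have h4 : ((A1 * (A1 + B) : ℕ) : ℤ) ∣ (((p ^ (2 * h)) ^ 2 * del L s t : ℕ) : ℤ) := by
      refine Dvd.intro R ?_
      rw [← hcardL]; push_cast; rw [hR]; exact h3
    exact_mod_cast h4
  have relB : ∀ t : L, t ≠ 0 → t ≠ 1 → B * (A1 + B) ∣ (p ^ (2 * h)) ^ 2 * del L s t := by
    intro t ht0 ht1
    have h1 := sum_w_sq_mul hsp hs0 hs hodd ht0 (L := L)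
    have h2 := sum_w_mul hsp hs0 hs hodd t (L := L)
    rw [if_neg ht1] at h2
    obtain ⟨R, hR⟩ : ∃ R : ℤ, R = ∑ a : L, (if w p L s a = (B : ℤ) then w p L s (t * a)
        else 0) := ⟨_, rfl⟩
    have h3 : ((B : ℤ) * (A1 + B)) * ∑ a : L, (if w p L s a = (B : ℤ) then w p L s (t * a)
        else 0) = (Fintype.card L : ℤ) ^ 2 * del L s t := by
      have e0 : ∑ a : L, w p L s a ^ 2 * w p L s (t * a)
          + A1 * ∑ a : L, w p L s a * w p L s (t * a) = (Fintype.card L : ℤ) ^ 2 * del L s t := by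
        rw [h1, h2, mul_zero, add_zero]
      rw [← e0, mul_sum, mul_sum, ← sum_add_distrib]
      refine sum_congr rfl fun a _ => ?_
      rcases hV a with h | h | h
      · rw [h, if_neg (by linarith)]; ring
      · rw [h, if_neg (by linarith)]; ring
      · rw [h, if_pos rfl]; ring
    have h4 : ((B * (A1 + B) : ℕ) : ℤ) ∣ (((p ^ (2 * h)) ^ 2 * del L s t : ℕ) : ℤ) := by
      refine Dvd.intro R ?_
      rw [← hcardL]; push_cast; rw [hR]; exact h3
    exact_mod_cast h4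
  rw [mem_erase, mem_erase] at ht
  -- valuations
  obtain ⟨a, α, hAα, hα⟩ := nat_val hp hA1.ne'
  obtain ⟨b, β, hBβ, hβ⟩ := nat_val hp hB.ne'
  have hα0 : 0 < α := Nat.pos_of_ne_zero (by rintro rfl; exact hα (dvd_zero _))
  have hβ0 : 0 < β := Nat.pos_of_ne_zero (by rintro rfl; exact hβ (dvd_zero _))
  have hab : a ≤ h ∨ b ≤ h := by
    obtain ⟨x, hx⟩ := htow
    by_contra hcon
    push Not at hcon
    apply hx
    rcases hV x with h1 | h1 | h1
    · rw [h1]; exact dvd_zero _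
    · rw [h1, hAα]; push_cast
      exact (((pow_dvd_pow _ (by omega)).mul_right _)).neg_right
    · rw [h1, hBβ]; push_cast
      exact (pow_dvd_pow _ (by omega)).mul_right _
  have hqEn : p ^ (2 * h) * E = (p ^ a * α) * (p ^ b * β) := by
    rw [← hAα, ← hBβ]
    have : (((p ^ (2 * h) * E : ℕ)) : ℤ) = ((A1 * B : ℕ) : ℤ) := by
      push_cast
      rw [← hqp, ← hqE, hE]
    exact_mod_cast this
  have hrA := relA t ht.2.1 ht.1
  have hrB := relB t ht.2.1 ht.1
  have htE' : del L s t ≤ E := by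
    rw [hE] at htE
    exact_mod_cast htE
  rw [hAα, hBβ] at hrA hrB
  obtain ⟨hah, hbh, ⟨e, he⟩, hEαβ⟩ := val_core hp hα hβ (Nat.pos_of_ne_zero ht0) htE' hqEn
    hrA hrB hab
  rw [hah] at hAα
  rw [hbh] at hBβ
  -- level counts
  have hAne : -(A1 : ℤ) ≠ 0 := by linarith
  have hBne : (B : ℤ) ≠ 0 := by linarith
  have hABne : -(A1 : ℤ) ≠ B := by linarith
  have L1 := sum_two_int (fun a : L => w p L s a) hAne hBne hABne hV (fun x => x) rfl
  have L2 := sum_two_int (fun a : L => w p L s a) hAne hBne hABne hV (fun x => x ^ 2) (by norm_num)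
  set NA := (univ.filter (fun a : L => w p L s a = -(A1 : ℤ))).card with hNA
  set NB := (univ.filter (fun a : L => w p L s a = (B : ℤ))).card with hNB
  have hNA1 : 1 ≤ NA := by
    obtain ⟨x, hx⟩ := hAex
    exact card_pos.mpr ⟨x, mem_filter.mpr ⟨mem_univ _, hx⟩⟩
  have hNB1 : 1 ≤ NB := by
    obtain ⟨x, hx⟩ := hBex
    exact card_pos.mpr ⟨x, mem_filter.mpr ⟨mem_univ _, hx⟩⟩
  rw [m1] at L1
  rw [m2] at L2
  have hpa : ((p : ℤ) ^ h) ≠ 0 := pow_ne_zero _ hp0
  have hqa : q = (p : ℤ) ^ h * (p : ℤ) ^ h := by rw [hqp, ← pow_add]; congr 1; omega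
  have hAz : (A1 : ℤ) = (p : ℤ) ^ h * α := by rw [hAα]; push_cast; rfl
  have hBz' : (B : ℤ) = (p : ℤ) ^ h * β := by rw [hBβ]; push_cast; rfl
  have E1 : -((α : ℤ) * NA) + β * NB = (p : ℤ) ^ h := by
    apply mul_left_cancel₀ hpa
    rw [← hqa, L1, hAz, hBz']; ring
  have E2 : (α : ℤ) ^ 2 * NA + (β : ℤ) ^ 2 * NB = ((p : ℤ) ^ h) ^ 2 := by
    apply mul_left_cancel₀ (mul_ne_zero hpa hpa)
    have : ((p : ℤ) ^ h * (p : ℤ) ^ h) * ((p : ℤ) ^ h) ^ 2 = q ^ 2 := by rw [hqa]; ring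
    rw [this, L2, hAz, hBz']; ring
  -- coprimality
  have hco : Nat.Coprime α β := by
    have h1 : ((Nat.gcd α β : ℕ) : ℤ) ∣ (p : ℤ) ^ h := by
      rw [← E1]
      refine dvd_add (Dvd.dvd.neg_right ?_) ?_
      · exact (Int.natCast_dvd_natCast.mpr (Nat.gcd_dvd_left α β)).mul_right _
      · exact (Int.natCast_dvd_natCast.mpr (Nat.gcd_dvd_right α β)).mul_right _
    have h2 : Nat.gcd α β ∣ p ^ h := by exact_mod_cast h1
    have h3 : Nat.Coprime (Nat.gcd α β) (p ^ h) := by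
      apply Nat.Coprime.pow_right
      have : Nat.Coprime p α := (Nat.Prime.coprime_iff_not_dvd hp).mpr hα
      exact (this.coprime_dvd_right (Nat.gcd_dvd_left _ _)).symm
    exact h3.eq_one_of_dvd h2
  rw [hco.gcd_eq_one, mul_one] at he
  -- delta(1)
  have hd1' : d1 = ((β : ℤ) - α) * (p : ℤ) ^ h + α * β := by
    have : d1 = B - A1 + E' := by rw [hE']; ring
    rw [this, hE, hEαβ, hAz, hBz']
    push_cast; ring
  have hd2 : (2 : ℤ) ≤ d1 := by
    rw [hd1]
    rcases del_one_ge (L := L) (s := s) with h1 | h1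
    · exact_mod_cast h1
    · exact absurd h1 hs0
  rw [hd1'] at hd2
  obtain ⟨f1, f2, f3, f4, f5, f6⟩ := final_arith hp hp5 hh1 hα hβ he hco hNA1 E1 E2 hd2
  -- all deltas
  have hall : ∀ t : L, t ≠ 0 → t ≠ 1 → del L s t = 0 ∨ del L s t = α * β := by
    have hdv : ∀ t : L, t ≠ 0 → t ≠ 1 → α * β ∣ del L s t := by
      intro t ht0 ht1
      have hA := relA t ht0 ht1
      have hB := relB t ht0 ht1
      have cop : ∀ (x k : ℕ), ¬ p ∣ x → Nat.Coprime x (p ^ k) := fun x k hx =>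
        Nat.Coprime.pow_right _ (((Nat.Prime.coprime_iff_not_dvd hp).mpr hx).symm)
      rw [← pow_mul] at hA hB
      have h1 : α ∣ p ^ (2 * h * 2) * del L s t :=
        Dvd.dvd.trans ⟨p ^ h * (A1 + B), by rw [hAα]; ring⟩ hA
      have h2 : β ∣ p ^ (2 * h * 2) * del L s t :=
        Dvd.dvd.trans ⟨p ^ h * (A1 + B), by rw [hBβ]; ring⟩ hB
      exact hco.mul_dvd_of_dvd_of_dvd ((cop _ _ hα).dvd_of_dvd_mul_left h1)
        ((cop _ _ hβ).dvd_of_dvd_mul_left h2)
    have hEz : E' = (α : ℤ) * β := by rw [hE, hEαβ]; push_cast; rfl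
    have hnn : ∀ t ∈ (univ.erase (0 : L)).erase 1, 0 ≤ (del L s t : ℤ) * (del L s t - E') := by
      intro t ht
      rw [mem_erase, mem_erase] at ht
      rcases Nat.eq_zero_or_pos (del L s t) with h1 | h1
      · rw [h1]; simp
      · have h2 := Nat.le_of_dvd h1 (hdv t ht.2.1 ht.1)
        have h3 : (α : ℤ) * β ≤ del L s t := by exact_mod_cast h2
        rw [hEz]
        exact mul_nonneg (by positivity) (by linarith)
    intro t ht0 ht1
    have h4 := (sum_eq_zero_iff_of_nonneg hnn).mp key0 t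
      (mem_erase.mpr ⟨ht1, mem_erase.mpr ⟨ht0, mem_univ _⟩⟩)
    rcases mul_eq_zero.mp h4 with h5 | h5
    · left; exact_mod_cast h5
    · right
      rw [hEz] at h5
      have : (del L s t : ℤ) = (α : ℤ) * β := by linarith
      exact_mod_cast this
  -- line counts
  have h2M : (2 : M) ≠ 0 := two_ne p (by omega) M
  have hdivL : ∀ x : L, (p : ℤ) ^ h ∣ w p L s x := by
    intro x
    rcases hV x with h1 | h1 | h1
    · rw [h1]; exact dvd_zero _
    · rw [h1, hAz]; exact (dvd_mul_right _ _).neg_right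
    · rw [h1, hBz']; exact dvd_mul_right _ _
  have hdivM := star_div hsp hML h2M hs0 hs hdivL e (by omega)
  obtain ⟨a0, ha0⟩ := hAex
  have hline : ∀ t : L, t ≠ 0 → p ^ e ∣ (univ.filter fun m : M =>
      w p L s (a0 + t * algebraMap M L m) ≠ 0).card := by
    intro t ht0
    -- the line sum is divisible by `p^a * p^e`
    have h1 : (p : ℤ) ^ h * (p : ℤ) ^ e ∣ ∑ m : M, w p L s (a0 + t * algebraMap M L m) := by
      have hcM : (Fintype.card M : ℤ) = (p : ℤ) ^ h := by rw [hcardM]; push_cast; rfl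
      rcases line_sum hsp hML hs0 hs a0 ht0 with ⟨b, hb⟩ | hb | hb
      · rw [hb, hcM]; exact mul_dvd_mul_left _ (hdivM b)
      · rw [hb, hcM, sq]; exact mul_dvd_mul_left _ (pow_dvd_pow _ (by omega))
      · rw [hb]; exact dvd_zero _
    have h2 : ∀ x : L, ∃ c : ℤ, w p L s x = (p : ℤ) ^ h * (-(α : ℤ) *
        (if w p L s x ≠ 0 then 1 else 0) + (p : ℤ) ^ e * c) := by
      intro x
      rcases hV x with h3 | h3 | h3
      · exact ⟨0, by rw [h3]; simp⟩
      · refine ⟨0, ?_⟩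
        rw [if_pos (by rw [h3]; linarith), h3, hAz]; ring
      · refine ⟨1, ?_⟩
        have : (p : ℤ) ^ e = α + β := by rw [← Int.natCast_pow, ← he]; push_cast; rfl
        rw [if_pos (by rw [h3]; linarith), h3, hBz', this]; ring
    choose c hc using h2
    have h3 : ∑ m : M, w p L s (a0 + t * algebraMap M L m)
        = (p : ℤ) ^ h * (-(α : ℤ) * ((univ.filter fun m : M =>
          w p L s (a0 + t * algebraMap M L m) ≠ 0).card : ℤ)
          + (p : ℤ) ^ e * ∑ m : M, c (a0 + t * algebraMap M L m)) := by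
      rw [card_filter]
      push_cast
      rw [mul_sum, mul_sum, ← sum_add_distrib, mul_sum]
      refine sum_congr rfl fun m _ => ?_
      rw [hc (a0 + t * algebraMap M L m)]
      simp only [← hc]
    rw [h3, mul_dvd_mul_iff_left hpa] at h1
    have h4 : (p : ℤ) ^ e ∣ -(α : ℤ) * ((univ.filter fun m : M =>
          w p L s (a0 + t * algebraMap M L m) ≠ 0).card : ℤ) :=
      (dvd_add_left (dvd_mul_right _ _)).mp h1
    have h5 : IsCoprime ((p : ℤ) ^ e) (-(α : ℤ)) := by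
      apply IsCoprime.pow_left
      apply IsCoprime.neg_right
      rw [Int.isCoprime_iff_gcd_eq_one]
      exact (Nat.Prime.coprime_iff_not_dvd hp).mpr hα
    have h6 := h5.dvd_of_dvd_mul_left h4
    exact_mod_cast h6
  have hcnt := line_count (M := M) hML (fun x : L => w p L s x ≠ 0) (a0 := a0)
    (by rw [ha0]; exact hAne) hline
  -- the support
  have hsupp : (univ.filter fun x : L => w p L s x ≠ 0).card = NA + NB := by
    rw [hNA, hNB, ← card_union_of_disjoint]
    · congr 1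
      ext x
      simp only [mem_filter, mem_univ, true_and, mem_union]
      constructor
      · intro hx
        rcases hV x with h1 | h1 | h1
        · exact absurd h1 hx
        · left; exact h1
        · right; exact h1
      · rintro (h1 | h1)
        · rw [h1]; exact hAne
        · rw [h1]; exact hBne
    · rw [disjoint_filter]
      intro x _ h1 h2
      exact hABne (h1.symm.trans h2)
  rw [hsupp, hcardM] at hcnt
  obtain ⟨g1, g2⟩ := line_arith (S := NA + NB) hp hp5 he f1 f2 f3 hα0 f5 (by push_cast; exact f6)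
    hcnt (by omega)
  exact ⟨e, α, β, f1, g1, he, hα0, f3, hco, f4, f5, g2, hAα, hBβ, hall, by rw [← hd1, hd1']⟩

end Core

end Hel
end

section

set_option autoImplicit false
set_option linter.unusedSectionVars false

open Finset

namespace Hel

/-- the conclusion -/
def Struct (p : ℕ) (L : Type*) [Field L] [Fintype L] [DecidableEq L] (s h e α β : ℕ) : Prop :=
  1 ≤ e ∧ 2 * e < h ∧ α + β = p ^ e ∧ 1 ≤ α ∧ α < β ∧ Nat.Coprime α β ∧
      α ∣ p ^ (h - e) - 1 ∧ β ∣ p ^ (h - e) + 1 ∧ α * β * (p ^ e - 1) < p ^ h ∧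
      (∀ t : L, t ≠ 0 → t ≠ 1 → del L s t = 0 ∨ del L s t = α * β) ∧
      (del L s 1 : ℤ) = ((β : ℤ) - α) * (p : ℤ) ^ h + α * β

section

variable {p : ℕ} [Fact p.Prime] {M : Type*} [Field M] [Fintype M] [DecidableEq M]
  {L : Type*} [Field L] [Fintype L] [DecidableEq L] [Algebra (ZMod p) M] [Algebra (ZMod p) L]
  [Algebra M L] [IsScalarTower (ZMod p) M L] {s : ℕ}

theorem core2 (hp5 : 5 ≤ p) (hsp : ∀ nu : ZMod p, nu ^ s = nu) (hML : Module.finrank M L = 2)
    (hs0 : s ≠ 0) (hs : Nat.Coprime s (Fintype.card L - 1)) (hodd : Odd s) {h : ℕ}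
    (hh : Module.finrank (ZMod p) M = h) (hh1 : 1 ≤ h)
    (hnd : ¬ Degen p L s) (htow : ∃ a : L, ¬ (p : ℤ) ^ (h + 1) ∣ w p L s a)
    {U V : ℤ} (hU0 : U ≠ 0) (hV0 : V ≠ 0)
    (hval : ∀ a : L, w p L s a = 0 ∨ w p L s a = U ∨ w p L s a = V)
    (hUex : ∃ a : L, w p L s a = U) (hVex : ∃ a : L, w p L s a = V) :
    ∃ e α β : ℕ, Struct p L s h e α β ∧
      ((U = -(α * (p : ℤ) ^ h) ∧ V = β * (p : ℤ) ^ h) ∨
       (V = -(α * (p : ℤ) ^ h) ∧ U = β * (p : ℤ) ^ h)) := by
  have main : ∀ X Y : ℤ, X < 0 → 0 < Y →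
      (∀ a : L, w p L s a = 0 ∨ w p L s a = X ∨ w p L s a = Y) →
      (∃ a : L, w p L s a = X) → (∃ a : L, w p L s a = Y) →
      ∃ e α β : ℕ, Struct p L s h e α β ∧ X = -(α * (p : ℤ) ^ h) ∧ Y = β * (p : ℤ) ^ h := by
    intro X Y hX hY hv hX' hY'
    obtain ⟨A1, hA1⟩ := Int.eq_ofNat_of_zero_le (by linarith : 0 ≤ -X)
    obtain ⟨B, hB⟩ := Int.eq_ofNat_of_zero_le hY.le
    have hXe : X = -(A1 : ℤ) := by linarith
    subst hXe
    subst hB
    obtain ⟨e, α, β, c1, c2, c3, c4, c5, c6, c7, c8, c9, c10, c11, c12, c13⟩ :=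
      core hp5 hsp hML hs0 hs hodd hh hh1 hnd htow (A1 := A1) (B := B) (by omega) (by omega)
      hv hX' hY'
    refine ⟨e, α, β, ⟨c1, c2, c3, c4, c5, c6, c7, c8, c9, c12, c13⟩, ?_, ?_⟩
    · rw [c10]; push_cast; ring
    · rw [c11]; push_cast; ring
  rcases lt_or_gt_of_ne hU0 with hU | hU
  · rcases lt_or_gt_of_ne hV0 with hV | hV
    · -- both negative
      exfalso
      have h1 := sum_w hsp hs0 (L := L)
      have h2 : ∑ a : L, w p L s a ≤ 0 := by
        refine sum_nonpos fun a _ => ?_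
        rcases hval a with h | h | h <;> rw [h]
        · exact hU.le
        · exact hV.le
      have h3 : (0 : ℤ) < Fintype.card L := by exact_mod_cast Fintype.card_pos
      linarith
    · obtain ⟨e, α, β, h1, h2, h3⟩ := main U V hU hV hval hUex hVex
      exact ⟨e, α, β, h1, Or.inl ⟨h2, h3⟩⟩
  · rcases lt_or_gt_of_ne hV0 with hV | hV
    · obtain ⟨e, α, β, h1, h2, h3⟩ := main V U hV hU (fun a => by
        rcases hval a with h | h | h
        · exact Or.inl h
        · exact Or.inr (Or.inr h)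
        · exact Or.inr (Or.inl h)) hVex hUex
      exact ⟨e, α, β, h1, Or.inr ⟨h2, h3⟩⟩
    · exfalso
      apply hnd
      apply degen_of_nonneg hsp hs0 hs hodd
      intro a
      rcases hval a with h | h | h <;> rw [h]
      · exact hU.le
      · exact hV.le

end

section

variable {p : ℕ} [Fact p.Prime] {L : Type*} [Field L] [Fintype L] [DecidableEq L]
  [Algebra (ZMod p) L] {s : ℕ}

theorem structure_thm (hp5 : 5 ≤ p) (hs0 : s ≠ 0) (hs : Nat.Coprime s (Fintype.card L - 1))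
    {k : ℕ} (hk : Module.finrank (ZMod p) L = 2 ^ k)
    (h3 : {v : ℂ | ∃ a : L, a ≠ 0 ∧ Wc (psi p L) s a = v}.ncard = 3) :
    1 ≤ k ∧ ∃ e α β : ℕ, Struct p L s (2 ^ (k - 1)) e α β ∧
      {v : ℂ | ∃ a : L, a ≠ 0 ∧ Wc (psi p L) s a = v}
        = {0, -((α : ℂ) * (p : ℂ) ^ (2 ^ (k - 1))), (β : ℂ) * (p : ℂ) ^ (2 ^ (k - 1))} := by
  have hp : p.Prime := Fact.out
  have h2L : (2 : L) ≠ 0 := two_ne p (by omega) L
  have hodd : Odd s := s_odd h2L hs
  obtain ⟨A, B, C, hAB, hAC, hBC, hset⟩ := Set.ncard_eq_three.mp h3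
  have hmem : ∀ v : ℂ, (∃ a : L, a ≠ 0 ∧ Wc (psi p L) s a = v) ↔ v = A ∨ v = B ∨ v = C := by
    intro v
    have : v ∈ {v : ℂ | ∃ a : L, a ≠ 0 ∧ Wc (psi p L) s a = v} ↔ v ∈ ({A, B, C} : Set ℂ) := by
      rw [hset]
    simpa using this
  have hVc : ∀ a : L, a ≠ 0 → Wc (psi p L) s a = A ∨ Wc (psi p L) s a = B ∨
      Wc (psi p L) s a = C := fun a ha => (hmem _).mp ⟨a, ha, rfl⟩
  have hAx := (hmem A).mpr (Or.inl rfl)
  have hBx := (hmem B).mpr (Or.inr (Or.inl rfl))
  have hCx := (hmem C).mpr (Or.inr (Or.inr rfl))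
  have hsp := hsp_of_three hp5 hs0 hs hAB hAC hBC hVc hAx hBx hCx
  obtain ⟨aA, haA0, haA⟩ := hAx
  obtain ⟨aB, haB0, haB⟩ := hBx
  obtain ⟨aC, haC0, haC⟩ := hCx
  rw [Wc_eq_w hsp] at haA haB haC
  obtain ⟨Az, hAz⟩ : ∃ x : ℤ, x = w p L s aA := ⟨_, rfl⟩
  obtain ⟨Bz, hBz⟩ : ∃ x : ℤ, x = w p L s aB := ⟨_, rfl⟩
  obtain ⟨Cz, hCz⟩ : ∃ x : ℤ, x = w p L s aC := ⟨_, rfl⟩
  rw [← hAz] at haA
  rw [← hBz] at haB
  rw [← hCz] at haC
  subst haA haB haC
  have zAB : Az ≠ Bz := fun h => hAB (by rw [h])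
  have zAC : Az ≠ Cz := fun h => hAC (by rw [h])
  have zBC : Bz ≠ Cz := fun h => hBC (by rw [h])
  have hV : ∀ a : L, a ≠ 0 → w p L s a = Az ∨ w p L s a = Bz ∨ w p L s a = Cz := by
    intro a ha
    have := hVc a ha
    rw [Wc_eq_w hsp] at this
    exact_mod_cast this
  -- not degenerate
  have hnd : ¬ Degen p L s := by
    intro hdeg
    have hA := degen_values hsp hs0 hs hodd hdeg aA
    have hB := degen_values hsp hs0 hs hodd hdeg aB
    have hC := degen_values hsp hs0 hs hodd hdeg aC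
    rw [← hAz] at hA
    rw [← hBz] at hB
    rw [← hCz] at hC
    rcases hA with h | h <;> rcases hB with h' | h' <;> rcases hC with h'' | h'' <;> omega
  have hk1 : 1 ≤ k := by
    by_contra hcon
    have : k = 0 := by omega
    subst this
    exact hnd (degen_of_finrank_one hsp (by rw [hk, pow_zero]))
  refine ⟨hk1, ?_⟩
  obtain ⟨h, hh⟩ : ∃ h : ℕ, h = 2 ^ (k - 1) := ⟨_, rfl⟩
  rw [← hh]
  have hk2 : Module.finrank (ZMod p) L = 2 * h := by
    rw [hk, hh, ← pow_succ']; congr 1; omega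
  have hh1 : 1 ≤ h := by rw [hh]; exact Nat.one_le_two_pow
  have htow : ∃ a : L, ¬ (p : ℤ) ^ (h + 1) ∣ w p L s a := by
    have := tower (by omega) hsp hs0 hodd k L hk hs
    rcases this with h4 | h4
    · exact absurd h4 hnd
    · rwa [hk2, Nat.mul_div_cancel_left _ (by norm_num : 0 < 2)] at h4
  have hcardL : Fintype.card L = p ^ (2 * h) := by rw [card_eq p L, hk2]
  obtain ⟨M, _, _, _, _, _, _, hM1, hM2⟩ := exists_sub p L hk2
  have hw0 := w_zero hsp hs0 hs (L := L)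
  -- the statement for a pair of nonzero values
  have fin : ∀ U V : ℤ, U ≠ 0 → V ≠ 0 →
      (∀ v : ℂ, (∃ a : L, a ≠ 0 ∧ Wc (psi p L) s a = v) ↔ v = (0 : ℂ) ∨ v = U ∨ v = V) →
      ∃ e α β : ℕ, Struct p L s h e α β ∧
        {v : ℂ | ∃ a : L, a ≠ 0 ∧ Wc (psi p L) s a = v}
        = {0, -((α : ℂ) * (p : ℂ) ^ h), (β : ℂ) * (p : ℂ) ^ h} := by
    intro U V hU hV' hall
    have hval : ∀ a : L, w p L s a = 0 ∨ w p L s a = U ∨ w p L s a = V := by
      intro a
      by_cases ha : a = 0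
      · left; rw [ha]; exact hw0
      · have := (hall _).mp ⟨a, ha, rfl⟩
        rw [Wc_eq_w hsp] at this
        exact_mod_cast this
    have hUx : ∃ a : L, w p L s a = U := by
      obtain ⟨a, _, ha⟩ := (hall U).mpr (Or.inr (Or.inl rfl))
      rw [Wc_eq_w hsp] at ha
      exact ⟨a, by exact_mod_cast ha⟩
    have hVx : ∃ a : L, w p L s a = V := by
      obtain ⟨a, _, ha⟩ := (hall V).mpr (Or.inr (Or.inr rfl))
      rw [Wc_eq_w hsp] at ha
      exact ⟨a, by exact_mod_cast ha⟩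
    obtain ⟨e, α, β, hst, hUV⟩ := core2 hp5 hsp hM2 hs0 hs hodd hM1 hh1 hnd htow hU hV' hval
      hUx hVx
    refine ⟨e, α, β, hst, ?_⟩
    ext v
    simp only [Set.mem_ofPred_eq, Set.mem_insert_iff, Set.mem_singleton_iff]
    rw [hall v]
    rcases hUV with ⟨h1, h2⟩ | ⟨h1, h2⟩
    · rw [h1, h2]; push_cast; rfl
    · rw [h1, h2]; push_cast; tauto
  by_cases hA0 : Az = 0
  · refine fin Bz Cz (fun h => zAB (by rw [hA0, h])) (fun h => zAC (by rw [hA0, h])) ?_
    intro v
    rw [hmem v, hA0]; simp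
  by_cases hB0 : Bz = 0
  · refine fin Az Cz hA0 (fun h => zBC (by rw [hB0, h])) ?_
    intro v
    rw [hmem v, hB0]; simp; tauto
  by_cases hC0 : Cz = 0
  · refine fin Az Bz hA0 hB0 ?_
    intro v
    rw [hmem v, hC0]; simp; tauto
  -- three nonzero values
  exfalso
  have m1 := sum_w hsp hs0 (L := L)
  have m2 := sum_w_sq hsp hs0 hs hodd (L := L)
  have m3 := sum_w_sq_mul hsp hs0 hs hodd (one_ne_zero (α := L))
  simp only [one_mul] at m3
  have S := fun f => sum_levels_int (fun a : L => w p L s a) zAB zAC zBC hV f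
  have hqz : (Fintype.card L : ℤ) = (p : ℤ) ^ (2 * h) := by rw [hcardL]; push_cast; rfl
  have s0 := S (fun _ => 1)
  have s1 := S (fun x => x)
  have s2 := S (fun x => x ^ 2)
  have s3 := S (fun x => x ^ 2 * x)
  have sp1 : ∑ a ∈ univ.erase (0 : L), w p L s a = (p : ℤ) ^ (2 * h) := by
    rw [← hqz, ← m1, ← add_sum_erase univ _ (mem_univ (0 : L)), hw0, zero_add]
  have sp2 : ∑ a ∈ univ.erase (0 : L), w p L s a ^ 2 = ((p : ℤ) ^ (2 * h)) ^ 2 := by
    rw [← hqz, ← m2, ← add_sum_erase univ _ (mem_univ (0 : L)), hw0]; simp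
  have sp3 : ∑ a ∈ univ.erase (0 : L), w p L s a ^ 2 * w p L s a
      = ((p : ℤ) ^ (2 * h)) ^ 2 * del L s 1 := by
    rw [← hqz, ← m3, ← add_sum_erase univ _ (mem_univ (0 : L)), hw0]; simp
  rw [sp1] at s1
  rw [sp2] at s2
  rw [sp3] at s3
  have sp0 : ∑ _a ∈ univ.erase (0 : L), (1 : ℤ) = (p : ℤ) ^ (2 * h) - 1 := by
    rw [sum_const, card_erase_of_mem (mem_univ _), card_univ, hcardL, nsmul_eq_mul, mul_one,
      Nat.cast_sub (Nat.one_le_pow _ _ hp.pos)]
    push_cast; rfl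
  rw [sp0] at s0
  have cA : 1 ≤ ((univ.erase (0 : L)).filter (fun a => w p L s a = Az)).card :=
    card_pos.mpr ⟨aA, mem_filter.mpr ⟨mem_erase.mpr ⟨haA0, mem_univ _⟩, hAz.symm⟩⟩
  have cB : 1 ≤ ((univ.erase (0 : L)).filter (fun a => w p L s a = Bz)).card :=
    card_pos.mpr ⟨aB, mem_filter.mpr ⟨mem_erase.mpr ⟨haB0, mem_univ _⟩, hBz.symm⟩⟩
  have cC : 1 ≤ ((univ.erase (0 : L)).filter (fun a => w p L s a = Cz)).card :=
    card_pos.mpr ⟨aC, mem_filter.mpr ⟨mem_erase.mpr ⟨haC0, mem_univ _⟩, hCz.symm⟩⟩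
  refine nonzero_false (h := h) hp hp5 hA0 hB0 hC0 cA cB cC (by linarith) (by linarith)
    (by linarith) (dl := del L s 1) ?_ ?_
  · rw [s3]
    linear_combination -(Az + Bz + Cz) * s2 + (Az * Bz + Bz * Cz + Cz * Az) * s1
      - (Az * Bz * Cz) * s0
  · obtain ⟨x, hx⟩ := htow
    by_contra hcon
    push Not at hcon
    apply hx
    by_cases hx0 : x = 0
    · rw [hx0, hw0]; exact dvd_zero _
    · rcases hV x hx0 with h1 | h1 | h1
      · rw [h1]; exact hcon.1
      · rw [h1]; exact hcon.2.1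
      · rw [h1]; exact hcon.2.2

end

end Hel
end
end
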