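import Pool.Agent.Lib.MP_baea4e_nt.Sub7
import Pool.Agent.Lib.MP_baea4e_nt.Final

section

set_option autoImplicit false
set_option linter.unusedSectionVars false

open Finset

namespace Hel

section

variable {p : ℕ} [Fact p.Prime] {K : Type*} [Field K] [Fintype K] [DecidableEq K]
  {M : Type*} [Field M] [Fintype M] [DecidableEq M] [Algebra (ZMod p) K] [Algebra (ZMod p) M]
  [Algebra K M] [IsScalarTower (ZMod p) K M] {s : ℕ}

lemma card_trace_zero (hKM : Module.finrank K M = 2) {c : M} (hc : c ≠ 0) :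
    (univ.filter fun x : M => Algebra.trace K M (c * x) = 0).card = Fintype.card K := by
  obtain ⟨e, he, hce⟩ := exists_eps (M := K) (L := M) hKM
  rw [← card_univ (α := K)]
  symm
  refine card_bij (fun m _ => c⁻¹ * (algebraMap K M m * e)) ?_ ?_ ?_
  · intro m _
    rw [mem_filter, mul_inv_cancel_left₀ hc]
    exact ⟨mem_univ _, (trace_zero_iff hKM he hce _).mpr ⟨m, rfl⟩⟩
  · intro x _ y _ h
    exact mapinj (mul_right_cancel₀ he (mul_left_cancel₀ (inv_ne_zero hc) h))
  · intro y hy
    rw [mem_filter, trace_zero_iff hKM he hce] at hy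
    obtain ⟨m, hm⟩ := hy.2
    exact ⟨m, mem_univ _, by rw [hm, inv_mul_cancel_left₀ hc]⟩

/-- the sum of the spectrum over the subfield -/
lemma sum_sub (hsp : ∀ nu : ZMod p, nu ^ s = nu) (hKM : Module.finrank K M = 2) (hodd : Odd s) :
    ∑ a : K, w p M s (algebraMap K M a) = (Fintype.card K : ℤ) ^ 2 := by
  have h : ∑ a : K, Wc (psi p M) s (algebraMap K M a) = (Fintype.card K : ℂ) ^ 2 := by
    unfold Wc
    rw [sum_comm]
    have e1 : ∀ x : M, ∑ a : K, psi p M (x ^ s - algebraMap K M a * x)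
        = if Algebra.trace K M (1 * x) = 0 then (Fintype.card K : ℂ) else 0 := by
      intro x
      have e2 : ∀ a : K, psi p M (x ^ s - algebraMap K M a * x)
          = psi p K (Algebra.trace K M (x ^ s)) * psi p K (-(a * Algebra.trace K M x)) := by
        intro a
        rw [psi_tower (M := K) (L := M), ← AddChar.map_add_eq_mul]
        congr 1
        have : algebraMap K M a * x = a • x := by rw [Algebra.smul_def]
        rw [this, map_sub, map_smul, smul_eq_mul]; ring
      simp_rw [e2]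
      rw [← mul_sum, sum_neg_mul_char (psi_prim (p := p) (L := K)), one_mul]
      split_ifs with h0
      · have : Algebra.trace K M (x ^ s) = 0 := by
          rw [trace_eq_iff hKM, map_zero] at h0 ⊢
          rw [cj_pow, eq_neg_of_add_eq_zero_right h0, hodd.neg_pow]; ring
        rw [this, AddChar.map_zero_eq_one, one_mul]
      · rw [mul_zero]
    simp_rw [e1]
    rw [← sum_filter, sum_const, card_trace_zero hKM (one_ne_zero), nsmul_eq_mul]
    ring
  simp_rw [Wc_eq_w hsp] at h
  exact_mod_cast h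

/-- arithmetic of the two indices -/
lemma index_arith {N go ge : ℕ} (hN13 : 13 ≤ N) (hN4 : N % 4 = 1) (hgo : Odd go)
    (hge : Even ge) (hge0 : 0 < ge) (hcop : Nat.Coprime go ge) (h1 : go ∣ N + 1)
    (h2 : ge ∣ N + 1) (hlt : N + 6 ≤ 2 * ge + 3 * go) :
    (go = 1 ∧ ge = N + 1) ∨ (ge = 2 ∧ 2 * go = N + 1) := by
  obtain ⟨h, hh⟩ : go * ge ∣ N + 1 := hcop.mul_dvd_of_dvd_of_dvd h1 h2
  obtain ⟨a, ha⟩ := hgo
  obtain ⟨b, hb⟩ := hge
  have hh0 : 0 < h := by
    rcases Nat.eq_zero_or_pos h with h0 | h0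
    · rw [h0] at hh; omega
    · exact h0
  -- `h` is odd and `ge = 2 mod 4`
  have hho : h % 2 = 1 := by
    by_contra hcon
    obtain ⟨c, hc⟩ : 2 ∣ h := by omega
    have : N + 1 = 4 * (go * b * c) := by rw [hh, hb, hc]; ring
    omega
  have hbo : b % 2 = 1 := by
    by_contra hcon
    obtain ⟨c, hc⟩ : 2 ∣ b := by omega
    have : N + 1 = 4 * (go * c * h) := by rw [hh, hb, hc]; ring
    omega
  have hb0 : 1 ≤ b := by omega
  rcases Nat.lt_or_ge go 3 with hgo3 | hgo3
  · left
    have hgo1 : go = 1 := by omega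
    subst hgo1
    refine ⟨rfl, ?_⟩
    rcases Nat.lt_or_ge h 3 with hh3 | hh3
    · have : h = 1 := by omega
      rw [this] at hh
      omega
    · exfalso
      have : ge * 3 ≤ ge * h := Nat.mul_le_mul_left _ hh3
      have h5 : 1 * ge * h = ge * h := by ring
      omega
  · rcases Nat.lt_or_ge ge 6 with hge6 | hge6
    · have hge2 : ge = 2 := by omega
      right
      refine ⟨hge2, ?_⟩
      rw [hge2] at hh
      rcases Nat.lt_or_ge h 3 with hh3 | hh3
      · have : h = 1 := by omega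
        rw [this] at hh
        omega
      · exfalso
        have : go * 2 * 3 ≤ go * 2 * h := Nat.mul_le_mul_left _ hh3
        omega
    · exfalso
      have h5 : go * ge ≤ N + 1 := by
        rw [hh]; exact Nat.le_mul_of_pos_right _ hh0
      obtain ⟨x, hx⟩ := Nat.exists_eq_add_of_le hgo3
      obtain ⟨y, hy⟩ := Nat.exists_eq_add_of_le hge6
      rw [hx, hy] at h5
      have h6 : (3 + x) * (6 + y) = 18 + 6 * x + 3 * y + x * y := by ring
      rw [h6] at h5
      omega

end

section

variable {p : ℕ} [Fact p.Prime] {K : Type*} [Field K] [Fintype K] [DecidableEq K]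
  {M : Type*} [Field M] [Fintype M] [DecidableEq M]
  {L : Type*} [Field L] [Fintype L] [DecidableEq L]
  [Algebra (ZMod p) K] [Algebra (ZMod p) M] [Algebra (ZMod p) L]
  [Algebra K M] [IsScalarTower (ZMod p) K M] [Algebra M L] [IsScalarTower (ZMod p) M L] {s : ℕ}

/-- degree four over a subfield on which the power map is the identity: the value `-α` is odd -/
theorem r4 (hp5 : 5 ≤ p) (hsp : ∀ nu : ZMod p, nu ^ s = nu) (hKM : Module.finrank K M = 2)
    (hML : Module.finrank M L = 2) (hs1 : 1 ≤ s) (hs : Nat.Coprime s (Fintype.card L - 1))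
    (hodd : Odd s) (hK : ∀ x : K, x ^ s = x) (hN4 : Fintype.card K % 4 = 1)
    (hN13 : 13 ≤ Fintype.card K) {α β : ℕ} {v : L → ℤ}
    (hv : ∀ a : L, w p L s a = Fintype.card M * v a)
    (hval : ∀ a : L, v a = 0 ∨ v a = -α ∨ v a = β) (hex : ∃ a : L, v a = -α)
    (hα : Even α) (hα0 : α ≠ 0) (hβ : Odd β) (hP : α + β < Fintype.card K) : False := by
  classical
  have hp : p.Prime := Fact.out
  have hp2 : p ≠ 2 := by omega
  have hs0 : s ≠ 0 := by omega
  have hsM := coprime_sub (M := M) hML hs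
  have hsK := coprime_sub (M := K) hKM hsM
  have h2M : (2 : M) ≠ 0 := two_ne p hp2 M
  have hm1 : (-1 : M) ≠ 1 := by
    intro h
    apply h2M
    linear_combination -h
  obtain ⟨N, hN⟩ : ∃ N, N = Fintype.card K := ⟨_, rfl⟩
  have hcM : Fintype.card M = N ^ 2 := by rw [hN]; exact card_M hKM
  have hNz : (N : ℤ) ≠ 0 := by
    have : N ≠ 0 := by omega
    exact_mod_cast this
  have hNodd : Odd N := by rw [hN, Nat.odd_iff]; omega
  have hdegK : Degen p K s := ⟨1, by rw [w_trivial hsp hK, if_pos rfl]⟩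
  have hb := base (p := p) hsp hKM hs0 hsM hdegK
  choose u hu using fun a => (hb a).1
  have hu1 : ∀ a : M, -1 ≤ u a := by
    intro a
    have h1 := (hb a).2
    rw [hu a, ← hN] at h1
    have hNpos : (0 : ℤ) < N := by
      have : 0 < N := by omega
      exact_mod_cast this
    by_contra hcon
    push Not at hcon
    have : (N : ℤ) * u a ≤ N * (-2) := mul_le_mul_of_nonneg_left (by omega) hNpos.le
    linarith
  -- sums
  have sM : ∑ a : M, u a = N := by
    have h1 := sum_w hsp hs0 (L := M)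
    simp_rw [hu] at h1
    rw [← mul_sum, hcM, ← hN] at h1
    push_cast at h1
    apply mul_left_cancel₀ hNz
    rw [h1]; ring
  have sK : ∑ a : K, u (algebraMap K M a) = N := by
    have h1 := sum_sub (p := p) hsp hKM hodd
    simp_rw [hu] at h1
    rw [← mul_sum, ← hN] at h1
    apply mul_left_cancel₀ hNz
    rw [h1]; ring
  -- parity
  have hpar : ∀ a : M, (2 : ℤ) ∣ v (algebraMap M L a) - u a := by
    intro a
    have h1 := w_parity (p := p) (s := s) hp2 hsp (m := 1) (by rw [hML]; norm_num) a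
    rw [hv, hu, hcM, ← hN] at h1
    obtain ⟨r, hr⟩ := hNodd
    rw [hr] at h1
    push_cast at h1
    obtain ⟨d, hd⟩ := h1
    refine ⟨d - (2 * r ^ 2 + 2 * r) * v (algebraMap M L a) + r * u a, ?_⟩
    linear_combination hd
  have huodd1 : Odd (u 1) := by
    have h := w_odd_one (p := p) (K := K) (L := M) hp2 hsp (m := 1) (by rw [hKM]; norm_num) hK
    rw [hu] at h
    exact (Int.odd_mul.mp h).2
  have hueven : ∀ a : K, a ≠ 1 → Even (u (algebraMap K M a)) := by
    intro a ha
    have h := w_even (p := p) (K := K) (L := M) hp2 hsp (m := 1) (by rw [hKM]; norm_num) hK ha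
    rw [hu, Int.even_mul, ← hN] at h
    rcases h with h | h
    · exfalso
      have : Even N := by exact_mod_cast h
      exact (Nat.not_even_iff_odd.mpr hNodd) this
    · exact h
  have hveven : ∀ a : M, Even (u a) → v (algebraMap M L a) = 0 ∨ v (algebraMap M L a) = -α := by
    intro a ha
    rcases hval (algebraMap M L a) with h | h | h
    · exact Or.inl h
    · exact Or.inr h
    · exfalso
      have h1 := hpar a
      rw [h] at h1
      obtain ⟨x, hx⟩ := ha
      obtain ⟨y, hy⟩ := hβ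
      omega
  have hvodd : ∀ a : M, ¬ Even (u a) → v (algebraMap M L a) = β := by
    intro a ha
    have ha' : Odd (u a) := Int.not_even_iff_odd.mp ha
    obtain ⟨x, hx⟩ := ha'
    obtain ⟨y, hy⟩ := hα
    have h1 := hpar a
    rcases hval (algebraMap M L a) with h | h | h
    · exfalso; rw [h] at h1; omega
    · exfalso; rw [h] at h1; omega
    · exact h
  -- the correlation
  obtain ⟨T, hT⟩ : ∃ T : ℤ, T = ∑ a : M, v (algebraMap M L a) * u a := ⟨_, rfl⟩
  have hTstar : ((N : ℤ) ^ 2 - 1) * T = N * ((cA M L s : ℤ) - N ^ 2) := by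
    have h1 := star_z (p := p) hsp hML hs0 hs hodd
    simp_rw [hv, hu] at h1
    rw [hcM, ← hN] at h1
    have e1 : ∑ a : M, ((N ^ 2 : ℕ) : ℤ) * v (algebraMap M L a) * ((N : ℤ) * u a)
        = (N : ℤ) ^ 3 * T := by
      rw [hT, mul_sum]
      refine sum_congr rfl fun a _ => ?_
      push_cast; ring
    rw [e1] at h1
    push_cast at h1
    apply mul_left_cancel₀ (pow_ne_zero 3 hNz)
    linear_combination h1
  have hNT : (N : ℤ) ∣ T := by
    have h1 : (N : ℤ) ∣ ((N : ℤ) ^ 2 - 1) * T := ⟨_, hTstar⟩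
    have hco : IsCoprime (N : ℤ) ((N : ℤ) ^ 2 - 1) := ⟨N, -1, by ring⟩
    exact hco.dvd_of_dvd_mul_left h1
  have hTpos : 0 < T := by
    have h1 := cA_gt (p := p) hp2 hsp hML hs0 hodd
    rw [hcM] at h1
    have h2 : (0 : ℤ) < (cA M L s : ℤ) - N ^ 2 := by
      have : ((N ^ 2 : ℕ) : ℤ) < cA M L s := by exact_mod_cast h1
      push_cast at this
      linarith
    have hNpos : (0 : ℤ) < N := by
      have : 0 < N := by omega
      exact_mod_cast this
    have h3 : 0 < ((N : ℤ) ^ 2 - 1) * T := by rw [hTstar]; positivity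
    have h4 : (0 : ℤ) < (N : ℤ) ^ 2 - 1 := by
      have : (13 : ℤ) ≤ N := by exact_mod_cast (hN ▸ hN13)
      nlinarith
    exact (pos_iff_pos_of_mul_pos h3).mp h4
  have hTN : (N : ℤ) ≤ T := Int.le_of_dvd hTpos hNT
  have hβ0 : (0 : ℤ) < β := by
    obtain ⟨y, hy⟩ := hβ
    have : 0 < β := by omega
    exact_mod_cast this
  obtain ⟨Ve, hVe⟩ : ∃ Ve : ℤ, Ve = ∑ a ∈ univ.filter (fun a : M => Even (u a)), u a := ⟨_, rfl⟩
  have hTle : T ≤ β * (N - Ve) := by
    have h1 : (N : ℤ) - Ve = ∑ a ∈ univ.filter (fun a : M => ¬ Even (u a)), u a := by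
      rw [hVe, ← sM, ← sum_filter_add_sum_filter_not univ (fun a : M => Even (u a))]; ring
    rw [h1, hT, mul_sum, ← sum_filter_add_sum_filter_not univ (fun a : M => Even (u a))]
    have h2 : ∑ a ∈ univ.filter (fun a : M => Even (u a)), v (algebraMap M L a) * u a ≤ 0 := by
      refine sum_nonpos fun a ha => ?_
      have hev := (mem_filter.mp ha).2
      have hu0 : 0 ≤ u a := by
        have := hu1 a
        obtain ⟨x, hx⟩ := hev
        omega
      rcases hveven a hev with h | h
      · rw [h, zero_mul]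
      · rw [h]
        have : (0 : ℤ) ≤ α := by positivity
        nlinarith
    have h3 : ∑ a ∈ univ.filter (fun a : M => ¬ Even (u a)), v (algebraMap M L a) * u a
        = ∑ a ∈ univ.filter (fun a : M => ¬ Even (u a)), (β : ℤ) * u a := by
      refine sum_congr rfl fun a ha => ?_
      rw [hvodd a (mem_filter.mp ha).2]
    rw [h3]; linarith
  have hVeN : Ve ≤ N - 1 := by
    by_contra hcon
    push Not at hcon
    have : (β : ℤ) * (N - Ve) ≤ 0 := mul_nonpos_of_nonneg_of_nonpos hβ0.le (by omega)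
    have hNpos : (0 : ℤ) < N := by
      have : 0 < N := by omega
      exact_mod_cast this
    linarith
  -- the norm one group
  obtain ⟨go, ge, hgo, hge, hge0, hcop, hgod, hged, hform, himg⟩ :=
    norm_one_values (p := p) hp2 hsp hKM hs1 hsM hK (u := u) hu
  rw [← hN] at hgod hged hform himg
  obtain ⟨bo, hbo⟩ := hgod
  obtain ⟨be, hbe⟩ := hged
  have hgo0 : 0 < go := by obtain ⟨r, hr⟩ := hgo; omega
  have hqo : (N + 1) / go = bo := by rw [hbo]; exact Nat.mul_div_cancel_left _ hgo0
  have hqe : (N + 1) / ge = be := by rw [hbe]; exact Nat.mul_div_cancel_left _ hge0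
  rw [hqo] at hform himg
  rw [hqe] at hform
  obtain ⟨hh, hhh⟩ : go * ge ∣ N + 1 :=
    hcop.mul_dvd_of_dvd_of_dvd ⟨bo, hbo⟩ ⟨be, hbe⟩
  have hboe : bo = ge * hh := by
    apply Nat.eq_of_mul_eq_mul_left hgo0
    rw [← hbo, hhh]; ring
  have hbee : be = go * hh := by
    apply Nat.eq_of_mul_eq_mul_left hge0
    rw [← hbe, hhh]; ring
  have hhh0 : 0 < hh := by
    rcases Nat.eq_zero_or_pos hh with h0 | h0
    · rw [h0] at hhh; omega
    · exact h0
  have hbo0 : 0 < bo := by rw [hboe]; exact Nat.mul_pos hge0 hhh0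
  have hboev : Even bo := by rw [hboe]; exact hge.mul_right _
  have hbeo : Odd be := by
    rcases Nat.even_or_odd be with h | h
    · exfalso
      obtain ⟨x, hx⟩ := h
      obtain ⟨y, hy⟩ := hge
      have : N + 1 = 4 * (x * y) := by rw [hbe, hx, hy]; ring
      omega
    · exact h
  have hM1 : Fintype.card M - 1 = (N - 1) * (N + 1) := by
    rw [hcM]
    obtain ⟨r, hr⟩ : ∃ r, N = r + 1 := ⟨N - 1, by omega⟩
    rw [hr]
    have : (r + 1) ^ 2 = r * (r + 1 + 1) + 1 := by ring
    rw [this]; simp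
  have hu_one : u 1 = go + ge - 2 := by
    have h := hform 1 (one_pow _)
    simp only [one_pow, if_true] at h
    linarith
  have hu_neg : u (-1) = go - 1 := by
    have h := hform (-1) (by
      have : Even (N + 1) := by obtain ⟨r, hr⟩ := hNodd; exact ⟨r + 1, by omega⟩
      rw [this.neg_pow, one_pow])
    rw [hboev.neg_pow, one_pow, if_pos rfl, hbeo.neg_pow, one_pow, if_neg hm1, if_neg hm1] at h
    linarith
  -- the sum over the group of odd index
  have sB : ∑ a ∈ univ.filter (fun a : M => a ^ bo = 1), u a = N := by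
    have hpw : ∀ a ∈ univ.filter (fun a : M => a ^ bo = 1), a ^ (N + 1) = 1 := by
      intro a ha
      rw [hbo, mul_comm, pow_mul, (mem_filter.mp ha).2, one_pow]
    have h1 : ∑ a ∈ univ.filter (fun a : M => a ^ bo = 1), (u a + 1)
        = go * bo + ge * hh - 1 := by
      rw [sum_congr rfl (fun a ha => hform a (hpw a ha)), sum_sub_distrib, sum_add_distrib]
      congr 1
      · congr 1
        · rw [sum_congr rfl (g := fun _ => (go : ℤ))]
          · rw [sum_const, card_unity hbo0 (by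
              rw [hM1, hbo]; exact ⟨(N - 1) * go, by ring⟩),
              nsmul_eq_mul, mul_comm]
          · intro a ha
            rw [if_pos (mem_filter.mp ha).2]
        · rw [← sum_filter, filter_filter, sum_const, nsmul_eq_mul, mul_comm]
          congr 2
          rw [← card_unity (M := M) hhh0 (by
            rw [hM1, hhh]; exact ⟨(N - 1) * (go * ge), by ring⟩)]
          congr 1
          ext a
          simp only [mem_filter, mem_univ, true_and]
          constructor
          · rintro ⟨h3, h4⟩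
            have h5 := pow_gcd_eq_one.mpr ⟨h3, h4⟩
            rw [hboe, hbee, Nat.gcd_mul_right, Nat.gcd_comm, hcop, one_mul] at h5
            exact h5
          · intro h3
            constructor
            · rw [hboe, mul_comm, pow_mul, h3, one_pow]
            · rw [hbee, mul_comm, pow_mul, h3, one_pow]
      · rw [← sum_filter, filter_filter]
        have : (univ.filter fun a : M => a ^ bo = 1 ∧ a = 1) = {1} := by
          ext a
          simp only [mem_filter, mem_univ, true_and, mem_singleton]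
          constructor
          · exact fun h => h.2
          · rintro rfl; exact ⟨one_pow _, rfl⟩
        rw [this, sum_singleton]
    rw [sum_add_distrib, sum_const, card_unity hbo0 (by
      rw [hM1, hbo]; exact ⟨(N - 1) * go, by ring⟩), nsmul_eq_mul, mul_one] at h1
    have h2 : (N : ℤ) + 1 = go * bo := by exact_mod_cast hbo
    have h3 : (bo : ℤ) = ge * hh := by exact_mod_cast hboe
    linarith
  -- lower bound for the even part
  have hlow : 2 * ((N : ℤ) - u 1) - u (-1) ≤ Ve := by
    set EK : Finset M := (univ.erase (1 : K)).image (algebraMap K M) with hEK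
    set EB : Finset M := (univ.filter (fun a : M => a ^ bo = 1)).erase 1 with hEB
    have sEK : ∑ a ∈ EK, u a = N - u 1 := by
      rw [hEK, sum_image (fun x _ y _ h => mapinj h), ← sK,
        ← add_sum_erase univ _ (mem_univ (1 : K)), map_one]; ring
    have sEB : ∑ a ∈ EB, u a = N - u 1 := by
      have hmem : (1 : M) ∈ univ.filter (fun a : M => a ^ bo = 1) := by
        rw [mem_filter]; exact ⟨mem_univ _, one_pow _⟩
      rw [hEB, ← sB, ← add_sum_erase _ _ hmem]; ring
    have hKsub : EK ⊆ univ.filter (fun a : M => Even (u a)) := by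
      intro a ha
      rw [hEK, mem_image] at ha
      obtain ⟨b, hb, rfl⟩ := ha
      rw [mem_filter]
      exact ⟨mem_univ _, hueven b (ne_of_mem_erase hb)⟩
    have hBsub : EB ⊆ univ.filter (fun a : M => Even (u a)) := by
      intro a ha
      rw [hEB, mem_erase, mem_filter] at ha
      obtain ⟨ha1, _, ha2⟩ := ha
      rw [mem_filter]
      refine ⟨mem_univ _, ?_⟩
      have h1 := hform a (by rw [hbo, mul_comm, pow_mul, ha2, one_pow])
      rw [if_pos ha2, if_neg ha1] at h1
      obtain ⟨r, hr⟩ := hgo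
      obtain ⟨y, hy⟩ := hge
      split_ifs at h1
      · exact ⟨r + y, by rw [hr, hy] at h1; push_cast at h1; linarith⟩
      · exact ⟨r, by rw [hr] at h1; push_cast at h1; linarith⟩
    have hinter : EK ∩ EB ⊆ {-1} := by
      intro a ha
      rw [mem_inter, hEK, mem_image, hEB, mem_erase, mem_filter] at ha
      obtain ⟨⟨b, hb, rfl⟩, hne, _, hpw⟩ := ha
      rw [mem_singleton]
      have hb0 : b ≠ 0 := by
        rintro rfl
        rw [map_zero, zero_pow hbo0.ne'] at hpw
        exact zero_ne_one hpw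
      have h1 : (algebraMap K M b) ^ (N + 1) = 1 := by
        rw [hbo, mul_comm, pow_mul, hpw, one_pow]
      have h2 : (algebraMap K M b) ^ N = algebraMap K M b := by
        rw [← map_pow, hN, FiniteField.pow_card]
      rw [pow_succ, h2] at h1
      have h3 : (algebraMap K M b - 1) * (algebraMap K M b + 1) = 0 := by linear_combination h1
      rcases mul_eq_zero.mp h3 with h | h
      · exact absurd (sub_eq_zero.mp h) hne
      · exact eq_neg_of_add_eq_zero_left h
    have hu0 : ∀ a ∈ univ.filter (fun a : M => Even (u a)), 0 ≤ u a := by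
      intro a ha
      have := hu1 a
      obtain ⟨x, hx⟩ := (mem_filter.mp ha).2
      omega
    have h1 : ∑ a ∈ EK ∪ EB, u a ≤ Ve := by
      rw [hVe]
      exact sum_le_sum_of_subset_of_nonneg (union_subset hKsub hBsub)
        (fun a ha _ => hu0 a ha)
    have h2 : ∑ a ∈ EK ∪ EB, u a + ∑ a ∈ EK ∩ EB, u a = ∑ a ∈ EK, u a + ∑ a ∈ EB, u a :=
      sum_union_inter
    have hm0 : 0 ≤ u (-1) := by
      rw [hu_neg]
      have : (1 : ℤ) ≤ go := by exact_mod_cast hgo0
      linarith
    have h3 : ∑ a ∈ EK ∩ EB, u a ≤ u (-1) := by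
      have : ∑ a ∈ EK ∩ EB, u a ≤ ∑ a ∈ {(-1 : M)}, u a := by
        apply sum_le_sum_of_subset_of_nonneg hinter
        intro a ha _
        rw [mem_singleton] at ha
        rw [ha]; exact hm0
      rwa [sum_singleton] at this
    rw [sEK, sEB] at h2
    linarith
  have hlt : N + 6 ≤ 2 * ge + 3 * go := by
    rw [hu_one, hu_neg] at hlow
    have : (N : ℤ) + 6 ≤ 2 * ge + 3 * go := by linarith
    exact_mod_cast this
  rcases index_arith (hN ▸ hN13) (hN ▸ hN4) hgo hge hge0 hcop ⟨bo, hbo⟩ ⟨be, hbe⟩ hlt with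
    ⟨h1, h2⟩ | ⟨h1, h2⟩
  · -- degenerate on `M`
    have hdegM : Degen p M s := by
      refine ⟨1, ?_⟩
      rw [hu, hu_one, h1, h2, ← hN, hcM]
      push_cast; ring
    obtain ⟨a, ha⟩ := hex
    have h3 := (base (p := p) hsp hML hs0 hs hdegM a).2
    rw [hv a, ha] at h3
    have hMpos : (0 : ℤ) < Fintype.card M := by exact_mod_cast Fintype.card_pos
    have h4 : (2 : ℤ) ≤ α := by
      obtain ⟨x, hx⟩ := hα
      have : 2 ≤ α := by omega
      exact_mod_cast this
    nlinarith
  · -- the quadratic twist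
    have hbo2 : bo = 2 := by
      apply Nat.eq_of_mul_eq_mul_left hgo0
      rw [← hbo, mul_comm go 2, h2]
    rw [hbo2] at himg
    -- the trace of the power
    have htcj : ∀ z : M, Algebra.trace K M (cj K z) = Algebra.trace K M z := by
      intro z
      rw [cj_eq, Algebra.trace_eq_of_algEquiv]
    have htr : ∀ x : M, x ≠ 0 → Algebra.trace K M (x ^ s) = Algebra.trace K M x ∨
        Algebra.trace K M (x ^ s) = -Algebra.trace K M x := by
      intro x hx
      have hsN : 1 ≤ s * N := Nat.one_le_iff_ne_zero.mpr (mul_ne_zero hs0 (by omega))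
      rcases himg with himg | himg
      · have h3 := himg x hx
        have h4 : (x ^ (s - 1) - 1) * (x ^ (s - 1) + 1) = 0 := by linear_combination h3
        have h5 : x ^ s = x ^ (s - 1) * x := by rw [← pow_succ, Nat.sub_add_cancel hs1]
        rcases mul_eq_zero.mp h4 with h | h
        · left; rw [h5, sub_eq_zero.mp h, one_mul]
        · right; rw [h5, eq_neg_of_add_eq_zero_left h, neg_one_mul, map_neg]
      · have h3 := himg x hx
        have h4 : (x ^ (s * N - 1) - 1) * (x ^ (s * N - 1) + 1) = 0 := by linear_combination h3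
        have h5 : cj K (x ^ s) = x ^ (s * N - 1) * x := by
          rw [← pow_succ, Nat.sub_add_cancel hsN]
          unfold cj; rw [← pow_mul, ← hN]
        rw [← htcj, h5]
        rcases mul_eq_zero.mp h4 with h | h
        · left; rw [sub_eq_zero.mp h, one_mul]
        · right; rw [eq_neg_of_add_eq_zero_left h, neg_one_mul, map_neg]
    have hN1pos : (0 : ℤ) < (N : ℤ) - 1 := by
      have : (13 : ℤ) ≤ N := by exact_mod_cast (hN ▸ hN13)
      linarith
    have hNpos : (0 : ℤ) < N := by linarith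
    have hule : ∀ a : M, a ≠ 1 → a ≠ -1 → u a ≤ 1 := by
      intro a ha1 ha2
      have hk := kap_eq (p := p) hsp hKM hs0 hK a
      rw [hu a, ← hN] at hk
      have hk2 : ((N : ℤ) - 1) * (u a + 1) = kap K s a := by
        apply mul_left_cancel₀ hNz
        linear_combination hk
      have hsub : ((univ.erase (0 : M)).filter fun x => Algebra.trace K M (x ^ s - a * x) = 0)
          ⊆ ((univ.filter fun x : M => Algebra.trace K M ((1 - a) * x) = 0).erase 0)
            ∪ ((univ.filter fun x : M => Algebra.trace K M ((1 + a) * x) = 0).erase 0) := by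
        intro x hx
        rw [mem_filter, mem_erase] at hx
        obtain ⟨⟨hx0, _⟩, hx2⟩ := hx
        rw [mem_union, mem_erase, mem_erase, mem_filter, mem_filter]
        rw [map_sub] at hx2
        rcases htr x hx0 with h | h
        · left
          refine ⟨hx0, mem_univ _, ?_⟩
          rw [h] at hx2
          rw [sub_mul, one_mul, map_sub]; exact hx2
        · right
          refine ⟨hx0, mem_univ _, ?_⟩
          rw [h] at hx2
          rw [add_mul, one_mul, map_add]; linear_combination -hx2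
      have hc := (card_le_card hsub).trans (card_union_le _ _)
      have hz : ∀ c : M, c ≠ 0 →
          ((univ.filter fun x : M => Algebra.trace K M (c * x) = 0).erase 0).card = N - 1 := by
        intro c hc0
        rw [card_erase_of_mem, card_trace_zero hKM hc0, ← hN]
        rw [mem_filter]
        exact ⟨mem_univ _, by rw [mul_zero, map_zero]⟩
      have h1a : (1 - a) ≠ 0 := fun h => ha1 (sub_eq_zero.mp h).symm
      have h1b : (1 + a) ≠ 0 := fun h => ha2 (eq_neg_of_add_eq_zero_right h)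
      rw [hz _ h1a, hz _ h1b] at hc
      have hc2 : (kap K s a : ℤ) ≤ ((N : ℤ) - 1) * 2 := by
        have : kap K s a ≤ (N - 1) + (N - 1) := hc
        have h6 : ((N - 1 : ℕ) : ℤ) = (N : ℤ) - 1 := by
          rw [Nat.cast_sub (by omega : 1 ≤ N)]; norm_num
        have h7 : (kap K s a : ℤ) ≤ ((N - 1 : ℕ) : ℤ) + ((N - 1 : ℕ) : ℤ) := by exact_mod_cast this
        linarith
      rw [← hk2] at hc2
      have := le_of_mul_le_mul_left hc2 hN1pos
      linarith
    have hTeq : T - β * N = (v (algebraMap M L (-1)) - β) * u (-1) := by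
      rw [← sM, mul_sum, hT, ← sum_sub_distrib, sum_eq_single (-1 : M)]
      · ring
      · intro a _ hane
        by_cases hev : Even (u a)
        · have ha1 : a ≠ 1 := by
            rintro rfl
            exact (Int.not_even_iff_odd.mpr huodd1) hev
          have h3 := hule a ha1 hane
          have h4 := hu1 a
          have h5 : u a = 0 := by
            obtain ⟨x, hx⟩ := hev
            omega
          rw [h5]; ring
        · rw [hvodd a hev]; ring
      · intro h; exact absurd (mem_univ _) h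
    have hev : Even (u (-1)) := by
      obtain ⟨r, hr⟩ := hgo
      refine ⟨r, ?_⟩
      rw [hu_neg, hr]; push_cast; ring
    have h2u : 2 * u (-1) = N - 1 := by
      rw [hu_neg]
      have : 2 * (go : ℤ) = N + 1 := by exact_mod_cast h2
      linarith
    have hdvd : (N : ℤ) ∣ v (algebraMap M L (-1)) - β := by
      have h3 : (N : ℤ) ∣ (v (algebraMap M L (-1)) - β) * u (-1) := by
        rw [← hTeq]
        exact dvd_sub hNT (dvd_mul_left _ _)
      have h4 : (N : ℤ) ∣ ((N : ℤ) - 1) * (v (algebraMap M L (-1)) - β) := by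
        have := h3.mul_left 2
        have e : 2 * ((v (algebraMap M L (-1)) - β) * u (-1))
            = ((N : ℤ) - 1) * (v (algebraMap M L (-1)) - β) := by
          rw [← h2u]; ring
        rwa [e] at this
      have hco : IsCoprime (N : ℤ) ((N : ℤ) - 1) := ⟨1, -1, by ring⟩
      exact hco.dvd_of_dvd_mul_left h4
    have hPz : (α : ℤ) + β < N := by
      have := hP
      rw [← hN] at this
      exact_mod_cast this
    obtain ⟨d, hd⟩ := hdvd
    have hαz : (0 : ℤ) ≤ α := by positivity
    rcases hveven (-1) hev with h | h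
    · rw [h] at hd
      have h5 : (N : ℤ) * d < 0 := by linarith
      have h6 : d < 0 := by
        by_contra hc
        push Not at hc
        have : 0 ≤ (N : ℤ) * d := mul_nonneg hNpos.le hc
        linarith
      have h7 : (N : ℤ) * d ≤ N * (-1) := mul_le_mul_of_nonneg_left (by omega) hNpos.le
      linarith
    · rw [h] at hd
      have h5 : (N : ℤ) * d < 0 := by linarith
      have h6 : d < 0 := by
        by_contra hc
        push Not at hc
        have : 0 ≤ (N : ℤ) * d := mul_nonneg hNpos.le hc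
        linarith
      have h7 : (N : ℤ) * d ≤ N * (-1) := mul_le_mul_of_nonneg_left (by omega) hNpos.le
      linarith

end

end Hel
end

section

set_option autoImplicit false
set_option linter.unusedSectionVars false

open Finset

namespace Hel

/-- the data of a three-valued spectrum -/
structure TV (p : ℕ) [Fact p.Prime] (L : Type*) [Field L] [Fintype L] [DecidableEq L]
    [Algebra (ZMod p) L] (s Q α β : ℕ) : Prop where
  hp5 : 5 ≤ p
  hsp : ∀ nu : ZMod p, nu ^ s = nu
  hs0 : s ≠ 0
  hs : Nat.Coprime s (Fintype.card L - 1)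
  hodd : Odd s
  hQ : Fintype.card L = Q ^ 2
  hval : ∀ a : L, w p L s a = 0 ∨ w p L s a = -(α * Q : ℤ) ∨ w p L s a = (β * Q : ℤ)
  hA : ∃ a : L, w p L s a = -(α * Q : ℤ)
  hB : ∃ a : L, w p L s a = (β * Q : ℤ)
  hdel : ∀ t : L, t ≠ 0 → t ≠ 1 → del L s t = 0 ∨ del L s t = α * β
  hα1 : 1 ≤ α
  hαβ : α < β
  hpar : Odd (α + β)

/-- the Weil sums do not see powers of Frobenius -/
lemma Wc_frob {p : ℕ} [Fact p.Prime] {L : Type*} [Field L] [Fintype L] [DecidableEq L]
    [Algebra (ZMod p) L] (s i : ℕ) (a : L) : Wc (psi p L) (s * p ^ i) a = Wc (psi p L) s a := by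
  have h1 : ∀ y : L, psi p L (y ^ p) = psi p L y := by
    intro y
    rw [psi_apply, psi_apply]
    have h := FiniteField.coe_frobeniusAlgEquivOfAlgebraic (ZMod p) L
    have h2 : y ^ p = FiniteField.frobeniusAlgEquivOfAlgebraic (ZMod p) L y := by
      rw [h]; simp [ZMod.card]
    rw [h2, Algebra.trace_eq_of_algEquiv]
  have h2 : ∀ (i : ℕ) (y : L), psi p L (y ^ p ^ i) = psi p L y := by
    intro i
    induction i with
    | zero => intro y; simp
    | succ i ih => intro y; rw [pow_succ, pow_mul, h1, ih]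
  unfold Wc
  refine sum_congr rfl fun x _ => ?_
  rw [sub_eq_add_neg, AddChar.map_add_eq_mul, pow_mul, h2, ← AddChar.map_add_eq_mul,
    ← sub_eq_add_neg]

lemma del_frob {p : ℕ} [Fact p.Prime] {L : Type*} [Field L] [Fintype L] [DecidableEq L]
    [Algebra (ZMod p) L] (s i : ℕ) (t : L) : del L (s * p ^ i) t = del L s t := by
  have : CharP L p := charP_of_injective_algebraMap (algebraMap (ZMod p) L).injective p
  unfold del
  congr 1
  ext y
  simp only [mem_filter, mem_univ, true_and]
  have e : t ^ (s * p ^ i) * ((1 - y) ^ (s * p ^ i) + y ^ (s * p ^ i))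
      = (t ^ s * ((1 - y) ^ s + y ^ s)) ^ p ^ i := by
    rw [mul_pow, add_pow_char_pow, ← pow_mul, ← pow_mul, ← pow_mul]
  rw [e]
  constructor
  · intro h
    have h2 : iterateFrobenius L p i (t ^ s * ((1 - y) ^ s + y ^ s)) = iterateFrobenius L p i 1 := by
      rw [iterateFrobenius_def, iterateFrobenius_def, h, one_pow]
    exact (iterateFrobenius L p i).injective h2
  · intro h; rw [h, one_pow]

section

variable {p : ℕ} [Fact p.Prime] {L : Type*} [Field L] [Fintype L] [DecidableEq L]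
  [Algebra (ZMod p) L] {s Q α β : ℕ}

lemma TV.Q_odd (h : TV p L s Q α β) : Odd Q := by
  have hLo : Odd (Fintype.card L) := by
    rw [card_eq p L]; exact ((Fact.out : p.Prime).odd_of_ne_two (by have := h.hp5; omega)).pow
  rw [h.hQ] at hLo
  exact (Nat.odd_pow_iff two_ne_zero).mp hLo

lemma TV.Q_pos (h : TV p L s Q α β) : 0 < Q := by
  obtain ⟨r, hr⟩ := h.Q_odd
  omega

/-- replacing the exponent by a Frobenius twist -/
lemma TV.frob (h : TV p L s Q α β) (i : ℕ) : TV p L (s * p ^ i) Q α β := by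
  have hp : p.Prime := Fact.out
  have hsp : ∀ nu : ZMod p, nu ^ (s * p ^ i) = nu := by
    intro nu
    rw [pow_mul, h.hsp, ZMod.pow_card_pow]
  have hw : ∀ a : L, w p L (s * p ^ i) a = w p L s a := by
    intro a
    have h1 := Wc_frob (p := p) s i a
    rw [Wc_eq_w hsp, Wc_eq_w h.hsp] at h1
    exact_mod_cast h1
  refine ⟨h.hp5, hsp, mul_ne_zero h.hs0 (pow_ne_zero _ hp.ne_zero), ?_, ?_, h.hQ, ?_, ?_, ?_, ?_,
    h.hα1, h.hαβ, h.hpar⟩
  · apply Nat.Coprime.mul_left h.hs
    apply Nat.Coprime.pow_left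
    rw [hp.coprime_iff_not_dvd]
    intro hd
    have h1 : p ∣ Fintype.card L := by
      rw [card_eq p L]; exact dvd_pow_self _ (finrank_ne p L)
    have h2 : 1 ≤ Fintype.card L := Fintype.card_pos
    have h3 : p ∣ 1 := by
      have := Nat.dvd_sub h1 hd
      rwa [Nat.sub_sub_self h2] at this
    exact hp.one_lt.ne' (Nat.dvd_one.mp h3)
  · exact h.hodd.mul (hp.odd_of_ne_two (by have := h.hp5; omega)).pow
  · intro a; rw [hw]; exact h.hval a
  · obtain ⟨a, ha⟩ := h.hA; exact ⟨a, by rw [hw, ha]⟩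
  · obtain ⟨a, ha⟩ := h.hB; exact ⟨a, by rw [hw, ha]⟩
  · intro t; rw [del_frob]; exact h.hdel t

lemma TV.hval' (h : TV p L s Q α β) (a : L) :
    ∃ v : ℤ, w p L s a = Q * v ∧ (v = 0 ∨ v = -α ∨ v = β) := by
  rcases h.hval a with h1 | h1 | h1
  · exact ⟨0, by rw [h1]; ring, Or.inl rfl⟩
  · exact ⟨-α, by rw [h1]; ring, Or.inr (Or.inl rfl)⟩
  · exact ⟨β, by rw [h1]; ring, Or.inr (Or.inr rfl)⟩

lemma TV.not_degen (h : TV p L s Q α β) : ¬ Degen p L s := by
  intro hd
  obtain ⟨a, ha⟩ := h.hA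
  have h1 := degen_values h.hsp h.hs0 h.hs h.hodd hd a
  have h2 : (0 : ℤ) < Q := by exact_mod_cast h.Q_pos
  have h3 : (0 : ℤ) < α := by exact_mod_cast h.hα1
  have h4 : (0 : ℤ) < (α : ℤ) * Q := mul_pos h3 h2
  have h5 : (0 : ℤ) < Fintype.card L := by exact_mod_cast Fintype.card_pos
  rw [ha] at h1
  rcases h1 with h1 | h1 <;> linarith

end

section

variable {p : ℕ} [Fact p.Prime] {K : Type*} [Field K] [Fintype K] [DecidableEq K]
  {L : Type*} [Field L] [Fintype L] [DecidableEq L] [Algebra (ZMod p) K] [Algebra (ZMod p) L]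
  [Algebra K L] [IsScalarTower (ZMod p) K L] {s Q α β : ℕ}

/-- the value at `1` -/
lemma TV.one (h : TV p L s Q α β) {m : ℕ} (hKL : Module.finrank K L = 2 ^ m)
    (hK : ∀ x : K, x ^ s = x) :
    w p L s 1 = if Even α then (β * Q : ℤ) else -(α * Q : ℤ) := by
  have h5 := h.hp5
  have ho := w_odd_one (p := p) (L := L) (by omega) h.hsp hKL hK
  obtain ⟨r, hr⟩ := h.Q_odd
  obtain ⟨y, hy⟩ := h.hpar
  split_ifs with he
  · rcases h.hval 1 with h1 | h1 | h1
    · rw [h1] at ho; exact absurd ho (by decide)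
    · exfalso
      rw [h1] at ho
      have : Even (-(α * Q : ℤ)) := by
        rw [even_neg]
        have : Even (α : ℤ) := by exact_mod_cast he
        exact this.mul_right _
      exact (Int.not_even_iff_odd.mpr ho) this
    · exact h1
  · have hαo : Odd α := Nat.not_even_iff_odd.mp he
    have hβe : Even β := by
      obtain ⟨z, hz⟩ := hαo
      exact ⟨y - z, by omega⟩
    rcases h.hval 1 with h1 | h1 | h1
    · rw [h1] at ho; exact absurd ho (by decide)
    · exact h1
    · exfalso
      rw [h1] at ho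
      have : Even ((β * Q : ℤ)) := by
        have : Even (β : ℤ) := by exact_mod_cast hβe
        exact this.mul_right _
      exact (Int.not_even_iff_odd.mpr ho) this

/-- the values at the other elements of the subfield -/
lemma TV.other (h : TV p L s Q α β) {m : ℕ} (hKL : Module.finrank K L = 2 ^ m)
    (hK : ∀ x : K, x ^ s = x) {c : K} (hc : c ≠ 1) :
    w p L s (algebraMap K L c) = 0 ∨
    w p L s (algebraMap K L c) = if Even α then -(α * Q : ℤ) else (β * Q : ℤ) := by
  have h5 := h.hp5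
  have ho := w_even (p := p) (L := L) (by omega) h.hsp hKL hK hc
  obtain ⟨y, hy⟩ := h.hpar
  have hQz : Odd (Q : ℤ) := by exact_mod_cast h.Q_odd
  split_ifs with he
  · have hβo : Odd β := by
      obtain ⟨z, hz⟩ := he
      exact ⟨y - z, by omega⟩
    rcases h.hval (algebraMap K L c) with h1 | h1 | h1
    · exact Or.inl h1
    · exact Or.inr h1
    · exfalso
      rw [h1] at ho
      have : Odd ((β * Q : ℤ)) := by
        have : Odd (β : ℤ) := by exact_mod_cast hβo
        exact this.mul hQz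
      exact (Int.not_even_iff_odd.mpr this) ho
  · have hαo : Odd α := Nat.not_even_iff_odd.mp he
    rcases h.hval (algebraMap K L c) with h1 | h1 | h1
    · exact Or.inl h1
    · exfalso
      rw [h1] at ho
      have : Odd (-(α * Q : ℤ)) := by
        rw [odd_neg]
        have : Odd (α : ℤ) := by exact_mod_cast hαo
        exact this.mul hQz
      exact (Int.not_even_iff_odd.mpr this) ho
    · exact Or.inr h1

lemma TV.supp (h : TV p L s Q α β) {m : ℕ} (hKL : Module.finrank K L = 2 ^ m)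
    (hK : ∀ x : K, x ^ s = x) {c : K} (hc0 : c ≠ 0) (hc1 : c ≠ 1) :
    w p L s (algebraMap K L c) ≠ 0 ↔ del L s (algebraMap K L c)⁻¹ ≠ 0 := by
  have h5 := h.hp5
  choose v hv1 hv2 using h.hval'
  have h1 := h.hα1
  have h2 := h.hαβ
  exact supp_eq (by omega) h.hsp h.hs0 h.hs h.hodd hKL hK h.hQ (by omega) (by omega) hv1 hv2
    h.hdel hc0 hc1

/-- the subfield has codegree at least four -/
lemma TV.deg (h : TV p L s Q α β) {m : ℕ} (hKL : Module.finrank K L = 2 ^ m)
    (hK : ∀ x : K, x ^ s = x) : 2 ≤ m := by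
  have h5 := h.hp5
  by_contra hcon
  have hm : m = 0 ∨ m = 1 := by omega
  rcases hm with rfl | rfl
  · -- the power map is the identity on `L`
    apply h.not_degen
    have hsurj : Function.Surjective (algebraMap K L) := by
      have hc : Fintype.card L = Fintype.card K := by
        rw [Module.card_eq_pow_finrank (K := K) (V := L), hKL]; simp
      exact ((Fintype.bijective_iff_injective_and_card _).mpr
        ⟨(algebraMap K L).injective, hc.symm⟩).2
    refine ⟨1, ?_⟩
    have hL : ∀ x : L, x ^ s = x := by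
      intro x
      obtain ⟨y, rfl⟩ := hsurj x
      rw [← map_pow, hK]
    rw [w_trivial h.hsp hL, if_pos rfl]
  · rw [pow_one] at hKL
    have hs1 : 1 ≤ s := Nat.one_le_iff_ne_zero.mpr h.hs0
    have hcL : Fintype.card L = Fintype.card K ^ 2 := card_M hKL
    have hQK : Q = Fintype.card K := by
      have := h.hQ
      rw [hcL] at this
      exact (Nat.pow_left_injective (n := 2) (by norm_num) this).symm
    have hdegK : Degen p K s := ⟨1, by rw [w_trivial h.hsp hK, if_pos rfl]⟩
    have hb := base (p := p) h.hsp hKL h.hs0 h.hs hdegK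
    choose u hu using fun a => (hb a).1
    obtain ⟨go, ge, hgo, hge, hge0, _, _, _, hform, _⟩ :=
      norm_one_values (p := p) (by omega) h.hsp hKL hs1 h.hs hK (u := u) hu
    have hgo0 : 0 < go := by obtain ⟨r, hr⟩ := hgo; omega
    have h1 := hform 1 (one_pow _)
    simp only [one_pow, if_true] at h1
    have hge2 : (2 : ℤ) ≤ ge := by
      obtain ⟨x, hx⟩ := hge
      have : 2 ≤ ge := by omega
      exact_mod_cast this
    have hgo1 : (1 : ℤ) ≤ go := by exact_mod_cast hgo0
    have hu1 : 1 ≤ u 1 := by linarith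
    have hQz : (0 : ℤ) < Q := by exact_mod_cast h.Q_pos
    have hw1 := h.one (m := 1) (by rw [pow_one]; exact hKL) hK
    rw [hu 1, ← hQK] at hw1
    -- hence `α` is even
    have hαe : Even α := by
      by_contra hne
      rw [if_neg hne] at hw1
      have h3 : (0 : ℤ) < Q * u 1 := mul_pos hQz (by linarith)
      have h4 : (0 : ℤ) ≤ α * Q := by positivity
      linarith
    obtain ⟨a, ha⟩ := h.hA
    have h6 := (hb a).2
    rw [ha, ← hQK] at h6
    have h7 : (2 : ℤ) ≤ α := by
      obtain ⟨x, hx⟩ := hαe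
      have := h.hα1
      have : 2 ≤ α := by omega
      exact_mod_cast this
    nlinarith

end

section

variable {p : ℕ} [Fact p.Prime] {L : Type*} [Field L] [Fintype L] [DecidableEq L]
  [Algebra (ZMod p) L] {s Q α β : ℕ}

/-- degree four -/
lemma TV.four (h : TV p L s Q α β) {d : ℕ} (hd : Module.finrank (ZMod p) L = 4 * d)
    (hd2 : Even d) (hdiv : p ^ d - 1 ∣ s - 1) (hP : α + β < p ^ d) : Odd α := by
  have hp : p.Prime := Fact.out
  have h5 := h.hp5
  obtain ⟨M, _, _, _, _, _, _, hM1, hM2⟩ := exists_sub p L (h := 2 * d) (by rw [hd]; ring)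
  obtain ⟨K, _, _, _, _, _, _, hK1, hK2⟩ := exists_sub p M (h := d) (by rw [hM1])
  have hcK : Fintype.card K = p ^ d := by rw [card_eq p K, hK1]
  have hs1 : 1 ≤ s := Nat.one_le_iff_ne_zero.mpr h.hs0
  have hK : ∀ x : K, x ^ s = x := by
    intro x
    by_cases hx : x = 0
    · rw [hx, zero_pow h.hs0]
    · obtain ⟨c, hc⟩ := hdiv
      have h1 : x ^ (s - 1) = 1 := by
        rw [hc, ← hcK, pow_mul, FiniteField.pow_card_sub_one_eq_one x hx, one_pow]
      calc x ^ s = x ^ (s - 1) * x := by rw [← pow_succ, Nat.sub_add_cancel hs1]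
      _ = x := by rw [h1, one_mul]
  by_contra hne
  have hαe : Even α := Nat.not_odd_iff_even.mp hne
  choose v hv1 hv2 using h.hval'
  have hd0 : d ≠ 0 := by
    rintro rfl
    exact finrank_ne p L (by rw [hd])
  have hcM : Fintype.card M = p ^ (2 * d) := by rw [card_eq p M, hM1]
  have hcL : Fintype.card L = p ^ (4 * d) := by rw [card_eq p L, hd]
  have hQM : Q = Fintype.card M := by
    have h1 := h.hQ
    rw [hcL] at h1
    have h2 : Fintype.card M ^ 2 = Q ^ 2 := by
      rw [← h1, hcM, ← pow_mul]; congr 1; ring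
    exact (Nat.pow_left_injective (n := 2) (by norm_num) h2).symm
  have hβo : Odd β := by
    obtain ⟨y, hy⟩ := h.hpar
    obtain ⟨z, hz⟩ := hαe
    exact ⟨y - z, by omega⟩
  have hα1 := h.hα1
  obtain ⟨e, he⟩ := hd2
  have he0 : e ≠ 0 := by omega
  have hsq : p ^ d = (p ^ e) ^ 2 := by rw [he, ← pow_mul]; congr 1; ring
  have hpo : Odd (p ^ e) := (hp.odd_of_ne_two (by omega)).pow
  have hpe : 5 ≤ p ^ e := h5.trans (Nat.le_self_pow he0 p)
  refine r4 (p := p) (K := K) (M := M) (L := L) h5 h.hsp hK2 hM2 hs1 h.hs h.hodd hK ?_ ?_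
    (α := α) (β := β) (v := v) ?_ hv2 ?_ hαe (by omega) hβo (by rw [hcK]; exact hP)
  · rw [hcK, hsq]
    obtain ⟨x, hx⟩ := hpo
    rw [hx]
    have : (2 * x + 1) ^ 2 = 4 * (x * x + x) + 1 := by ring
    rw [this]; omega
  · rw [hcK, hsq]; nlinarith
  · intro a; rw [← hQM]; exact hv1 a
  · obtain ⟨a, ha⟩ := h.hA
    refine ⟨a, ?_⟩
    rw [hv1 a] at ha
    have hQz : (Q : ℤ) ≠ 0 := by
      have := h.Q_pos
      exact_mod_cast this.ne'
    apply mul_left_cancel₀ hQz
    rw [ha]; ring

end

end Hel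
end

section

set_option autoImplicit false
set_option linter.unusedSectionVars false

open Finset

namespace Hel

section

variable {p : ℕ} [Fact p.Prime] {L : Type*} [Field L] [Fintype L] [DecidableEq L]
  [Algebra (ZMod p) L] {s Q α β : ℕ}

theorem tv_of_three (hp5 : 5 ≤ p) (hs0 : s ≠ 0) (hs : Nat.Coprime s (Fintype.card L - 1))
    {k : ℕ} (hk : Module.finrank (ZMod p) L = 2 ^ k)
    (h3 : {v : ℂ | ∃ a : L, a ≠ 0 ∧ Wc (psi p L) s a = v}.ncard = 3) :
    3 ≤ k ∧ ∃ α β : ℕ, TV p L s (p ^ 2 ^ (k - 1)) α β ∧ α + β < p ^ 2 ^ (k - 2) ∧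
      {v : ℂ | ∃ a : L, a ≠ 0 ∧ Wc (psi p L) s a = v}
        = {0, -((α : ℂ) * (p : ℂ) ^ (2 ^ (k - 1))), (β : ℂ) * (p : ℂ) ^ (2 ^ (k - 1))} := by
  have hp : p.Prime := Fact.out
  obtain ⟨hk1, e, α, β, ⟨c1, c2, c3, c4, c5, c6, c7, c8, c9, c10, c11⟩, hset⟩ :=
    structure_thm hp5 hs0 hs hk h3
  have hk3 : 3 ≤ k := by
    by_contra hcon
    have hle : k - 1 ≤ 1 := by omega
    have h2 : 2 ^ (k - 1) ≤ 2 ^ 1 := Nat.pow_le_pow_right (by norm_num) hle
    omega
  have h2L : (2 : L) ≠ 0 := two_ne p (by omega) L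
  have hodd : Odd s := s_odd h2L hs
  have hpo : Odd p := hp.odd_of_ne_two (by omega)
  have hp0 : (p : ℂ) ≠ 0 := by exact_mod_cast hp.ne_zero
  have hQ0 : ((p : ℂ) ^ (2 ^ (k - 1))) ≠ 0 := pow_ne_zero _ hp0
  have hαc : (α : ℂ) ≠ 0 := by
    have : α ≠ 0 := by omega
    exact_mod_cast this
  have hβc : (β : ℂ) ≠ 0 := by
    have : β ≠ 0 := by omega
    exact_mod_cast this
  have hab : (α : ℂ) + β ≠ 0 := by
    have : α + β ≠ 0 := by omega
    exact_mod_cast this
  have hmem : ∀ v : ℂ, (∃ a : L, a ≠ 0 ∧ Wc (psi p L) s a = v) ↔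
      v = 0 ∨ v = -((α : ℂ) * (p : ℂ) ^ (2 ^ (k - 1))) ∨ v = (β : ℂ) * (p : ℂ) ^ (2 ^ (k - 1)) := by
    intro v
    have : v ∈ {v : ℂ | ∃ a : L, a ≠ 0 ∧ Wc (psi p L) s a = v} ↔
      v ∈ ({0, -((α : ℂ) * (p : ℂ) ^ (2 ^ (k - 1))), (β : ℂ) * (p : ℂ) ^ (2 ^ (k - 1))} : Set ℂ) := by
      rw [hset]
    simpa using this
  have hA := (hmem _).mpr (Or.inr (Or.inl rfl))
  have hB := (hmem _).mpr (Or.inr (Or.inr rfl))
  have hO := (hmem 0).mpr (Or.inl rfl)
  have hsp := hsp_of_three hp5 hs0 hs (A := 0)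
    (B := -((α : ℂ) * (p : ℂ) ^ (2 ^ (k - 1)))) (C := (β : ℂ) * (p : ℂ) ^ (2 ^ (k - 1)))
    (by
      intro h
      have : (α : ℂ) * (p : ℂ) ^ (2 ^ (k - 1)) = 0 := by linear_combination h
      exact (mul_ne_zero hαc hQ0) this)
    (by intro h; exact (mul_ne_zero hβc hQ0) h.symm)
    (by
      intro h
      have : ((α : ℂ) + β) * (p : ℂ) ^ (2 ^ (k - 1)) = 0 := by linear_combination -h
      exact (mul_ne_zero hab hQ0) this)
    (fun a ha => (hmem _).mp ⟨a, ha, rfl⟩) hO hA hB
  have hk2 : 2 ^ k = 2 * 2 ^ (k - 1) := by rw [← pow_succ']; congr 1; omega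
  have hk4 : 2 ^ (k - 1) = 2 * 2 ^ (k - 2) := by rw [← pow_succ']; congr 1; omega
  refine ⟨hk3, α, β, ⟨hp5, hsp, hs0, hs, hodd, ?_, ?_, ?_, ?_, c10, c4, c5, ?_⟩, ?_, hset⟩
  · rw [card_eq p L, hk, hk2, ← pow_mul, mul_comm]
  · intro a
    by_cases ha : a = 0
    · left; rw [ha]; exact w_zero hsp hs0 hs
    · have h1 := (hmem _).mp ⟨a, ha, rfl⟩
      rw [Wc_eq_w hsp] at h1
      push_cast
      exact_mod_cast h1
  · obtain ⟨a, _, ha⟩ := hA
    rw [Wc_eq_w hsp] at ha
    refine ⟨a, ?_⟩
    push_cast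
    exact_mod_cast ha
  · obtain ⟨a, _, ha⟩ := hB
    rw [Wc_eq_w hsp] at ha
    refine ⟨a, ?_⟩
    push_cast
    exact_mod_cast ha
  · rw [c3]; exact hpo.pow
  · rw [c3]
    exact Nat.pow_lt_pow_right hp.one_lt (by omega)

/-- maximality of the subfield -/
lemma TV.maximal (h : TV p L s Q α β) {k : ℕ} (hk : Module.finrank (ZMod p) L = 2 ^ k)
    (K : IntermediateField (ZMod p) L) (hK : ∀ x ∈ K, x ^ s = x)
    (hmax : ∀ M : IntermediateField (ZMod p) L, K < M → ∀ i : ℕ, ∃ x ∈ M, x ^ s ≠ x ^ p ^ i) :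
    ∃ c ∈ K, c ≠ 0 ∧ c ≠ 1 ∧ w p L s c ≠ 0 := by
  classical
  have hp : p.Prime := Fact.out
  let _ : Fintype K := Fintype.ofFinite _
  have hKK : ∀ x : K, x ^ s = x := fun x => Subtype.ext (hK x.1 x.2)
  obtain ⟨m, hm⟩ : ∃ m, Module.finrank K L = 2 ^ m := by
    have h1 : Module.finrank K L ∣ 2 ^ k := by
      rw [← hk, ← Module.finrank_mul_finrank (ZMod p) K L]; exact dvd_mul_left _ _
    obtain ⟨m, _, hm⟩ := (Nat.dvd_prime_pow Nat.prime_two).mp h1
    exact ⟨m, hm⟩
  have hm2 := h.deg hm hKK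
  obtain ⟨d, hd⟩ : ∃ d, Module.finrank (ZMod p) K = d := ⟨_, rfl⟩
  have hd0 : d ≠ 0 := by rw [← hd]; exact finrank_ne p K
  have hdm : d * 2 ^ m = Module.finrank (ZMod p) L := by
    rw [← hd, ← hm, Module.finrank_mul_finrank]
  have hcK : Fintype.card K = p ^ d := by rw [card_eq p K, hd]
  -- the quadratic extension
  have h2d : 2 * d ≠ 0 := by omega
  have hfr : Module.finrank (ZMod p) (GaloisField p (2 * d)) = 2 * d := GaloisField.finrank p h2d
  have hdvd : Module.finrank (ZMod p) (GaloisField p (2 * d)) ∣ Module.finrank (ZMod p) L := by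
    rw [hfr, ← hdm]
    obtain ⟨r, hr⟩ : ∃ r, m = r + 1 := ⟨m - 1, by omega⟩
    exact ⟨2 ^ r, by rw [hr, pow_succ]; ring⟩
  obtain ⟨f⟩ := FiniteField.nonempty_algHom_of_finrank_dvd hdvd
  set M : IntermediateField (ZMod p) L := f.fieldRange with hM
  let _ : Fintype (GaloisField p (2 * d)) := Fintype.ofFinite _
  let _ : Algebra (GaloisField p (2 * d)) L := f.toRingHom.toAlgebra
  have hcG : Fintype.card (GaloisField p (2 * d)) = p ^ (2 * d) := by
    rw [card_eq p (GaloisField p (2 * d)), hfr]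
  have hKM : K ≤ M := by
    intro x hx
    have h1 : x ^ p ^ d = x := by
      have := FiniteField.pow_card (⟨x, hx⟩ : K)
      rw [hcK] at this
      exact congrArg Subtype.val this
    have h2 : cj (GaloisField p (2 * d)) x = x := by
      unfold cj
      rw [hcG, two_mul, pow_add, pow_mul, h1, h1]
    obtain ⟨y, hy⟩ := exists_of_cj_eq h2
    exact ⟨y, hy⟩
  let _ : Fintype M := Fintype.ofFinite _
  have hfrM : Module.finrank (ZMod p) M = 2 * d := by
    rw [← hfr]
    exact (LinearEquiv.finrank_eq (AlgEquiv.ofInjectiveField f).toLinearEquiv).symm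
  have hlt : K < M := by
    refine lt_of_le_of_ne hKM ?_
    intro heq
    rw [← heq, hd] at hfrM
    omega
  let _ : Algebra K M := (IntermediateField.inclusion hKM).toRingHom.toAlgebra
  have : IsScalarTower K M L := IsScalarTower.of_algebraMap_eq' rfl
  have : IsScalarTower (ZMod p) K M := IsScalarTower.of_algebraMap_eq' rfl
  have hKM2 : Module.finrank K M = 2 := by
    have h1 := Module.finrank_mul_finrank (ZMod p) K M
    rw [hd, hfrM, mul_comm] at h1
    exact Nat.eq_of_mul_eq_mul_right (Nat.pos_of_ne_zero hd0) h1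
  by_contra hcon
  push Not at hcon
  have hno : ∀ c : K, c ≠ 0 → c ≠ 1 → del L s (algebraMap K L c)⁻¹ = 0 := by
    intro c hc0 hc1
    by_contra hne
    have h1 := (h.supp hm hKK hc0 hc1).mpr hne
    apply h1
    refine hcon c.1 c.2 ?_ ?_
    · intro h2; exact hc0 (Subtype.ext h2)
    · intro h2; exact hc1 (Subtype.ext h2)
  rcases quad_max (M := M) hKM2 h.hs0 h.hs h.hodd hKK hno with h1 | h1
  · obtain ⟨x, hx, hne⟩ := hmax M hlt 0
    apply hne
    rw [pow_zero, pow_one]
    exact congrArg Subtype.val (h1 ⟨x, hx⟩)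
  · obtain ⟨x, hx, hne⟩ := hmax M hlt d
    apply hne
    have h2 := congrArg Subtype.val (h1 ⟨x, hx⟩)
    unfold cj at h2
    rw [hcK] at h2
    exact h2

lemma del_iff {c : L} (hc : c ≠ 0) :
    del L s c⁻¹ ≠ 0 ↔ ∃ z : L, z ^ s + (1 - z) ^ s = c ^ s := by
  have hcs : c ^ s ≠ 0 := pow_ne_zero _ hc
  unfold del
  rw [Finset.card_ne_zero, filter_nonempty_iff]
  constructor
  · rintro ⟨z, _, hz⟩
    refine ⟨z, ?_⟩
    rw [inv_pow, inv_mul_eq_one₀ hcs] at hz
    rw [hz]; ring
  · rintro ⟨z, hz⟩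
    refine ⟨z, mem_univ _, ?_⟩
    rw [inv_pow, inv_mul_eq_one₀ hcs, ← hz]; ring

/-- the statement on subfields -/
theorem TV.subfield (h : TV p L s Q α β) {k : ℕ} (hk : Module.finrank (ZMod p) L = 2 ^ k)
    (hk3 : 3 ≤ k) (hP : α + β < p ^ 2 ^ (k - 2))
    (K : IntermediateField (ZMod p) L) (j : ℕ) (hK : ∀ x ∈ K, x ^ s = x ^ p ^ j) :
    4 ≤ Module.finrank K L ∧
    (Module.finrank K L = 4 → Odd α) ∧
    (w p L s 1 = if Even α then (β * Q : ℤ) else -(α * Q : ℤ)) ∧
    (∀ c ∈ K, c ≠ 1 → w p L s c = 0 ∨ w p L s c = if Even α then -(α * Q : ℤ) else (β * Q : ℤ)) ∧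
    (∀ c ∈ K, c ≠ 1 → (w p L s c ≠ 0 ↔ ∃ z : L, z ^ s + (1 - z) ^ s = c ^ s)) ∧
    ((∀ M : IntermediateField (ZMod p) L, K < M → ∀ i : ℕ, ∃ x ∈ M, x ^ s ≠ x ^ p ^ i) →
      ∃ c ∈ K, c ≠ 0 ∧ c ≠ 1 ∧ w p L s c ≠ 0) := by
  classical
  have hp : p.Prime := Fact.out
  let _ : Fintype K := Fintype.ofFinite _
  obtain ⟨m, hm⟩ : ∃ m, Module.finrank K L = 2 ^ m := by
    have h1 : Module.finrank K L ∣ 2 ^ k := by
      rw [← hk, ← Module.finrank_mul_finrank (ZMod p) K L]; exact dvd_mul_left _ _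
    obtain ⟨m, _, hm⟩ := (Nat.dvd_prime_pow Nat.prime_two).mp h1
    exact ⟨m, hm⟩
  obtain ⟨i, hi⟩ : ∃ i, i = (2 ^ k - 1) * j := ⟨_, rfl⟩
  have hij : j + i = 2 ^ k * j := by
    have : 1 ≤ 2 ^ k := Nat.one_le_two_pow
    obtain ⟨r, hr⟩ : ∃ r, 2 ^ k = r + 1 := ⟨2 ^ k - 1, by omega⟩
    rw [hi, hr]; simp; ring
  have hpn : ∀ x : L, x ^ p ^ (2 ^ k * j) = x := by
    intro x
    rw [pow_mul, ← hk, ← card_eq p L]
    exact FiniteField.pow_card_pow j x
  have h' := h.frob i
  have hw : ∀ a : L, w p L (s * p ^ i) a = w p L s a := by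
    intro a
    have h1 := Wc_frob (p := p) s i a
    rw [Wc_eq_w h'.hsp, Wc_eq_w h.hsp] at h1
    exact_mod_cast h1
  have hK' : ∀ x ∈ K, x ^ (s * p ^ i) = x := by
    intro x hx
    rw [pow_mul, hK x hx, ← pow_mul, ← pow_add, hij, hpn]
  have hKK : ∀ x : K, x ^ (s * p ^ i) = x := fun x => Subtype.ext (hK' x.1 x.2)
  have hm2 := h'.deg hm hKK
  refine ⟨?_, ?_, ?_, ?_, ?_, ?_⟩
  · rw [hm]
    calc 4 = 2 ^ 2 := by norm_num
    _ ≤ 2 ^ m := Nat.pow_le_pow_right (by norm_num) hm2
  · intro h4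
    obtain ⟨r, hr⟩ : ∃ r, k = r + 3 := ⟨k - 3, by omega⟩
    have hk2 : k - 2 = r + 1 := by omega
    have hd : Module.finrank (ZMod p) L = 4 * 2 ^ (k - 2) := by
      rw [hk, hk2, hr, pow_succ, pow_succ, pow_succ]; ring
    have hdK : Module.finrank (ZMod p) K = 2 ^ (k - 2) := by
      have h1 := Module.finrank_mul_finrank (ZMod p) K L
      rw [h4, hd, mul_comm] at h1
      exact Nat.eq_of_mul_eq_mul_left (by norm_num) h1
    have hcK : Fintype.card K = p ^ 2 ^ (k - 2) := by rw [card_eq p K, hdK]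
    refine h'.four hd ?_ ?_ hP
    · rw [hk2, pow_succ]; exact even_two.mul_left _
    · rw [← hcK]
      exact dvd_of_pow_eq (Nat.one_le_iff_ne_zero.mpr h'.hs0) hKK
  · rw [← hw]; exact h'.one hm hKK
  · intro c hc hc1
    rw [← hw]
    exact h'.other hm hKK (c := ⟨c, hc⟩) (fun h2 => hc1 (congrArg Subtype.val h2))
  · intro c hc hc1
    by_cases hc0 : c = 0
    · rw [hc0, w_zero h.hsp h.hs0 h.hs]
      constructor
      · intro h2; exact absurd rfl h2
      · rintro ⟨z, hz⟩
        exfalso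
        rw [zero_pow h.hs0] at hz
        have h4 : z ^ s = (z - 1) ^ s := by
          have : (z - 1) ^ s = -(1 - z) ^ s := by rw [← h.hodd.neg_pow]; congr 1; ring
          rw [this]; exact eq_neg_of_add_eq_zero_left hz
        have h5 := (pow_bijective h.hs0 h.hs).1 h4
        exact one_ne_zero (α := L) (by linear_combination h5)
    · rw [← del_iff hc0, ← del_frob (p := p) s i, ← hw]
      exact h'.supp hm hKK (c := ⟨c, hc⟩) (fun h2 => hc0 (congrArg Subtype.val h2))
        (fun h2 => hc1 (congrArg Subtype.val h2))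
  · intro hmax
    have hmax' : ∀ M : IntermediateField (ZMod p) L, K < M → ∀ i' : ℕ,
        ∃ x ∈ M, x ^ (s * p ^ i) ≠ x ^ p ^ i' := by
      intro M hM i'
      obtain ⟨x, hx, hne⟩ := hmax M hM (i' + j)
      refine ⟨x, hx, ?_⟩
      intro heq
      apply hne
      have h1 : (x ^ (s * p ^ i)) ^ p ^ j = x ^ s := by
        rw [← pow_mul, mul_assoc, ← pow_add, add_comm i j, hij, mul_comm, pow_mul, hpn]
      rw [← h1, heq, ← pow_mul, ← pow_add]
    obtain ⟨c, hc, hc0, hc1, hcw⟩ := h'.maximal hk K hK' hmax'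
    exact ⟨c, hc, hc0, hc1, by rw [← hw]; exact hcw⟩

end

end Hel
end
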