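import Mathlib
import Pool.Agent.Lib.MP_baea4e_nt.Basic

section

set_option autoImplicit false

open Finset

namespace Hel

section

variable {G : Type*} [CommGroup G] [Fintype G] [DecidableEq G]

/-- the multiplicative autocorrelation of `D` -/
def mcor (D : Finset G) (w : G) : ℕ := (D.filter (fun z => z * w⁻¹ ∈ D)).card

lemma card_pairs_eq (D : Finset G) (w : G) :
    ((D ×ˢ D).filter (fun u : G × G => u.2 * u.1⁻¹ = w)).card = mcor D w := by
  unfold mcor
  refine card_bij (fun u _ => u.2) ?_ ?_ ?_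
  · rintro ⟨a, b⟩ h
    simp only [mem_filter, mem_product] at h
    simp only [mem_filter]
    refine ⟨h.1.2, ?_⟩
    rw [← h.2]
    simpa using h.1.1
  · rintro ⟨a, b⟩ h ⟨a', b'⟩ h' hb
    simp only [mem_filter, mem_product] at h h' hb
    subst hb
    have : a⁻¹ = a'⁻¹ := by
      have := h.2.trans h'.2.symm
      exact mul_left_cancel this
    rw [inv_inj] at this
    rw [this]
  · intro b hb
    simp only [mem_filter] at hb
    refine ⟨(b * w⁻¹, b), ?_, rfl⟩
    simp only [mem_filter, mem_product]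
    refine ⟨⟨hb.2, hb.1⟩, by rw [mul_inv_rev, inv_inv, mul_comm w, mul_inv_cancel_left]⟩

lemma sum_mcor (D : Finset G) : ∑ w : G, mcor D w = D.card ^ 2 := by
  have h := card_eq_sum_card_fiberwise (s := D ×ˢ D) (t := (univ : Finset G))
    (f := fun u : G × G => u.2 * u.1⁻¹) (fun _ _ => mem_univ _)
  rw [card_product] at h
  rw [sq, h]
  exact sum_congr rfl fun w _ => (card_pairs_eq D w).symm

lemma sum_mcor_ge {D : Finset G} {mu : ℕ} (hmu : ∀ w, w ∉ D → mcor D w ≤ mu) :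
    D.card ^ 2 ≤ ∑ w ∈ D, mcor D w + (Fintype.card G - D.card) * mu := by
  rw [← sum_mcor D, ← sum_add_sum_compl D, ← card_compl, ← smul_eq_mul]
  exact Nat.add_le_add_left (sum_le_card_nsmul _ _ _ fun w hw =>
    hmu w (by rwa [mem_compl] at hw)) _

end

end Hel
end

section

set_option autoImplicit false
set_option linter.unusedSectionVars false

open Finset

namespace Hel

section

variable {L : Type*} [Field L] [Fintype L] [DecidableEq L] {ψ : AddChar L ℂ} {s : ℕ}

/-- the number of representations of `(u, v)` -/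
def nrep (s : ℕ) (u v : L) : ℕ := (univ.filter fun z : L => (z + u) ^ s - z ^ s = v).card

lemma sum_Wc_char (hψ : ψ.IsPrimitive) (hodd : Odd s) (y : L) :
    ∑ t : L, Wc ψ s t * ψ (-(t * y)) = (Fintype.card L : ℂ) * ψ (-y ^ s) := by
  have h1 : ∀ t : L, Wc ψ s t * ψ (-(t * y)) = ∑ z : L, ψ (z ^ s) * ψ (-(t * (z + y))) := by
    intro t
    unfold Wc
    rw [sum_mul]
    refine sum_congr rfl fun z _ => ?_
    rw [← AddChar.map_add_eq_mul, ← AddChar.map_add_eq_mul]
    congr 1; ring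
  rw [sum_congr rfl fun t _ => h1 t, sum_comm]
  simp_rw [← mul_sum, sum_neg_mul_char hψ]
  rw [sum_eq_single (-y)]
  · rw [if_pos (by ring), hodd.neg_pow, mul_comm]
  · intro z _ hz
    rw [if_neg, mul_zero]
    intro h
    exact hz (eq_neg_of_add_eq_zero_left h)
  · intro h; exact absurd (mem_univ _) h

lemma ker1 (hψ : ψ.IsPrimitive) (hs0 : s ≠ 0) (hs : Nat.Coprime s (Fintype.card L - 1))
    (hodd : Odd s) (u v : L) :
    ∑ l ∈ univ.erase (0 : L), ∑ t : L, Wc ψ s t * ψ (l ^ s * v - t * (l * u))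
      = (Fintype.card L : ℂ) * ((if u ^ s = v then (Fintype.card L : ℂ) else 0) - 1) := by
  have h1 : ∀ l : L, ∑ t : L, Wc ψ s t * ψ (l ^ s * v - t * (l * u))
      = (Fintype.card L : ℂ) * ψ (l ^ s * (v - u ^ s)) := by
    intro l
    have e1 : ∀ t : L, Wc ψ s t * ψ (l ^ s * v - t * (l * u))
        = ψ (l ^ s * v) * (Wc ψ s t * ψ (-(t * (l * u)))) := by
      intro t
      rw [sub_eq_add_neg, AddChar.map_add_eq_mul]; ring
    rw [sum_congr rfl fun t _ => e1 t, ← mul_sum, sum_Wc_char hψ hodd]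
    rw [mul_left_comm, ← AddChar.map_add_eq_mul]
    congr 2
    rw [mul_pow]; ring
  rw [sum_congr rfl fun l _ => h1 l, ← mul_sum, sum_pow_char_ne hψ hs0 hs]
  congr 2
  simp only [sub_eq_zero]
  by_cases h : u ^ s = v
  · simp [h]
  · simp [h, Ne.symm h]

lemma ker2 (hψ : ψ.IsPrimitive) (hs0 : s ≠ 0) (hs : Nat.Coprime s (Fintype.card L - 1))
    (hodd : Odd s) (u v : L) :
    ∑ l ∈ univ.erase (0 : L), ∑ t : L, Wc ψ s t ^ 2 * ψ (l ^ s * v - t * (l * u))
      = (Fintype.card L : ℂ) ^ 2 * ((nrep s u v : ℂ) - 1) := by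
  have h1 : ∀ l ∈ univ.erase (0 : L), ∑ t : L, Wc ψ s t ^ 2 * ψ (l ^ s * v - t * (l * u))
      = (Fintype.card L : ℂ) * ∑ z : L, ψ (l ^ s * (v + z ^ s - (z + u) ^ s)) := by
    intro l hl
    have hl0 : l ≠ 0 := ne_of_mem_erase hl
    have e1 : ∀ t : L, Wc ψ s t ^ 2 * ψ (l ^ s * v - t * (l * u))
        = ∑ z : L, ψ (l ^ s * v + z ^ s) * (Wc ψ s t * ψ (-(t * (z + l * u)))) := by
      intro t
      have e2 : Wc ψ s t ^ 2 * ψ (l ^ s * v - t * (l * u))
          = (∑ z : L, ψ (z ^ s - t * z)) * (Wc ψ s t * ψ (l ^ s * v - t * (l * u))) := by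
        rw [sq, mul_assoc]; rfl
      rw [e2, sum_mul]
      refine sum_congr rfl fun z _ => ?_
      rw [mul_left_comm, mul_left_comm (ψ (l ^ s * v + z ^ s)), ← AddChar.map_add_eq_mul,
        ← AddChar.map_add_eq_mul]
      congr 2; ring
    rw [sum_congr rfl fun t _ => e1 t, sum_comm]
    simp_rw [← mul_sum, sum_Wc_char hψ hodd]
    have e3 : ∀ z : L, ψ (l ^ s * v + z ^ s) * ((Fintype.card L : ℂ) * ψ (-(z + l * u) ^ s))
        = (Fintype.card L : ℂ) * ψ (l ^ s * v + z ^ s - (z + l * u) ^ s) := by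
      intro z
      rw [mul_left_comm, ← AddChar.map_add_eq_mul, sub_eq_add_neg]
    rw [sum_congr rfl fun z _ => e3 z, ← mul_sum]
    congr 1
    have hb : Function.Bijective (fun z : L => l * z) := by
      rw [← Finite.injective_iff_bijective]
      intro y y' h
      exact mul_left_cancel₀ hl0 h
    symm
    refine Fintype.sum_bijective _ hb _ _ (fun z => ?_)
    congr 1
    rw [← mul_add, mul_pow, mul_pow]; ring
  rw [sum_congr rfl h1, ← mul_sum, sum_comm]
  simp_rw [sum_pow_char_ne hψ hs0 hs]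
  rw [sum_sub_distrib, sq, mul_assoc]
  congr 1
  have h5 : ∑ z : L, (if v + z ^ s - (z + u) ^ s = 0 then (Fintype.card L : ℂ) else 0)
      = (Fintype.card L : ℂ) * nrep s u v := by
    rw [← sum_filter, sum_const, nsmul_eq_mul, mul_comm]
    unfold nrep
    congr 2
    apply congrArg
    ext y
    simp only [mem_filter, mem_univ, true_and]
    constructor
    · intro h; linear_combination -h
    · intro h; linear_combination -h
  rw [h5]
  simp
  ring

lemma nrep_eq_del {u v t : L} (hu : u ≠ 0) (hodd : Odd s) (ht : t ^ s * v = u ^ s) :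
    nrep s u v = del L s t := by
  have hv : v ≠ 0 := by
    rintro rfl
    rw [mul_zero] at ht
    exact pow_ne_zero _ hu ht.symm
  have hus : u ^ s ≠ 0 := pow_ne_zero _ hu
  unfold nrep del
  refine card_bij (fun z _ => -(z * u⁻¹)) ?_ ?_ ?_
  · intro z hz
    simp only [mem_filter, mem_univ, true_and] at hz ⊢
    have e1 : (1 - -(z * u⁻¹)) = (z + u) * u⁻¹ := by field_simp; ring
    rw [e1, hodd.neg_pow, mul_pow, mul_pow]
    have e2 : t ^ s * ((z + u) ^ s * u⁻¹ ^ s + -(z ^ s * u⁻¹ ^ s))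
        = t ^ s * ((z + u) ^ s - z ^ s) * (u⁻¹) ^ s := by ring
    rw [e2, hz, ht, inv_pow, mul_inv_cancel₀ hus]
  · intro z _ z' _ h
    simp only [neg_inj] at h
    exact mul_right_cancel₀ (inv_ne_zero hu) h
  · intro y hy
    simp only [mem_filter, mem_univ, true_and] at hy
    refine ⟨-(y * u), ?_, ?_⟩
    · simp only [mem_filter, mem_univ, true_and]
      have e1 : -(y * u) + u = (1 - y) * u := by ring
      rw [e1, hodd.neg_pow, mul_pow, mul_pow, sub_neg_eq_add, ← add_mul]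
      have h3 : v * (t ^ s * ((1 - y) ^ s + y ^ s)) = v := by rw [hy, mul_one]
      rw [← ht]
      linear_combination h3
    · field_simp

/-- the quadratic form is nonnegative -/
lemma form_nonneg (hψ : ψ.IsPrimitive) (hs0 : s ≠ 0) (hs : Nat.Coprime s (Fintype.card L - 1))
    (hodd : Odd s) {A B : ℝ} (hAB : 0 ≤ A * (A + B))
    (hval : ∀ t : L, Wc ψ s t = 0 ∨ Wc ψ s t = -(A : ℂ) ∨ Wc ψ s t = (B : ℂ)) (f : L → ℝ) :
    0 ≤ ∑ x : L, ∑ y : L, f x * f y *
      ((Fintype.card L : ℝ) ^ 2 * ((nrep s (x - y) (x ^ s - y ^ s) : ℝ) - 1)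
        - B * ((Fintype.card L : ℝ) * ((if (x - y) ^ s = x ^ s - y ^ s
            then (Fintype.card L : ℝ) else 0) - 1))) := by
  -- the weights
  have hwt : ∀ t : L, ∃ r : ℝ, 0 ≤ r ∧ Wc ψ s t ^ 2 - B * Wc ψ s t = (r : ℂ) := by
    intro t
    rcases hval t with h | h | h
    · exact ⟨0, le_refl _, by rw [h]; simp⟩
    · exact ⟨A * (A + B), hAB, by rw [h]; push_cast; ring⟩
    · exact ⟨0, le_refl _, by rw [h]; push_cast; ring⟩
  choose r hr0 hr using hwt
  have key : ((∑ x : L, ∑ y : L, f x * f y *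
      ((Fintype.card L : ℝ) ^ 2 * ((nrep s (x - y) (x ^ s - y ^ s) : ℝ) - 1)
        - B * ((Fintype.card L : ℝ) * ((if (x - y) ^ s = x ^ s - y ^ s
            then (Fintype.card L : ℝ) else 0) - 1))) : ℝ) : ℂ)
      = ((∑ l ∈ univ.erase (0 : L), ∑ t : L,
          r t * Complex.normSq (∑ x : L, f x * ψ ((l * x) ^ s - t * (l * x))) : ℝ) : ℂ) := by
    push_cast
    have e1 : ∀ l : L, ∀ t : L,
        (r t : ℂ) * (Complex.normSq (∑ x : L, f x * ψ ((l * x) ^ s - t * (l * x))) : ℂ)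
        = ∑ x : L, ∑ y : L, (f x : ℂ) * f y *
          ((Wc ψ s t ^ 2 - B * Wc ψ s t) * ψ (l ^ s * (x ^ s - y ^ s) - t * (l * (x - y)))) := by
      intro l t
      rw [← Complex.mul_conj, map_sum, sum_mul_sum, mul_sum]
      refine sum_congr rfl fun x _ => ?_
      rw [mul_sum]
      refine sum_congr rfl fun y _ => ?_
      rw [map_mul, Complex.conj_ofReal, ← AddChar.map_neg_eq_conj, ← hr t]
      have e2 : ψ (l ^ s * (x ^ s - y ^ s) - t * (l * (x - y)))
          = ψ ((l * x) ^ s - t * (l * x)) * ψ (-((l * y) ^ s - t * (l * y))) := by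
        rw [← AddChar.map_add_eq_mul]
        congr 1
        rw [mul_pow, mul_pow]; ring
      rw [e2]; ring
    simp_rw [e1]
    -- exchange the sums
    have e3 : ∀ l ∈ univ.erase (0 : L), ∑ t : L, ∑ x : L, ∑ y : L, (f x : ℂ) * f y *
          ((Wc ψ s t ^ 2 - B * Wc ψ s t) * ψ (l ^ s * (x ^ s - y ^ s) - t * (l * (x - y))))
        = ∑ x : L, ∑ y : L, (f x : ℂ) * f y * ∑ t : L,
          ((Wc ψ s t ^ 2 - B * Wc ψ s t) * ψ (l ^ s * (x ^ s - y ^ s) - t * (l * (x - y)))) := by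
      intro l _
      rw [sum_comm]
      refine sum_congr rfl fun x _ => ?_
      rw [sum_comm]
      refine sum_congr rfl fun y _ => ?_
      rw [mul_sum]
    symm
    rw [sum_congr rfl e3, sum_comm]
    refine sum_congr rfl fun x _ => ?_
    rw [sum_comm]
    refine sum_congr rfl fun y _ => ?_
    rw [← mul_sum]
    congr 1
    have e4 : ∀ l ∈ univ.erase (0 : L), ∑ t : L, ((Wc ψ s t ^ 2 - B * Wc ψ s t) *
          ψ (l ^ s * (x ^ s - y ^ s) - t * (l * (x - y))))
        = ∑ t : L, Wc ψ s t ^ 2 * ψ (l ^ s * (x ^ s - y ^ s) - t * (l * (x - y)))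
          - B * ∑ t : L, Wc ψ s t * ψ (l ^ s * (x ^ s - y ^ s) - t * (l * (x - y))) := by
      intro l _
      rw [mul_sum, ← sum_sub_distrib]
      refine sum_congr rfl fun t _ => ?_
      ring
    rw [sum_congr rfl e4, sum_sub_distrib, ← mul_sum, ker1 hψ hs0 hs hodd, ker2 hψ hs0 hs hodd]
    split_ifs <;> simp
  have h0 : 0 ≤ ∑ l ∈ univ.erase (0 : L), ∑ t : L,
          r t * Complex.normSq (∑ x : L, f x * ψ ((l * x) ^ s - t * (l * x))) :=
    sum_nonneg fun l _ => sum_nonneg fun t _ => mul_nonneg (hr0 t) (Complex.normSq_nonneg _)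
  have h1 := Complex.ofReal_injective key
  rw [h1]
  exact h0

end

end Hel
end

section

set_option autoImplicit false
set_option linter.unusedSectionVars false

open Finset

namespace Hel

section

variable {L : Type*} [Field L] [Fintype L] [DecidableEq L]

lemma card_units_filter (P : L → Prop) [DecidablePred P] (h0 : P 0) :
    ((univ : Finset Lˣ).filter (fun z : Lˣ => P (z : L))).card + 1
      = ((univ : Finset L).filter P).card := by
  have h1 : (univ : Finset L).filter P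
      = insert 0 (((univ : Finset Lˣ).filter (fun z : Lˣ => P (z : L))).map
          ⟨fun z : Lˣ => (z : L), Units.val_injective⟩) := by
    ext z
    simp only [mem_filter, mem_univ, true_and, mem_insert, mem_map, Function.Embedding.coeFn_mk]
    constructor
    · intro h
      by_cases hz : z = 0
      · exact Or.inl hz
      · exact Or.inr ⟨Units.mk0 z hz, h, rfl⟩
    · rintro (rfl | ⟨w, hw, rfl⟩)
      · exact h0
      · exact hw
  rw [h1, card_insert_of_notMem, card_map]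
  simp

/-- the difference set of the graph -/
def DD (L : Type*) [Field L] [Fintype L] [DecidableEq L] (s : ℕ) : Finset Lˣ :=
  univ.filter (fun z : Lˣ => (1 - (z : L)) ^ s + (z : L) ^ s = 1)

lemma card_DD {s : ℕ} (hs0 : s ≠ 0) : (DD L s).card + 1 = del L s 1 := by
  unfold DD del
  rw [card_units_filter (fun z : L => (1 - z) ^ s + z ^ s = 1) (by simp [hs0])]
  simp

lemma one_mem_DD {s : ℕ} (hs0 : s ≠ 0) : (1 : Lˣ) ∈ DD L s := by
  simp [DD, hs0]

lemma inv_mem_DD {s : ℕ} (hodd : Odd s) {x : Lˣ} (hx : x ∈ DD L s) : x⁻¹ ∈ DD L s := by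
  simp only [DD, mem_filter, mem_univ, true_and] at hx ⊢
  have hx0 : (x : L) ≠ 0 := x.ne_zero
  have hxs : (x : L) ^ s ≠ 0 := pow_ne_zero _ hx0
  apply mul_left_cancel₀ hxs
  have e1 : (x : L) ^ s * ((1 - ((x⁻¹ : Lˣ) : L)) ^ s + ((x⁻¹ : Lˣ) : L) ^ s)
      = (x * (1 - ((x⁻¹ : Lˣ) : L))) ^ s + (x * ((x⁻¹ : Lˣ) : L)) ^ s := by
    rw [mul_pow, mul_pow]; ring
  rw [e1, Units.mul_inv, mul_sub, Units.mul_inv, mul_one, one_pow]
  have e2 : ((x : L) - 1) ^ s = -(1 - (x : L)) ^ s := by rw [← hodd.neg_pow]; congr 1; ring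
  rw [e2, mul_one]
  linear_combination -hx

lemma mcor_DD_le {s : ℕ} (hs0 : s ≠ 0) (hs : Nat.Coprime s (Fintype.card L - 1)) (hodd : Odd s)
    {m : ℕ} (hm : ∀ t : L, t ≠ 0 → t ≠ 1 → del L s t ≤ m) {w : Lˣ} (hw : w ∉ DD L s) :
    mcor (DD L s) w + 1 ≤ m := by
  simp only [DD, mem_filter, mem_univ, true_and] at hw
  have hinj := (pow_bijective hs0 hs).1
  have hw1 : (w : L) ≠ 1 := by
    intro h
    apply hw
    rw [h]; simp [hs0]
  have hw1' : (w : L) - 1 ≠ 0 := sub_ne_zero.mpr hw1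
  have hws : (w : L) ^ s - 1 ≠ 0 := by
    intro h
    apply hw1
    apply hinj
    simp only [one_pow]
    linear_combination h
  -- the parameter
  obtain ⟨t, ht⟩ := (pow_bijective hs0 hs).2 (((w : L) - 1) ^ s * ((w : L) ^ s - 1)⁻¹)
  simp only at ht
  have ht0 : t ≠ 0 := by
    rintro rfl
    rw [zero_pow hs0] at ht
    exact mul_ne_zero (pow_ne_zero _ hw1') (inv_ne_zero hws) ht.symm
  have ht1 : t ≠ 1 := by
    rintro rfl
    rw [one_pow] at ht
    apply hw
    have h1 : (w : L) ^ s - 1 = ((w : L) - 1) ^ s := by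
      have := congrArg (· * ((w : L) ^ s - 1)) ht
      simp only [one_mul] at this
      rw [this, inv_mul_cancel_right₀ hws]
    have e2 : ((w : L) - 1) ^ s = -(1 - (w : L)) ^ s := by rw [← hodd.neg_pow]; congr 1; ring
    rw [e2] at h1
    linear_combination h1
  refine le_trans ?_ (hm t ht0 ht1)
  -- injection
  have hfil : mcor (DD L s) w = ((univ : Finset Lˣ).filter (fun z : Lˣ =>
      (1 - (z : L)) ^ s + (z : L) ^ s = 1 ∧
        ((w : L) - z) ^ s + (z : L) ^ s = (w : L) ^ s)).card := by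
    unfold mcor DD
    rw [filter_filter]
    congr 1
    ext z
    simp only [mem_filter, mem_univ, true_and, and_congr_right_iff]
    intro _
    have hwu : (w : L) ≠ 0 := w.ne_zero
    have hwus : (w : L) ^ s ≠ 0 := pow_ne_zero _ hwu
    have e1 : (w : L) ^ s * ((1 - ((z * w⁻¹ : Lˣ) : L)) ^ s + ((z * w⁻¹ : Lˣ) : L) ^ s)
        = ((w : L) - z) ^ s + (z : L) ^ s := by
      have e2 : (w : L) * ((z * w⁻¹ : Lˣ) : L) = z := by
        rw [Units.val_mul, mul_comm, mul_assoc, Units.inv_mul, mul_one]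
      rw [mul_add, ← mul_pow, ← mul_pow, mul_sub, e2, mul_one]
    constructor
    · intro h
      rw [← e1, h, mul_one]
    · intro h
      apply mul_left_cancel₀ hwus
      rw [e1, h, mul_one]
  rw [hfil]
  have hsub : ((univ : Finset Lˣ).filter (fun z : Lˣ =>
      (1 - (z : L)) ^ s + (z : L) ^ s = 1 ∧
        ((w : L) - z) ^ s + (z : L) ^ s = (w : L) ^ s)).card + 1
      = ((univ : Finset L).filter (fun z : L => (1 - z) ^ s + z ^ s = 1 ∧
        ((w : L) - z) ^ s + z ^ s = (w : L) ^ s)).card :=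
    card_units_filter (fun z : L => (1 - z) ^ s + z ^ s = 1 ∧
        ((w : L) - z) ^ s + z ^ s = (w : L) ^ s) (by simp [hs0])
  rw [hsub]
  unfold del
  refine card_le_card_of_injOn (fun z => (z - 1) * ((w : L) - 1)⁻¹) ?_ ?_
  · intro z hz
    simp only [coe_filter, mem_univ, true_and, Set.mem_ofPred_eq] at hz ⊢
    obtain ⟨h1, h2⟩ := hz
    have e1 : 1 - (z - 1) * ((w : L) - 1)⁻¹ = ((w : L) - z) * ((w : L) - 1)⁻¹ := by
      field_simp
      ring
    rw [ht, e1, mul_pow, mul_pow, ← add_mul]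
    have e3 : (z - 1) ^ s = -(1 - z) ^ s := by rw [← hodd.neg_pow]; congr 1; ring
    have e4 : ((w : L) - z) ^ s + (z - 1) ^ s = (w : L) ^ s - 1 := by
      rw [e3]; linear_combination h2 - h1
    rw [e4, inv_pow]
    have h3 : ((w : L) - 1) ^ s ≠ 0 := pow_ne_zero _ hw1'
    field_simp
  · intro z _ z' _ h
    simp only at h
    have := mul_right_cancel₀ (inv_ne_zero hw1') h
    linear_combination this


end

section

variable {G : Type*} [CommGroup G] [Fintype G] [DecidableEq G]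

/-- the test function -/
def tf (D : Finset G) (x : G) : ℝ := (Fintype.card G : ℝ) * (if x ∈ D then 1 else 0) - D.card

lemma sum_ind (D : Finset G) : ∑ x : G, (if x ∈ D then (1 : ℝ) else 0) = D.card := by
  simp

lemma sum_tf (D : Finset G) : ∑ x : G, tf D x = 0 := by
  unfold tf
  rw [sum_sub_distrib, ← mul_sum, sum_ind, sum_const, card_univ, nsmul_eq_mul, sub_self]

lemma sum_tf_sq (D : Finset G) : ∑ x : G, tf D x * tf D x
    = (Fintype.card G : ℝ) * D.card * ((Fintype.card G : ℝ) - D.card) := by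
  have h : ∀ x : G, tf D x * tf D x
      = ((Fintype.card G : ℝ) ^ 2 - 2 * Fintype.card G * D.card) * (if x ∈ D then 1 else 0)
        + (D.card : ℝ) ^ 2 := by
    intro x
    unfold tf
    split_ifs <;> ring
  rw [sum_congr rfl fun x _ => h x, sum_add_distrib, ← mul_sum, sum_ind, sum_const, card_univ,
    nsmul_eq_mul]
  ring

lemma sum_ind_div (D : Finset G) (x : G) :
    ∑ y : G, (if y * x⁻¹ ∈ D then (1 : ℝ) else 0) = D.card := by
  rw [← sum_ind D]
  exact Fintype.sum_equiv (Equiv.mulRight x⁻¹) _ _ (fun y => rfl)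

lemma sum_ind_div' (D : Finset G) (y : G) :
    ∑ x : G, (if y * x⁻¹ ∈ D then (1 : ℝ) else 0) = D.card := by
  rw [← sum_ind D]
  exact Fintype.sum_equiv ((Equiv.inv G).trans (Equiv.mulLeft y)) _ _ (fun x => rfl)

lemma sum_T3 (D : Finset G) :
    ∑ x : G, ∑ y : G, (if x ∈ D then (1 : ℝ) else 0) * (if y ∈ D then 1 else 0) *
      (if y * x⁻¹ ∈ D then 1 else 0) = ((∑ w ∈ D, mcor D w : ℕ) : ℝ) := by
  have h1 : (∑ w ∈ D, mcor D w)
      = ((D ×ˢ D).filter (fun u : G × G => u.2 * u.1⁻¹ ∈ D)).card := by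
    have h := card_eq_sum_card_fiberwise
      (s := (D ×ˢ D).filter (fun u : G × G => u.2 * u.1⁻¹ ∈ D)) (t := D)
      (f := fun u : G × G => u.2 * u.1⁻¹) (by
        intro u hu
        simp only [coe_filter, Set.mem_ofPred_eq] at hu
        exact hu.2)
    rw [h]
    refine sum_congr rfl fun w hw => ?_
    rw [← card_pairs_eq, filter_filter]
    congr 1
    ext u
    simp only [mem_filter]
    constructor
    · rintro ⟨h1, h2⟩
      exact ⟨h1, by rw [h2]; exact hw, h2⟩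
    · rintro ⟨h1, _, h2⟩
      exact ⟨h1, h2⟩
  rw [h1, card_filter, sum_product]
  push_cast
  have h2 : ∀ x y : G, (if x ∈ D then (1 : ℝ) else 0) * (if y ∈ D then 1 else 0) *
      (if y * x⁻¹ ∈ D then 1 else 0)
      = if x ∈ D then (if y ∈ D then (if y * x⁻¹ ∈ D then 1 else 0) else 0) else 0 := by
    intro x y
    split_ifs <;> simp
  simp_rw [h2]
  rw [← sum_filter_add_sum_filter_not univ (fun x => x ∈ D)]
  rw [filter_mem_eq_inter, univ_inter]
  have h3 : ∑ x ∈ univ.filter (fun x => x ∉ D), ∑ y : G,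
      (if x ∈ D then (if y ∈ D then (if y * x⁻¹ ∈ D then (1 : ℝ) else 0) else 0) else 0) = 0 := by
    refine sum_eq_zero fun x hx => sum_eq_zero fun y _ => ?_
    rw [mem_filter] at hx
    rw [if_neg hx.2]
  rw [h3, add_zero]
  refine sum_congr rfl fun x hx => ?_
  simp only [hx, if_true]
  rw [← sum_filter, filter_mem_eq_inter, univ_inter]

lemma sum_tf_form (D : Finset G) :
    ∑ x : G, ∑ y : G, tf D x * tf D y * (if y * x⁻¹ ∈ D then 1 else 0)
      = (Fintype.card G : ℝ) ^ 2 * ((∑ w ∈ D, mcor D w : ℕ) : ℝ)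
        - Fintype.card G * (D.card : ℝ) ^ 3 := by
  have h : ∀ x y : G, tf D x * tf D y * (if y * x⁻¹ ∈ D then 1 else 0)
      = (Fintype.card G : ℝ) ^ 2 * ((if x ∈ D then (1 : ℝ) else 0) * (if y ∈ D then 1 else 0) *
          (if y * x⁻¹ ∈ D then 1 else 0))
        - (Fintype.card G : ℝ) * D.card * ((if x ∈ D then (1 : ℝ) else 0) *
          (if y * x⁻¹ ∈ D then 1 else 0))
        - (Fintype.card G : ℝ) * D.card * ((if y ∈ D then (1 : ℝ) else 0) *
          (if y * x⁻¹ ∈ D then 1 else 0))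
        + (D.card : ℝ) ^ 2 * (if y * x⁻¹ ∈ D then 1 else 0) := by
    intro x y
    unfold tf
    ring
  simp_rw [h, sum_add_distrib, sum_sub_distrib, ← mul_sum]
  rw [sum_T3]
  have h1 : ∑ x : G, (if x ∈ D then (1 : ℝ) else 0) * ∑ y : G, (if y * x⁻¹ ∈ D then (1 : ℝ) else 0)
      = (D.card : ℝ) * D.card := by
    simp_rw [sum_ind_div, ← sum_mul, sum_ind]
  have h2 : ∑ x : G, ∑ y : G, (if y ∈ D then (1 : ℝ) else 0) * (if y * x⁻¹ ∈ D then (1 : ℝ) else 0)
      = (D.card : ℝ) * D.card := by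
    rw [sum_comm]
    simp_rw [← mul_sum, sum_ind_div', ← sum_mul, sum_ind]
  have h3 : ∑ x : G, ∑ y : G, (if y * x⁻¹ ∈ D then (1 : ℝ) else 0)
      = (Fintype.card G : ℝ) * D.card := by
    simp_rw [sum_ind_div, sum_const, card_univ, nsmul_eq_mul]
  have h1' : ∑ x : G, ∑ y : G, (if x ∈ D then (1 : ℝ) else 0) * (if y * x⁻¹ ∈ D then (1 : ℝ) else 0)
      = (D.card : ℝ) * D.card := by
    rw [← h1]
    exact sum_congr rfl fun x _ => by rw [mul_sum]
  first
    | rw [h1, h2, h3]; ring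
    | rw [h1', h2, h3]; ring

end

/-- the final arithmetic -/
lemma ratio_final {a b Q : ℤ} (ha : 1 ≤ a) (hab : a < b) (hodd : Odd (a + b)) (hQ : 0 < Q)
    (h : a * Q * (((b - a) * Q + a * b - 1) ^ 2 - (Q ^ 2 - 1) * (a * b - 1))
      ≤ (Q ^ 2 - (b - a) * Q - a * b) * ((b - a) * Q + a * b - 1)) :
    (b - a) ^ 2 < a * b := by
  by_contra hcon
  push Not at hcon
  obtain ⟨x, hx⟩ : ∃ x, x = b - a := ⟨_, rfl⟩
  have hb : b = a + x := by rw [hx]; ring
  subst hb
  have hx1 : 1 ≤ x := by linarith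
  have e0 : a + x - a = x := by ring
  rw [e0] at h hcon
  obtain ⟨y, hy⟩ : ∃ y, y = x ^ 2 - a * (a + x) + 1 := ⟨_, rfl⟩
  have hy1 : 1 ≤ y := by linarith
  have hA1 : 1 ≤ a * (a + x) := by
    have : 1 * 1 ≤ a * (a + x) := mul_le_mul ha (by linarith) (by norm_num) (by linarith)
    linarith
  have e1 : a * Q * ((x * Q + a * (a + x) - 1) ^ 2 - (Q ^ 2 - 1) * (a * (a + x) - 1))
      = a * y * Q ^ 3 + a * Q * (2 * x * (a * (a + x) - 1) * Q
          + a * (a + x) * (a * (a + x) - 1)) := by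
    rw [hy]; ring
  have e2 : (Q ^ 2 - x * Q - a * (a + x)) * (x * Q + a * (a + x) - 1)
      = x * Q ^ 3 - y * Q ^ 2 - x * (2 * (a * (a + x)) - 1) * Q
          - a * (a + x) * (a * (a + x) - 1) := by
    rw [hy]; ring
  rw [e1, e2] at h
  have hA0 : 0 ≤ a * (a + x) - 1 := by linarith
  have hA2 : 0 ≤ 2 * (a * (a + x)) - 1 := by linarith
  have p1 : 0 ≤ a * Q * (2 * x * (a * (a + x) - 1) * Q + a * (a + x) * (a * (a + x) - 1)) := by
    positivity
  have p2 : 0 < y * Q ^ 2 := by positivity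
  have p3 : 0 ≤ x * (2 * (a * (a + x)) - 1) * Q := by positivity
  have p4 : 0 ≤ a * (a + x) * (a * (a + x) - 1) := by positivity
  have h2 : a * y * Q ^ 3 < x * Q ^ 3 := by linarith
  have h3 : a * y < x := lt_of_mul_lt_mul_right h2 (by positivity)
  rcases lt_or_ge x (2 * a) with hlt | hge
  · -- `y = 1`
    have hy2 : y < 2 := by
      by_contra hc
      push Not at hc
      have : a * 2 ≤ a * y := mul_le_mul_of_nonneg_left hc (by linarith)
      linarith
    have hy3 : y = 1 := by omega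
    rw [hy3] at hy
    have h4 : x ^ 2 = a * (a + x) := by linarith
    -- parity
    have h5 : Odd x := by
      have : Odd (a + (a + x) - 2 * a) := by
        rw [Int.odd_sub]
        constructor
        · intro _; exact ⟨a, by ring⟩
        · intro _; exact hodd
      have e3 : a + (a + x) - 2 * a = x := by ring
      rwa [e3] at this
    have h6 : Odd (x ^ 2) := h5.pow
    rw [h4, Int.odd_mul] at h6
    obtain ⟨h7, h8⟩ := h6
    have h9 : Even (a + (a + x)) := h7.add_odd h8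
    exact (Int.not_even_iff_odd.mpr hodd) h9
  · obtain ⟨r, hr⟩ : ∃ r, r = x - 2 * a := ⟨_, rfl⟩
    have hr0 : 0 ≤ r := by linarith
    have hxr : x = 2 * a + r := by linarith
    have e4 : a * y - x = (a ^ 3 - a) + (3 * a ^ 2 * r - r) + a * r ^ 2 := by
      rw [hy, hxr]; ring
    have q1 : 0 ≤ a ^ 3 - a := by
      have : a ^ 3 - a = a * (a - 1) * (a + 1) := by ring
      rw [this]
      have : 0 ≤ a - 1 := by linarith
      positivity
    have q2 : 0 ≤ 3 * a ^ 2 * r - r := by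
      have e5 : 3 * a ^ 2 * r - r = (3 * a ^ 2 - 1) * r := by ring
      rw [e5]
      have : 0 ≤ 3 * a ^ 2 - 1 := by
        have : 1 ≤ a ^ 2 := one_le_pow₀ ha
        linarith
      positivity
    have q3 : 0 ≤ a * r ^ 2 := by positivity
    linarith

section

variable {L : Type*} [Field L] [Fintype L] [DecidableEq L]

lemma sum_units_eq (F : L → ℝ) (h0 : F 0 = 0) : ∑ x : L, F x = ∑ u : Lˣ, F u := by
  rw [← add_sum_erase univ F (mem_univ 0), h0, zero_add]
  symm
  refine sum_bij (fun u _ => (u : L)) ?_ ?_ ?_ ?_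
  · intro u _
    exact mem_erase.mpr ⟨u.ne_zero, mem_univ _⟩
  · intro u _ v _ h
    exact Units.ext h
  · intro x hx
    exact ⟨Units.mk0 x (ne_of_mem_erase hx), mem_univ _, rfl⟩
  · intro u _; rfl

lemma adj_iff {s : ℕ} (x y : Lˣ) :
    ((x : L) - y) ^ s = (x : L) ^ s - (y : L) ^ s ↔ y * x⁻¹ ∈ DD L s := by
  simp only [DD, mem_filter, mem_univ, true_and]
  have e2 : (x : L) * ((y * x⁻¹ : Lˣ) : L) = y := by
    rw [Units.val_mul, mul_comm, mul_assoc, Units.inv_mul, mul_one]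
  have hx : (x : L) ^ s ≠ 0 := pow_ne_zero _ x.ne_zero
  have e1 : (x : L) ^ s * ((1 - ((y * x⁻¹ : Lˣ) : L)) ^ s + ((y * x⁻¹ : Lˣ) : L) ^ s)
      = ((x : L) - y) ^ s + (y : L) ^ s := by
    rw [mul_add, ← mul_pow, ← mul_pow, mul_sub, e2, mul_one]
  constructor
  · intro h
    apply mul_left_cancel₀ hx
    rw [e1, h, mul_one]; ring
  · intro h
    rw [h, mul_one] at e1
    linear_combination -e1

/-- the ratio bound -/
theorem ratio_bound {ψ : AddChar L ℂ} (hψ : ψ.IsPrimitive) {s : ℕ} (hs0 : s ≠ 0)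
    (hs : Nat.Coprime s (Fintype.card L - 1)) (hodd : Odd s)
    {a b Q : ℕ} (ha : 1 ≤ a) (hab : a < b) (hP : Odd (a + b)) (hQ : b < Q)
    (hcard : Fintype.card L = Q ^ 2)
    (hd1 : (del L s 1 : ℤ) = ((b : ℤ) - a) * Q + a * b)
    (hd : ∀ t : L, t ≠ 0 → t ≠ 1 → del L s t = 0 ∨ del L s t = a * b)
    (hval : ∀ t : L, Wc ψ s t = 0 ∨ Wc ψ s t = -((a : ℂ) * Q) ∨ Wc ψ s t = (b : ℂ) * Q) :
    ((b : ℤ) - a) ^ 2 < a * b := by
  have hQ0 : (0 : ℝ) < Q := by exact_mod_cast (by omega : 0 < Q)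
  have ha0 : (0 : ℝ) < a := by exact_mod_cast ha
  have hb0 : (0 : ℝ) < b := by exact_mod_cast (by omega : 0 < b)
  have hab1 : 1 ≤ a * b := Nat.mul_pos (by omega) (by omega)
  have hinj := (pow_bijective hs0 hs).1
  have hcardR : (Fintype.card L : ℝ) = (Q : ℝ) ^ 2 := by rw [hcard]; push_cast; ring
  set D := DD L s with hD
  have hDc : ((D.card : ℕ) : ℝ) = ((b : ℝ) - a) * Q + a * b - 1 := by
    have := card_DD (L := L) hs0
    have h2 : ((DD L s).card : ℤ) + 1 = del L s 1 := by exact_mod_cast this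
    have h3 : (D.card : ℤ) = ((b : ℤ) - a) * Q + a * b - 1 := by rw [hD]; linarith
    exact_mod_cast h3
  have hG : ((Fintype.card Lˣ : ℕ) : ℝ) = (Q : ℝ) ^ 2 - 1 := by
    rw [Fintype.card_units, hcard]
    have h1 : 1 < Fintype.card L := Fintype.one_lt_card
    rw [hcard] at h1
    push_cast [h1.le]
    ring
  -- the kernel on units
  have hker : ∀ x y : Lˣ, (nrep s ((x : L) - y) ((x : L) ^ s - (y : L) ^ s) : ℝ)
      = a * b + ((b : ℝ) - a) * Q * (if y * x⁻¹ ∈ D then 1 else 0)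
        + ((Q : ℝ) ^ 2 - (b - a) * Q - a * b) * (if x = y then 1 else 0) := by
    intro x y
    by_cases hxy : x = y
    · subst hxy
      have h1 : x * x⁻¹ ∈ D := by rw [mul_inv_cancel]; exact one_mem_DD hs0
      rw [if_pos h1, if_pos rfl]
      have h2 : nrep s ((x : L) - x) ((x : L) ^ s - (x : L) ^ s) = Fintype.card L := by
        unfold nrep
        rw [sub_self, sub_self]
        simp
      rw [h2, hcardR]; ring
    · have hu : (x : L) - y ≠ 0 := sub_ne_zero.mpr fun h => hxy (Units.ext h)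
      have hv : (x : L) ^ s - (y : L) ^ s ≠ 0 := sub_ne_zero.mpr fun h => hxy (Units.ext (hinj h))
      rw [if_neg hxy]
      obtain ⟨t, ht⟩ := (pow_bijective hs0 hs).2
        (((x : L) - y) ^ s * ((x : L) ^ s - (y : L) ^ s)⁻¹)
      simp only at ht
      have ht' : t ^ s * ((x : L) ^ s - (y : L) ^ s) = ((x : L) - y) ^ s := by
        rw [ht, inv_mul_cancel_right₀ hv]
      have hn := nrep_eq_del hu hodd ht'
      rw [hn]
      by_cases hadj : y * x⁻¹ ∈ D
      · rw [if_pos hadj]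
        have h3 := (adj_iff x y).mpr hadj
        have ht1 : t = 1 := by
          apply hinj
          simp only [one_pow]
          rw [ht, h3, mul_inv_cancel₀ hv]
        rw [ht1]
        have h4 : ((del L s 1 : ℕ) : ℝ) = ((b : ℝ) - a) * Q + a * b := by exact_mod_cast hd1
        rw [h4]; ring
      · rw [if_neg hadj]
        have ht0 : t ≠ 0 := by
          rintro rfl
          rw [zero_pow hs0, zero_mul] at ht'
          exact pow_ne_zero _ hu ht'.symm
        have ht1 : t ≠ 1 := by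
          rintro rfl
          rw [one_pow, one_mul] at ht'
          exact hadj ((adj_iff x y).mp ht'.symm)
        have hpos : nrep s ((x : L) - y) ((x : L) ^ s - (y : L) ^ s) ≠ 0 := by
          unfold nrep
          rw [card_ne_zero]
          exact ⟨y, by simp⟩
        rw [hn] at hpos
        rcases hd t ht0 ht1 with h5 | h5
        · exact absurd h5 hpos
        · rw [h5]; push_cast; ring
  -- the form
  have hform := form_nonneg hψ hs0 hs hodd (A := a * Q) (B := b * Q) (by positivity)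
    (by intro t; have := hval t; push_cast; exact this)
    (fun x : L => if h : x = 0 then 0 else tf D (Units.mk0 x h))
  have hred : ∑ x : L, ∑ y : L, (if h : x = 0 then 0 else tf D (Units.mk0 x h)) *
      (if h : y = 0 then 0 else tf D (Units.mk0 y h)) *
      ((Fintype.card L : ℝ) ^ 2 * ((nrep s (x - y) (x ^ s - y ^ s) : ℝ) - 1)
        - (b * Q) * ((Fintype.card L : ℝ) * ((if (x - y) ^ s = x ^ s - y ^ s
            then (Fintype.card L : ℝ) else 0) - 1)))
      = ∑ x : Lˣ, ∑ y : Lˣ, tf D x * tf D y *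
        ((Q : ℝ) ^ 4 * ((a : ℝ) * b - 1) + b * Q * (Q : ℝ) ^ 2
          - a * Q * (Q : ℝ) ^ 4 * (if y * x⁻¹ ∈ D then 1 else 0)
          + (Q : ℝ) ^ 4 * ((Q : ℝ) ^ 2 - (b - a) * Q - a * b) * (if x = y then 1 else 0)) := by
    rw [sum_units_eq _ (by simp)]
    refine sum_congr rfl fun x _ => ?_
    rw [sum_units_eq _ (by simp)]
    refine sum_congr rfl fun y _ => ?_
    rw [dif_neg x.ne_zero, dif_neg y.ne_zero, Units.mk0_val, Units.mk0_val, hker x y, hcardR]
    have h6 : (if ((x : L) - y) ^ s = (x : L) ^ s - (y : L) ^ s then ((Q : ℝ) ^ 2) else 0)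
        = (Q : ℝ) ^ 2 * (if y * x⁻¹ ∈ D then 1 else 0) := by
      by_cases h7 : y * x⁻¹ ∈ D
      · rw [if_pos h7, if_pos ((adj_iff x y).mpr h7), mul_one]
      · rw [if_neg h7, if_neg (fun h8 => h7 ((adj_iff x y).mp h8)), mul_zero]
    rw [h6]
    ring
  rw [hred] at hform
  -- evaluate the sums
  have hsum : ∑ x : Lˣ, ∑ y : Lˣ, tf D x * tf D y *
        ((Q : ℝ) ^ 4 * ((a : ℝ) * b - 1) + b * Q * (Q : ℝ) ^ 2
          - a * Q * (Q : ℝ) ^ 4 * (if y * x⁻¹ ∈ D then 1 else 0)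
          + (Q : ℝ) ^ 4 * ((Q : ℝ) ^ 2 - (b - a) * Q - a * b) * (if x = y then 1 else 0))
      = (Q : ℝ) ^ 4 * (((Q : ℝ) ^ 2 - (b - a) * Q - a * b) * (∑ x : Lˣ, tf D x * tf D x)
          - a * Q * (∑ x : Lˣ, ∑ y : Lˣ, tf D x * tf D y * (if y * x⁻¹ ∈ D then 1 else 0))) := by
    have h7 : ∀ x y : Lˣ, tf D x * tf D y *
        ((Q : ℝ) ^ 4 * ((a : ℝ) * b - 1) + b * Q * (Q : ℝ) ^ 2
          - a * Q * (Q : ℝ) ^ 4 * (if y * x⁻¹ ∈ D then 1 else 0)
          + (Q : ℝ) ^ 4 * ((Q : ℝ) ^ 2 - (b - a) * Q - a * b) * (if x = y then 1 else 0))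
        = ((Q : ℝ) ^ 4 * ((a : ℝ) * b - 1) + b * Q * (Q : ℝ) ^ 2) * tf D x * tf D y
          - a * Q * (Q : ℝ) ^ 4 * (tf D x * tf D y * (if y * x⁻¹ ∈ D then 1 else 0))
          + (Q : ℝ) ^ 4 * ((Q : ℝ) ^ 2 - (b - a) * Q - a * b) *
            (if x = y then tf D x * tf D y else 0) := by
      intro x y
      split_ifs <;> ring
    simp_rw [h7, sum_add_distrib, sum_sub_distrib, ← mul_sum, sum_tf]
    simp only [mul_zero, sum_const_zero, zero_sub, sum_ite_eq, mem_univ, if_true]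
    ring
  rw [hsum, sum_tf_sq, sum_tf_form] at hform
  have hT3 : ((D.card : ℝ)) ^ 2
      ≤ ((∑ w ∈ D, mcor D w : ℕ) : ℝ) + ((Fintype.card Lˣ : ℝ) - D.card) * ((a : ℝ) * b - 1) := by
    have hcardle : D.card ≤ Fintype.card Lˣ := card_le_univ D
    have h8 := sum_mcor_ge (D := D) (mu := a * b - 1) (fun w hw => by
      have := mcor_DD_le hs0 hs hodd (m := a * b) (fun t ht0 ht1 => by
        rcases hd t ht0 ht1 with h | h <;> omega) hw
      rw [← hD] at this
      omega)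
    have h9 : ((D.card ^ 2 : ℕ) : ℝ)
        ≤ ((∑ w ∈ D, mcor D w + (Fintype.card Lˣ - D.card) * (a * b - 1) : ℕ) : ℝ) := by
      exact_mod_cast h8
    rw [Nat.cast_add, Nat.cast_mul, Nat.cast_sub hcardle, Nat.cast_sub hab1] at h9
    push_cast at h9 ⊢
    exact h9
  rw [hG, hDc] at hform hT3
  set T : ℝ := ((∑ w ∈ D, mcor D w : ℕ) : ℝ) with hT
  set dd : ℝ := ((b : ℝ) - a) * Q + a * b - 1 with hdd
  set bb : ℝ := (Q : ℝ) ^ 2 - (b - a) * Q - a * b with hbb
  have hgd : (Q : ℝ) ^ 2 - 1 - dd = bb := by rw [hdd, hbb]; ring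
  rw [hgd] at hform hT3
  have hbpos : 0 < bb := by
    have h1 : bb = ((Q : ℝ) - b) * (Q + a) := by rw [hbb]; ring
    rw [h1]
    have h2 : (0 : ℝ) < (Q : ℝ) - b := by
      have : (b : ℝ) < Q := by exact_mod_cast hQ
      linarith
    positivity
  have hg0 : (0 : ℝ) < (Q : ℝ) ^ 2 - 1 := by
    have h1 : (2 : ℝ) ≤ Q := by exact_mod_cast (by omega : 2 ≤ Q)
    nlinarith
  have hQ4 : (0 : ℝ) < (Q : ℝ) ^ 4 := by positivity
  have h10 := (mul_nonneg_iff_of_pos_left hQ4).mp hform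
  -- divide by g
  have h11 : 0 ≤ ((Q : ℝ) ^ 2 - 1) *
      (bb * (dd * bb) - a * Q * (((Q : ℝ) ^ 2 - 1) * T - dd ^ 3)) := by
    have e1 : ((Q : ℝ) ^ 2 - 1) *
      (bb * (dd * bb) - a * Q * (((Q : ℝ) ^ 2 - 1) * T - dd ^ 3))
      = bb * (((Q : ℝ) ^ 2 - 1) * dd * bb)
        - a * Q * (((Q : ℝ) ^ 2 - 1) ^ 2 * T - ((Q : ℝ) ^ 2 - 1) * dd ^ 3) := by ring
    rw [e1]; exact h10
  have h12 := (mul_nonneg_iff_of_pos_left hg0).mp h11
  have h13 : a * Q * (((Q : ℝ) ^ 2 - 1) * (dd ^ 2 - bb * ((a : ℝ) * b - 1)) - dd ^ 3)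
      ≤ a * Q * (((Q : ℝ) ^ 2 - 1) * T - dd ^ 3) := by
    refine mul_le_mul_of_nonneg_left ?_ (by positivity)
    have : ((Q : ℝ) ^ 2 - 1) * (dd ^ 2 - bb * ((a : ℝ) * b - 1)) ≤ ((Q : ℝ) ^ 2 - 1) * T :=
      mul_le_mul_of_nonneg_left (by linarith) hg0.le
    linarith
  have h14 : bb * (a * Q * (dd ^ 2 - ((Q : ℝ) ^ 2 - 1) * ((a : ℝ) * b - 1))) ≤ bb * (bb * dd) := by
    have e2 : bb * (a * Q * (dd ^ 2 - ((Q : ℝ) ^ 2 - 1) * ((a : ℝ) * b - 1)))
        = a * Q * (((Q : ℝ) ^ 2 - 1) * (dd ^ 2 - bb * ((a : ℝ) * b - 1)) - dd ^ 3) := by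
      rw [← hgd]; ring
    rw [e2]; linarith
  have h15 := le_of_mul_le_mul_left h14 hbpos
  refine ratio_final (a := a) (b := b) (Q := Q) (by exact_mod_cast ha) (by exact_mod_cast hab)
    (by exact_mod_cast hP) (by exact_mod_cast (by omega : 0 < Q)) ?_
  rw [hdd, hbb] at h15
  exact_mod_cast h15

end

end Hel
end
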