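import Pool.Agent.Lib.MP_baea4e_nt.Tower

section

set_option autoImplicit false
set_option linter.unusedSectionVars false

open Finset

namespace Hel

/-- a set stable under a map of order a power of two has the parity of its fixed points -/
lemma card_parity {L : Type*} [DecidableEq L] {A : Finset L} (σ : L → L) {m : ℕ}
    (hσ : ∀ x, σ^[2 ^ m] x = x) (hA : ∀ x ∈ A, σ x ∈ A) :
    A.card ≡ (A.filter fun x => σ x = x).card [MOD 2] := by
  classical
  let f : Function.End A := fun x => ⟨σ x.1, hA x.1 x.2⟩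
  have hit : ∀ (i : ℕ) (x : A), ((f ^ i) x).1 = σ^[i] x.1 := by
    intro i
    induction i with
    | zero => intro x; rfl
    | succ i ih =>
      intro x
      rw [pow_succ, Function.iterate_succ_apply]
      change ((f ^ i) (f x)).1 = _
      rw [ih]
  have hf : f ^ 2 ^ m = 1 := by
    funext x
    apply Subtype.ext
    rw [hit]
    exact hσ x.1
  have h := Equiv.Perm.card_fixedPoints_modEq (p := 2) hf
  rw [Fintype.card_coe] at h
  refine h.trans ?_
  have : Fintype.card f.fixedPoints = (A.filter fun x => σ x = x).card := by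
    rw [← Fintype.card_coe]
    refine Fintype.card_congr ⟨fun x => ⟨x.1.1, ?_⟩, fun x => ⟨⟨x.1, ?_⟩, ?_⟩, ?_, ?_⟩
    · rw [mem_filter]
      exact ⟨x.1.2, congrArg Subtype.val x.2⟩
    · exact (mem_filter.mp x.2).1
    · apply Subtype.ext
      exact (mem_filter.mp x.2).2
    · intro x; rfl
    · intro x; rfl
  rw [this]

/-- sums over stable sets of stable integer functions -/
lemma sum_parity {L : Type*} [DecidableEq L] {A : Finset L} (σ : L → L) {m : ℕ}
    (hσ : ∀ x, σ^[2 ^ m] x = x) (hA : ∀ x ∈ A, σ x ∈ A) (F : L → ℤ)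
    (hF : ∀ x ∈ A, F (σ x) = F x) :
    (2 : ℤ) ∣ ∑ x ∈ A, F x - ∑ x ∈ A.filter (fun x => σ x = x), F x := by
  classical
  -- compare with the indicator of odd values
  have key : ∀ B : Finset L, (2 : ℤ) ∣ ∑ x ∈ B, F x - ((B.filter fun x => Odd (F x)).card : ℤ) := by
    intro B
    rw [card_filter]
    push_cast
    rw [← sum_sub_distrib]
    refine dvd_sum fun x _ => ?_
    split_ifs with h
    · obtain ⟨k, hk⟩ := h
      exact ⟨k, by rw [hk]; ring⟩
    · rw [Int.not_odd_iff_even] at h
      rw [sub_zero]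
      exact h.two_dvd
  have h1 := key A
  have h2 := key (A.filter fun x => σ x = x)
  have h3 := card_parity (A := A.filter fun x => Odd (F x)) σ hσ (by
    intro x hx
    rw [mem_filter] at hx ⊢
    exact ⟨hA x hx.1, by rw [hF x hx.1]; exact hx.2⟩)
  rw [filter_filter] at h2 h3
  have h4 : (A.filter fun x => σ x = x ∧ Odd (F x)) = (A.filter fun x => Odd (F x) ∧ σ x = x) := by
    ext x; simp only [mem_filter]; tauto
  rw [h4] at h2
  unfold Nat.ModEq at h3
  omega

section

variable {p : ℕ} [Fact p.Prime] {M : Type*} [Field M] [Fintype M] [DecidableEq M]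
  {L : Type*} [Field L] [Fintype L] [DecidableEq L] [Algebra (ZMod p) M] [Algebra (ZMod p) L]
  [Algebra M L] [IsScalarTower (ZMod p) M L] {s : ℕ}

lemma cj_iter (i : ℕ) (x : L) : (cj M)^[i] x = x ^ Fintype.card M ^ i := by
  induction i generalizing x with
  | zero => simp
  | succ i ih =>
    rw [Function.iterate_succ_apply, ih]
    unfold cj
    rw [← pow_mul, pow_succ']

lemma cj_order {m : ℕ} (hML : Module.finrank M L = 2 ^ m) (x : L) : (cj M)^[2 ^ m] x = x := by
  rw [cj_iter, ← hML, ← Module.card_eq_pow_finrank (K := M) (V := L), FiniteField.pow_card]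

lemma trace_cj (x : L) : Algebra.trace (ZMod p) L (cj M x) = Algebra.trace (ZMod p) L x := by
  rw [← Algebra.trace_trace (S := M), ← Algebra.trace_trace (S := M) (x := x), cj_eq,
    Algebra.trace_eq_of_algEquiv]

lemma cj_pow (x : L) (n : ℕ) : cj M (x ^ n) = cj M x ^ n := by
  unfold cj; rw [← pow_mul, ← pow_mul, mul_comm]

lemma w_cj (a : L) : w p L s (cj M a) = w p L s a := by
  unfold w
  congr 2
  have : cnt p L s (cj M a) 1 = cnt p L s a 1 := by
    unfold cnt
    symm
    refine card_bij (fun x _ => cj M x) ?_ ?_ ?_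
    · intro x hx
      rw [mem_filter] at hx ⊢
      refine ⟨mem_univ _, ?_⟩
      rw [← cj_pow, ← cj_mul, ← cj_sub, trace_cj, hx.2]
    · intro x _ y _ h
      rw [cj_eq, cj_eq] at h
      exact (FiniteField.frobeniusAlgEquivOfAlgebraic M L).injective h
    · intro y hy
      rw [mem_filter] at hy
      obtain ⟨x, hx⟩ := (FiniteField.frobeniusAlgEquivOfAlgebraic M L).surjective y
      rw [← cj_eq] at hx
      refine ⟨x, ?_, hx⟩
      rw [mem_filter]
      refine ⟨mem_univ _, ?_⟩
      rw [← hy.2, ← hx, ← cj_pow, ← cj_mul, ← cj_sub, trace_cj]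
  rw [this]

/-- parity of the values on a subfield of `2`-power codegree -/
lemma w_parity (hp2 : p ≠ 2) (hsp : ∀ nu : ZMod p, nu ^ s = nu) {m : ℕ}
    (hML : Module.finrank M L = 2 ^ m) (a : M) :
    (2 : ℤ) ∣ w p L s (algebraMap M L a) - w p M s a := by
  have hp : p.Prime := Fact.out
  have h20 : ((2 : ℕ) : ZMod p) ≠ 0 := by
    rw [Ne, ZMod.natCast_eq_zero_iff]
    intro h
    have := Nat.le_of_dvd (by norm_num) h
    have := hp.two_le
    omega
  have hc : ((2 ^ m : ℕ) : ZMod p) ≠ 0 := by
    push_cast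
    exact pow_ne_zero _ (by exact_mod_cast h20)
  have h1 := card_parity (A := univ.filter fun x : L =>
    Algebra.trace (ZMod p) L (x ^ s - algebraMap M L a * x) = 1) (cj M)
    (fun x => cj_order (M := M) hML x) (by
      intro x hx
      rw [mem_filter] at hx ⊢
      refine ⟨mem_univ _, ?_⟩
      have : cj M x ^ s - algebraMap M L a * cj M x = cj M (x ^ s - algebraMap M L a * x) := by
        rw [cj_sub, cj_mul, cj_map, cj_pow]
      rw [this, trace_cj, hx.2])
  have h2 : ((univ.filter fun x : L =>
      Algebra.trace (ZMod p) L (x ^ s - algebraMap M L a * x) = 1).filter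
        fun x => cj M x = x).card = cnt p M s a 1 := by
    rw [← cnt_scale hsp a (inv_ne_zero hc)]
    unfold cnt
    symm
    refine card_bij (fun x _ => algebraMap M L x) ?_ ?_ ?_
    · intro x hx
      rw [mem_filter] at hx
      rw [mem_filter, mem_filter]
      refine ⟨⟨mem_univ _, ?_⟩, cj_map x⟩
      rw [← map_pow, ← map_mul, ← map_sub, ← Algebra.trace_trace (S := M),
        Algebra.trace_algebraMap, map_nsmul, hx.2, hML, nsmul_eq_mul, mul_inv_cancel₀ hc]
    · intro x _ y _ h
      exact mapinj h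
    · intro y hy
      rw [mem_filter, mem_filter] at hy
      obtain ⟨x, rfl⟩ := exists_of_cj_eq hy.2
      refine ⟨x, ?_, rfl⟩
      rw [mem_filter]
      refine ⟨mem_univ _, ?_⟩
      have h3 := hy.1.2
      rw [← map_pow, ← map_mul, ← map_sub, ← Algebra.trace_trace (S := M),
        Algebra.trace_algebraMap, map_nsmul, hML, nsmul_eq_mul] at h3
      exact eq_inv_of_mul_eq_one_right h3
  rw [h2] at h1
  have hpo : Odd p := hp.odd_of_ne_two hp2
  have hL : Odd (Fintype.card L) := by rw [card_eq p L]; exact hpo.pow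
  have hM : Odd (Fintype.card M) := by rw [card_eq p M]; exact hpo.pow
  unfold w
  change cnt p L s (algebraMap M L a) 1 ≡ cnt p M s a 1 [MOD 2] at h1
  unfold Nat.ModEq at h1
  obtain ⟨y, hy⟩ := hL
  obtain ⟨z, hz⟩ := hM
  rw [hy, hz]
  push_cast
  obtain ⟨d, hd⟩ : (2 : ℤ) ∣ (cnt p L s (algebraMap M L a) 1 : ℤ) - cnt p M s a 1 := by omega
  refine ⟨(y : ℤ) - z - p * d, ?_⟩
  linear_combination -(p : ℤ) * hd

end

end Hel
end

section

set_option autoImplicit false
set_option linter.unusedSectionVars false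

open Finset

namespace Hel

section

variable {p : ℕ} [Fact p.Prime] {K : Type*} [Field K] [Fintype K] [DecidableEq K]
  [Algebra (ZMod p) K] {s : ℕ}

/-- the spectrum when the power map is the identity -/
lemma w_trivial (hsp : ∀ nu : ZMod p, nu ^ s = nu) (hK : ∀ x : K, x ^ s = x) (a : K) :
    w p K s a = if a = 1 then (Fintype.card K : ℤ) else 0 := by
  have h : Wc (psi p K) s a = if a = 1 then (Fintype.card K : ℂ) else 0 := by
    have h1 := sum_mul_char (psi_prim (p := p) (L := K)) (1 - a)
    unfold Wc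
    have e : ∀ x : K, psi p K (x ^ s - a * x) = psi p K (x * (1 - a)) := by
      intro x; rw [hK]; congr 1; ring
    simp_rw [e, h1, sub_eq_zero, eq_comm (a := (1 : K))]
  rw [Wc_eq_w hsp] at h
  split_ifs at h ⊢ with h1
  · exact_mod_cast h
  · exact_mod_cast h

end

section

variable {p : ℕ} [Fact p.Prime] {K : Type*} [Field K] [Fintype K] [DecidableEq K]
  {L : Type*} [Field L] [Fintype L] [DecidableEq L] [Algebra (ZMod p) K] [Algebra (ZMod p) L]
  [Algebra K L] [IsScalarTower (ZMod p) K L] {s : ℕ}

lemma w_odd_one (hp2 : p ≠ 2) (hsp : ∀ nu : ZMod p, nu ^ s = nu) {m : ℕ}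
    (hKL : Module.finrank K L = 2 ^ m) (hK : ∀ x : K, x ^ s = x) : Odd (w p L s 1) := by
  have h := w_parity (p := p) hp2 hsp hKL (1 : K)
  rw [w_trivial hsp hK, if_pos rfl, map_one] at h
  have hKo : Odd (Fintype.card K) := by
    rw [card_eq p K]; exact ((Fact.out : p.Prime).odd_of_ne_two hp2).pow
  obtain ⟨y, hy⟩ := hKo
  obtain ⟨d, hd⟩ := h
  rw [hy] at hd
  push_cast at hd
  exact ⟨d + y, by linear_combination hd⟩

lemma w_even (hp2 : p ≠ 2) (hsp : ∀ nu : ZMod p, nu ^ s = nu) {m : ℕ}
    (hKL : Module.finrank K L = 2 ^ m) (hK : ∀ x : K, x ^ s = x) {a : K} (ha : a ≠ 1) :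
    Even (w p L s (algebraMap K L a)) := by
  have h := w_parity (p := p) hp2 hsp hKL a
  rw [w_trivial hsp hK, if_neg ha, sub_zero] at h
  exact even_iff_two_dvd.mpr h

/-- on the subfield the support of the spectrum is the set of values taken by
`z^s + (1-z)^s` -/
lemma supp_eq (hp2 : p ≠ 2) (hsp : ∀ nu : ZMod p, nu ^ s = nu) (hs0 : s ≠ 0)
    (hs : Nat.Coprime s (Fintype.card L - 1)) (hodd : Odd s) {m : ℕ}
    (hKL : Module.finrank K L = 2 ^ m) (hK : ∀ x : K, x ^ s = x) {Q α β : ℕ}
    (hQ : Fintype.card L = Q ^ 2) (hα : α ≠ 0) (hβ : β ≠ 0) {v : L → ℤ}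
    (hv : ∀ a : L, w p L s a = Q * v a) (hval : ∀ a : L, v a = 0 ∨ v a = -α ∨ v a = β)
    (hdel : ∀ t : L, t ≠ 0 → t ≠ 1 → del L s t = 0 ∨ del L s t = α * β)
    {c : K} (hc0 : c ≠ 0) (hc1 : c ≠ 1) :
    w p L s (algebraMap K L c) ≠ 0 ↔ del L s (algebraMap K L c)⁻¹ ≠ 0 := by
  have hp : p.Prime := Fact.out
  have hLo : Odd (Fintype.card L) := by
    rw [card_eq p L]; exact (hp.odd_of_ne_two hp2).pow
  have hQo : Odd Q := by
    rw [hQ] at hLo
    exact (Nat.odd_pow_iff two_ne_zero).mp hLo
  have hQ0 : (Q : ℤ) ≠ 0 := by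
    intro h
    have : Q = 0 := by exact_mod_cast h
    rw [this] at hQo
    exact absurd hQo (by decide)
  set t : L := (algebraMap K L c)⁻¹ with ht
  have hcL : algebraMap K L c ≠ 0 := by rwa [Ne, map_eq_zero]
  have ht0 : t ≠ 0 := inv_ne_zero hcL
  have ht1 : t ≠ 1 := by
    intro h
    apply hc1
    apply mapinj (L := L)
    rw [map_one, ← inv_inv (algebraMap K L c), ← ht, h, inv_one]
  set S : Finset L := univ.filter fun a => v a ≠ 0 with hS
  have hsq : ∀ a : L, v a ^ 2 = ((β : ℤ) - α) * v a + α * β * (if v a ≠ 0 then 1 else 0) := by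
    intro a
    rcases hval a with h | h | h
    · simp [h]
    · have : v a ≠ 0 := by rw [h]; simpa using hα
      rw [if_pos this, h]; ring
    · have : v a ≠ 0 := by rw [h]; exact_mod_cast hβ
      rw [if_pos this, h]; ring
  -- the first correlation vanishes
  have m2 : ∑ a : L, v a * v (t * a) = 0 := by
    have h := sum_w_mul hsp hs0 hs hodd t (p := p)
    rw [if_neg ht1] at h
    simp_rw [hv] at h
    have : ∑ a : L, (Q : ℤ) * v a * (Q * v (t * a)) = Q ^ 2 * ∑ a : L, v a * v (t * a) := by
      rw [mul_sum]; exact sum_congr rfl fun a _ => by ring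
    rw [this] at h
    exact (mul_eq_zero.mp h).resolve_left (pow_ne_zero 2 hQ0)
  have m3 : (α : ℤ) * β * ∑ a ∈ S, v (t * a) = Q * del L s t := by
    have h := sum_w_sq_mul hsp hs0 hs hodd ht0 (p := p)
    simp_rw [hv] at h
    rw [hQ] at h
    have e : ∑ a : L, ((Q : ℤ) * v a) ^ 2 * (Q * v (t * a))
        = Q ^ 3 * (α * β * ∑ a ∈ S, v (t * a)) := by
      have e1 : ∑ a ∈ S, v (t * a) = ∑ a : L, (if v a ≠ 0 then 1 else 0) * v (t * a) := by
        rw [hS, sum_filter]
        refine sum_congr rfl fun a _ => ?_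
        split_ifs <;> simp
      have e2 : ∀ a : L, ((Q : ℤ) * v a) ^ 2 * (Q * v (t * a))
          = Q ^ 3 * ((β - α) * (v a * v (t * a))
            + α * β * ((if v a ≠ 0 then 1 else 0) * v (t * a))) := by
        intro a
        have := hsq a
        linear_combination (Q : ℤ) ^ 3 * v (t * a) * this
      simp_rw [e2]
      rw [← mul_sum, sum_add_distrib, ← mul_sum, ← mul_sum, m2, e1]
      ring
    rw [e] at h
    push_cast at h
    have h3 : (Q : ℤ) ^ 3 * (α * β * ∑ a ∈ S, v (t * a)) = Q ^ 3 * (Q * del L s t) := by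
      rw [h]; ring
    exact mul_left_cancel₀ (pow_ne_zero 3 hQ0) h3
  -- symmetry
  have hvcj : ∀ a : L, v (cj K a) = v a := by
    intro a
    have h1 := hv (cj K a)
    rw [w_cj, hv a] at h1
    exact (mul_left_cancel₀ hQ0 h1).symm
  have hcjt : cj K t = t := by
    unfold cj
    rw [ht, inv_pow]
    congr 1
    exact cj_map (M := K) (L := L) c
  have hpar := sum_parity (A := S) (cj K) (m := m) (fun x => cj_order hKL x) (by
    intro x hx
    rw [hS, mem_filter] at hx ⊢
    exact ⟨mem_univ _, by rw [hvcj]; exact hx.2⟩) (fun a => v (t * a)) (by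
    intro x _
    rw [← hvcj (t * x), cj_mul, hcjt])
  -- parity of the values of `v` on the subfield
  have hvodd : Odd (v 1) := by
    have h := w_odd_one (p := p) hp2 hsp hKL hK
    rw [hv] at h
    exact (Int.odd_mul.mp h).2
  have hveven : ∀ a : K, a ≠ 1 → Even (v (algebraMap K L a)) := by
    intro a ha
    have h := w_even (p := p) hp2 hsp hKL hK ha
    rw [hv, Int.even_mul] at h
    rcases h with h | h
    · exfalso
      have : Even Q := by exact_mod_cast h
      exact (Nat.not_even_iff_odd.mpr hQo) this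
    · exact h
  have hfix : (2 : ℤ) ∣ ∑ x ∈ S.filter (fun x => cj K x = x), v (t * x)
      - (if v (algebraMap K L c) ≠ 0 then 1 else 0) := by
    have hterm : ∀ x ∈ S.filter (fun x => cj K x = x), x ≠ algebraMap K L c →
        Even (v (t * x)) := by
      intro x hx hne
      rw [mem_filter] at hx
      obtain ⟨y, rfl⟩ := exists_of_cj_eq hx.2
      have : t * algebraMap K L y = algebraMap K L (c⁻¹ * y) := by
        rw [map_mul, map_inv₀, ht]
      rw [this]
      apply hveven
      intro h
      apply hne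
      congr 1
      have := congrArg (fun z => c * z) h
      simp only [mul_one] at this
      rw [mul_inv_cancel_left₀ hc0] at this
      exact this
    by_cases hcS : v (algebraMap K L c) ≠ 0
    · rw [if_pos hcS]
      have hmem : algebraMap K L c ∈ S.filter (fun x => cj K x = x) := by
        rw [mem_filter, hS, mem_filter]
        exact ⟨⟨mem_univ _, hcS⟩, cj_map c⟩
      rw [← add_sum_erase _ _ hmem]
      have h1 : t * algebraMap K L c = 1 := by rw [ht, inv_mul_cancel₀ hcL]
      rw [h1]
      have h2 : (2 : ℤ) ∣ ∑ x ∈ (S.filter (fun x => cj K x = x)).erase (algebraMap K L c),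
          v (t * x) := by
        refine dvd_sum fun x hx => ?_
        rw [mem_erase] at hx
        exact (hterm x hx.2 hx.1).two_dvd
      obtain ⟨a, ha⟩ := h2
      obtain ⟨b, hb⟩ := hvodd
      exact ⟨a + b, by rw [ha, hb]; ring⟩
    · rw [if_neg hcS, sub_zero]
      refine dvd_sum fun x hx => ?_
      refine (hterm x hx ?_).two_dvd
      rintro rfl
      rw [mem_filter, hS, mem_filter] at hx
      exact hcS hx.1.2
  have hpar2 : (2 : ℤ) ∣ ∑ x ∈ S, v (t * x) - (if v (algebraMap K L c) ≠ 0 then 1 else 0) := by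
    have := dvd_add hpar hfix
    simpa using this
  have hwv : w p L s (algebraMap K L c) ≠ 0 ↔ v (algebraMap K L c) ≠ 0 := by
    rw [hv, Ne, mul_eq_zero, not_or]
    exact ⟨fun h => h.2, fun h => ⟨hQ0, h⟩⟩
  rw [hwv]
  have hαβ : (α : ℤ) * β ≠ 0 := by
    have : α * β ≠ 0 := mul_ne_zero hα hβ
    exact_mod_cast this
  rcases hdel t ht0 ht1 with hd | hd
  · -- no solutions
    rw [hd]
    rw [hd] at m3
    simp only [Nat.cast_zero, mul_zero] at m3
    have h0 := (mul_eq_zero.mp m3).resolve_left hαβ
    rw [h0] at hpar2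
    constructor
    · intro h
      rw [if_pos h] at hpar2
      omega
    · intro h; exact absurd rfl h
  · rw [hd]
    rw [hd] at m3
    push_cast at m3
    have h0 : ∑ a ∈ S, v (t * a) = Q := by
      apply mul_left_cancel₀ hαβ
      rw [m3]; ring
    rw [h0] at hpar2
    constructor
    · intro _; exact mul_ne_zero hα hβ
    · intro _ h
      rw [if_neg (not_not.mpr h)] at hpar2
      obtain ⟨y, hy⟩ := hQo
      rw [hy] at hpar2
      push_cast at hpar2
      omega

end

end Hel
end

section

set_option autoImplicit false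
set_option linter.unusedSectionVars false

open Finset

namespace Hel

section

variable {p : ℕ} [Fact p.Prime] {K : Type*} [Field K] [Fintype K] [DecidableEq K]
  {M : Type*} [Field M] [Fintype M] [DecidableEq M]
  {L : Type*} [Field L] [Fintype L] [DecidableEq L] [Algebra K M] [Algebra K L]
  [Algebra M L] [IsScalarTower K M L] {s : ℕ}

/-- if the fibre values avoid the subfield then the power map is a power of Frobenius on the
quadratic extension -/
lemma quad_max (hKM : Module.finrank K M = 2) (hs0 : s ≠ 0)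
    (hs : Nat.Coprime s (Fintype.card L - 1)) (hodd : Odd s) (hK : ∀ x : K, x ^ s = x)
    (hno : ∀ c : K, c ≠ 0 → c ≠ 1 → del L s (algebraMap K L c)⁻¹ = 0) :
    (∀ x : M, x ^ s = x) ∨ (∀ x : M, x ^ s = cj K x) := by
  have hinjM : ∀ x y : M, x ^ s = y ^ s → x = y := by
    intro x y h
    apply mapinj (L := L)
    apply (pow_bijective hs0 hs).1
    simp only
    rw [← map_pow, ← map_pow, h]
  -- elements of trace one
  have h1 : ∀ z : M, z + cj K z = 1 → z ^ s = z ∨ z ^ s = cj K z := by
    intro z hz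
    have hfix : cj K (z ^ s + cj K z ^ s) = z ^ s + cj K z ^ s := by
      rw [cj_add, cj_pow, cj_pow, cj_cj hKM]; ring
    obtain ⟨c, hc⟩ := exists_of_cj_eq hfix
    have hnfix : cj K (z * cj K z) = z * cj K z := by
      rw [cj_mul, cj_cj hKM]; ring
    obtain ⟨d, hd⟩ := exists_of_cj_eq hnfix
    have hprod : z ^ s * cj K z ^ s = z * cj K z := by
      rw [← mul_pow, ← hd, ← map_pow, hK]
    have hc1 : c = 1 := by
      by_contra hc1
      by_cases hc0 : c = 0
      · rw [hc0, map_zero] at hc
        have h3 : z ^ s = (-cj K z) ^ s := by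
          rw [hodd.neg_pow]; exact eq_neg_of_add_eq_zero_left hc.symm
        have h4 := hinjM _ _ h3
        have : (1 : M) = 0 := by linear_combination h4 - hz
        exact one_ne_zero this
      · have h5 := hno c hc0 hc1
        unfold del at h5
        rw [card_eq_zero, filter_eq_empty_iff] at h5
        apply h5 (mem_univ (algebraMap M L z))
        have h6 : (1 : L) - algebraMap M L z = algebraMap M L (cj K z) := by
          rw [← map_one (algebraMap M L), ← map_sub, ← hz]
          congr 1; ring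
        have h7 : algebraMap K L c = algebraMap M L (z ^ s + cj K z ^ s) := by
          rw [← hc, ← IsScalarTower.algebraMap_apply]
        have hcL : algebraMap K L c ≠ 0 := by rwa [Ne, map_eq_zero]
        rw [h6, ← map_pow, ← map_pow, ← map_add, add_comm (cj K z ^ s), ← h7, inv_pow,
          ← map_pow, hK, inv_mul_cancel₀ hcL]
    rw [hc1, map_one] at hc
    have h8 : (z ^ s - z) * (z ^ s - cj K z) = 0 := by
      linear_combination (-z ^ s) * hz - (-z ^ s) * hc.symm - hprod
    rcases mul_eq_zero.mp h8 with h | h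
    · left; exact sub_eq_zero.mp h
    · right; exact sub_eq_zero.mp h
  have h2 : ∀ x : M, x ^ s = x ∨ x ^ s = cj K x := by
    intro x
    have hfix : cj K (x + cj K x) = x + cj K x := by
      rw [cj_add, cj_cj hKM]; ring
    obtain ⟨T, hT⟩ := exists_of_cj_eq hfix
    by_cases hT0 : T = 0
    · rw [hT0, map_zero] at hT
      have hcx : cj K x = -x := by linear_combination -hT
      have hnfix : cj K (x * x) = x * x := by
        rw [cj_mul, hcx]; ring
      obtain ⟨d, hd⟩ := exists_of_cj_eq hnfix
      have h3 : (x ^ s - x) * (x ^ s + x) = 0 := by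
        have : x ^ s * x ^ s = x * x := by rw [← mul_pow, ← hd, ← map_pow, hK]
        linear_combination this
      rcases mul_eq_zero.mp h3 with h | h
      · left; exact sub_eq_zero.mp h
      · right; rw [hcx]; exact eq_neg_of_add_eq_zero_left h
    · have hTM : algebraMap K M T ≠ 0 := by rwa [Ne, map_eq_zero]
      have hcjz : cj K (x * (algebraMap K M T)⁻¹) = cj K x * (algebraMap K M T)⁻¹ := by
        rw [cj_mul, ← map_inv₀, cj_map]
      have hz := h1 (x * (algebraMap K M T)⁻¹) (by
        rw [hcjz, ← add_mul, ← hT, mul_inv_cancel₀ hTM])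
      rw [hcjz, mul_pow, inv_pow, ← map_pow, hK] at hz
      have hTi : (algebraMap K M T)⁻¹ ≠ 0 := inv_ne_zero hTM
      rcases hz with h | h
      · left; exact mul_right_cancel₀ hTi h
      · right; exact mul_right_cancel₀ hTi h
  by_contra hcon
  push Not at hcon
  obtain ⟨⟨x, hx⟩, ⟨y, hy⟩⟩ := hcon
  have hx2 := (h2 x).resolve_left hx
  have hy2 := (h2 y).resolve_right hy
  have hx0 : x ≠ 0 := by
    rintro rfl
    exact hx (zero_pow hs0)
  have hy0 : y ≠ 0 := by
    rintro rfl
    apply hy
    rw [zero_pow hs0]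
    unfold cj
    rw [zero_pow Fintype.card_ne_zero]
  rcases h2 (x * y) with h | h
  · rw [mul_pow, hx2, hy2] at h
    apply hx
    rw [hx2]
    exact mul_right_cancel₀ hy0 h
  · rw [mul_pow, hx2, hy2, cj_mul] at h
    apply hy
    rw [hy2]
    have hcx : cj K x ≠ 0 := by
      unfold cj; exact pow_ne_zero _ hx0
    exact mul_left_cancel₀ hcx h

end

section

variable {p : ℕ} [Fact p.Prime] {M : Type*} [Field M] [Fintype M] [DecidableEq M]
  {L : Type*} [Field L] [Fintype L] [DecidableEq L] [Algebra (ZMod p) M] [Algebra (ZMod p) L]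
  [Algebra M L] [IsScalarTower (ZMod p) M L] {s : ℕ}

variable (M L) in
/-- number of `x` with `Tr (x^s) = (Tr x)^s` -/
noncomputable def cA (s : ℕ) : ℕ :=
  (univ.filter fun x : L => Algebra.trace M L (x ^ s) = Algebra.trace M L x ^ s).card

/-- the correlation of the spectrum of `L`, restricted to `M`, with the spectrum of `M` -/
lemma star_c (hML : Module.finrank M L = 2) (hs0 : s ≠ 0)
    (hs : Nat.Coprime s (Fintype.card L - 1)) (hodd : Odd s) :
    ((Fintype.card M : ℂ) - 1) *
      ∑ a : M, Wc (psi p L) s (algebraMap M L a) * Wc (psi p M) s a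
      = (Fintype.card M : ℂ) ^ 2 * ((cA M L s : ℂ) - Fintype.card M) := by
  have hsM := coprime_sub (M := M) hML hs
  -- the sum equals `|M| * ∑ F`
  set F : L → ℂ := fun x => psi p M (Algebra.trace M L (x ^ s) - Algebra.trace M L x ^ s) with hF
  have h1 : ∑ a : M, Wc (psi p L) s (algebraMap M L a) * Wc (psi p M) s a
      = Fintype.card M * ∑ x : L, F x := by
    have e1 : ∀ a : M, Wc (psi p L) s (algebraMap M L a) * Wc (psi p M) s a
        = ∑ x : L, ∑ y : M, psi p M (Algebra.trace M L (x ^ s) + y ^ s)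
          * psi p M (-(a * (Algebra.trace M L x + y))) := by
      intro a
      unfold Wc
      rw [sum_mul_sum]
      refine sum_congr rfl fun x _ => sum_congr rfl fun y _ => ?_
      rw [psi_tower (M := M) (L := L), ← AddChar.map_add_eq_mul, ← AddChar.map_add_eq_mul]
      congr 1
      have : algebraMap M L a * x = a • x := by rw [Algebra.smul_def]
      rw [this, map_sub, map_smul, smul_eq_mul]; ring
    simp_rw [e1]
    rw [sum_comm, mul_sum]
    refine sum_congr rfl fun x _ => ?_
    rw [sum_comm]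
    simp_rw [← mul_sum, sum_neg_mul_char (psi_prim (p := p) (L := M))]
    rw [sum_eq_single (-Algebra.trace M L x)]
    · rw [if_pos (by ring), mul_comm, hF, hodd.neg_pow]
      congr 2
      ring
    · intro y _ hy
      rw [if_neg, mul_zero]
      intro h
      exact hy (eq_neg_of_add_eq_zero_right h)
    · intro h; exact absurd (mem_univ _) h
  -- averaging
  have h2 : ((Fintype.card M : ℂ) - 1) * ∑ x : L, F x
      = Fintype.card M * ((cA M L s : ℂ) - Fintype.card M) := by
    have hQ1 : 1 ≤ Fintype.card M := Fintype.card_pos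
    have e1 : ∀ m ∈ univ.erase (0 : M), ∑ x : L, psi p M (m ^ s *
        (Algebra.trace M L (x ^ s) - Algebra.trace M L x ^ s)) = ∑ x : L, F x := by
      intro m hm
      have hm0 : algebraMap M L m ≠ 0 := by
        rw [Ne, map_eq_zero]; exact ne_of_mem_erase hm
      have hb : Function.Bijective (fun x : L => algebraMap M L m * x) := by
        rw [← Finite.injective_iff_bijective]
        intro x y h
        exact mul_left_cancel₀ hm0 h
      refine Fintype.sum_bijective _ hb _ _ fun x => ?_
      rw [hF]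
      simp only
      congr 1
      have a1 : (algebraMap M L m * x) ^ s = m ^ s • x ^ s := by
        rw [Algebra.smul_def, mul_pow, map_pow]
      have a2 : algebraMap M L m * x = m • x := by rw [Algebra.smul_def]
      rw [a1, a2, map_smul, map_smul, smul_eq_mul, smul_eq_mul, mul_pow]; ring
    have e2 : ((Fintype.card M : ℂ) - 1) * ∑ x : L, F x = ∑ m ∈ univ.erase (0 : M), ∑ x : L,
        psi p M (m ^ s * (Algebra.trace M L (x ^ s) - Algebra.trace M L x ^ s)) := by
      rw [sum_congr rfl e1, sum_const, card_erase_of_mem (mem_univ _), card_univ, nsmul_eq_mul,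
        Nat.cast_sub hQ1, Nat.cast_one]
    rw [e2, sum_comm]
    simp_rw [sum_pow_char_ne (psi_prim (p := p) (L := M)) hs0 hsM, sub_eq_zero]
    rw [sum_sub_distrib, ← sum_filter, sum_const, sum_const, nsmul_eq_mul, nsmul_eq_mul,
      card_univ]
    have hc : Fintype.card L = Fintype.card M ^ 2 := by
      rw [Module.card_eq_pow_finrank (K := M) (V := L), hML]
    rw [hc]
    unfold cA
    push_cast
    ring
  rw [h1]
  linear_combination (Fintype.card M : ℂ) * h2

lemma star_z (hsp : ∀ nu : ZMod p, nu ^ s = nu) (hML : Module.finrank M L = 2) (hs0 : s ≠ 0)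
    (hs : Nat.Coprime s (Fintype.card L - 1)) (hodd : Odd s) :
    ((Fintype.card M : ℤ) - 1) * ∑ a : M, w p L s (algebraMap M L a) * w p M s a
      = (Fintype.card M : ℤ) ^ 2 * ((cA M L s : ℤ) - Fintype.card M) := by
  have h := star_c (p := p) hML hs0 hs hodd
  simp_rw [Wc_eq_w hsp] at h
  exact_mod_cast h

/-- the count contains the elements of trace zero and `1` -/
lemma cA_gt (hp2 : p ≠ 2) (hsp : ∀ nu : ZMod p, nu ^ s = nu) (hML : Module.finrank M L = 2)
    (hs0 : s ≠ 0) (hodd : Odd s) : Fintype.card M < cA M L s := by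
  obtain ⟨e, he, hce⟩ := exists_eps (M := M) (L := L) hML
  have h2 : (2 : M) ≠ 0 := two_ne p hp2 M
  have hone : Algebra.trace M L (1 : L) = 2 := by
    rw [← map_one (algebraMap M L), Algebra.trace_algebraMap, hML]
    simp
  have hsub : insert (1 : L) (univ.image fun m : M => algebraMap M L m * e)
      ⊆ univ.filter fun x : L => Algebra.trace M L (x ^ s) = Algebra.trace M L x ^ s := by
    intro x hx
    rw [mem_filter]
    refine ⟨mem_univ _, ?_⟩
    rw [mem_insert, mem_image] at hx
    rcases hx with rfl | ⟨m, _, rfl⟩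
    · rw [one_pow, hone]
      have h3 := hsp 2
      have h4 := congrArg (algebraMap (ZMod p) M) h3
      rw [map_pow, map_ofNat] at h4
      exact h4.symm
    · have h1 : Algebra.trace M L (algebraMap M L m * e) = 0 := by
        rw [trace_zero_iff hML he hce]; exact ⟨m, rfl⟩
      rw [h1, zero_pow hs0, trace_eq_iff hML, map_zero, cj_pow, cj_mul, cj_map, hce, mul_neg,
        hodd.neg_pow]
      ring
  have hnot : (1 : L) ∉ univ.image fun m : M => algebraMap M L m * e := by
    intro h
    rw [mem_image] at h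
    obtain ⟨m, _, hm⟩ := h
    have h1 : Algebra.trace M L (1 : L) = 0 := by
      rw [trace_zero_iff hML he hce]; exact ⟨m, hm⟩
    rw [hone] at h1
    exact h2 h1
  have hc := card_le_card hsub
  rw [card_insert_of_notMem hnot, card_image_of_injective, card_univ] at hc
  · unfold cA; omega
  · intro x y h
    exact mapinj (mul_right_cancel₀ he h)

/-- the number of nonzero `x` with `Tr (x^s - a x) = 0` -/
noncomputable def kap (M : Type*) [Field M] [Fintype M] {L : Type*} [Field L]
    [Fintype L] [DecidableEq L] [DecidableEq M] [Algebra M L] (s : ℕ) (a : L) : ℕ :=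
  ((univ.erase (0 : L)).filter fun x => Algebra.trace M L (x ^ s - a * x) = 0).card

/-- values over a subfield on which the power map is the identity -/
lemma kap_eq (hsp : ∀ nu : ZMod p, nu ^ s = nu) (hML : Module.finrank M L = 2) (hs0 : s ≠ 0)
    (hM : ∀ x : M, x ^ s = x) (a : L) :
    ((Fintype.card M : ℤ) - 1) * (w p L s a + Fintype.card M) = Fintype.card M * kap M s a := by
  have hQ1 : 1 ≤ Fintype.card M := Fintype.card_pos
  have key : ((Fintype.card M : ℂ) - 1) * (Wc (psi p L) s a - 1)
      = ∑ x ∈ univ.erase (0 : L), ∑ m ∈ univ.erase (0 : M),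
        psi p M (m * Algebra.trace M L (x ^ s - a * x)) := by
    rw [sum_comm]
    have e1 : ∀ m ∈ univ.erase (0 : M), ∑ x ∈ univ.erase (0 : L),
        psi p M (m * Algebra.trace M L (x ^ s - a * x)) = Wc (psi p L) s a - 1 := by
      intro m hm
      have hm0 : m ≠ 0 := ne_of_mem_erase hm
      unfold Wc
      rw [← add_sum_erase univ _ (mem_univ (0 : L))]
      simp only [zero_pow hs0, mul_zero, sub_zero, AddChar.map_zero_eq_one, add_sub_cancel_left]
      have hm1 : algebraMap M L m ≠ 0 := by rwa [Ne, map_eq_zero]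
      refine sum_bij' (fun x _ => algebraMap M L m * x) (fun x _ => (algebraMap M L m)⁻¹ * x)
        ?_ ?_ ?_ ?_ ?_
      · intro x hx
        exact mem_erase.mpr ⟨mul_ne_zero hm1 (ne_of_mem_erase hx), mem_univ _⟩
      · intro x hx
        exact mem_erase.mpr ⟨mul_ne_zero (inv_ne_zero hm1) (ne_of_mem_erase hx), mem_univ _⟩
      · intro x _; exact inv_mul_cancel_left₀ hm1 x
      · intro x _; exact mul_inv_cancel_left₀ hm1 x
      · intro x _
        rw [psi_tower (M := M) (L := L)]
        congr 1
        have : (algebraMap M L m * x) ^ s - a * (algebraMap M L m * x)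
            = m • (x ^ s - a * x) := by
          rw [Algebra.smul_def, mul_pow, ← map_pow, hM]; ring
        rw [this, map_smul, smul_eq_mul]
    rw [sum_congr rfl e1, sum_const, card_erase_of_mem (mem_univ _), card_univ, nsmul_eq_mul,
      Nat.cast_sub hQ1]
    push_cast; ring
  have e2 : ∀ x : L, ∑ m ∈ univ.erase (0 : M),
      psi p M (m * Algebra.trace M L (x ^ s - a * x))
      = (if Algebra.trace M L (x ^ s - a * x) = 0 then (Fintype.card M : ℂ) else 0) - 1 := by
    intro x
    have h1 := sum_mul_char (psi_prim (p := p) (L := M)) (Algebra.trace M L (x ^ s - a * x))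
    rw [← h1, ← add_sum_erase univ _ (mem_univ (0 : M))]
    simp only [zero_mul, AddChar.map_zero_eq_one, add_sub_cancel_left]
  simp_rw [e2] at key
  rw [sum_sub_distrib, ← sum_filter, sum_const, sum_const, nsmul_eq_mul,
    card_erase_of_mem (mem_univ _), card_univ] at key
  have hc : Fintype.card L = Fintype.card M ^ 2 := by
    rw [Module.card_eq_pow_finrank (K := M) (V := L), hML]
  have hL1 : 1 ≤ Fintype.card L := Fintype.card_pos
  rw [nsmul_eq_mul, Nat.cast_sub hL1, hc, Wc_eq_w hsp] at key
  have key2 : ((Fintype.card M : ℤ) - 1) * (w p L s a - 1)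
      = kap M s a * Fintype.card M - ((Fintype.card M ^ 2 : ℕ) - 1) := by
    unfold kap
    have : (((Fintype.card M : ℤ) - 1) * (w p L s a - 1) : ℂ)
      = ((((univ.erase (0 : L)).filter fun x => Algebra.trace M L (x ^ s - a * x) = 0).card : ℤ)
        * Fintype.card M - ((Fintype.card M ^ 2 : ℕ) - 1) : ℂ) := by
      push_cast at key ⊢
      rw [key]; ring
    exact_mod_cast this
  push_cast at key2
  linear_combination key2

end

end Hel
end

section

set_option autoImplicit false
set_option linter.unusedSectionVars false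

open Finset

namespace Hel

/-- fibres of a power map on a finite cyclic group -/
lemma pow_fiber {G : Type*} [CommGroup G] [IsCyclic G] [Fintype G] [DecidableEq G] (k : ℕ)
    (a : G) : (univ.filter fun x : G => x ^ k = a).card
      = if a ^ (Fintype.card G / (Fintype.card G).gcd k) = 1 then (Fintype.card G).gcd k else 0 := by
  classical
  set n := Fintype.card G with hn
  have hnc : Nat.card G = n := Nat.card_eq_fintype_card
  have hn0 : 0 < n := Fintype.card_pos
  set d := n.gcd k with hd
  have hd0 : 0 < d := Nat.gcd_pos_of_pos_left _ hn0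
  have hdn : d ∣ n := Nat.gcd_dvd_left _ _
  obtain ⟨b, hb⟩ := hdn
  have hb0 : 0 < b := Nat.pos_of_ne_zero (by rintro rfl; omega)
  have hdiv : n / d = b := by rw [hb]; exact Nat.mul_div_cancel_left _ hd0
  have hker : ∀ j : ℕ, (univ.filter fun x : G => x ^ j = 1).card = n.gcd j := by
    intro j
    have h := IsCyclic.card_powMonoidHom_ker G j
    rw [hnc] at h
    rw [← h, Nat.card_eq_fintype_card]
    symm
    rw [Fintype.card_subtype]
    congr 1
    ext x
    simp only [mem_filter, mem_univ, true_and]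
    rw [MonoidHom.mem_ker]; rfl
  have hrange : Nat.card (powMonoidHom k : G →* G).range = b := by
    rw [IsCyclic.card_powMonoidHom_range, hnc, hdiv]
  have hkerb : Nat.card (powMonoidHom b : G →* G).ker = b := by
    rw [IsCyclic.card_powMonoidHom_ker, hnc]
    exact Nat.gcd_eq_right (by rw [hb]; exact dvd_mul_left _ _)
  have hle : (powMonoidHom k : G →* G).range ≤ (powMonoidHom b : G →* G).ker := by
    rintro _ ⟨x, rfl⟩
    rw [MonoidHom.mem_ker]
    simp only [powMonoidHom_apply]
    rw [← pow_mul]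
    obtain ⟨e, he⟩ : d ∣ k := Nat.gcd_dvd_right _ _
    rw [he]
    have : d * e * b = n * e := by rw [hb]; ring
    rw [this, pow_mul, hn, pow_card_eq_one, one_pow]
  have heq : (powMonoidHom k : G →* G).range = (powMonoidHom b : G →* G).ker := by
    exact Subgroup.eq_of_le_of_card_ge hle (by rw [hkerb, hrange])
  rw [hdiv]
  split_ifs with h
  · have hmem : a ∈ (powMonoidHom k : G →* G).range := by
      rw [heq, MonoidHom.mem_ker]; exact h
    obtain ⟨x0, hx0⟩ := hmem
    simp only [powMonoidHom_apply] at hx0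
    rw [hd, ← hker k]
    refine card_bij (fun x _ => x * x0⁻¹) ?_ ?_ ?_
    · intro x hx
      rw [mem_filter] at hx ⊢
      refine ⟨mem_univ _, ?_⟩
      rw [mul_pow, inv_pow, hx.2, hx0, mul_inv_cancel]
    · intro x _ y _ hxy
      exact mul_right_cancel hxy
    · intro y hy
      rw [mem_filter] at hy
      refine ⟨y * x0, ?_, by simp⟩
      rw [mem_filter]
      exact ⟨mem_univ _, by rw [mul_pow, hy.2, hx0, one_mul]⟩
  · rw [card_eq_zero, filter_eq_empty_iff]
    intro x _ hx
    apply h
    have : a ∈ (powMonoidHom b : G →* G).ker := hle ⟨x, hx⟩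
    exact this

/-- fibres of a power map on a finite field -/
lemma field_fiber {M : Type*} [Field M] [Fintype M] [DecidableEq M] (k : ℕ) {a : M}
    (ha : a ≠ 0) : ((univ.erase (0 : M)).filter fun x : M => x ^ k = a).card
      = if a ^ ((Fintype.card M - 1) / (Fintype.card M - 1).gcd k) = 1
        then (Fintype.card M - 1).gcd k else 0 := by
  classical
  have h := pow_fiber (G := Mˣ) k (Units.mk0 a ha)
  rw [Fintype.card_units] at h
  have h2 : (Units.mk0 a ha ^ ((Fintype.card M - 1) / (Fintype.card M - 1).gcd k) = 1) ↔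
      (a ^ ((Fintype.card M - 1) / (Fintype.card M - 1).gcd k) = 1) := by
    rw [← Units.val_inj]; simp
  simp only [h2] at h
  rw [← h]
  symm
  refine card_bij (fun x _ => (x : M)) ?_ ?_ ?_
  · intro x hx
    rw [mem_filter] at hx ⊢
    refine ⟨mem_erase.mpr ⟨x.ne_zero, mem_univ _⟩, ?_⟩
    rw [← Units.val_pow_eq_pow_val, hx.2]; rfl
  · intro x _ y _ hxy
    exact Units.ext hxy
  · intro y hy
    rw [mem_filter] at hy
    refine ⟨Units.mk0 y (ne_of_mem_erase hy.1), ?_, rfl⟩
    rw [mem_filter]
    refine ⟨mem_univ _, ?_⟩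
    ext
    simpa using hy.2

/-- number of roots of unity -/
lemma card_unity {M : Type*} [Field M] [Fintype M] [DecidableEq M] {b : ℕ} (hb0 : 0 < b)
    (hb : b ∣ Fintype.card M - 1) : (univ.filter fun x : M => x ^ b = 1).card = b := by
  have h := field_fiber (M := M) b (one_ne_zero)
  rw [one_pow, if_pos rfl, Nat.gcd_eq_right hb] at h
  refine Eq.trans ?_ h
  congr 1
  ext x
  simp only [mem_filter, mem_univ, true_and, mem_erase]
  constructor
  · intro hx
    refine ⟨⟨?_, trivial⟩, hx⟩
    rintro rfl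
    rw [zero_pow hb0.ne'] at hx
    exact zero_ne_one hx
  · exact fun hx => hx.2

lemma dvd_of_pow_eq {K : Type*} [Field K] [Fintype K] [DecidableEq K] {s : ℕ} (hs1 : 1 ≤ s)
    (hK : ∀ x : K, x ^ s = x) : Fintype.card K - 1 ∣ s - 1 := by
  have h : ∀ x : Kˣ, x ^ (s - 1) = 1 := by
    intro x
    have h1 : (x : K) ^ s = x := hK x
    have h2 : x ^ s = x := by
      ext; simpa using h1
    have h3 : x ^ (s - 1) * x = 1 * x := by
      rw [one_mul, ← pow_succ, Nat.sub_add_cancel hs1]; exact h2
    exact mul_right_cancel h3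
  rw [← Fintype.card_units, ← Nat.card_eq_fintype_card, ← IsCyclic.exponent_eq_card]
  exact Monoid.exponent_dvd_of_forall_pow_eq_one h

section

variable {p : ℕ} [Fact p.Prime] {K : Type*} [Field K] [Fintype K] [DecidableEq K]
  {M : Type*} [Field M] [Fintype M] [DecidableEq M] [Algebra (ZMod p) K] [Algebra (ZMod p) M]
  [Algebra K M] [IsScalarTower (ZMod p) K M] {s : ℕ}

lemma card_M (hKM : Module.finrank K M = 2) : Fintype.card M = Fintype.card K ^ 2 := by
  rw [Module.card_eq_pow_finrank (K := K) (V := M), hKM]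

/-- the count on elements of norm one -/
lemma kap_norm_one (hKM : Module.finrank K M = 2) (hs1 : 1 ≤ s)
    (hs : Nat.Coprime s (Fintype.card M - 1)) (hK : ∀ x : K, x ^ s = x) {a : M}
    (ha : a * cj K a = 1) :
    (kap K s a : ℤ) = ((univ.erase (0 : M)).filter fun x : M => x ^ (s - 1) = a).card
      + ((univ.erase (0 : M)).filter fun x : M => x ^ (s * Fintype.card K - 1) = a).card
      - (if a = 1 then (Fintype.card K : ℤ) - 1 else 0) := by
  classical
  have hs0 : s ≠ 0 := by omega
  have hN1 : 1 ≤ Fintype.card K := Fintype.card_pos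
  have hsN : 1 ≤ s * Fintype.card K := Nat.one_le_iff_ne_zero.mpr
    (mul_ne_zero hs0 (by omega))
  have ha0 : a ≠ 0 := left_ne_zero_of_mul_eq_one ha
  -- the two sets
  have hA : ((univ.erase (0 : M)).filter fun x : M => x ^ (s - 1) = a)
      = (univ.erase (0 : M)).filter fun x : M => x ^ s = a * x := by
    apply filter_congr
    intro x hx
    have hx0 : x ≠ 0 := ne_of_mem_erase hx
    rw [show x ^ s = x ^ (s - 1) * x by rw [← pow_succ, Nat.sub_add_cancel hs1]]
    exact ⟨fun h => by rw [h], fun h => mul_right_cancel₀ hx0 h⟩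
  have hB : ((univ.erase (0 : M)).filter fun x : M => x ^ (s * Fintype.card K - 1) = a)
      = (univ.erase (0 : M)).filter fun x : M => x ^ s = cj K (a * x) := by
    apply filter_congr
    intro x hx
    have hx0 : x ≠ 0 := ne_of_mem_erase hx
    have h1 : cj K (x ^ s) = x ^ (s * Fintype.card K - 1) * x := by
      rw [← pow_succ, Nat.sub_add_cancel hsN]
      unfold cj; rw [← pow_mul]
    constructor
    · intro h
      rw [← cj_cj hKM (x ^ s), h1, h]
    · intro h
      rw [h, cj_cj hKM] at h1
      exact (mul_right_cancel₀ hx0 h1).symm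
  have hunion : ((univ.erase (0 : M)).filter fun x => Algebra.trace K M (x ^ s - a * x) = 0)
      = (univ.erase (0 : M)).filter (fun x : M => x ^ s = a * x ∨ x ^ s = cj K (a * x)) := by
    apply filter_congr
    intro x _
    have hnfix : cj K (x * cj K x) = x * cj K x := by
      rw [cj_mul, cj_cj hKM]; ring
    obtain ⟨d, hd⟩ := exists_of_cj_eq hnfix
    have hprod : x ^ s * cj K (x ^ s) = x * cj K x := by
      rw [cj_pow, ← mul_pow, ← hd, ← map_pow, hK]
    have hprod2 : (a * x) * cj K (a * x) = x * cj K x := by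
      rw [cj_mul]; linear_combination (x * cj K x) * ha
    rw [trace_eq_iff hKM, map_zero, cj_sub]
    constructor
    · intro h
      have h2 : (x ^ s - a * x) * (x ^ s - cj K (a * x)) = 0 := by
        linear_combination x ^ s * h - hprod + hprod2
      rcases mul_eq_zero.mp h2 with h3 | h3
      · left; exact sub_eq_zero.mp h3
      · right; exact sub_eq_zero.mp h3
    · rintro (h | h)
      · rw [h]; ring
      · rw [h, cj_cj hKM]; ring
  have hinter : ((univ.erase (0 : M)).filter (fun x : M => x ^ s = a * x ∧ x ^ s = cj K (a * x))).card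
      = if a = 1 then Fintype.card K - 1 else 0 := by
    split_ifs with h1
    · have : (univ.erase (0 : K)).card = Fintype.card K - 1 := by
        rw [card_erase_of_mem (mem_univ _), card_univ]
      rw [← this]
      symm
      refine card_bij (fun x _ => algebraMap K M x) ?_ ?_ ?_
      · intro x hx
        rw [mem_filter, mem_erase]
        refine ⟨⟨?_, mem_univ _⟩, ?_, ?_⟩
        · rw [Ne, map_eq_zero]; exact ne_of_mem_erase hx
        · rw [h1, one_mul, ← map_pow, hK]
        · rw [h1, one_mul, cj_map, ← map_pow, hK]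
      · intro x _ y _ h; exact mapinj h
      · intro y hy
        rw [mem_filter, mem_erase] at hy
        obtain ⟨⟨hy0, _⟩, h2, h3⟩ := hy
        rw [h1, one_mul] at h2 h3
        have h4 : cj K y = y := by rw [← h3, h2]
        obtain ⟨x, rfl⟩ := exists_of_cj_eq h4
        refine ⟨x, ?_, rfl⟩
        rw [mem_erase]
        refine ⟨?_, mem_univ _⟩
        rintro rfl
        exact hy0 (map_zero _)
    · rw [card_eq_zero, filter_eq_empty_iff]
      rintro x hx ⟨h2, h3⟩
      have hx0 : x ≠ 0 := ne_of_mem_erase hx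
      apply h1
      have h4 : cj K (a * x) = a * x := by rw [← h3, h2]
      obtain ⟨k, hk⟩ := exists_of_cj_eq h4
      have h5 : (a * x) ^ s = a * x := by rw [← hk, ← map_pow, hK]
      rw [mul_pow, h2] at h5
      have h6 : a ^ s * (a * x) = 1 * (a * x) := by rw [h5, one_mul]
      have h7 := mul_right_cancel₀ (mul_ne_zero ha0 hx0) h6
      apply (pow_bijective hs0 hs).1
      simp only
      rw [h7, one_pow]
  have hcard : ((univ.erase (0 : M)).filter
      (fun x : M => x ^ s = a * x ∨ x ^ s = cj K (a * x))).card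
      + ((univ.erase (0 : M)).filter (fun x : M => x ^ s = a * x ∧ x ^ s = cj K (a * x))).card
      = ((univ.erase (0 : M)).filter fun x : M => x ^ s = a * x).card
        + ((univ.erase (0 : M)).filter fun x : M => x ^ s = cj K (a * x)).card := by
    rw [filter_or, filter_and]
    exact card_union_add_card_inter _ _
  unfold kap
  rw [hunion, hA, hB]
  rw [hinter] at hcard
  split_ifs at hcard ⊢ with h1
  · omega
  · omega

/-- the value of the spectrum of the quadratic extension on elements of norm one -/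
lemma norm_one_values (hp2 : p ≠ 2) (hsp : ∀ nu : ZMod p, nu ^ s = nu)
    (hKM : Module.finrank K M = 2) (hs1 : 1 ≤ s)
    (hs : Nat.Coprime s (Fintype.card M - 1)) (hK : ∀ x : K, x ^ s = x) {u : M → ℤ}
    (hu : ∀ a : M, w p M s a = Fintype.card K * u a) :
    ∃ go ge : ℕ, Odd go ∧ Even ge ∧ 0 < ge ∧ Nat.Coprime go ge ∧ go ∣ Fintype.card K + 1 ∧
      ge ∣ Fintype.card K + 1 ∧
      (∀ a : M, a ^ (Fintype.card K + 1) = 1 → u a + 1
        = (if a ^ ((Fintype.card K + 1) / go) = 1 then (go : ℤ) else 0)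
          + (if a ^ ((Fintype.card K + 1) / ge) = 1 then (ge : ℤ) else 0)
          - (if a = 1 then 1 else 0)) ∧
      ((∀ x : M, x ≠ 0 → (x ^ (s - 1)) ^ ((Fintype.card K + 1) / go) = 1) ∨
       (∀ x : M, x ≠ 0 → (x ^ (s * Fintype.card K - 1)) ^ ((Fintype.card K + 1) / go) = 1)) := by
  classical
  have hp : p.Prime := Fact.out
  have hs0 : s ≠ 0 := by omega
  set N := Fintype.card K with hN
  have hN2 : 2 ≤ N := Fintype.one_lt_card
  have hcM : Fintype.card M = N ^ 2 := card_M hKM
  have hNo : Odd N := by rw [hN, card_eq p K]; exact (hp.odd_of_ne_two hp2).pow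
  have hM1 : Fintype.card M - 1 = (N - 1) * (N + 1) := by
    rw [hcM]
    obtain ⟨r, hr⟩ : ∃ r, N = r + 1 := ⟨N - 1, by omega⟩
    rw [hr]
    have : (r + 1) ^ 2 = r * (r + 1 + 1) + 1 := by ring
    rw [this]; simp
  obtain ⟨c, hc⟩ := dvd_of_pow_eq hs1 hK
  rw [← hN] at hc
  have hc2 : s * N - 1 = (N - 1) * (c * N + 1) := by
    have h1 : s = (N - 1) * c + 1 := by omega
    rw [h1]
    obtain ⟨r, hr⟩ : ∃ r, N = r + 1 := ⟨N - 1, by omega⟩
    rw [hr]
    simp only [add_tsub_cancel_right]
    have : (r * c + 1) * (r + 1) = r * (c * (r + 1) + 1) + 1 := by ring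
    rw [this]; simp
  set g1 := (N + 1).gcd c with hg1
  set g2 := (N + 1).gcd (c * N + 1) with hg2
  have hN10 : 0 < N - 1 := by omega
  have hd1 : (Fintype.card M - 1).gcd (s - 1) = (N - 1) * g1 := by
    rw [hM1, hc, Nat.gcd_mul_left]
  have hd2 : (Fintype.card M - 1).gcd (s * N - 1) = (N - 1) * g2 := by
    rw [hM1, hc2, Nat.gcd_mul_left]
  have hg1d : g1 ∣ N + 1 := Nat.gcd_dvd_left _ _
  have hg2d : g2 ∣ N + 1 := Nat.gcd_dvd_left _ _
  have hg10 : 0 < g1 := Nat.gcd_pos_of_pos_left _ (by omega)
  have hg20 : 0 < g2 := Nat.gcd_pos_of_pos_left _ (by omega)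
  have hq : ∀ g : ℕ, 0 < g → g ∣ N + 1 → (Fintype.card M - 1) / ((N - 1) * g) = (N + 1) / g := by
    intro g hg hgd
    rw [hM1, Nat.mul_div_mul_left _ _ hN10]
  have hcop : Nat.Coprime g1 g2 := by
    have h1 : g1.gcd g2 ∣ c := (Nat.gcd_dvd_left _ _).trans (Nat.gcd_dvd_right _ _)
    have h2 : g1.gcd g2 ∣ c * N + 1 := (Nat.gcd_dvd_right _ _).trans (Nat.gcd_dvd_right _ _)
    have h3 : g1.gcd g2 ∣ 1 := (Nat.dvd_add_right (h1.mul_right N)).mp h2
    exact Nat.dvd_one.mp h3
  have hval : ∀ a : M, a ^ (N + 1) = 1 → u a + 1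
        = (if a ^ ((N + 1) / g1) = 1 then (g1 : ℤ) else 0)
          + (if a ^ ((N + 1) / g2) = 1 then (g2 : ℤ) else 0)
          - (if a = 1 then 1 else 0) := by
    intro a ha
    have ha0 : a ≠ 0 := by
      rintro rfl
      rw [zero_pow (by omega)] at ha
      exact zero_ne_one ha
    have ha2 : a * cj K a = 1 := by
      unfold cj; rw [← pow_succ']; exact ha
    have h1 := kap_norm_one (K := K) hKM hs1 hs hK ha2
    rw [← hN, field_fiber _ ha0, field_fiber _ ha0, hd1, hd2, hq g1 hg10 hg1d,
      hq g2 hg20 hg2d] at h1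
    have h2 := kap_eq (p := p) hsp hKM hs0 hK a
    rw [← hN, hu a, h1] at h2
    have hNz : (N : ℤ) ≠ 0 := by exact_mod_cast (by omega : N ≠ 0)
    have hN1z : (N : ℤ) - 1 ≠ 0 := by
      have : (2 : ℤ) ≤ N := by exact_mod_cast hN2
      omega
    apply mul_left_cancel₀ hN1z
    apply mul_left_cancel₀ hNz
    have h3 : (N : ℤ) * (((N : ℤ) - 1) * (u a + 1)) = ((N : ℤ) - 1) * (N * u a + N) := by ring
    rw [h3, h2]
    have e1 : (((N - 1) * g1 : ℕ) : ℤ) = ((N : ℤ) - 1) * g1 := by
      push_cast [Nat.cast_sub (by omega : 1 ≤ N)]; ring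
    have e2 : (((N - 1) * g2 : ℕ) : ℤ) = ((N : ℤ) - 1) * g2 := by
      push_cast [Nat.cast_sub (by omega : 1 ≤ N)]; ring
    by_cases c1 : a ^ ((N + 1) / g1) = 1
    · by_cases c2 : a ^ ((N + 1) / g2) = 1
      · by_cases c3 : a = 1
        · rw [if_pos c1, if_pos c2, if_pos c3, if_pos c1, if_pos c2, if_pos c3, e1, e2]; ring
        · rw [if_pos c1, if_pos c2, if_neg c3, if_pos c1, if_pos c2, if_neg c3, e1, e2]; ring
      · by_cases c3 : a = 1
        · exact absurd (by rw [c3, one_pow]) c2
        · rw [if_pos c1, if_neg c2, if_neg c3, if_pos c1, if_neg c2, if_neg c3, e1]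
          push_cast; ring
    · by_cases c2 : a ^ ((N + 1) / g2) = 1
      · by_cases c3 : a = 1
        · exact absurd (by rw [c3, one_pow]) c1
        · rw [if_neg c1, if_pos c2, if_neg c3, if_neg c1, if_pos c2, if_neg c3, e2]
          push_cast; ring
      · by_cases c3 : a = 1
        · exact absurd (by rw [c3, one_pow]) c1
        · rw [if_neg c1, if_neg c2, if_neg c3, if_neg c1, if_neg c2, if_neg c3]
          push_cast; ring
  have him1 : ∀ x : M, x ≠ 0 → (x ^ (s - 1)) ^ ((N + 1) / g1) = 1 := by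
    intro x hx
    rw [← pow_mul]
    obtain ⟨d, hd⟩ : g1 ∣ c := Nat.gcd_dvd_right _ _
    obtain ⟨e, he⟩ := hg1d
    have : (s - 1) * ((N + 1) / g1) = (Fintype.card M - 1) * d := by
      rw [hc, hM1, he, Nat.mul_div_cancel_left _ hg10, hd]; ring
    rw [this, pow_mul, FiniteField.pow_card_sub_one_eq_one x hx, one_pow]
  have him2 : ∀ x : M, x ≠ 0 → (x ^ (s * N - 1)) ^ ((N + 1) / g2) = 1 := by
    intro x hx
    rw [← pow_mul]
    obtain ⟨d, hd⟩ : g2 ∣ c * N + 1 := Nat.gcd_dvd_right _ _
    obtain ⟨e, he⟩ := hg2d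
    have : (s * N - 1) * ((N + 1) / g2) = (Fintype.card M - 1) * d := by
      rw [hc2, hM1, he, Nat.mul_div_cancel_left _ hg20, hd]; ring
    rw [this, pow_mul, FiniteField.pow_card_sub_one_eq_one x hx, one_pow]
  have hNe : (2 : ℕ) ∣ N + 1 := by
    obtain ⟨r, hr⟩ := hNo
    exact ⟨r + 1, by omega⟩
  rcases Nat.even_or_odd c with hce | hco
  · refine ⟨g2, g1, ?_, ?_, hg10, hcop.symm, hg2d, hg1d, ?_, Or.inr him2⟩
    · have : Odd (c * N + 1) := (hce.mul_right N).add_one
      rcases Nat.even_or_odd g2 with h | h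
      · exfalso
        have h3 : 2 ∣ c * N + 1 := h.two_dvd.trans (Nat.gcd_dvd_right _ _)
        obtain ⟨y, hy⟩ := this
        omega
      · exact h
    · rw [even_iff_two_dvd]
      exact Nat.dvd_gcd hNe hce.two_dvd
    · intro a ha
      rw [hval a ha]; ring
  · refine ⟨g1, g2, ?_, ?_, hg20, hcop, hg1d, hg2d, hval, Or.inl him1⟩
    · rcases Nat.even_or_odd g1 with h | h
      · exfalso
        have h3 : 2 ∣ c := h.two_dvd.trans (Nat.gcd_dvd_right _ _)
        obtain ⟨y, hy⟩ := hco
        omega
      · exact h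
    · rw [even_iff_two_dvd]
      refine Nat.dvd_gcd hNe ?_
      exact (hco.mul hNo).add_one.two_dvd

end

end Hel
end
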